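import Pool.Agent.H5Sym.Defs

/-!
# Circuits with arbitrary symmetric gates, their automorphisms, and the core lemma

A circuit has inputs indexed by `T` with values in an arbitrary set `D`; every inner gate computes an
arbitrary function of the multiset of the labelled values on its incoming wires.
-/

set_option autoImplicit false

namespace Pool.Agent.H5Sym

universe u v w

namespace Circuit

variable {T : Type u} {D : Type v} (C : Circuit.{u, v, w} T D)

theorem eval_some {x : T → D} {g : C.Gate} {t : T} (h : C.input g = some t) : C.eval x g = x t := by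
  rw [eval]
  simp [h]

theorem eval_none {x : T → D} {g : C.Gate} (h : C.input g = none) :
    C.eval x g = C.op g ((C.wires g).map fun e => (e.1, C.eval x e.2)) := by
  rw [eval]
  simp only [h]
  congr 1
  exact Multiset.attach_map_val' (C.wires g) fun e => (e.1, C.eval x e.2)

variable {C}

theorem IsAut.one : C.IsAut 1 1 where
  input g := by simp
  wires g := by
    have : (Prod.map id (1 : Equiv.Perm C.Gate) : ℕ × C.Gate → ℕ × C.Gate) = id := by
      ext ⟨a, b⟩ <;> rfl
    rw [this, Multiset.map_id]; rfl
  op g := rfl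
  out := rfl

theorem IsAut.mul {τ τ' : Equiv.Perm T} {π π' : Equiv.Perm C.Gate} (h : C.IsAut τ π)
    (h' : C.IsAut τ' π') : C.IsAut (τ * τ') (π * π') where
  input g := by
    rw [Equiv.Perm.mul_apply, h.input, h'.input, Option.map_map]
    rfl
  wires g := by
    rw [Equiv.Perm.mul_apply, h.wires, h'.wires, Multiset.map_map]
    rfl
  op g := by rw [Equiv.Perm.mul_apply, h.op, h'.op]
  out := by rw [Equiv.Perm.mul_apply, h'.out, h.out]

theorem IsAut.inv {τ : Equiv.Perm T} {π : Equiv.Perm C.Gate} (h : C.IsAut τ π) :
    C.IsAut τ⁻¹ π⁻¹ where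
  input g := by
    have h1 := h.input (π⁻¹ g)
    rw [show π (π⁻¹ g) = g from π.apply_symm_apply g] at h1
    rw [h1, Option.map_map]
    have : (τ⁻¹ : Equiv.Perm T) ∘ τ = id := by ext t; simp
    rw [this, Option.map_id]; rfl
  wires g := by
    have h1 := h.wires (π⁻¹ g)
    rw [show π (π⁻¹ g) = g from π.apply_symm_apply g] at h1
    rw [h1, Multiset.map_map]
    have : (Prod.map id (π⁻¹ : Equiv.Perm C.Gate)) ∘ (Prod.map id π : ℕ × C.Gate → ℕ × C.Gate) = id := by
      ext ⟨a, b⟩ <;> simp
    rw [this, Multiset.map_id]
  op g := by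
    have h1 := h.op (π⁻¹ g)
    rw [show π (π⁻¹ g) = g from π.apply_symm_apply g] at h1
    exact h1.symm
  out := by
    rw [Equiv.Perm.inv_eq_iff_eq]; exact h.out.symm

/-- automorphisms transport values -/
theorem IsAut.eval {τ : Equiv.Perm T} {π : Equiv.Perm C.Gate} (h : C.IsAut τ π) {x y : T → D}
    (hxy : ∀ t, y (τ t) = x t) : ∀ g, C.eval y (π g) = C.eval x g := by
  suffices H : ∀ n, ∀ g, C.level g = n → C.eval y (π g) = C.eval x g from fun g => H _ g rfl
  intro n
  induction n using Nat.strong_induction_on with
  | _ n ih =>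
    intro g hg
    rcases hi : C.input g with _ | t
    · rw [C.eval_none hi, C.eval_none (by rw [h.input, hi]; rfl), h.op, h.wires, Multiset.map_map]
      congr 1
      refine Multiset.map_congr rfl fun e he => ?_
      have hl := C.level_lt g e he
      simp only [Function.comp, Prod.map, id]
      rw [ih _ (hg ▸ hl) e.2 rfl]
    · rw [C.eval_some hi, C.eval_some (t := τ t) (by rw [h.input, hi]; rfl), hxy]

end Circuit

end Pool.Agent.H5Sym
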