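import Pool.Agent.H5Sym.Orbit

/-!
# Words with a given parity vector

`walk k v` is the number of words of length `k` over the alphabet `Fin P` in which the letter `i`
occurs with parity `v i`.
-/

set_option autoImplicit false

namespace Pool.Agent.H5Sym

open Module

variable {P : ℕ}

/-- the unit vectors -/
def unit (i : Fin P) : Fin P → F2 := Pi.single i 1

theorem unit_self (i : Fin P) : unit i i = 1 := Pi.single_eq_same _ _

theorem unit_ne {i j : Fin P} (h : j ≠ i) : unit i j = 0 := Pi.single_eq_of_ne h _

/-- the number of words of length `k` with the parities `v` -/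
def walk : ℕ → (Fin P → F2) → ℕ
  | 0, v => if v = 0 then 1 else 0
  | k + 1, v => ∑ i, walk k (v + unit i)

theorem walk_step (k : ℕ) (v : Fin P → F2) (i : Fin P) (hi : v i = 1) :
    walk (k + 1) v ≤ (k + 1) * walk k (v + unit i) := by
  induction k generalizing v with
  | zero =>
    rw [walk, zero_add, one_mul]
    refine (Finset.sum_eq_single i (fun j _ hj => ?_) fun h => absurd (Finset.mem_univ i) h).le
    rw [walk, if_neg]
    intro h
    have := congrFun h i
    rw [Pi.add_apply, hi, unit_ne hj.symm, add_zero, Pi.zero_apply] at this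
    exact one_ne_zero this
  | succ k ih =>
    rw [walk, ← Finset.add_sum_erase _ _ (Finset.mem_univ i)]
    have h1 : ∑ j ∈ Finset.univ.erase i, walk (k + 1) (v + unit j) ≤
        ∑ j ∈ Finset.univ.erase i, (k + 1) * walk k (v + unit i + unit j) := by
      refine Finset.sum_le_sum fun j hj => ?_
      have hj' := Finset.ne_of_mem_erase hj
      have := ih (v + unit j) (by rw [Pi.add_apply, hi, unit_ne hj'.symm, add_zero])
      rwa [add_right_comm] at this
    have h2 : ∑ j ∈ Finset.univ.erase i, (k + 1) * walk k (v + unit i + unit j) ≤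
        (k + 1) * walk (k + 1) (v + unit i) := by
      rw [walk, Finset.mul_sum]
      exact Finset.sum_le_sum_of_subset (Finset.erase_subset _ _)
    calc _ ≤ walk (k + 1) (v + unit i) + (k + 1) * walk (k + 1) (v + unit i) :=
          Nat.add_le_add_left (h1.trans h2) _
      _ = _ := by ring

theorem walk_even (k : ℕ) : walk (2 * k) (0 : Fin P → F2) ≤ 2 ^ k * k.factorial * P ^ k := by
  induction k with
  | zero => simp [walk]
  | succ k ih =>
    have h0 : 2 * (k + 1) = (2 * k + 1) + 1 := by ring
    rw [h0, walk]
    have h1 : ∀ i : Fin P, walk (2 * k + 1) (0 + unit i) ≤ (2 * k + 1) * walk (2 * k) (0 : Fin P → F2) := by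
      intro i
      have := walk_step (2 * k) (0 + unit i) i (by rw [zero_add, unit_self])
      rwa [add_assoc, add_self_mod, add_zero] at this
    calc ∑ i : Fin P, walk (2 * k + 1) (0 + unit i)
        ≤ ∑ _i : Fin P, (2 * k + 1) * walk (2 * k) (0 : Fin P → F2) := Finset.sum_le_sum fun i _ => h1 i
      _ = P * ((2 * k + 1) * walk (2 * k) (0 : Fin P → F2)) := by simp
      _ ≤ P * ((2 * (k + 1)) * (2 ^ k * k.factorial * P ^ k)) := by gcongr; omega
      _ = _ := by rw [Nat.factorial_succ]; ring

theorem walk_add (j k : ℕ) (v : Fin P → F2) : walk (j + k) v = ∑ u, walk j u * walk k (u + v) := by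
  induction j generalizing v with
  | zero =>
    rw [zero_add, Finset.sum_eq_single 0]
    · simp [walk]
    · intro u _ hu; simp [walk, hu]
    · intro h; exact absurd (Finset.mem_univ _) h
  | succ j ih =>
    have h0 : j + 1 + k = (j + k) + 1 := by ring
    rw [h0, walk]
    simp only [ih]
    have h1 : ∀ u : Fin P → F2, walk (j + 1) u * walk k (u + v) =
        ∑ i, walk j (u + unit i) * walk k (u + v) := fun u => by rw [walk, Finset.sum_mul]
    simp only [h1]
    rw [Finset.sum_comm (s := (Finset.univ : Finset (Fin P → F2)))]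
    refine Finset.sum_congr rfl fun i _ => ?_
    refine Fintype.sum_equiv (Equiv.addRight (unit i)) _ _ fun u => ?_
    simp only [Equiv.coe_addRight]
    rw [add_assoc u (unit i) (unit i), add_self_mod, add_zero, add_assoc u, add_comm (unit i) v]

theorem walk_sq (k : ℕ) (v : Fin P → F2) : walk k v ^ 2 ≤ 2 ^ k * k.factorial * P ^ k := by
  refine le_trans ?_ (walk_even k)
  rw [two_mul, walk_add, sq]
  refine le_trans (le_of_eq ?_) (Finset.single_le_sum (f := fun u : Fin P → F2 =>
    walk k u * walk k (u + 0)) (fun _ _ => Nat.zero_le _) (Finset.mem_univ v))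
  simp

/-- the words of length `k` -/
theorem walk_card (k : ℕ) (v : Fin P → F2) :
    Fintype.card {g : Fin k → Fin P // ∑ a, unit (g a) = v} = walk k v := by
  induction k generalizing v with
  | zero =>
    rw [walk]
    by_cases h : v = 0
    · rw [if_pos h, Fintype.card_eq_one_iff]
      refine ⟨⟨fun a => a.elim0, by simp [h]⟩, fun y => Subtype.ext (funext fun a => a.elim0)⟩
    · rw [if_neg h, Fintype.card_eq_zero_iff]
      exact ⟨fun y => h (by have := y.2; simpa using this.symm)⟩
  | succ k ih =>
    rw [walk]
    simp only [← ih]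
    rw [← Fintype.card_sigma]
    refine Fintype.card_congr ?_
    refine ⟨fun g => ⟨g.1 0, fun a => g.1 a.succ, ?_⟩, fun p => ⟨Fin.cons p.1 p.2.1, ?_⟩, ?_, ?_⟩
    · have h := g.2
      rw [Fin.sum_univ_succ] at h
      have h2 := congrArg (fun x => x + unit (g.1 0)) h
      rw [← h2, add_comm (unit (g.1 0)), add_assoc, add_self_mod, add_zero]
    · rw [Fin.sum_univ_succ, Fin.cons_zero]
      simp only [Fin.cons_succ]
      rw [p.2.2, add_comm v, ← add_assoc, add_self_mod, zero_add]
    · intro g
      exact Subtype.ext (Fin.cons_self_tail g.1)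
    · rintro ⟨i, g, hg⟩
      rfl

/-- functions with given parities on a set -/
theorem walk_card_set {m : ℕ} (S : Finset (Fin m)) (v : Fin P → F2) :
    (Finset.univ.filter fun f : Fin m → Fin P => ∑ j ∈ S, unit (f j) = v).card =
      walk S.card v * P ^ (m - S.card) := by
  classical
  rw [← walk_card, ← Fintype.card_subtype]
  have h1 : Fintype.card ({j // j ∉ S} → Fin P) = P ^ (m - S.card) := by
    rw [Fintype.card_fun, Fintype.card_fin, Fintype.card_subtype_compl, Fintype.card_fin,
      Fintype.card_coe]
  rw [← h1, ← Fintype.card_prod]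
  let e : Fin S.card ≃ {j // j ∈ S} := S.equivFin.symm
  refine Fintype.card_congr ?_
  refine (((Equiv.piEquivPiSubtypeProd (fun j => j ∈ S) fun _ => Fin P).trans
    (Equiv.prodCongr (Equiv.arrowCongr e.symm (Equiv.refl _)) (Equiv.refl _))).subtypeEquiv
      (q := fun s => ∑ a, unit (s.1 a) = v) fun f => ?_).trans
    (Equiv.prodSubtypeFstEquivSubtypeProd (p := fun g : Fin S.card → Fin P => ∑ a, unit (g a) = v))
  have h2 : ∑ j ∈ S, unit (f j) = ∑ a : Fin S.card, unit (f (e a)) := by
    rw [← Finset.sum_coe_sort]
    exact (Equiv.sum_comp e fun j => unit (f j.1)).symm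
  rw [h2]
  rfl

end Pool.Agent.H5Sym
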