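import Pool.Agent.H5Sym.Core

/-!
# Information sets of linear codes
-/

set_option autoImplicit false

namespace Pool.Agent.H5Sym

open Module

/-- every subspace of dimension `d` projects onto `d` suitable coordinates -/
theorem exists_info {V : Type*} [Finite V] (U : Submodule F2 (V → F2)) :
    ∃ ι : Fin (finrank F2 U) ↪ V, ∀ y : Fin (finrank F2 U) → F2, ∃ u ∈ U, ∀ k, u (ι k) = y k := by
  classical
  have : Finite (V → F2) := Pi.finite
  have : Finite U := Subtype.finite
  have : FiniteDimensional F2 U := Module.Finite.of_finite
  have : Finite (Dual F2 U) := Finite.of_injective (fun q : Dual F2 U => (q : U → F2))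
    DFunLike.coe_injective
  let φ : V → Dual F2 U := fun i => (LinearMap.proj i).comp U.subtype
  obtain ⟨b, hb1, hb2, hb3⟩ := exists_linearIndependent F2 (Set.range φ)
  have htop : Submodule.span F2 (Set.range φ) = ⊤ := by
    rw [← Subspace.dualCoannihilator_dualAnnihilator_eq (W := Submodule.span F2 (Set.range φ))]
    have : (Submodule.span F2 (Set.range φ)).dualCoannihilator = ⊥ := by
      rw [eq_bot_iff]
      intro u hu
      rw [Submodule.mem_dualCoannihilator] at hu
      rw [Submodule.mem_bot]
      refine Subtype.ext (funext fun i => ?_)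
      exact hu (φ i) (Submodule.subset_span ⟨i, rfl⟩)
    rw [this, Submodule.dualAnnihilator_bot]
  have : Finite b := Subtype.finite
  have : Fintype b := Fintype.ofFinite b
  rw [htop] at hb2
  have hcard : Fintype.card b = finrank F2 U := by
    let B : Basis b F2 (Dual F2 U) := Basis.mk hb3 (by rw [Subtype.range_coe, hb2])
    rw [← Subspace.dual_finrank_eq, finrank_eq_card_basis B]
  let T : U →ₗ[F2] (b → F2) := LinearMap.pi fun φ => φ.1
  have hT : Function.Injective T := by
    rw [← LinearMap.ker_eq_bot, eq_bot_iff]
    intro u hu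
    rw [LinearMap.mem_ker] at hu
    have h1 : u ∈ (Submodule.span F2 b).dualCoannihilator := by
      rw [Submodule.mem_dualCoannihilator]
      intro ψ hψ
      induction hψ using Submodule.span_induction with
      | mem ψ h => exact congrFun hu ⟨ψ, h⟩
      | zero => rfl
      | add ψ ψ' _ _ h h' => rw [LinearMap.add_apply, h, h', add_zero]
      | smul c ψ _ h => rw [LinearMap.smul_apply, h, smul_zero]
    rw [hb2] at h1
    rw [Submodule.mem_dualCoannihilator] at h1
    rw [Submodule.mem_bot]
    refine Subtype.ext (funext fun i => ?_)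
    exact h1 (φ i) trivial
  have hTs : Function.Surjective T := by
    rw [← LinearMap.injective_iff_surjective_of_finrank_eq_finrank]
    · exact hT
    · rw [finrank_fintype_fun_eq_card, hcard]
  choose g hg using fun x : b => hb1 x.2
  have hginj : Function.Injective g := by
    intro x y hxy
    refine Subtype.ext ?_
    rw [← hg x, ← hg y, hxy]
  let e : Fin (finrank F2 U) ≃ b := (Fintype.equivFinOfCardEq hcard).symm
  refine ⟨⟨fun k => g (e k), hginj.comp e.injective⟩, fun y => ?_⟩
  obtain ⟨u, hu⟩ := hTs fun x => y (e.symm x)
  refine ⟨u.1, u.2, fun k => ?_⟩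
  have h1 := congrFun hu (e k)
  have h2 : (e k).1 u = u.1 (g (e k)) := by
    rw [← hg (e k)]; rfl
  rw [Equiv.symm_apply_apply] at h1
  exact h2.symm.trans h1

end Pool.Agent.H5Sym
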