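import Mathlib

/-!
# The OR gate: definition
-/

set_option autoImplicit false

namespace Pool.Agent.H5Sym

/-- the OR gate: is one of the labelled values true? -/
def orGate (M : Multiset (ℕ × Bool)) : Bool := decide (true ∈ M.map Prod.snd)

end Pool.Agent.H5Sym
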