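import Pool.Agent.H5Sym.Basic
import Pool.Agent.H5Sym.OrGate

/-!
# Making a circuit invariant under a small group
-/

set_option autoImplicit false

namespace Pool.Agent.H5Sym

universe u w

variable {T : Type u} {G : Type} [AddGroup G] [Fintype G]

/-- the disjunction of the translates of a circuit -/
def sym (C : Circuit.{u, 0, w} T Bool) (ρ : G → Equiv.Perm T) : Circuit.{u, 0, w} T Bool where
  Gate := Option (G × C.Gate)
  input := fun g => match g with
    | some p => (C.input p.2).map (ρ p.1)
    | none => none
  wires := fun g => match g with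
    | some p => (C.wires p.2).map fun e => (e.1, some (p.1, e.2))
    | none => (Finset.univ : Finset G).val.map fun u => (0, some (u, C.out))
  op := fun g => match g with
    | some p => C.op p.2
    | none => orGate
  level := fun g => match g with
    | some p => C.level p.2
    | none => C.level C.out + 1
  level_lt := by
    rintro (_ | p) e he
    · simp only [Multiset.mem_map] at he
      obtain ⟨u, -, rfl⟩ := he
      exact Nat.lt_succ_self _
    · simp only [Multiset.mem_map] at he
      obtain ⟨e', he', rfl⟩ := he
      exact C.level_lt _ e' he'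
  out := none

theorem sym_inv (C : Circuit.{u, 0, w} T Bool) (ρ : G → Equiv.Perm T)
    (hρ : ∀ u v, ρ (u + v) = ρ u * ρ v) (v : G) : (sym C ρ).Invariant (ρ v) := by
  refine ⟨Equiv.optionCongr (Equiv.prodCongr (Equiv.addLeft v) (Equiv.refl _)), ?_, ?_, ?_, ?_⟩
  · rintro (_ | ⟨u, g⟩)
    · rfl
    · change (C.input g).map (ρ (v + u)) = ((C.input g).map (ρ u)).map (ρ v)
      rw [hρ, Option.map_map]
      rfl
  · rintro (_ | ⟨u, g⟩)
    · change (Finset.univ : Finset G).val.map (fun u => ((0 : ℕ), some (u, C.out))) =
        ((Finset.univ : Finset G).val.map (fun u => ((0 : ℕ), some (u, C.out)))).map _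
      rw [Multiset.map_map]
      have h1 : (Finset.univ : Finset G) = Finset.univ.map (Equiv.addLeft v).toEmbedding := by
        rw [Finset.map_univ_equiv]
      conv_lhs => rw [h1, Finset.map_val, Multiset.map_map]
      rfl
    · change (C.wires g).map (fun e => (e.1, some (v + u, e.2))) =
        ((C.wires g).map (fun e => (e.1, some (u, e.2)))).map _
      rw [Multiset.map_map]
      rfl
  · rintro (_ | ⟨u, g⟩) <;> rfl
  · rfl

omit [AddGroup G] in
theorem sym_eval_some (C : Circuit.{u, 0, w} T Bool) (ρ : G → Equiv.Perm T) (x : T → Bool) (u : G) :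
    ∀ g, (sym C ρ).eval x (some (u, g)) = C.eval (x ∘ ρ u) g := by
  suffices H : ∀ n, ∀ g, C.level g = n → (sym C ρ).eval x (some (u, g)) = C.eval (x ∘ ρ u) g from
    fun g => H _ g rfl
  intro n
  induction n using Nat.strong_induction_on with
  | _ n ih =>
    intro g hg
    rcases hi : C.input g with _ | t
    · have h1 : (sym C ρ).input (some (u, g)) = none := by
        change (C.input g).map (ρ u) = none
        rw [hi]; rfl
      rw [C.eval_none hi, (sym C ρ).eval_none h1]
      change C.op g (((C.wires g).map fun e => (e.1, (some (u, e.2) : Option (G × C.Gate)))).map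
        fun e => (e.1, (sym C ρ).eval x e.2)) = _
      rw [Multiset.map_map]
      congr 1
      refine Multiset.map_congr rfl fun e he => ?_
      simp only [Function.comp]
      rw [ih _ (hg ▸ C.level_lt g e he) e.2 rfl]
    · have h1 : (sym C ρ).input (some (u, g)) = some (ρ u t) := by
        change (C.input g).map (ρ u) = some (ρ u t)
        rw [hi]; rfl
      rw [C.eval_some hi, (sym C ρ).eval_some h1]
      rfl

omit [AddGroup G] in
theorem sym_eval (C : Circuit.{u, 0, w} T Bool) (ρ : G → Equiv.Perm T) (x : T → Bool) :
    (sym C ρ).eval x (sym C ρ).out = true ↔ ∃ u, C.eval (x ∘ ρ u) C.out = true := by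
  have h1 : (sym C ρ).input none = none := rfl
  have h2 := (sym C ρ).eval_none (x := x) h1
  change (sym C ρ).eval x none = true ↔ _
  rw [h2]
  change orGate (((Finset.univ : Finset G).val.map
    fun u => ((0 : ℕ), (some (u, C.out) : Option (G × C.Gate)))).map
      fun e => (e.1, (sym C ρ).eval x e.2)) = true ↔ _
  rw [orGate, decide_eq_true_eq, Multiset.map_map, Multiset.map_map]
  simp only [Multiset.mem_map, Finset.mem_val, Finset.mem_univ, true_and, Function.comp,
    sym_eval_some]

omit [AddGroup G] in
theorem sym_card (C : Circuit.{u, 0, w} T Bool) [Finite C.Gate] (ρ : G → Equiv.Perm T) :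
    Nat.card (sym C ρ).Gate = Nat.card G * Nat.card C.Gate + 1 := by
  change Nat.card (Option (G × C.Gate)) = _
  rw [Finite.card_option, Nat.card_prod]

end Pool.Agent.H5Sym
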