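import Pool.Agent.H5Sym.PermMat

/-!
# The permanent and symmetric circuits
-/

set_option autoImplicit false

namespace Pool.Agent.H5Sym

open Equiv

universe u w

theorem pow_le_choose36 (κ : ℕ) : ∀ n, 36 * κ ≤ n → 36 ^ κ ≤ n.choose κ := by
  induction κ with
  | zero => intro n _; simp
  | succ κ ih =>
    intro n hn
    obtain ⟨m, rfl⟩ : ∃ m, n = m + 1 := ⟨n - 1, by omega⟩
    have h1 := ih m (by omega)
    have h2 := Nat.add_one_mul_choose_eq m κ
    have h3 : (κ + 1) * 36 ^ (κ + 1) ≤ (κ + 1) * (m + 1).choose (κ + 1) := by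
      calc (κ + 1) * 36 ^ (κ + 1) = (36 * (κ + 1)) * 36 ^ κ := by ring
        _ ≤ (m + 1) * m.choose κ := Nat.mul_le_mul hn h1
        _ = (κ + 1) * (m + 1).choose (κ + 1) := by rw [h2]; ring
    exact Nat.le_of_mul_le_mul_left h3 (Nat.succ_pos κ)

theorem hρ_pair {β X : Type} (e : β × K4 ↪ X) (u v : β → K4) :
    pairPerm ((blockShift (u + v)).viaEmbedding e) =
      pairPerm ((blockShift u).viaEmbedding e) * pairPerm ((blockShift v).viaEmbedding e) := by
  rw [blockShift_add, ← pairPerm_mul]
  congr 1
  exact map_mul (Perm.viaEmbeddingHom e) (blockShift u) (blockShift v)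

theorem lowerPer {β X : Type} [Finite X] (e : β × K4 ↪ X) {D : Type u}
    (C : Circuit.{0, u, w} (X × X) D) [Finite C.Gate] (inp : Bool → D) (dec : D → ℕ)
    (hinv : ∀ v : β → K4, C.Invariant (pairPerm ((blockShift v).viaEmbedding e)))
    (hC : ∀ x, SymmetricSix x →
      dec (C.eval (inp ∘ x) C.out) = per fun t => if x t then (1 : ℕ) else 0) :
    36 ^ (Nat.card β / 216) ≤ Nat.card C.Gate * (Nat.card β + 1) ^ 9 := by
  classical
  have : Finite (β × K4) := Finite.of_injective e e.injective
  have : Finite β := Finite.of_surjective (Prod.fst : β × K4 → β) Prod.fst_surjective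
  have : Fintype β := Fintype.ofFinite β
  by_contra hcon
  push Not at hcon
  set B := Nat.card β with hB
  have hs : 0 < Nat.card C.Gate := Nat.card_pos_iff.2 ⟨⟨C.out⟩, inferInstance⟩
  rcases Nat.eq_zero_or_pos (B / 216) with h0 | hκ
  · rw [h0, pow_zero] at hcon
    have : 0 < Nat.card C.Gate * (B + 1) ^ 9 := Nat.mul_pos hs (pow_pos (Nat.succ_pos _) 9)
    omega
  · have hQ : 36 * (B / 216) ≤ B / 6 := by omega
    obtain ⟨ι⟩ : Nonempty (Bool × Vx (B / 6) ↪ β) := by
      refine Function.Embedding.nonempty_of_card_le ?_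
      rw [Fintype.card_prod, Fintype.card_bool, Fintype.card_prod, Fintype.card_fin,
        Fintype.card_fin, ← Nat.card_eq_fintype_card, ← hB]
      omega
    have hlt : Nat.card C.Gate * (18 * (B / 216)) ^ 9 < (B / 6).choose (B / 216) := by
      refine lt_of_le_of_lt ?_ (hcon.trans_le (pow_le_choose36 _ _ hQ))
      exact Nat.mul_le_mul_left _ (Nat.pow_le_pow_left (by omega) 9)
    obtain ⟨τ, d, hd, h⟩ := fooling9 C (fun v => pairPerm ((blockShift v).viaEmbedding e))
      (hρ_pair e) hinv hκ hQ ι hlt
    have h1 := h (fun w => inp ∘ pmat e ι (sig τ) w)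
      (fun w v t => congrArg inp (pmat_shift e ι (sig τ) w v t))
      (fun t w d hd => congrArg inp (pmat_base e ι (sig τ) t w d hd)) 0
    rw [zero_add] at h1
    have h2 := congrArg dec h1
    rw [hC _ (symmetricSix_pmat e ι (sig τ) _), hC _ (symmetricSix_pmat e ι (sig τ) _),
      per_pmat, per_pmat] at h2
    have h3 := numPM_lt (sig τ) (fun c c' i h => sig_simple τ h) d hd
    exact absurd h2 (Nat.pow_lt_pow_left h3 two_ne_zero).ne

section arith

variable {T : Type} {G : Type} [AddGroup G] [Fintype G]

/-- the gates of the averaged circuit -/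
inductive AGate (α : Type) : Type
  | copy (a : α)
  | sum
  | const
  | prod

/-- the gates as a sum type -/
def agateEquiv (α : Type) : AGate α ≃ α ⊕ Fin 3 where
  toFun g := match g with
    | .copy a => Sum.inl a
    | .sum => Sum.inr 0
    | .const => Sum.inr 1
    | .prod => Sum.inr 2
  invFun s := match s with
    | Sum.inl a => .copy a
    | Sum.inr 0 => .sum
    | Sum.inr 1 => .const
    | Sum.inr 2 => .prod
  left_inv g := by rcases g with a | _ | _ | _ <;> rfl
  right_inv s := by
    rcases s with a | i
    · rfl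
    · fin_cases i <;> rfl

/-- the average of the translates of a circuit -/
noncomputable def avg (C : Circuit.{0, 0, 0} T ℂ) (ρ : G → Perm T) : Circuit.{0, 0, 0} T ℂ where
  Gate := AGate (G × C.Gate)
  input := fun g => match g with
    | .copy p => (C.input p.2).map (ρ p.1)
    | _ => none
  wires := fun g => match g with
    | .copy p => (C.wires p.2).map fun e => (e.1, .copy (p.1, e.2))
    | .sum => (Finset.univ : Finset G).val.map fun u => (0, .copy (u, C.out))
    | .const => 0
    | .prod => {(0, .sum), (0, .const)}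
  op := fun g => match g with
    | .copy p => C.op p.2
    | .sum => sumGate
    | .const => fun _ => (Nat.card G : ℂ)⁻¹
    | .prod => prodGate
  level := fun g => match g with
    | .copy p => C.level p.2
    | .sum => C.level C.out + 1
    | .const => 0
    | .prod => C.level C.out + 2
  level_lt := by
    rintro (p | _ | _ | _) e he
    · simp only [Multiset.mem_map] at he
      obtain ⟨e', he', rfl⟩ := he
      exact C.level_lt _ e' he'
    · simp only [Multiset.mem_map] at he
      obtain ⟨u, -, rfl⟩ := he
      exact Nat.lt_succ_self _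
    · simp at he
    · simp only [Multiset.insert_eq_cons, Multiset.mem_cons, Multiset.mem_singleton] at he
      rcases he with rfl | rfl
      · exact Nat.lt_succ_self _
      · exact Nat.succ_pos _
  out := .prod

theorem avg_inv (C : Circuit.{0, 0, 0} T ℂ) (ρ : G → Perm T)
    (hρ : ∀ u v, ρ (u + v) = ρ u * ρ v) (v : G) : (avg C ρ).Invariant (ρ v) := by
  refine ⟨⟨fun g => match g with
      | .copy p => .copy (v + p.1, p.2)
      | .sum => .sum
      | .const => .const
      | .prod => .prod, fun g => match g with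
      | .copy p => .copy (-v + p.1, p.2)
      | .sum => .sum
      | .const => .const
      | .prod => .prod, ?_, ?_⟩, ?_, ?_, ?_, ?_⟩
  · rintro (⟨u, g⟩ | _ | _ | _)
    · simp
    all_goals rfl
  · rintro (⟨u, g⟩ | _ | _ | _)
    · simp
    all_goals rfl
  · rintro (⟨u, g⟩ | _ | _ | _)
    · change (C.input g).map (ρ (v + u)) = ((C.input g).map (ρ u)).map (ρ v)
      rw [hρ, Option.map_map]
      rfl
    all_goals rfl
  · rintro (⟨u, g⟩ | _ | _ | _)
    · change (C.wires g).map (fun e => (e.1, (AGate.copy (v + u, e.2) : AGate (G × C.Gate)))) =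
        ((C.wires g).map (fun e => (e.1, (AGate.copy (u, e.2) : AGate (G × C.Gate))))).map _
      rw [Multiset.map_map]
      rfl
    · change (Finset.univ : Finset G).val.map
          (fun u => ((0 : ℕ), (AGate.copy (u, C.out) : AGate (G × C.Gate)))) =
        ((Finset.univ : Finset G).val.map
          (fun u => ((0 : ℕ), (AGate.copy (u, C.out) : AGate (G × C.Gate))))).map _
      rw [Multiset.map_map]
      have h1 : (Finset.univ : Finset G) = Finset.univ.map (Equiv.addLeft v).toEmbedding := by
        rw [Finset.map_univ_equiv]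
      conv_lhs => rw [h1, Finset.map_val, Multiset.map_map]
      rfl
    · rfl
    · rfl
  · rintro (⟨u, g⟩ | _ | _ | _) <;> rfl
  · rfl

omit [AddGroup G] in
theorem avg_eval_copy (C : Circuit.{0, 0, 0} T ℂ) (ρ : G → Perm T) (x : T → ℂ) (u : G) :
    ∀ g, (avg C ρ).eval x (AGate.copy (u, g)) = C.eval (x ∘ ρ u) g := by
  suffices H : ∀ n, ∀ g, C.level g = n → (avg C ρ).eval x (AGate.copy (u, g)) =
      C.eval (x ∘ ρ u) g from fun g => H _ g rfl
  intro n
  induction n using Nat.strong_induction_on with
  | _ n ih =>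
    intro g hg
    rcases hi : C.input g with _ | t
    · have h1 : (avg C ρ).input (AGate.copy (u, g)) = none := by
        change (C.input g).map (ρ u) = none
        rw [hi]; rfl
      rw [C.eval_none hi, (avg C ρ).eval_none h1]
      change C.op g (((C.wires g).map fun e => (e.1, (AGate.copy (u, e.2) : AGate (G × C.Gate)))).map
        fun e => (e.1, (avg C ρ).eval x e.2)) = _
      rw [Multiset.map_map]
      congr 1
      refine Multiset.map_congr rfl fun e he => ?_
      simp only [Function.comp]
      rw [ih _ (hg ▸ C.level_lt g e he) e.2 rfl]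
    · have h1 : (avg C ρ).input (AGate.copy (u, g)) = some (ρ u t) := by
        change (C.input g).map (ρ u) = some (ρ u t)
        rw [hi]; rfl
      rw [C.eval_some hi, (avg C ρ).eval_some h1]
      rfl

theorem avg_eval (C : Circuit.{0, 0, 0} T ℂ) (ρ : G → Perm T) (x : T → ℂ) (z : ℂ)
    (h : ∀ u, C.eval (x ∘ ρ u) C.out = z) : (avg C ρ).eval x (avg C ρ).out = z := by
  have h1 : (avg C ρ).eval x (AGate.sum : AGate (G × C.Gate)) = Nat.card G * z := by
    refine ((avg C ρ).eval_none (g := (AGate.sum : AGate (G × C.Gate))) rfl).trans ?_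
    change sumGate (((Finset.univ : Finset G).val.map
      fun u => ((0 : ℕ), (AGate.copy (u, C.out) : AGate (G × C.Gate)))).map
        fun e => (e.1, (avg C ρ).eval x e.2)) = _
    have h0 : ∀ u, C.eval (fun t => x (ρ u t)) C.out = z := h
    rw [sumGate, Multiset.map_map, Multiset.map_map]
    simp only [Function.comp_def, avg_eval_copy, h0, Multiset.map_const', Multiset.sum_replicate,
      nsmul_eq_mul, Nat.card_eq_fintype_card]
    rfl
  have h2 : (avg C ρ).eval x (AGate.const : AGate (G × C.Gate)) = (Nat.card G : ℂ)⁻¹ :=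
    (avg C ρ).eval_none (g := (AGate.const : AGate (G × C.Gate))) rfl
  refine ((avg C ρ).eval_none (g := (AGate.prod : AGate (G × C.Gate))) rfl).trans ?_
  change prodGate (({(0, AGate.sum), (0, AGate.const)} : Multiset (ℕ × AGate (G × C.Gate))).map
    fun e => (e.1, (avg C ρ).eval x e.2)) = z
  rw [prodGate]
  simp only [Multiset.insert_eq_cons, Multiset.map_cons, Multiset.map_singleton,
    Multiset.prod_cons, Multiset.prod_singleton, h1, h2]
  have h3 : (Nat.card G : ℂ) ≠ 0 := by
    have : 0 < Nat.card G := Nat.card_pos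
    exact_mod_cast this.ne'
  field_simp

omit [AddGroup G] in
theorem avg_card (C : Circuit.{0, 0, 0} T ℂ) [Finite C.Gate] (ρ : G → Perm T) :
    Nat.card (avg C ρ).Gate = Nat.card G * Nat.card C.Gate + 3 := by
  change Nat.card (AGate (G × C.Gate)) = _
  rw [Nat.card_congr (agateEquiv _), Nat.card_sum, Nat.card_prod, Nat.card_fin]

omit [AddGroup G] in
theorem avg_arith (C : Circuit.{0, 0, 0} T ℂ) (hC : Arithmetic C) (ρ : G → Perm T) :
    Arithmetic (avg C ρ) := by
  rintro (⟨u, g⟩ | _ | _ | _) h
  · refine hC g ?_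
    change (C.input g).map (ρ u) = none at h
    simpa using h
  · exact Or.inl rfl
  · exact Or.inr (Or.inr ⟨_, rfl⟩)
  · exact Or.inr (Or.inl rfl)

end arith

theorem per_perm {X R : Type} [Finite X] [CommSemiring R] (x : X × X → R) (τ : Perm X) :
    per (x ∘ pairPerm τ) = per x := by
  let _ : Fintype X := Fintype.ofFinite X
  let _ : DecidableEq X := Classical.decEq X
  have h1 : per (x ∘ pairPerm τ) =
      (((Matrix.of fun i j => x (i, j)).submatrix τ id).submatrix id τ).permanent := rfl
  rw [h1, Matrix.permanent_permute_rows, Matrix.permanent_permute_cols]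
  rfl

theorem upperPer {β X : Type} [Finite X] (e : β × K4 ↪ X) (C : Circuit.{0, 0, 0} (X × X) ℂ)
    [Finite C.Gate] (hA : Arithmetic C) (hC : ∀ x : X × X → ℂ, C.eval x C.out = per x) :
    ∃ C' : Circuit.{0, 0, 0} (X × X) ℂ, Arithmetic C' ∧
      (∀ v : β → K4, C'.Invariant (pairPerm ((blockShift v).viaEmbedding e))) ∧
      (∀ x : X × X → ℂ, C'.eval x C'.out = per x) ∧
      Nat.card C'.Gate = 4 ^ Nat.card β * Nat.card C.Gate + 3 := by
  classical
  have : Finite (β × K4) := Finite.of_injective e e.injective
  have : Finite β := Finite.of_surjective (Prod.fst : β × K4 → β) Prod.fst_surjective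
  have : Finite (β → K4) := Pi.finite
  have : Fintype (β → K4) := Fintype.ofFinite _
  let ρ : (β → K4) → Perm (X × X) := fun v => pairPerm ((blockShift v).viaEmbedding e)
  refine ⟨avg C ρ, avg_arith C hA ρ, fun v => avg_inv C ρ (hρ_pair e) v, fun x => ?_, ?_⟩
  · exact avg_eval C ρ x _ fun u => (hC _).trans (per_perm x _)
  · rw [avg_card, Nat.card_fun]
    simp

end Pool.Agent.H5Sym
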