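import Pool.Agent.H5Sym.TwoSat

/-!
# Monotone 2-CNF formulas and symmetric circuits: the lower bound and the brute-force circuit
-/

set_option autoImplicit false

namespace Pool.Agent.H5Sym

open Equiv

universe u w

theorem bipartite6_mat {P : ℕ} {β X : Type} [Finite X] (e : β × K4 ↪ X) (ι : Bool × Fin P ↪ β)
    (σ : Fin 3 → Perm (Fin P)) (w : Fin 3 × Fin P → F2) : Bipartite6 (mat e ι σ w) where
  symm p q := by
    rw [Bool.eq_iff_iff, mat_true, mat_true]
    constructor
    · rintro ⟨p, q, rfl, rfl, h⟩
      exact ⟨q, p, rfl, rfl, h.symm⟩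
    · rintro ⟨p, q, rfl, rfl, h⟩
      exact ⟨q, p, rfl, rfl, h.symm⟩
  bipartite := by
    classical
    refine ⟨fun x => decide (∃ i k, x = e (ι (true, i), k)), fun x y h => ?_⟩
    obtain ⟨⟨p, k⟩, ⟨q, k'⟩, rfl, rfl, c, i, -, ⟨h1, h2⟩ | ⟨h1, h2⟩⟩ := mat_true.1 h
    · dsimp only at h1 h2
      subst h1 h2
      have e1 : ¬ ∃ j k₁, e (ι (false, i), k) = e (ι (true, j), k₁) := by
        rintro ⟨j, k₁, hj⟩
        simpa using congrArg Prod.fst (e.injective hj)
      have e2 : ∃ j k₁, e (ι (true, σ c i), k') = e (ι (true, j), k₁) := ⟨_, _, rfl⟩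
      simp only [e1, e2, decide_true, decide_false]
      exact Bool.false_ne_true
    · dsimp only at h1 h2
      subst h1 h2
      have e1 : ¬ ∃ j k₁, e (ι (false, i), k') = e (ι (true, j), k₁) := by
        rintro ⟨j, k₁, hj⟩
        simpa using congrArg Prod.fst (e.injective hj)
      have e2 : ∃ j k₁, e (ι (true, σ c i), k) = e (ι (true, j), k₁) := ⟨_, _, rfl⟩
      simp only [e1, e2, decide_true, decide_false]
      exact Bool.false_ne_true.symm
  degree x := by
    classical
    by_cases hx : ∃ p, x = e p
    swap
    · have : {y | mat e ι σ w (x, y) = true} = ∅ := by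
        rw [Set.eq_empty_iff_forall_notMem]
        intro y hy
        obtain ⟨p, q, h1, h2, -⟩ := mat_true.1 hy
        exact hx ⟨p, h1⟩
      rw [this, Set.ncard_empty]
      exact Nat.zero_le _
    obtain ⟨p, rfl⟩ := hx
    have key : ∃ (f : Fin 3 → β) (s : Fin 3 → F2), {q | Adj ι σ w p q} ⊆
        {q | ∃ c, q.1 = f c ∧ ell c q.2 = s c} := by
      by_cases h1 : ∃ i, p.1 = ι (false, i)
      · obtain ⟨i, hi⟩ := h1
        refine ⟨fun c => ι (true, σ c i), fun c => w (c, i) - ell c p.2, ?_⟩
        intro q hq
        obtain ⟨c, j, h2, ⟨h3, h4⟩ | ⟨h3, h4⟩⟩ := hq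
        · have h5 : i = j := by simpa using ι.injective (hi.symm.trans h3)
          subst h5
          exact ⟨c, h4, by dsimp only; rw [← h2]; ring⟩
        · exact absurd (ι.injective (hi.symm.trans h3)) (by simp)
      · by_cases h1' : ∃ i, p.1 = ι (true, i)
        · obtain ⟨i, hi⟩ := h1'
          refine ⟨fun c => ι (false, (σ c).symm i), fun c => w (c, (σ c).symm i) - ell c p.2, ?_⟩
          intro q hq
          obtain ⟨c, j, h2, ⟨h3, h4⟩ | ⟨h3, h4⟩⟩ := hq
          · exact absurd (ι.injective (hi.symm.trans h3)) (by simp)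
          · have h5 : i = σ c j := by simpa using ι.injective (hi.symm.trans h3)
            refine ⟨c, ?_, ?_⟩
            · dsimp only
              rw [h4, h5, symm_apply_apply]
            · dsimp only
              rw [h5, symm_apply_apply, ← h2]; ring
        · refine ⟨fun _ => p.1, fun _ => 0, ?_⟩
          intro q hq
          obtain ⟨c, j, h2, ⟨h3, h4⟩ | ⟨h3, h4⟩⟩ := hq
          · exact absurd ⟨_, h3⟩ h1
          · exact absurd ⟨_, h3⟩ h1'
    obtain ⟨f, s, hfs⟩ := key
    have hK : ∀ c : Fin 3, ∀ s : F2, (Finset.univ.filter fun k : K4 => ell c k = s).card ≤ 2 := by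
      decide
    let S : Finset (β × K4) := Finset.univ.biUnion fun c : Fin 3 =>
      (Finset.univ.filter fun k : K4 => ell c k = s c).map ⟨fun k => (f c, k), fun a b h => by
        simpa using h⟩
    have hS : {q : β × K4 | ∃ c, q.1 = f c ∧ ell c q.2 = s c} ⊆ (S : Set (β × K4)) := by
      rintro ⟨b, k⟩ ⟨c, h1, h2⟩
      simp only [S, Finset.coe_biUnion, Set.mem_iUnion, Finset.coe_map, Set.mem_image,
        Finset.mem_coe, Finset.mem_filter, Finset.mem_univ, true_and]
      exact ⟨c, trivial, k, h2, Prod.ext h1.symm rfl⟩
    have hsub : {y | mat e ι σ w (e p, y) = true} ⊆ ((S.image e : Finset X) : Set X) := by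
      intro y hy
      obtain ⟨p', q, h1, rfl, h2⟩ := mat_true.1 hy
      rw [← e.injective h1] at h2
      rw [Finset.coe_image]
      exact ⟨q, hS (hfs h2), rfl⟩
    calc {y | mat e ι σ w (e p, y) = true}.ncard ≤ ((S.image e : Finset X) : Set X).ncard :=
          Set.ncard_le_ncard hsub (Finset.finite_toSet _)
      _ = (S.image e).card := Set.ncard_coe_finset _
      _ ≤ S.card := Finset.card_image_le
      _ ≤ ∑ c : Fin 3, 2 := by
          refine Finset.card_biUnion_le.trans (Finset.sum_le_sum fun c _ => ?_)
          rw [Finset.card_map]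
          exact hK c (s c)
      _ = 6 := by simp

theorem pow_le_choose (κ : ℕ) : ∀ n, 12 * κ ≤ n → 12 ^ κ ≤ n.choose κ := by
  induction κ with
  | zero => intro n _; simp
  | succ κ ih =>
    intro n hn
    obtain ⟨m, rfl⟩ : ∃ m, n = m + 1 := ⟨n - 1, by omega⟩
    have h1 := ih m (by omega)
    have h2 := Nat.add_one_mul_choose_eq m κ
    have h3 : (κ + 1) * 12 ^ (κ + 1) ≤ (κ + 1) * (m + 1).choose (κ + 1) := by
      calc (κ + 1) * 12 ^ (κ + 1) = (12 * (κ + 1)) * 12 ^ κ := by ring
        _ ≤ (m + 1) * m.choose κ := Nat.mul_le_mul hn h1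
        _ = (κ + 1) * (m + 1).choose (κ + 1) := by rw [h2]; ring
    exact Nat.le_of_mul_le_mul_left h3 (Nat.succ_pos κ)

theorem lower {β X : Type} [Finite X] (e : β × K4 ↪ X) {D : Type u}
    (C : Circuit.{0, u, w} (X × X) D) [Finite C.Gate] (inp : Bool → D) (dec : D → ℕ)
    (hinv : ∀ v : β → K4, C.Invariant (pairPerm ((blockShift v).viaEmbedding e)))
    (hC : ∀ x, Bipartite6 x → dec (C.eval (inp ∘ x) C.out) = numSat x) :
    12 ^ (Nat.card β / 24) ≤ Nat.card C.Gate * (Nat.card β + 1) ^ 3 := by
  classical
  have : Finite (β × K4) := Finite.of_injective e e.injective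
  have : Finite β := Finite.of_surjective (Prod.fst : β × K4 → β) Prod.fst_surjective
  have : Fintype β := Fintype.ofFinite β
  by_contra hcon
  push Not at hcon
  set B := Nat.card β with hB
  have hs : 0 < Nat.card C.Gate := Nat.card_pos_iff.2 ⟨⟨C.out⟩, inferInstance⟩
  rcases Nat.eq_zero_or_pos (B / 24) with h0 | hκ
  · rw [h0, pow_zero] at hcon
    have : 0 < Nat.card C.Gate * (B + 1) ^ 3 := Nat.mul_pos hs (pow_pos (Nat.succ_pos _) 3)
    omega
  · have hP : 12 * (B / 24) ≤ B / 2 := by omega
    obtain ⟨ι⟩ : Nonempty (Bool × Fin (B / 2) ↪ β) := by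
      refine Function.Embedding.nonempty_of_card_le ?_
      rw [Fintype.card_prod, Fintype.card_bool, Fintype.card_fin, ← Nat.card_eq_fintype_card, ← hB]
      omega
    have hlt : Nat.card C.Gate * (6 * (B / 24)) ^ 3 < (B / 2).choose (B / 24) := by
      refine lt_of_le_of_lt ?_ (hcon.trans_le (pow_le_choose _ _ hP))
      exact Nat.mul_le_mul_left _ (Nat.pow_le_pow_left (by omega) 3)
    obtain ⟨σ, d, hd, h⟩ := fooling e C inp hinv hκ hP ι hlt
    have h1 := congrArg dec (h 1)
    rw [hC _ (bipartite6_mat e ι σ _), hC _ (bipartite6_mat e ι σ _)] at h1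
    exact absurd h1 (numSat_lt e ι σ d hd).ne

/-- the gates of the brute-force circuit: inputs, assignments, output -/
inductive BGate (X : Type) : Type
  | inp (t : X × X)
  | asg (a : X → Bool)
  | out

/-- the brute-force circuit -/
noncomputable def brute (X : Type) [Fintype X] [DecidableEq X] : Circuit (X × X) ℕ where
  Gate := BGate X
  input := fun g => match g with
    | .inp t => some t
    | _ => none
  wires := fun g => match g with
    | .inp _ => 0
    | .asg a => (Finset.univ.filter fun t : X × X => a t.1 = false ∧ a t.2 = false).val.map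
        fun t => (0, .inp t)
    | .out => (Finset.univ : Finset (X → Bool)).val.map fun a => (0, .asg a)
  op := fun g M => match g with
    | .out => (M.map Prod.snd).sum
    | _ => if ∀ e ∈ M, e.2 = 0 then 1 else 0
  level := fun g => match g with
    | .inp _ => 0
    | .asg _ => 1
    | .out => 2
  level_lt := by
    intro g e he
    rcases g with t | a | _
    · simp at he
    · simp only [Multiset.mem_map] at he
      obtain ⟨t, -, rfl⟩ := he
      exact Nat.zero_lt_one
    · simp only [Multiset.mem_map] at he
      obtain ⟨t, -, rfl⟩ := he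
      exact Nat.one_lt_two
  out := .out

/-- the gates as a sum type -/
def gateEquiv (X : Type) : BGate X ≃ ((X × X) ⊕ (X → Bool)) ⊕ Unit where
  toFun g := match g with
    | .inp t => Sum.inl (Sum.inl t)
    | .asg a => Sum.inl (Sum.inr a)
    | .out => Sum.inr ()
  invFun s := match s with
    | Sum.inl (Sum.inl t) => .inp t
    | Sum.inl (Sum.inr a) => .asg a
    | Sum.inr () => .out
  left_inv g := by rcases g with t | a | _ <;> rfl
  right_inv s := by rcases s with (t | a) | ⟨⟩ <;> rfl

theorem brute_inv (X : Type) [Fintype X] [DecidableEq X] (τ : Perm X) :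
    (brute X).Invariant (pairPerm τ) := by
  refine ⟨⟨fun g => match g with
      | .inp t => .inp (pairPerm τ t)
      | .asg a => .asg (a ∘ τ.symm)
      | .out => .out, fun g => match g with
      | .inp t => .inp ((pairPerm τ).symm t)
      | .asg a => .asg (a ∘ τ)
      | .out => .out, ?_, ?_⟩, ?_⟩
  · rintro (t | a | _)
    · exact congrArg BGate.inp ((pairPerm τ).symm_apply_apply t)
    · exact congrArg BGate.asg (by rw [Function.comp_assoc, Equiv.symm_comp_self, Function.comp_id])
    · rfl
  · rintro (t | a | _)
    · exact congrArg BGate.inp ((pairPerm τ).apply_symm_apply t)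
    · exact congrArg BGate.asg (by rw [Function.comp_assoc, Equiv.self_comp_symm, Function.comp_id])
    · rfl
  · constructor
    · rintro (t | a | _) <;> rfl
    · rintro (t | a | _)
      · rfl
      · change (Finset.univ.filter fun t : X × X => a (τ.symm t.1) = false ∧
          a (τ.symm t.2) = false).val.map (fun t => ((0 : ℕ), BGate.inp t)) = _
        simp only [brute, Multiset.map_map, Function.comp_def, Prod.map, id]
        have h1 : (Finset.univ.filter fun t : X × X => a (τ.symm t.1) = false ∧
            a (τ.symm t.2) = false) =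
            (Finset.univ.filter fun t : X × X => a t.1 = false ∧ a t.2 = false).map
              (pairPerm τ).toEmbedding := by
          ext t
          simp only [Finset.mem_filter, Finset.mem_univ, true_and, Finset.mem_map_equiv]
          rfl
        rw [h1, Finset.map_val, Multiset.map_map]
        rfl
      · change (Finset.univ : Finset (X → Bool)).val.map (fun a => ((0 : ℕ), BGate.asg a)) = _
        simp only [brute, Multiset.map_map, Function.comp_def, Prod.map, id]
        have h1 : (Finset.univ : Finset (X → Bool)) =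
            Finset.univ.map (Equiv.arrowCongr τ (Equiv.refl Bool)).toEmbedding := by
          rw [Finset.map_univ_equiv]
        conv_lhs => rw [h1, Finset.map_val, Multiset.map_map]
        rfl
    · rintro (t | a | _) <;> rfl
    · rfl

theorem brute_eval (X : Type) [Fintype X] [DecidableEq X] (x : X × X → Bool) :
    (brute X).eval (fun t => if x t then 1 else 0) (brute X).out = numSat x := by
  have h1 : ∀ t : X × X, (brute X).eval (fun t => if x t then 1 else 0) (BGate.inp t) =
      if x t then 1 else 0 := fun t => (brute X).eval_some rfl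
  have h2 : ∀ a : X → Bool, (brute X).eval (fun t => if x t then 1 else 0) (BGate.asg a) =
      if (∀ p q, x (p, q) = true → a p = true ∨ a q = true) then 1 else 0 := by
    intro a
    refine ((brute X).eval_none (g := (BGate.asg a : BGate X)) rfl).trans ?_
    change (if ∀ e ∈ ((Finset.univ.filter fun t : X × X => a t.1 = false ∧
      a t.2 = false).val.map fun t => ((0 : ℕ), (BGate.inp t : BGate X))).map
        (fun e => (e.1, (brute X).eval (fun t => if x t then 1 else 0) e.2)), e.2 = 0 then 1 else 0) = _
    have h3 : (∀ e ∈ ((Finset.univ.filter fun t : X × X => a t.1 = false ∧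
        a t.2 = false).val.map fun t => ((0 : ℕ), (BGate.inp t : BGate X))).map
        (fun e => (e.1, (brute X).eval (fun t => if x t then 1 else 0) e.2)), e.2 = 0) ↔
          ∀ p q, x (p, q) = true → a p = true ∨ a q = true := by
      rw [Multiset.map_map]
      simp only [Multiset.mem_map, Finset.mem_val, Finset.mem_filter, Finset.mem_univ, true_and,
        Function.comp, forall_exists_index, and_imp]
      constructor
      · intro h p q hpq
        by_contra hcon
        rw [not_or, Bool.not_eq_true, Bool.not_eq_true] at hcon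
        have := h _ (p, q) hcon.1 hcon.2 rfl
        rw [h1, hpq] at this
        simp at this
      · rintro h e ⟨p, q⟩ h4 h5 rfl
        rw [h1]
        by_contra hcon
        have h6 : x (p, q) = true := by
          by_contra h7
          rw [if_neg h7] at hcon
          exact hcon rfl
        have := h p q h6
        rw [h4, h5] at this
        simp at this
    by_cases hs : ∀ p q, x (p, q) = true → a p = true ∨ a q = true
    · rw [if_pos (h3.2 hs), if_pos hs]
    · rw [if_neg (fun h => hs (h3.1 h)), if_neg hs]
  refine ((brute X).eval_none (g := (BGate.out : BGate X)) rfl).trans ?_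
  change ((((Finset.univ : Finset (X → Bool)).val.map fun a => ((0 : ℕ), (BGate.asg a : BGate X))).map
    (fun e => (e.1, (brute X).eval (fun t => if x t then 1 else 0) e.2))).map Prod.snd).sum = _
  rw [Multiset.map_map, Multiset.map_map]
  simp only [Function.comp_def, h2]
  rw [numSat, Nat.card_eq_fintype_card, Fintype.card_subtype]
  change ∑ a : X → Bool, _ = _
  rw [Finset.card_filter]

theorem brute_finite (X : Type) [Fintype X] [DecidableEq X] : Finite (brute X).Gate :=
  Finite.of_equiv _ (gateEquiv X).symm

theorem brute_card (X : Type) [Fintype X] [DecidableEq X] :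
    Nat.card (brute X).Gate = 2 ^ Nat.card X + Nat.card X ^ 2 + 1 := by
  change Nat.card (BGate X) = _
  rw [Nat.card_congr (gateEquiv X), Nat.card_eq_fintype_card, Nat.card_eq_fintype_card]
  simp only [Fintype.card_sum, Fintype.card_prod, Fintype.card_fun, Fintype.card_bool,
    Fintype.card_unit]
  ring

end Pool.Agent.H5Sym
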