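import Mathlib

/-!
# Circuits with symmetric gates and their automorphisms: definitions

A circuit has inputs indexed by `T` with values in an arbitrary set `D`; every inner gate computes an
arbitrary function of the multiset of the labelled values on its incoming wires.
-/

set_option autoImplicit false

namespace Pool.Agent.H5Sym

universe u v w

/-- A circuit with inputs indexed by `T` and values in `D`. An inner gate computes an arbitrary
function `op` of the multiset of the labelled values that arrive on its wires. -/
structure Circuit (T : Type u) (D : Type v) where
  /-- the gates -/
  Gate : Type w
  /-- `input g = some t` if the gate `g` reads the input `t`, `none` if `g` is an inner gate -/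
  input : Gate → Option T
  /-- the wires into a gate: each has a label and starts at a gate -/
  wires : Gate → Multiset (ℕ × Gate)
  /-- the function computed by an inner gate -/
  op : Gate → Multiset (ℕ × D) → D
  /-- the level of a gate -/
  level : Gate → ℕ
  /-- the circuit is acyclic -/
  level_lt : ∀ g, ∀ e ∈ wires g, level e.2 < level g
  /-- the output gate -/
  out : Gate

namespace Circuit

variable {T : Type u} {D : Type v}

/-- the value of the gate `g` on the input `x` -/
def eval (C : Circuit.{u, v, w} T D) (x : T → D) (g : C.Gate) : D :=
  match C.input g with
  | some t => x t
  | none => C.op g ((C.wires g).attach.map fun e => (e.1.1, C.eval x e.1.2))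
termination_by C.level g
decreasing_by exact C.level_lt g e.1 e.2

variable (C : Circuit.{u, v, w} T D)

/-- `π` is an automorphism of the circuit that induces the permutation `τ` of the inputs: it maps
input gates to input gates as `τ` does, it respects the wires with their labels and the functions of
the gates, and it fixes the output gate. -/
structure IsAut (τ : Equiv.Perm T) (π : Equiv.Perm C.Gate) : Prop where
  input : ∀ g, C.input (π g) = (C.input g).map τ
  wires : ∀ g, C.wires (π g) = (C.wires g).map (Prod.map id π)
  op : ∀ g, C.op (π g) = C.op g
  out : π C.out = C.out

/-- The circuit is invariant under the permutation `τ` of its inputs: `τ` is induced by an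
automorphism of the circuit. -/
def Invariant (τ : Equiv.Perm T) : Prop := ∃ π : Equiv.Perm C.Gate, C.IsAut τ π

end Circuit

end Pool.Agent.H5Sym
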