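import Pool.Agent.H5Sym.CircuitDefs

/-!
# Nondeterministic circuits for the independent set problem: definitions
-/

set_option autoImplicit false

namespace Pool.Agent.H5Sym

universe u v w

/-- `x` is the adjacency matrix of a simple graph with the vertices `X`. -/
structure IsGraph {X : Type} (x : X × X → Bool) : Prop where
  symm : ∀ i j, x (i, j) = x (j, i)
  irrefl : ∀ i, x (i, i) = false

/-- The graph with the adjacency matrix `x` has an independent set of at least `k` vertices. -/
def HasIndep {X : Type} (x : X × X → Bool) (k : ℕ) : Prop :=
  ∃ S : Finset X, k ≤ S.card ∧ ∀ i ∈ S, ∀ j ∈ S, x (i, j) = false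

/-- The nondeterministic circuit `C`, with the inputs `x (i, j)` and the guess bits `y t`, `t ∈ Y`,
decides whether a graph has an independent set of at least `k` vertices: this is the case if and
only if the circuit accepts for some values of the guess bits. Here `inp` gives the values of `D`
that encode the bits `0` and `1`, and `acc` is the set of accepting values of the output gate. -/
def DecidesIndep {X Y : Type} {D : Type u} (C : Circuit.{0, u, w} ((X × X) ⊕ Y) D) (inp : Bool → D)
    (acc : D → Prop) (k : ℕ) : Prop :=
  ∀ x : X × X → Bool, IsGraph x →
    ((∃ y : Y → Bool, acc (C.eval (Sum.elim (inp ∘ x) (inp ∘ y)) C.out)) ↔ HasIndep x k)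

/-- the threshold gate: are at least `k` of the values on the wires equal to `1`? -/
def thr (k : ℕ) (M : Multiset (ℕ × Bool)) : Bool := decide (k ≤ (M.map Prod.snd).count true)

/-- Every inner gate computes a threshold function or the negation of a threshold function (for
example AND, OR, NOT). -/
def ThresholdGates {T : Type} (C : Circuit.{0, 0, w} T Bool) : Prop :=
  ∀ g, C.input g = none → ∃ k, C.op g = thr k ∨ C.op g = fun M => !thr k M

end Pool.Agent.H5Sym
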