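import Pool.Agent.H5Sym.PermMain
import Pool.Agent.H5Sym.NondetDefs
import Pool.Agent.H5Sym.Symmetrize

/-!
# Nondeterministic circuits for the independent set problem
-/

set_option autoImplicit false

namespace Pool.Agent.H5Sym

open Equiv

universe u w

/-! ### The graphs -/

section graph

variable {V : Type} {β X : Type}

/-- two elements of one block -/
def SameBlock (e : β × K4 ↪ X) (x y : X) : Prop := ∃ i a b, x = e (i, a) ∧ y = e (i, b)

open Classical in
/-- the adjacency matrix -/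
noncomputable def cmat (e : β × K4 ↪ X) (ι : Bool × V ↪ β) (σ : Fin 3 → Perm V) (U : Set X)
    (w : Fin 3 × V → F2) (t : X × X) : Bool :=
  decide (t.1 ≠ t.2 ∧ (SameBlock e t.1 t.2 ∨ pmat e ι σ (w + 1) t = true ∨ t.1 ∈ U ∨ t.2 ∈ U))

theorem cmat_true {e : β × K4 ↪ X} {ι : Bool × V ↪ β} {σ : Fin 3 → Perm V} {U : Set X}
    {w : Fin 3 × V → F2} {t : X × X} : cmat e ι σ U w t = true ↔
      (t.1 ≠ t.2 ∧ (SameBlock e t.1 t.2 ∨ pmat e ι σ (w + 1) t = true ∨ t.1 ∈ U ∨ t.2 ∈ U)) := by
  simp [cmat]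

theorem shift_shift (e : β × K4 ↪ X) (v : β → K4) (x : X) :
    (blockShift v).viaEmbedding e ((blockShift v).viaEmbedding e x) = x := by
  by_cases hx : x ∈ Set.range e
  · obtain ⟨p, rfl⟩ := hx
    rw [Perm.viaEmbedding_apply, Perm.viaEmbedding_apply, ← Perm.mul_apply, ← blockShift_add,
      add_self_mod, blockShift_apply]
    simp
  · rw [Perm.viaEmbedding_apply_of_notMem _ _ _ hx, Perm.viaEmbedding_apply_of_notMem _ _ _ hx]

theorem sameBlock_shift (e : β × K4 ↪ X) (v : β → K4) (x y : X) :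
    SameBlock e ((blockShift v).viaEmbedding e x) ((blockShift v).viaEmbedding e y) ↔
      SameBlock e x y := by
  have key : ∀ x y, SameBlock e x y →
      SameBlock e ((blockShift v).viaEmbedding e x) ((blockShift v).viaEmbedding e y) := by
    rintro x y ⟨i, a, b, rfl, rfl⟩
    refine ⟨i, a + v i, b + v i, ?_, ?_⟩ <;> rw [Perm.viaEmbedding_apply] <;> rfl
  refine ⟨fun h => ?_, key x y⟩
  have := key _ _ h
  rwa [shift_shift, shift_shift] at this

theorem memU_shift (e : β × K4 ↪ X) (v : β → K4) {U : Set X} (hU : ∀ x ∈ U, x ∉ Set.range e)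
    (x : X) : (blockShift v).viaEmbedding e x ∈ U ↔ x ∈ U := by
  have key : ∀ x, x ∈ U → (blockShift v).viaEmbedding e x ∈ U := by
    intro x hx
    rwa [Perm.viaEmbedding_apply_of_notMem _ _ _ (hU x hx)]
  refine ⟨fun h => ?_, key x⟩
  have := key _ h
  rwa [shift_shift] at this

theorem cmat_shift (e : β × K4 ↪ X) (ι : Bool × V ↪ β) (σ : Fin 3 → Perm V) {U : Set X}
    (hU : ∀ x ∈ U, x ∉ Set.range e) (w : Fin 3 × V → F2) (v : β → K4) (t : X × X) :
    cmat e ι σ U (w + bdryV ι σ v) (pairPerm ((blockShift v).viaEmbedding e) t) =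
      cmat e ι σ U w t := by
  rw [Bool.eq_iff_iff, cmat_true, cmat_true]
  have h1 : w + bdryV ι σ v + 1 = w + 1 + bdryV ι σ v := by abel
  rw [h1, pmat_shift]
  change ((blockShift v).viaEmbedding e t.1 ≠ (blockShift v).viaEmbedding e t.2 ∧
    (SameBlock e ((blockShift v).viaEmbedding e t.1) ((blockShift v).viaEmbedding e t.2) ∨ _ ∨
      (blockShift v).viaEmbedding e t.1 ∈ U ∨ (blockShift v).viaEmbedding e t.2 ∈ U)) ↔ _
  rw [sameBlock_shift, memU_shift e v hU, memU_shift e v hU, Ne, EmbeddingLike.apply_eq_iff_eq]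

theorem cmat_base (e : β × K4 ↪ X) (ι : Bool × V ↪ β) (σ : Fin 3 → Perm V) (U : Set X) (t : X × X)
    (w d : Fin 3 × V → F2) (hd : ∀ a, (∀ v, pairPerm ((blockShift v).viaEmbedding e) t = t →
      bdryV ι σ v a = 0) → d a = 0) : cmat e ι σ U (w + d) t = cmat e ι σ U w t := by
  rw [Bool.eq_iff_iff, cmat_true, cmat_true]
  have h1 : w + d + 1 = w + 1 + d := by abel
  rw [h1, pmat_base e ι σ t (w + 1) d hd]

theorem isGraph_cmat [Finite X] (e : β × K4 ↪ X) (ι : Bool × V ↪ β) (σ : Fin 3 → Perm V) (U : Set X)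
    (w : Fin 3 × V → F2) : IsGraph (cmat e ι σ U w) where
  symm i j := by
    rw [Bool.eq_iff_iff, cmat_true, cmat_true]
    dsimp only
    rw [(symmetricSix_pmat e ι σ (w + 1)).symm i j]
    have h : SameBlock e i j ↔ SameBlock e j i :=
      ⟨fun ⟨a, b, c, h1, h2⟩ => ⟨a, c, b, h2, h1⟩, fun ⟨a, b, c, h1, h2⟩ => ⟨a, c, b, h2, h1⟩⟩
    rw [h, ne_comm, or_comm (a := i ∈ U)]
  irrefl i := by
    rw [← Bool.not_eq_true, cmat_true]
    simp

/-- the choice of one element in each block satisfies all constraints -/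
def Good (ι : Bool × V ↪ β) (σ : Fin 3 → Perm V) (w : Fin 3 × V → F2) (a : β → K4) : Prop :=
  ∀ c i, ell c (a (ι (false, i))) + ell c (a (ι (true, σ c i))) = w (c, i)

theorem Good.sum_zero [Fintype V] {ι : Bool × V ↪ β} {σ : Fin 3 → Perm V} {w : Fin 3 × V → F2}
    {a : β → K4} (h : Good ι σ w a) : ∑ e, w e = 0 := by
  have h1 : ∑ e, w e = ∑ c : Fin 3, ∑ i : V, w (c, i) := Fintype.sum_prod_type _
  have h2 : ∀ f : V → K4, ∑ c : Fin 3, ∑ i : V, ell c (f i) = 0 := by
    intro f
    rw [Finset.sum_comm]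
    refine Finset.sum_eq_zero fun i _ => ?_
    rw [Fin.sum_univ_three]
    exact ell_sum (f i)
  have h3 : ∀ c : Fin 3, ∑ i : V, w (c, i) =
      ∑ i : V, ell c (a (ι (false, i))) + ∑ i : V, ell c (a (ι (true, i))) := by
    intro c
    rw [← Equiv.sum_comp (σ c) (fun i => ell c (a (ι (true, i)))), ← Finset.sum_add_distrib]
    exact Finset.sum_congr rfl fun i _ => (h c i).symm
  rw [h1, Finset.sum_congr rfl fun c _ => h3 c, Finset.sum_add_distrib,
    h2 fun i => a (ι (false, i)), h2 fun i => a (ι (true, i)), add_zero]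

theorem F2.ne_iff (a b : F2) : a ≠ b ↔ a = b + 1 := by
  revert a b; decide

/-- the relation `Rel` outside of the diagonal -/
theorem rel_iff {e : β × K4 ↪ X} {ι : Bool × V ↪ β} {σ : Fin 3 → Perm V} {w : Fin 3 × V → F2}
    {x y : X} (hxy : x ≠ y) : pmat e ι σ (w + 1) (x, y) = true ↔
      ∃ c i a b, ell c a + ell c b ≠ w (c, i) ∧
        ((x = e (ι (false, i), a) ∧ y = e (ι (true, σ c i), b)) ∨
          (x = e (ι (true, σ c i), b) ∧ y = e (ι (false, i), a))) := by
  rw [pmat_true]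
  constructor
  · rintro (⟨r, s, ⟨c, h1, h2⟩, h3⟩ | ⟨h, -⟩)
    · refine ⟨c, r.1, r.2, s.2, ?_, ?_⟩
      · rw [F2.ne_iff, h2]; rfl
      · rw [h1]; exact h3
    · exact absurd h hxy
  · rintro ⟨c, i, a, b, h1, h2⟩
    refine Or.inl ⟨(i, a), (σ c i, b), ⟨c, rfl, ?_⟩, h2⟩
    rw [F2.ne_iff] at h1
    exact h1

/-- a good choice gives an independent set -/
theorem hasIndep_of_good [Finite X] {e : β × K4 ↪ X} {ι : Bool × V ↪ β} {σ : Fin 3 → Perm V}
    {w : Fin 3 × V → F2} {a : β → K4} (h : Good ι σ w a) (I : Set X)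
    (hI : ∀ x ∈ I, x ∉ Set.range e) :
    HasIndep (cmat e ι σ ((Set.range e)ᶜ \ I) w) (Nat.card β + I.ncard) := by
  classical
  have hfe : Finite (β × K4) := Finite.of_injective e e.injective
  have hfβ : Finite β := Finite.of_surjective (Prod.fst : β × K4 → β) Prod.fst_surjective
  let A : Set X := Set.range fun j => e (j, a j)
  have hA : A.ncard = Nat.card β := by
    change (Set.range fun j => e (j, a j)).ncard = _
    rw [← Set.image_univ, Set.ncard_image_of_injective, Set.ncard_univ]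
    intro j j' hj
    have := e.injective hj
    rw [Prod.mk.injEq] at this
    exact this.1
  have hdisj : Disjoint A I := by
    rw [Set.disjoint_left]
    rintro _ ⟨j, rfl⟩ hj
    exact hI _ hj ⟨_, rfl⟩
  refine ⟨(Set.toFinite (A ∪ I)).toFinset, ?_, ?_⟩
  · rw [← Set.ncard_eq_toFinset_card, Set.ncard_union_eq hdisj, hA]
  · intro x hx y hy
    rw [Set.Finite.mem_toFinset] at hx hy
    rw [← Bool.not_eq_true, cmat_true]
    rintro ⟨hxy, h1⟩
    dsimp only at hxy h1
    have hnU : ∀ z ∈ A ∪ I, z ∉ (Set.range e)ᶜ \ I := by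
      rintro z (⟨j, rfl⟩ | hz) ⟨h2, h3⟩
      · exact h2 ⟨_, rfl⟩
      · exact h3 hz
    have hval : ∀ z ∈ A ∪ I, ∀ j b, z = e (j, b) → b = a j := by
      rintro z (⟨j', rfl⟩ | hz) j b hz'
      · have := e.injective hz'
        rw [Prod.mk.injEq] at this
        obtain ⟨rfl, h3⟩ := this
        exact h3.symm
      · exact absurd ⟨_, hz'.symm⟩ (hI z hz)
    rcases h1 with ⟨i, b, c, h2, h3⟩ | h1 | h1 | h1
    · apply hxy
      rw [h2, h3, hval x hx i b h2, hval y hy i c h3]
    · rw [rel_iff hxy] at h1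
      obtain ⟨c, i, b, b', h2, ⟨h3, h4⟩ | ⟨h3, h4⟩⟩ := h1
      · rw [hval x hx _ _ h3, hval y hy _ _ h4] at h2
        exact h2 (h c i)
      · rw [hval x hx _ _ h3, hval y hy _ _ h4] at h2
        exact h2 (h c i)
    · exact hnU x hx h1
    · exact hnU y hy h1

/-- an independent set of full size gives a good choice -/
theorem good_of_hasIndep [Finite X] {e : β × K4 ↪ X} {ι : Bool × V ↪ β} {σ : Fin 3 → Perm V}
    {w : Fin 3 × V → F2} (I : Set X) (h2 : 2 ≤ Nat.card β)
    (h : HasIndep (cmat e ι σ ((Set.range e)ᶜ \ I) w) (Nat.card β + I.ncard)) :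
    ∃ a, Good ι σ w a := by
  classical
  have hfe : Finite (β × K4) := Finite.of_injective e e.injective
  have hfβ : Finite β := Finite.of_surjective (Prod.fst : β × K4 → β) Prod.fst_surjective
  have : Fintype β := Fintype.ofFinite β
  obtain ⟨S, hS, hind⟩ := h
  have hadj : ∀ x ∈ S, ∀ y ∈ S, x ≠ y → ¬ (SameBlock e x y ∨ pmat e ι σ (w + 1) (x, y) = true ∨
      x ∈ (Set.range e)ᶜ \ I ∨ y ∈ (Set.range e)ᶜ \ I) := by
    intro x hx y hy hxy h3
    have h4 := hind x hx y hy
    rw [← Bool.not_eq_true, cmat_true] at h4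
    exact h4 ⟨hxy, h3⟩
  -- no universal vertex
  have hS2 : 1 < S.card := by omega
  have hnU : ∀ x ∈ S, x ∉ (Set.range e)ᶜ \ I := by
    intro x hx hxU
    obtain ⟨y, hy, hxy⟩ := Finset.exists_mem_ne hS2 x
    exact hadj x hx y hy hxy.symm (Or.inr (Or.inr (Or.inl hxU)))
  -- blocks that are hit
  let f : X → Option β := fun x => if h : ∃ p, e p = x then some h.choose.1 else none
  have hf : ∀ i a, f (e (i, a)) = some i := by
    intro i a
    have h3 : ∃ p, e p = e (i, a) := ⟨_, rfl⟩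
    have h4 := e.injective h3.choose_spec
    simp only [f, dif_pos h3, h4]
  let S1 := S.filter fun x => x ∈ Set.range e
  let S2 := S.filter fun x => x ∉ Set.range e
  have hS12 : S1.card + S2.card = S.card := Finset.card_filter_add_card_filter_not _
  have hS2I : S2.card ≤ I.ncard := by
    rw [← Set.ncard_coe_finset]
    refine Set.ncard_le_ncard ?_ (Set.toFinite I)
    intro x hx
    rw [Finset.mem_coe, Finset.mem_filter] at hx
    by_contra hxI
    exact hnU x hx.1 ⟨hx.2, hxI⟩
  have hinj : Set.InjOn f S1 := by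
    intro x hx y hy hxy
    rw [Finset.mem_coe, Finset.mem_filter] at hx hy
    obtain ⟨hxS, ⟨⟨i, a⟩, rfl⟩⟩ := hx
    obtain ⟨hyS, ⟨⟨j, b⟩, rfl⟩⟩ := hy
    rw [hf, hf, Option.some.injEq] at hxy
    subst hxy
    by_contra hne
    exact hadj _ hxS _ hyS hne (Or.inl ⟨i, a, b, rfl, rfl⟩)
  have himg : S1.image f ⊆ (Finset.univ : Finset β).image some := by
    intro z hz
    obtain ⟨x, hx, rfl⟩ := Finset.mem_image.1 hz
    obtain ⟨_, ⟨⟨i, a⟩, rfl⟩⟩ := Finset.mem_filter.1 hx
    rw [hf]
    exact Finset.mem_image_of_mem _ (Finset.mem_univ _)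
  have hcardimg : ((Finset.univ : Finset β).image some).card = Nat.card β := by
    rw [Finset.card_image_of_injective _ (Option.some_injective β), Finset.card_univ,
      Nat.card_eq_fintype_card]
  have heq : S1.image f = (Finset.univ : Finset β).image some := by
    apply Finset.eq_of_subset_of_card_le himg
    rw [Finset.card_image_of_injOn hinj, hcardimg]
    omega
  have hex : ∀ i : β, ∃ a : K4, e (i, a) ∈ S := by
    intro i
    have : some i ∈ S1.image f := by
      rw [heq]; exact Finset.mem_image_of_mem _ (Finset.mem_univ _)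
    obtain ⟨x, hx, hxi⟩ := Finset.mem_image.1 this
    obtain ⟨hxS, ⟨⟨j, a⟩, rfl⟩⟩ := Finset.mem_filter.1 hx
    rw [hf, Option.some.injEq] at hxi
    subst hxi
    exact ⟨a, hxS⟩
  choose a ha using hex
  refine ⟨a, fun c i => ?_⟩
  by_contra hne
  have hxy : e (ι (false, i), a (ι (false, i))) ≠ e (ι (true, σ c i), a (ι (true, σ c i))) := by
    intro h3
    have h4 := congrArg Prod.fst (e.injective h3)
    have h5 := congrArg Prod.fst (ι.injective h4)
    exact Bool.false_ne_true h5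
  refine hadj _ (ha _) _ (ha _) hxy (Or.inr (Or.inl ((rel_iff hxy).2 ?_)))
  exact ⟨c, i, _, _, hne, Or.inl ⟨rfl, rfl⟩⟩

end graph

/-! ### The lower bound -/

theorem lowerND {β X Y : Type} [Finite X] (e : β × K4 ↪ X) {k : ℕ} (hk1 : Nat.card β ≤ k)
    (hk2 : k + 3 * Nat.card β ≤ Nat.card X) {D : Type u}
    (C : Circuit.{0, u, w} ((X × X) ⊕ Y) D) [Finite C.Gate] (inp : Bool → D) (acc : D → Prop)
    (hinv : ∀ v : β → K4, C.Invariant
      (Equiv.sumCongr (pairPerm ((blockShift v).viaEmbedding e)) (Equiv.refl Y)))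
    (hC : DecidesIndep C inp acc k) :
    36 ^ (Nat.card β / 216) ≤ Nat.card C.Gate * (Nat.card β + 1) ^ 9 := by
  classical
  have : Finite (β × K4) := Finite.of_injective e e.injective
  have : Finite β := Finite.of_surjective (Prod.fst : β × K4 → β) Prod.fst_surjective
  have : Fintype β := Fintype.ofFinite β
  by_contra hcon
  push Not at hcon
  set B := Nat.card β with hB
  have hs : 0 < Nat.card C.Gate := Nat.card_pos_iff.2 ⟨⟨C.out⟩, inferInstance⟩
  rcases Nat.eq_zero_or_pos (B / 216) with h0 | hκ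
  · rw [h0, pow_zero] at hcon
    have : 0 < Nat.card C.Gate * (B + 1) ^ 9 := Nat.mul_pos hs (pow_pos (Nat.succ_pos _) 9)
    omega
  · have hQ : 36 * (B / 216) ≤ B / 6 := by omega
    obtain ⟨ι⟩ : Nonempty (Bool × Vx (B / 6) ↪ β) := by
      refine Function.Embedding.nonempty_of_card_le ?_
      rw [Fintype.card_prod, Fintype.card_bool, Fintype.card_prod, Fintype.card_fin,
        Fintype.card_fin, ← Nat.card_eq_fintype_card, ← hB]
      omega
    have hlt : Nat.card C.Gate * (18 * (B / 216)) ^ 9 < (B / 6).choose (B / 216) := by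
      refine lt_of_le_of_lt ?_ (hcon.trans_le (pow_le_choose36 _ _ hQ))
      exact Nat.mul_le_mul_left _ (Nat.pow_le_pow_left (by omega) 9)
    -- the isolated vertices
    have hrange : (Set.range e).ncard = 4 * B := by
      rw [← Set.image_univ, Set.ncard_image_of_injective _ e.injective, Set.ncard_univ,
        Nat.card_prod, ← hB]
      have h4 : Nat.card K4 = 4 := by simp
      rw [h4, mul_comm]
    have hcompl : (Set.range e)ᶜ.ncard = Nat.card X - 4 * B := by
      rw [Set.ncard_compl, hrange]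
    obtain ⟨I, hIsub, hIcard⟩ : ∃ I ⊆ (Set.range e)ᶜ, I.ncard = k - B := by
      apply Set.exists_subset_card_eq
      rw [hcompl]
      omega
    have hk : Nat.card β + I.ncard = k := by omega
    have hU : ∀ x ∈ (Set.range e)ᶜ \ I, x ∉ Set.range e := fun x hx => hx.1
    obtain ⟨τ, d, hd, h⟩ := fooling9 C
      (fun v => Equiv.sumCongr (pairPerm ((blockShift v).viaEmbedding e)) (Equiv.refl Y))
      (fun u v => by
        ext t
        rcases t with t | t
        · simp [hρ_pair e]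
        · simp) hinv hκ hQ ι hlt
    have key : ∀ y : Y → Bool, ∀ w, C.eval (Sum.elim
        (inp ∘ cmat e ι (sig τ) ((Set.range e)ᶜ \ I) (w + d)) (inp ∘ y)) C.out =
        C.eval (Sum.elim (inp ∘ cmat e ι (sig τ) ((Set.range e)ᶜ \ I) w) (inp ∘ y)) C.out := by
      intro y
      refine h (fun w => Sum.elim (inp ∘ cmat e ι (sig τ) ((Set.range e)ᶜ \ I) w) (inp ∘ y)) ?_ ?_
      · rintro w v (t | t)
        · exact congrArg inp (cmat_shift e ι (sig τ) hU w v t)
        · rfl
      · rintro (t | t) w d hd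
        · refine congrArg inp (cmat_base e ι (sig τ) _ t w d fun a ha => hd a fun v hv => ha v ?_)
          exact Sum.inl.inj hv
        · rfl
    have hgood : Good ι (sig τ) (0 : Fin 3 × Vx (B / 6) → F2) (fun _ => 0) := by
      intro c i
      simp [ell_zero]
    have h1 : HasIndep (cmat e ι (sig τ) ((Set.range e)ᶜ \ I) 0) k := by
      rw [← hk]
      exact hasIndep_of_good hgood I fun x hx => hIsub hx
    obtain ⟨y, hy⟩ := (hC _ (isGraph_cmat e ι (sig τ) _ 0)).2 h1
    have h2 := key y 0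
    rw [← h2, zero_add] at hy
    have h3 := (hC _ (isGraph_cmat e ι (sig τ) ((Set.range e)ᶜ \ I) d)).1 ⟨y, hy⟩
    rw [← hk] at h3
    obtain ⟨a, ha⟩ := good_of_hasIndep I (by omega) h3
    have h4 := ha.sum_zero
    rw [hd] at h4
    exact one_ne_zero h4

end Pool.Agent.H5Sym
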