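import Pool.Agent.H5Sym.Core

/-!
# Random right-hand sides agree with few vectors in many places
-/

set_option autoImplicit false

namespace Pool.Agent.H5Sym

variable {m : ℕ}

/-- the number of places where `b` and `L` agree -/
def agree (b L : Fin m → F2) : ℕ := (Finset.univ.filter fun j => b j = L j).card

theorem sum_exp (h : ℝ) (L : Fin m → F2) :
    ∑ b : Fin m → F2, Real.exp (h * agree b L) = (1 + Real.exp h) ^ m := by
  have h1 : ∀ b : Fin m → F2, Real.exp (h * agree b L) =
      ∏ j, if b j = L j then Real.exp h else 1 := by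
    intro b
    rw [agree, Finset.card_filter, Nat.cast_sum, Finset.mul_sum, Real.exp_sum]
    refine Finset.prod_congr rfl fun j _ => ?_
    by_cases hj : b j = L j <;> simp [hj]
  simp only [h1]
  have h2 := Finset.prod_univ_sum (fun _ : Fin m => (Finset.univ : Finset F2))
    (fun j x => if x = L j then Real.exp h else 1)
  rw [Fintype.piFinset_univ] at h2
  rw [← h2]
  have h3 : ∀ j : Fin m, ∑ x : F2, (if x = L j then Real.exp h else 1) = 1 + Real.exp h := by
    intro j
    have h4 : (Finset.univ : Finset F2) = {0, 1} := rfl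
    rw [h4, Finset.sum_pair zero_ne_one]
    rcases F2.cases (L j) with hj | hj <;> rw [hj]
    · rw [if_pos rfl, if_neg one_ne_zero, add_comm]
    · rw [if_neg zero_ne_one, if_pos rfl]
  rw [Finset.prod_congr rfl fun j _ => h3 j]
  simp

theorem agree_count (δ : ℝ) (hδ : 0 < δ) (L : Fin m → F2) :
    ((Finset.univ.filter fun b : Fin m → F2 => (1 / 2 + δ) * m ≤ agree b L).card : ℝ) *
      Real.exp (2 * δ ^ 2 * m) ≤ 2 ^ m := by
  have h1 : ((Finset.univ.filter fun b : Fin m → F2 => (1 / 2 + δ) * m ≤ agree b L).card : ℝ) *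
      Real.exp (4 * δ * ((1 / 2 + δ) * m)) ≤ (1 + Real.exp (4 * δ)) ^ m := by
    rw [← sum_exp (4 * δ) L, ← nsmul_eq_mul, ← Finset.sum_const]
    refine (Finset.sum_le_sum (f := fun _ => Real.exp (4 * δ * ((1 / 2 + δ) * m)))
      (g := fun b => Real.exp (4 * δ * agree b L)) fun b hb => ?_).trans
        (Finset.sum_le_sum_of_subset_of_nonneg (Finset.filter_subset _ _) fun _ _ _ =>
          (Real.exp_pos _).le)
    rw [Finset.mem_filter] at hb
    exact Real.exp_le_exp.2 (mul_le_mul_of_nonneg_left hb.2 (by linarith))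
  have h2 : 1 + Real.exp (4 * δ) ≤ 2 * Real.exp (2 * δ ^ 2) * Real.exp (2 * δ) := by
    have h3 := Real.cosh_le_exp_half_sq (2 * δ)
    rw [Real.cosh_eq] at h3
    have h4 : (2 * δ) ^ 2 / 2 = 2 * δ ^ 2 := by ring
    rw [h4] at h3
    have h5 : Real.exp (4 * δ) = Real.exp (2 * δ) * Real.exp (2 * δ) := by
      rw [← Real.exp_add]; congr 1; ring
    have h6 : Real.exp (-(2 * δ)) * Real.exp (2 * δ) = 1 := by
      rw [← Real.exp_add]; simp
    have h7 := Real.exp_pos (2 * δ)
    have h8 : (Real.exp (2 * δ) + Real.exp (-(2 * δ))) * Real.exp (2 * δ) ≤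
        2 * Real.exp (2 * δ ^ 2) * Real.exp (2 * δ) := by
      refine mul_le_mul_of_nonneg_right ?_ h7.le
      linarith
    calc 1 + Real.exp (4 * δ) = (Real.exp (2 * δ) + Real.exp (-(2 * δ))) * Real.exp (2 * δ) := by
          rw [add_mul, h6, h5]; ring
      _ ≤ _ := h8
  have h3 : (1 + Real.exp (4 * δ)) ^ m ≤ 2 ^ m * Real.exp (2 * δ ^ 2 * m) * Real.exp (2 * δ * m) := by
    calc (1 + Real.exp (4 * δ)) ^ m ≤ (2 * Real.exp (2 * δ ^ 2) * Real.exp (2 * δ)) ^ m :=
          pow_le_pow_left₀ (by positivity) h2 m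
      _ = _ := by
          rw [mul_pow, mul_pow, ← Real.exp_nat_mul, ← Real.exp_nat_mul, mul_comm (m : ℝ),
            mul_comm (m : ℝ)]
  have h4 : Real.exp (4 * δ * ((1 / 2 + δ) * m)) =
      Real.exp (2 * δ ^ 2 * m) * (Real.exp (2 * δ ^ 2 * m) * Real.exp (2 * δ * m)) := by
    rw [← Real.exp_add, ← Real.exp_add]
    congr 1
    ring
  rw [h4] at h1
  have h5 := h1.trans h3
  have h6 : (0 : ℝ) < Real.exp (2 * δ ^ 2 * m) * Real.exp (2 * δ * m) := by positivity
  refine le_of_mul_le_mul_right ?_ h6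
  calc _ = _ := by ring
    _ ≤ _ := h5
    _ = _ := by ring

/-- some right-hand side agrees with each vector of a small family in few places -/
theorem exists_rhs (δ : ℝ) (hδ : 0 < δ) {ι : Type*} [Fintype ι] (L : ι → Fin m → F2)
    (hι : (Fintype.card ι : ℝ) < Real.exp (2 * δ ^ 2 * m)) :
    ∃ b : Fin m → F2, ∀ i, (agree b (L i) : ℝ) < (1 / 2 + δ) * m := by
  classical
  by_contra hcon
  push Not at hcon
  have h1 : (Finset.univ : Finset (Fin m → F2)) ⊆ Finset.univ.biUnion fun i =>
      Finset.univ.filter fun b : Fin m → F2 => (1 / 2 + δ) * m ≤ agree b (L i) := by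
    intro b _
    obtain ⟨i, hi⟩ := hcon b
    simp only [Finset.mem_biUnion, Finset.mem_univ, Finset.mem_filter, true_and]
    exact ⟨i, hi⟩
  have h2 : ((Finset.univ : Finset (Fin m → F2)).card : ℝ) ≤ ∑ i : ι,
      ((Finset.univ.filter fun b : Fin m → F2 => (1 / 2 + δ) * m ≤ agree b (L i)).card : ℝ) := by
    exact_mod_cast (Finset.card_le_card h1).trans Finset.card_biUnion_le
  have h3 : ((Finset.univ : Finset (Fin m → F2)).card : ℝ) = 2 ^ m := by
    rw [Finset.card_univ, Fintype.card_fun, Fintype.card_fin]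
    norm_num [ZMod.card]
  rw [h3] at h2
  have h4 := mul_le_mul_of_nonneg_right h2 (Real.exp_pos (2 * δ ^ 2 * m)).le
  rw [Finset.sum_mul] at h4
  have h5 := h4.trans (Finset.sum_le_sum fun i _ => agree_count δ hδ (L i))
  rw [Finset.sum_const, Finset.card_univ, nsmul_eq_mul] at h5
  have h6 : (0 : ℝ) < 2 ^ m := by positivity
  nlinarith

end Pool.Agent.H5Sym
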