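import Mathlib

/-!
# Translations of blocks: definitions
-/

set_option autoImplicit false

namespace Pool.Agent.H5Sym

/-- the Klein four-group -/
abbrev K4 : Type := ZMod 2 × ZMod 2

/-- For `v : β → K4`, the permutation `(i, a) ↦ (i, a + v i)` of `β × K4`. -/
def blockShift {β : Type*} (v : β → K4) : Equiv.Perm (β × K4) :=
  Equiv.prodShear (Equiv.refl β) fun i => Equiv.addRight (v i)

/-- the permutation of the pairs induced by a permutation -/
def pairPerm {X : Type*} (τ : Equiv.Perm X) : Equiv.Perm (X × X) := Equiv.prodCongr τ τ

end Pool.Agent.H5Sym
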