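import Pool.Agent.H5Sym.PermDefs

/-!
# Approximative circuits for the permanent: definitions
-/

set_option autoImplicit false

namespace Pool.Agent.H5Sym

universe u w

/-- the sum gate over `K` -/
def sumGateOver (K : Type u) [CommSemiring K] (M : Multiset (ℕ × K)) : K := (M.map Prod.snd).sum

/-- the product gate over `K` -/
def prodGateOver (K : Type u) [CommSemiring K] (M : Multiset (ℕ × K)) : K := (M.map Prod.snd).prod

/-- An arithmetic circuit over `K`: every inner gate is a sum gate, a product gate or a constant
of `K`. -/
def ArithmeticOver {T : Type} {K : Type u} [CommSemiring K] (C : Circuit.{0, u, w} T K) : Prop :=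
  ∀ g, C.input g = none →
    C.op g = sumGateOver K ∨ C.op g = prodGateOver K ∨ ∃ z : K, C.op g = fun _ => z

/-- The circuit `C` with values in the field `k(ε)` of rational functions computes a polynomial `F`
whose coefficients are defined at `ε = 0`, and the polynomial `F` at `ε = 0` is the permanent over
`k`. -/
def ApproximatesPermanent {X : Type} [Finite X] {k : Type u} [Field k]
    (C : Circuit.{0, u, w} (X × X) (RatFunc k)) : Prop :=
  ∃ F : MvPolynomial (X × X) (RatFunc k),
    (∀ x : X × X → RatFunc k, C.eval x C.out = MvPolynomial.eval x F) ∧
    ∀ d, (F.coeff d).denom.eval 0 ≠ 0 ∧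
      (F.coeff d).eval (RingHom.id k) 0 =
        (per (MvPolynomial.X : X × X → MvPolynomial (X × X) k)).coeff d

end Pool.Agent.H5Sym
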