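import Pool.Agent.H5Sym.PermMain
import Pool.Agent.H5Sym.BorderDefs

/-!
# Approximative circuits for the permanent and symmetry
-/

set_option autoImplicit false

namespace Pool.Agent.H5Sym

open Equiv Filter Topology

universe u w

section avgK

variable {T : Type} {G : Type} [AddGroup G] [Fintype G] {K : Type u} [Field K]

/-- the average of the translates of a circuit over the field `K` -/
noncomputable def avgK (C : Circuit.{0, u, 0} T K) (ρ : G → Perm T) : Circuit.{0, u, 0} T K where
  Gate := AGate (G × C.Gate)
  input := fun g => match g with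
    | .copy p => (C.input p.2).map (ρ p.1)
    | _ => none
  wires := fun g => match g with
    | .copy p => (C.wires p.2).map fun e => (e.1, .copy (p.1, e.2))
    | .sum => (Finset.univ : Finset G).val.map fun u => (0, .copy (u, C.out))
    | .const => 0
    | .prod => {(0, .sum), (0, .const)}
  op := fun g => match g with
    | .copy p => C.op p.2
    | .sum => sumGateOver K
    | .const => fun _ => (Nat.card G : K)⁻¹
    | .prod => prodGateOver K
  level := fun g => match g with
    | .copy p => C.level p.2
    | .sum => C.level C.out + 1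
    | .const => 0
    | .prod => C.level C.out + 2
  level_lt := by
    rintro (p | _ | _ | _) e he
    · simp only [Multiset.mem_map] at he
      obtain ⟨e', he', rfl⟩ := he
      exact C.level_lt _ e' he'
    · simp only [Multiset.mem_map] at he
      obtain ⟨u, -, rfl⟩ := he
      exact Nat.lt_succ_self _
    · simp at he
    · simp only [Multiset.insert_eq_cons, Multiset.mem_cons, Multiset.mem_singleton] at he
      rcases he with rfl | rfl
      · exact Nat.lt_succ_self _
      · exact Nat.succ_pos _
  out := .prod

theorem avgK_inv (C : Circuit.{0, u, 0} T K) (ρ : G → Perm T)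
    (hρ : ∀ u v, ρ (u + v) = ρ u * ρ v) (v : G) : (avgK C ρ).Invariant (ρ v) := by
  refine ⟨⟨fun g => match g with
      | .copy p => .copy (v + p.1, p.2)
      | .sum => .sum
      | .const => .const
      | .prod => .prod, fun g => match g with
      | .copy p => .copy (-v + p.1, p.2)
      | .sum => .sum
      | .const => .const
      | .prod => .prod, ?_, ?_⟩, ?_, ?_, ?_, ?_⟩
  · rintro (⟨u, g⟩ | _ | _ | _)
    · change AGate.copy (-v + (v + u), g) = AGate.copy (u, g)
      rw [neg_add_cancel_left]
    all_goals rfl
  · rintro (⟨u, g⟩ | _ | _ | _)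
    · change AGate.copy (v + (-v + u), g) = AGate.copy (u, g)
      rw [add_neg_cancel_left]
    all_goals rfl
  · rintro (⟨u, g⟩ | _ | _ | _)
    · change (C.input g).map (ρ (v + u)) = ((C.input g).map (ρ u)).map (ρ v)
      rw [hρ, Option.map_map]
      rfl
    all_goals rfl
  · rintro (⟨u, g⟩ | _ | _ | _)
    · change (C.wires g).map (fun e => (e.1, (AGate.copy (v + u, e.2) : AGate (G × C.Gate)))) =
        ((C.wires g).map (fun e => (e.1, (AGate.copy (u, e.2) : AGate (G × C.Gate))))).map _
      rw [Multiset.map_map]
      rfl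
    · change (Finset.univ : Finset G).val.map
          (fun u => ((0 : ℕ), (AGate.copy (u, C.out) : AGate (G × C.Gate)))) =
        ((Finset.univ : Finset G).val.map
          (fun u => ((0 : ℕ), (AGate.copy (u, C.out) : AGate (G × C.Gate))))).map _
      rw [Multiset.map_map]
      have h1 : (Finset.univ : Finset G) = Finset.univ.map (Equiv.addLeft v).toEmbedding := by
        rw [Finset.map_univ_equiv]
      conv_lhs => rw [h1, Finset.map_val, Multiset.map_map]
      rfl
    · rfl
    · rfl
  · rintro (⟨u, g⟩ | _ | _ | _) <;> rfl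
  · rfl

omit [AddGroup G] in
theorem avgK_eval_copy (C : Circuit.{0, u, 0} T K) (ρ : G → Perm T) (x : T → K) (u : G) :
    ∀ g, (avgK C ρ).eval x (AGate.copy (u, g)) = C.eval (x ∘ ρ u) g := by
  suffices H : ∀ n, ∀ g, C.level g = n → (avgK C ρ).eval x (AGate.copy (u, g)) =
      C.eval (x ∘ ρ u) g from fun g => H _ g rfl
  intro n
  induction n using Nat.strong_induction_on with
  | _ n ih =>
    intro g hg
    rcases hi : C.input g with _ | t
    · have h1 : (avgK C ρ).input (AGate.copy (u, g)) = none := by
        change (C.input g).map (ρ u) = none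
        rw [hi]; rfl
      rw [C.eval_none hi, (avgK C ρ).eval_none h1]
      change C.op g (((C.wires g).map fun e => (e.1, (AGate.copy (u, e.2) : AGate (G × C.Gate)))).map
        fun e => (e.1, (avgK C ρ).eval x e.2)) = _
      rw [Multiset.map_map]
      congr 1
      refine Multiset.map_congr rfl fun e he => ?_
      simp only [Function.comp]
      rw [ih _ (hg ▸ C.level_lt g e he) e.2 rfl]
    · have h1 : (avgK C ρ).input (AGate.copy (u, g)) = some (ρ u t) := by
        change (C.input g).map (ρ u) = some (ρ u t)
        rw [hi]; rfl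
      rw [C.eval_some hi, (avgK C ρ).eval_some h1]
      rfl

omit [AddGroup G] in
theorem avgK_eval (C : Circuit.{0, u, 0} T K) (ρ : G → Perm T) (x : T → K) :
    (avgK C ρ).eval x (avgK C ρ).out =
      (Nat.card G : K)⁻¹ * ∑ u, C.eval (fun t => x (ρ u t)) C.out := by
  have h1 : (avgK C ρ).eval x (AGate.sum : AGate (G × C.Gate)) =
      ∑ u, C.eval (fun t => x (ρ u t)) C.out := by
    refine ((avgK C ρ).eval_none (g := (AGate.sum : AGate (G × C.Gate))) rfl).trans ?_
    change sumGateOver K (((Finset.univ : Finset G).val.map
      fun u => ((0 : ℕ), (AGate.copy (u, C.out) : AGate (G × C.Gate)))).map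
        fun e => (e.1, (avgK C ρ).eval x e.2)) = _
    rw [sumGateOver, Multiset.map_map, Multiset.map_map]
    simp only [Function.comp_def, avgK_eval_copy]
    rfl
  have h2 : (avgK C ρ).eval x (AGate.const : AGate (G × C.Gate)) = (Nat.card G : K)⁻¹ :=
    (avgK C ρ).eval_none (g := (AGate.const : AGate (G × C.Gate))) rfl
  refine ((avgK C ρ).eval_none (g := (AGate.prod : AGate (G × C.Gate))) rfl).trans ?_
  change prodGateOver K (({(0, AGate.sum), (0, AGate.const)} : Multiset (ℕ × AGate (G × C.Gate))).map
    fun e => (e.1, (avgK C ρ).eval x e.2)) = _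
  rw [prodGateOver]
  simp only [Multiset.insert_eq_cons, Multiset.map_cons, Multiset.map_singleton,
    Multiset.prod_cons, Multiset.prod_singleton, h1, h2]
  rw [mul_comm]

omit [AddGroup G] in
theorem avgK_card (C : Circuit.{0, u, 0} T K) [Finite C.Gate] (ρ : G → Perm T) :
    Nat.card (avgK C ρ).Gate = Nat.card G * Nat.card C.Gate + 3 := by
  change Nat.card (AGate (G × C.Gate)) = _
  rw [Nat.card_congr (agateEquiv _), Nat.card_sum, Nat.card_prod, Nat.card_fin]

omit [AddGroup G] in
theorem avgK_arith (C : Circuit.{0, u, 0} T K) (hC : ArithmeticOver C) (ρ : G → Perm T) :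
    ArithmeticOver (avgK C ρ) := by
  rintro (⟨u, g⟩ | _ | _ | _) h
  · refine hC g ?_
    change (C.input g).map (ρ u) = none at h
    simpa using h
  · exact Or.inl rfl
  · exact Or.inr (Or.inr ⟨_, rfl⟩)
  · exact Or.inr (Or.inl rfl)

end avgK

section local0

variable {k : Type u} [Field k]

lemma exists_liftK {R K σ : Type*} [CommRing R] [CommRing K] (ι : R →+* K)
    (f : MvPolynomial σ K) (h : ∀ d, MvPolynomial.coeff d f ∈ ι.range) :
    ∃ F : MvPolynomial σ R, MvPolynomial.map ι F = f := by
  choose c hc using h
  refine ⟨∑ d ∈ f.support, MvPolynomial.monomial d (c d), ?_⟩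
  rw [map_sum]
  conv_rhs => rw [f.as_sum]
  apply Finset.sum_congr rfl
  intro d _
  rw [MvPolynomial.map_monomial, hc]

/-- the rational functions defined at `0` -/
noncomputable def locZ (k : Type u) [Field k] : Subring (RatFunc k) where
  carrier := {x | x.denom.eval 0 ≠ 0}
  zero_mem' := by simp
  one_mem' := by simp
  add_mem' := by
    intro x y hx hy
    obtain ⟨q, hq⟩ := RatFunc.denom_add_dvd x y
    have := congrArg (Polynomial.eval 0) hq
    rw [Polynomial.eval_mul, Polynomial.eval_mul] at this
    exact left_ne_zero_of_mul (this ▸ mul_ne_zero hx hy)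
  mul_mem' := by
    intro x y hx hy
    obtain ⟨q, hq⟩ := RatFunc.denom_mul_dvd x y
    have := congrArg (Polynomial.eval 0) hq
    rw [Polynomial.eval_mul, Polynomial.eval_mul] at this
    exact left_ne_zero_of_mul (this ▸ mul_ne_zero hx hy)
  neg_mem' := by
    intro x hx
    obtain ⟨q, hq⟩ := RatFunc.denom_mul_dvd (-1) x
    have h1 : (-1 : RatFunc k).denom = 1 := by
      have : (-1 : RatFunc k) = RatFunc.C (-1) := by simp
      rw [this, RatFunc.denom_C]
    rw [h1, one_mul, neg_one_mul] at hq
    have := congrArg (Polynomial.eval 0) hq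
    rw [Polynomial.eval_mul] at this
    have hx' : x.denom.eval 0 ≠ 0 := hx
    rw [this] at hx'
    exact left_ne_zero_of_mul hx'

/-- evaluation at `0` -/
noncomputable def evZ (k : Type u) [Field k] : locZ k →+* k where
  toFun x := RatFunc.eval (RingHom.id k) 0 (x : RatFunc k)
  map_one' := by simp
  map_zero' := by simp
  map_add' := by
    intro x y
    exact RatFunc.eval_add (f := RingHom.id k) (a := 0) x.2 y.2
  map_mul' := by
    intro x y
    exact RatFunc.eval_mul (f := RingHom.id k) (a := 0) x.2 y.2

/-- the permanent as a polynomial -/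
noncomputable def perPoly (X : Type) [Finite X] (R : Type*) [CommSemiring R] :
    MvPolynomial (X × X) R := per (MvPolynomial.X : X × X → MvPolynomial (X × X) R)

theorem map_per {X : Type} [Finite X] {R S : Type*} [CommSemiring R] [CommSemiring S]
    (f : R →+* S) (x : X × X → R) : f (per x) = per (fun t => f (x t)) := by
  unfold per
  simp only [Matrix.permanent, Matrix.of_apply, map_sum, map_prod]

theorem approx_iff {X : Type} [Finite X] (C : Circuit.{0, u, w} (X × X) (RatFunc k)) :
    ApproximatesPermanent C ↔ ∃ F : MvPolynomial (X × X) (locZ k),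
      (∀ x : X × X → RatFunc k, C.eval x C.out =
        MvPolynomial.eval x (MvPolynomial.map (locZ k).subtype F)) ∧
      MvPolynomial.map (evZ k) F = perPoly X k := by
  constructor
  · rintro ⟨F, h1, h2⟩
    obtain ⟨F', hF'⟩ := exists_liftK (locZ k).subtype F fun d => by
      rw [RingHom.mem_range]
      exact ⟨⟨_, (h2 d).1⟩, rfl⟩
    refine ⟨F', ?_, ?_⟩
    · rw [hF']; exact h1
    · ext d
      rw [MvPolynomial.coeff_map]
      refine Eq.trans ?_ (h2 d).2
      rw [← hF', MvPolynomial.coeff_map]
      rfl
  · rintro ⟨F, h1, h2⟩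
    refine ⟨_, h1, fun d => ⟨?_, ?_⟩⟩
    · rw [MvPolynomial.coeff_map]
      exact (F.coeff d).2
    · have := congrArg (MvPolynomial.coeff d) h2
      rw [MvPolynomial.coeff_map] at this
      rw [MvPolynomial.coeff_map]
      exact this

theorem eval_map_hom {σ R S : Type*} [CommSemiring R] [CommSemiring S] (f : R →+* S) (g : σ → R)
    (p : MvPolynomial σ R) :
    MvPolynomial.eval (fun t => f (g t)) (MvPolynomial.map f p) = f (MvPolynomial.eval g p) := by
  induction p using MvPolynomial.induction_on with
  | C a => simp
  | add p q hp hq => simp only [map_add, hp, hq]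
  | mul_X p n hp => simp only [map_mul, hp, MvPolynomial.map_X, MvPolynomial.eval_X]

/-- the value at `ε = 0` at points of `k` -/
theorem approx_eval {X : Type} [Finite X] (C : Circuit.{0, u, w} (X × X) (RatFunc k))
    (hC : ApproximatesPermanent C) (x : X × X → Bool) :
    RatFunc.eval (RingHom.id k) 0
      (C.eval ((fun b : Bool => if b then (1 : RatFunc k) else 0) ∘ x) C.out) =
      ((per fun t => if x t then (1 : ℕ) else 0 : ℕ) : k) := by
  obtain ⟨F, h1, h2⟩ := (approx_iff C).1 hC
  have hx : ((fun b : Bool => if b then (1 : RatFunc k) else 0) ∘ x) =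
      fun t => (locZ k).subtype (if x t then 1 else 0) := by
    funext t
    by_cases h : x t <;> simp [h]
  rw [h1, hx]
  rw [eval_map_hom]
  change evZ k (MvPolynomial.eval (fun t => if x t then 1 else 0) F) = _
  have h4 := eval_map_hom (evZ k) (fun t => if x t then (1 : locZ k) else 0) F
  rw [← h4, h2, perPoly, map_per]
  have h5 := map_per (Nat.castRingHom k) (fun t => if x t then (1 : ℕ) else 0)
  refine Eq.trans ?_ h5.symm
  congr 1
  funext t
  rw [MvPolynomial.eval_X]
  by_cases h : x t <;> simp [h]

end local0

end Pool.Agent.H5Sym
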