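import Pool.Agent.H5Sym.Border

/-!
# Approximative circuits for the permanent and symmetry: main statements
-/

set_option autoImplicit false

namespace Pool.Agent.H5Sym

open Equiv Filter Topology

universe u w

theorem per_perm' {X : Type} {R : Type u} [Finite X] [CommSemiring R] (x : X × X → R)
    (τ : Perm X) : per (x ∘ pairPerm τ) = per x := by
  let _ : Fintype X := Fintype.ofFinite X
  let _ : DecidableEq X := Classical.decEq X
  have h1 : per (x ∘ pairPerm τ) =
      (((Matrix.of fun i j => x (i, j)).submatrix τ id).submatrix id τ).permanent := rfl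
  rw [h1, Matrix.permanent_permute_rows, Matrix.permanent_permute_cols]
  rfl

/-- the lower bound over `k(ε)` -/
theorem lowerBorder {k : Type u} [Field k] [CharZero k] {β X : Type} [Finite X] (e : β × K4 ↪ X)
    (C : Circuit.{0, u, w} (X × X) (RatFunc k)) [Finite C.Gate]
    (hinv : ∀ v : β → K4, C.Invariant (pairPerm ((blockShift v).viaEmbedding e)))
    (hC : ApproximatesPermanent C) :
    36 ^ (Nat.card β / 216) ≤ Nat.card C.Gate * (Nat.card β + 1) ^ 9 := by
  classical
  refine lowerPer e C (fun b : Bool => if b then (1 : RatFunc k) else 0)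
    (fun z => if h : ∃ n : ℕ, RatFunc.eval (RingHom.id k) 0 z = n then h.choose else 0) hinv ?_
  intro x _
  have h1 := approx_eval C hC x
  have h2 : ∃ n : ℕ, RatFunc.eval (RingHom.id k) 0
      (C.eval ((fun b : Bool => if b then (1 : RatFunc k) else 0) ∘ x) C.out) = n := ⟨_, h1⟩
  rw [dif_pos h2]
  have h3 := h1.symm.trans h2.choose_spec
  exact_mod_cast h3.symm

/-- the lower bound for limits over `ℂ` -/
theorem lowerLimit {β X : Type} [Finite X] (e : β × K4 ↪ X)
    (C : ℕ → Circuit.{0, 0, w} (X × X) ℂ) [∀ t, Finite (C t).Gate]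
    (hinv : ∀ t, ∀ v : β → K4, (C t).Invariant (pairPerm ((blockShift v).viaEmbedding e)))
    (hC : ∀ x : X × X → Bool, SymmetricSix x → Tendsto
      (fun t => (C t).eval (fun p => if x p then (1 : ℂ) else 0) (C t).out) atTop
      (𝓝 (per fun p => if x p then (1 : ℂ) else 0))) :
    ∀ᶠ t in atTop, 36 ^ (Nat.card β / 216) ≤ Nat.card (C t).Gate * (Nat.card β + 1) ^ 9 := by
  classical
  have hfin : Finite (X × X → Bool) := inferInstance
  have h1 : ∀ᶠ t in atTop, ∀ x : X × X → Bool, SymmetricSix x →
      dist ((C t).eval (fun p => if x p then (1 : ℂ) else 0) (C t).out)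
        (per fun p => if x p then (1 : ℂ) else 0) < 1 / 2 := by
    rw [eventually_all]
    intro x
    by_cases hx : SymmetricSix x
    · filter_upwards [(Metric.tendsto_nhds.1 (hC x hx)) (1 / 2) (by norm_num)] with t ht _
      exact ht
    · exact Eventually.of_forall fun t h => absurd h hx
  filter_upwards [h1] with t ht
  refine lowerPer e (C t) (fun b : Bool => if b then (1 : ℂ) else 0)
    (fun z => if h : ∃ n : ℕ, dist z n < 1 / 2 then h.choose else 0) (hinv t) ?_
  intro x hx
  have h2 := ht x hx
  have h3 : (per fun p => if x p then (1 : ℂ) else 0) =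
      ((per fun p => if x p then (1 : ℕ) else 0 : ℕ) : ℂ) := by
    refine Eq.trans ?_ (map_per (Nat.castRingHom ℂ) (fun t => if x t then (1 : ℕ) else 0)).symm
    congr 1
    funext t
    by_cases h : x t <;> simp [h]
  rw [h3] at h2
  have h4 : ∃ n : ℕ, dist ((C t).eval ((fun b : Bool => if b then (1 : ℂ) else 0) ∘ x) (C t).out)
      (n : ℂ) < 1 / 2 := ⟨_, h2⟩
  rw [dif_pos h4]
  have h5 := h4.choose_spec
  have h6 : dist ((h4.choose : ℕ) : ℂ) ((per fun p => if x p then (1 : ℕ) else 0 : ℕ) : ℂ) < 1 := by
    have h7 := dist_triangle_left ((h4.choose : ℕ) : ℂ)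
      ((per fun p => if x p then (1 : ℕ) else 0 : ℕ) : ℂ)
      ((C t).eval ((fun b : Bool => if b then (1 : ℂ) else 0) ∘ x) (C t).out)
    have h8 : dist ((C t).eval ((fun b : Bool => if b then (1 : ℂ) else 0) ∘ x) (C t).out)
      ((per fun p => if x p then (1 : ℕ) else 0 : ℕ) : ℂ) < 1 / 2 := h2
    linarith
  rw [Complex.dist_eq] at h6
  have h9 : |((h4.choose : ℤ) - ((per fun p => if x p then (1 : ℕ) else 0 : ℕ) : ℤ) : ℤ)| < 1 := by
    have h10 : ‖(((h4.choose : ℤ) - ((per fun p => if x p then (1 : ℕ) else 0 : ℕ) : ℤ) : ℤ) : ℂ)‖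
        < 1 := by
      push_cast
      exact h6
    rw [Complex.norm_intCast] at h10
    exact_mod_cast h10
  have := Int.abs_lt_one_iff.1 h9
  omega

/-- circuits over `k(ε)` can be made invariant -/
theorem upperBorder {k : Type u} [Field k] [CharZero k] {β X : Type} [Finite X] (e : β × K4 ↪ X)
    (C : Circuit.{0, u, 0} (X × X) (RatFunc k)) [Finite C.Gate]
    (hA : ArithmeticOver C) (hC : ApproximatesPermanent C) :
    ∃ C' : Circuit.{0, u, 0} (X × X) (RatFunc k), ArithmeticOver C' ∧
      (∀ v : β → K4, C'.Invariant (pairPerm ((blockShift v).viaEmbedding e))) ∧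
      ApproximatesPermanent C' ∧
      Nat.card C'.Gate = 4 ^ Nat.card β * Nat.card C.Gate + 3 := by
  classical
  have : Finite (β × K4) := Finite.of_injective e e.injective
  have : Finite β := Finite.of_surjective (Prod.fst : β × K4 → β) Prod.fst_surjective
  have : Finite (β → K4) := Pi.finite
  have : Fintype (β → K4) := Fintype.ofFinite _
  let ρ : (β → K4) → Perm (X × X) := fun v => pairPerm ((blockShift v).viaEmbedding e)
  have hcard : (Nat.card (β → K4) : k) ≠ 0 := by
    have : 0 < Nat.card (β → K4) := Nat.card_pos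
    exact_mod_cast this.ne'
  refine ⟨avgK C ρ, avgK_arith C hA ρ, fun v => avgK_inv C ρ (hρ_pair e) v, ?_, ?_⟩
  · obtain ⟨F, h1, h2⟩ := (approx_iff C).1 hC
    have hr : (RatFunc.C (Nat.card (β → K4) : k)⁻¹ : RatFunc k) ∈ locZ k := by
      change (RatFunc.denom _).eval 0 ≠ 0
      rw [RatFunc.denom_C]
      simp
    refine (approx_iff _).2 ⟨MvPolynomial.C ⟨_, hr⟩ * ∑ u, MvPolynomial.rename (ρ u) F, ?_, ?_⟩
    · intro x
      rw [avgK_eval]
      simp only [map_mul, map_sum, MvPolynomial.map_C, MvPolynomial.eval_C, MvPolynomial.map_rename,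
        MvPolynomial.eval_rename, h1]
      congr 1
      change _ = RatFunc.C (Nat.card (β → K4) : k)⁻¹
      rw [map_inv₀, map_natCast]
    · rw [map_mul, map_sum, MvPolynomial.map_C]
      simp only [MvPolynomial.map_rename, h2]
      have h3 : ∀ u, MvPolynomial.rename (ρ u) (perPoly X k) = perPoly X k := by
        intro u
        have h4 := map_per (MvPolynomial.rename (R := k) (ρ u)).toRingHom
          (MvPolynomial.X : X × X → MvPolynomial (X × X) k)
        refine Eq.trans h4 ?_
        simp only [AlgHom.toRingHom_eq_coe, RingHom.coe_coe, MvPolynomial.rename_X]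
        exact per_perm' (X := X) (R := MvPolynomial (X × X) k) MvPolynomial.X
          ((blockShift u).viaEmbedding e)
      simp only [h3, Finset.sum_const, Finset.card_univ, nsmul_eq_mul]
      have h5 : evZ k ⟨_, hr⟩ = (Nat.card (β → K4) : k)⁻¹ := by
        change RatFunc.eval (RingHom.id k) 0 (RatFunc.C _) = _
        rw [RatFunc.eval_C]
        rfl
      rw [h5, ← mul_assoc, ← map_natCast (MvPolynomial.C : k →+* MvPolynomial (X × X) k),
        ← map_mul, ← Nat.card_eq_fintype_card, inv_mul_cancel₀ hcard, map_one, one_mul]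
  · rw [avgK_card, Nat.card_fun]
    simp

end Pool.Agent.H5Sym
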