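import Pool.Agent.H5Sym.Basic

/-!
# The core lemma

Let an elementary abelian 2-group `V` act on the inputs of a circuit by automorphisms. If the inputs
are given by a family `ω w`, `w ∈ W`, with `v • ω w = ω (w + A v)` for a linear map `A`, and no
functional of medium weight is orthogonal to `A` (stabiliser of a gate), then the values of the gates
only depend on the functionals of small weight that are orthogonal to `A` (stabiliser).
-/

set_option autoImplicit false

namespace Pool.Agent.H5Sym

open Module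

/-- the field with two elements -/
abbrev F2 : Type := ZMod 2

theorem F2.cases (c : F2) : c = 0 ∨ c = 1 := by
  fin_cases c
  · exact Or.inl rfl
  · exact Or.inr rfl

theorem add_self_mod {M : Type*} [AddCommGroup M] [Module F2 M] (m : M) : m + m = 0 := by
  have : (2 : F2) • m = m + m := two_smul _ m
  rw [← this]
  have h2 : (2 : F2) = 0 := rfl
  rw [h2, zero_smul]

theorem map_eq_map_of_classes {β γ κ : Type*} [DecidableEq κ] (cls : β → κ) (f f' : β → γ) :
    ∀ (n : ℕ) (M : Multiset β), M.card = n →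
      (∀ k, (M.filter fun b => cls b = k).map f = (M.filter fun b => cls b = k).map f') →
      M.map f = M.map f' := by
  intro n
  induction n using Nat.strong_induction_on with
  | _ n ih =>
    intro M hM h
    rcases Multiset.empty_or_exists_mem M with rfl | ⟨a, ha⟩
    · rfl
    have e := Multiset.filter_add_not (fun b => cls b = cls a) M
    rw [← e, Multiset.map_add, Multiset.map_add, h]
    congr 1
    have hlt : (M.filter fun b => ¬ cls b = cls a).card < n := by
      have h1 := congrArg Multiset.card e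
      rw [Multiset.card_add] at h1
      have h2 : 0 < (M.filter fun b => cls b = cls a).card :=
        Multiset.card_pos_iff_exists_mem.2 ⟨a, Multiset.mem_filter.2 ⟨ha, rfl⟩⟩
      omega
    refine ih _ hlt _ rfl fun k => ?_
    rw [Multiset.filter_filter]
    by_cases hk : k = cls a
    · have : (M.filter fun b => cls b = k ∧ ¬ cls b = cls a) = 0 := by
        rw [Multiset.filter_eq_nil]
        rintro b - ⟨h1, h2⟩
        exact h2 (h1.trans hk)
      rw [this]; rfl
    · have : (M.filter fun b => cls b = k ∧ ¬ cls b = cls a) = M.filter fun b => cls b = k := by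
        refine Multiset.filter_congr fun b _ => ⟨fun h => h.1, fun h => ⟨h, fun h' => hk ?_⟩⟩
        exact h.symm.trans h'
      rw [this, h]

theorem exists_correction {V W : Type*} [AddCommGroup V] [Module F2 V] [AddCommGroup W] [Module F2 W]
    [Finite W] (A : V →ₗ[F2] W) (H : Submodule F2 V) (L : Submodule F2 (Dual F2 W)) (d : W)
    (h : ∀ q ∈ L, (∀ v ∈ H, q (A v) = 0) → q d = 0) : ∃ v ∈ H, ∀ q ∈ L, q (d + A v) = 0 := by
  have : Finite (Dual F2 W) := Finite.of_injective (fun q : Dual F2 W => (q : W → F2))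
    DFunLike.coe_injective
  have : FiniteDimensional F2 L := Module.Finite.of_finite
  let Ψ : H →ₗ[F2] Dual F2 L := LinearMap.mk₂ F2 (fun (v : H) (q : L) => q.1 (A v.1))
    (fun a b q => by simp) (fun c a q => by simp) (fun a q q' => by simp) (fun c a q => by simp)
  let δ : Dual F2 L := (Dual.eval F2 W d).comp L.subtype
  have hδ : δ ∈ LinearMap.range Ψ := by
    rw [← Subspace.dualCoannihilator_dualAnnihilator_eq (W := LinearMap.range Ψ),
      Submodule.mem_dualAnnihilator]
    intro q hq
    rw [Submodule.mem_dualCoannihilator] at hq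
    exact h q.1 q.2 fun v hv => hq (Ψ ⟨v, hv⟩) ⟨_, rfl⟩
  obtain ⟨v, hv⟩ := hδ
  refine ⟨v.1, v.2, fun q hq => ?_⟩
  have h1 : q (A v.1) = q d := congrArg (fun φ : Dual F2 L => φ ⟨q, hq⟩) hv
  rw [map_add, h1]
  exact add_self_mod _

namespace Circuit

universe u v w

variable {T : Type u} {D : Type v} (C : Circuit.{u, v, w} T D)
variable {V : Type*} [AddCommGroup V] [Module F2 V] (ρ : V → Equiv.Perm T)

omit [Module F2 V] in
theorem rho_zero {ρ : V → Equiv.Perm T} (hρ : ∀ u v, ρ (u + v) = ρ u * ρ v) : ρ 0 = 1 := by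
  have := hρ 0 0
  rw [add_zero] at this
  exact left_eq_mul.1 this

/-- the stabiliser of a gate: the elements of the group induced by an automorphism that fixes the gate -/
def stab (hρ : ∀ u v, ρ (u + v) = ρ u * ρ v) (g : C.Gate) : Submodule F2 V where
  carrier := {v | ∃ π, C.IsAut (ρ v) π ∧ π g = g}
  zero_mem' := ⟨1, by rw [rho_zero hρ]; exact IsAut.one, rfl⟩
  add_mem' := by
    rintro u v ⟨π, h1, h2⟩ ⟨π', h3, h4⟩
    refine ⟨π * π', by rw [hρ]; exact h1.mul h3, ?_⟩
    rw [Equiv.Perm.mul_apply, h4, h2]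
  smul_mem' := by
    rintro c v ⟨π, h1, h2⟩
    rcases F2.cases c with rfl | rfl
    · exact ⟨1, by rw [zero_smul, rho_zero hρ]; exact IsAut.one, rfl⟩
    · exact ⟨π, by rw [one_smul]; exact h1, h2⟩

variable {C ρ}

theorem mem_stab {hρ : ∀ u v, ρ (u + v) = ρ u * ρ v} {g : C.Gate} {v : V} :
    v ∈ C.stab ρ hρ g ↔ ∃ π, C.IsAut (ρ v) π ∧ π g = g := Iff.rfl

theorem stab_le (hρ : ∀ u v, ρ (u + v) = ρ u * ρ v) {v : V} {π : Equiv.Perm C.Gate}
    (h : C.IsAut (ρ v) π) (g : C.Gate) : C.stab ρ hρ g ≤ C.stab ρ hρ (π g) := by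
  rintro u ⟨π', h1, h2⟩
  refine ⟨π * π' * π⁻¹, ?_, ?_⟩
  · have h3 := (h.mul h1).mul h.inv
    have h4 : ρ v * ρ u * (ρ v)⁻¹ = ρ u := by
      rw [← hρ, add_comm, hρ, mul_inv_cancel_right]
    rwa [h4] at h3
  · rw [Equiv.Perm.mul_apply, Equiv.Perm.mul_apply,
      show π⁻¹ (π g) = g from π.symm_apply_apply g, h2]

theorem stab_eq (hρ : ∀ u v, ρ (u + v) = ρ u * ρ v) {v : V} {π : Equiv.Perm C.Gate}
    (h : C.IsAut (ρ v) π) (g : C.Gate) : C.stab ρ hρ (π g) = C.stab ρ hρ g := by
  refine le_antisymm ?_ (stab_le hρ h g)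
  have h0 : ρ (-v) = (ρ v)⁻¹ := by
    rw [eq_inv_iff_mul_eq_one, ← hρ, neg_add_cancel, rho_zero hρ]
  have h1 : C.IsAut (ρ (-v)) π⁻¹ := by rw [h0]; exact h.inv
  have := stab_le hρ h1 (π g)
  rwa [show π⁻¹ (π g) = g from π.symm_apply_apply g] at this

theorem stab_input (hρ : ∀ u v, ρ (u + v) = ρ u * ρ v) {g : C.Gate} {t : T} (hg : C.input g = some t)
    {v : V} (hv : v ∈ C.stab ρ hρ g) : ρ v t = t := by
  obtain ⟨π, h1, h2⟩ := hv
  have h3 := h1.input g
  rw [h2, hg] at h3
  exact (Option.some.inj h3).symm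

/-- the functionals of `small` that vanish on `A (stab g)` -/
def visible {W : Type*} [AddCommGroup W] [Module F2 W] (C : Circuit.{u, v, w} T D)
    (ρ : V → Equiv.Perm T) (hρ : ∀ u v, ρ (u + v) = ρ u * ρ v) (A : V →ₗ[F2] W)
    (small : Set (Dual F2 W)) (g : C.Gate) : Set (Dual F2 W) :=
  {q | q ∈ small ∧ ∀ v ∈ C.stab ρ hρ g, q (A v) = 0}

theorem core {W : Type*} [AddCommGroup W] [Module F2 W] [Finite W]
    (hρ : ∀ u v, ρ (u + v) = ρ u * ρ v)
    (A : V →ₗ[F2] W) (ω : W → T → D) (hω : ∀ w v t, ω (w + A v) (ρ v t) = ω w t)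
    (small : Set (Dual F2 W)) (h0 : 0 ∈ small)
    (base : ∀ t w d, (∀ q ∈ small, (∀ v, ρ v t = t → q (A v) = 0) → q d = 0) → ω (w + d) t = ω w t)
    (gap : ∀ g, ∀ q ∈ C.visible ρ hρ A small g, ∀ q' ∈ C.visible ρ hρ A small g, q + q' ∈ small) :
    ∀ g d, (∀ q ∈ C.visible ρ hρ A small g, q d = 0) → ∀ w, C.eval (ω (w + d)) g = C.eval (ω w) g := by
  classical
  suffices H : ∀ n, ∀ g, C.level g = n → ∀ d, (∀ q ∈ C.visible ρ hρ A small g, q d = 0) →
      ∀ w, C.eval (ω (w + d)) g = C.eval (ω w) g from fun g => H _ g rfl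
  -- the visible functionals form a subspace
  let L : C.Gate → Submodule F2 (Dual F2 W) := fun g =>
    { carrier := C.visible ρ hρ A small g
      zero_mem' := ⟨h0, fun v _ => rfl⟩
      add_mem' := fun {q q'} hq hq' => ⟨gap g q hq q' hq', fun v hv => by
        rw [LinearMap.add_apply, hq.2 v hv, hq'.2 v hv, add_zero]⟩
      smul_mem' := fun c q hq => by
        rcases F2.cases c with rfl | rfl
        · rw [zero_smul]; exact ⟨h0, fun v _ => rfl⟩
        · rwa [one_smul] }
  have hL : ∀ g q, q ∈ L g ↔ q ∈ C.visible ρ hρ A small g := fun g q => Iff.rfl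
  have hLπ : ∀ (v : V) (π : Equiv.Perm C.Gate), C.IsAut (ρ v) π → ∀ g, L (π g) = L g := by
    intro v π h g
    ext q
    rw [hL, hL, visible, visible, Set.mem_ofPred_eq, Set.mem_ofPred_eq, stab_eq hρ h]
  intro n
  induction n using Nat.strong_induction_on with
  | _ n ih =>
    intro g hg d hd w
    rcases hi : C.input g with _ | t
    · rw [C.eval_none hi, C.eval_none hi]
      congr 1
      refine map_eq_map_of_classes (fun e : ℕ × C.Gate => L e.2) _ _ _ _ rfl fun k => ?_
      rcases Multiset.empty_or_exists_mem ((C.wires g).filter fun e => L e.2 = k) with he | ⟨e₀, he₀⟩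
      · rw [he]; rfl
      rw [Multiset.mem_filter] at he₀
      obtain ⟨v, hv, hv'⟩ := exists_correction A (C.stab ρ hρ g) k d (fun q hq hq' => by
        refine hd q ⟨?_, hq'⟩
        rw [← he₀.2] at hq
        exact hq.1)
      obtain ⟨π, h1, h2⟩ := hv
      have hw : (C.wires g).map (Prod.map id π) = C.wires g := by rw [← h1.wires, h2]
      have hM : ((C.wires g).filter fun e => L e.2 = k) =
          ((C.wires g).filter fun e => L e.2 = k).map (Prod.map id π) := by
        conv_lhs => rw [← hw]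
        rw [Multiset.filter_map]
        congr 1
        refine Multiset.filter_congr fun e _ => ?_
        simp only [Function.comp, Prod.map]
        rw [hLπ v π h1]
      conv_lhs => rw [hM]
      rw [Multiset.map_map]
      refine Multiset.map_congr rfl fun e he => ?_
      rw [Multiset.mem_filter] at he
      simp only [Function.comp, Prod.map, id]
      have h3 : C.eval (ω (w + d)) (π e.2) = C.eval (ω (w + (d + A v))) e.2 := by
        refine h1.eval (fun t => ?_) e.2
        have := hω (w + (d + A v)) v t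
        rw [add_assoc, add_assoc, add_self_mod, add_zero] at this
        exact this
      rw [h3, ih _ (hg ▸ C.level_lt g e he.1) e.2 rfl (d + A v) ?_ w]
      intro q hq
      refine hv' q ?_
      rw [← he.2]
      exact hq
    · rw [C.eval_some hi, C.eval_some hi]
      refine base t w d fun q hq hq' => hd q ⟨hq, fun v hv => hq' v (stab_input hρ hi hv)⟩

/-- at the output gate -/
theorem core_out {W : Type*} [AddCommGroup W] [Module F2 W] [Finite W]
    (hρ : ∀ u v, ρ (u + v) = ρ u * ρ v)
    (A : V →ₗ[F2] W) (ω : W → T → D) (hω : ∀ w v t, ω (w + A v) (ρ v t) = ω w t)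
    (small : Set (Dual F2 W)) (h0 : 0 ∈ small)
    (base : ∀ t w d, (∀ q ∈ small, (∀ v, ρ v t = t → q (A v) = 0) → q d = 0) → ω (w + d) t = ω w t)
    (gap : ∀ g, ∀ q ∈ C.visible ρ hρ A small g, ∀ q' ∈ C.visible ρ hρ A small g, q + q' ∈ small)
    (q₀ : Dual F2 W) (hq₀ : q₀ ∉ small) :
    ∃ d, q₀ d = 1 ∧ ∀ w, C.eval (ω (w + d)) C.out = C.eval (ω w) C.out := by
  have : Finite (Dual F2 W) := Finite.of_injective (fun q : Dual F2 W => (q : W → F2))
    DFunLike.coe_injective
  have : FiniteDimensional F2 W := Module.Finite.of_finite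
  have key := C.core hρ A ω hω small h0 base gap C.out
  let L : Submodule F2 (Dual F2 W) :=
    { carrier := C.visible ρ hρ A small C.out
      zero_mem' := ⟨h0, fun v _ => rfl⟩
      add_mem' := fun {q q'} hq hq' => ⟨gap C.out q hq q' hq', fun v hv => by
        rw [LinearMap.add_apply, hq.2 v hv, hq'.2 v hv, add_zero]⟩
      smul_mem' := fun c q hq => by
        rcases F2.cases c with rfl | rfl
        · rw [zero_smul]; exact ⟨h0, fun v _ => rfl⟩
        · rwa [one_smul] }
  have hq : q₀ ∉ L := fun h => hq₀ h.1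
  rw [← Subspace.dualCoannihilator_dualAnnihilator_eq (W := L), Submodule.mem_dualAnnihilator] at hq
  push Not at hq
  obtain ⟨d, hd, hd'⟩ := hq
  rw [Submodule.mem_dualCoannihilator] at hd
  exact ⟨d, (F2.cases _).resolve_left hd', key d fun q hq => hd q hq⟩

end Circuit

end Pool.Agent.H5Sym
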