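import Pool.Agent.H5Sym.Gap

/-!
# The boundary map of an edge-coloured bipartite cubic graph, and a good choice of the graph
-/

set_option autoImplicit false

namespace Pool.Agent.H5Sym

open Module Equiv

variable {P : ℕ} {β : Type*}

/-- The boundary map: `ι (false, i)` and `ι (true, j)` are the blocks on the two sides; the edge
`(c, i)` of colour `c` joins `ι (false, i)` and `ι (true, σ c i)`. -/
def bdry (ι : Bool × Fin P ↪ β) (σ : Fin 3 → Perm (Fin P)) :
    (β → K4) →ₗ[F2] (Fin 3 × Fin P → F2) where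
  toFun v e := ell e.1 (v (ι (false, e.2))) + ell e.1 (v (ι (true, σ e.1 e.2)))
  map_add' u v := by
    funext e
    simp only [Pi.add_apply, ell_add]
    exact add_add_add_comm _ _ _ _
  map_smul' r v := by
    funext e
    simp only [Pi.smul_apply, ell_smul, RingHom.id_apply, smul_eq_mul, mul_add]

/-- the weight of a functional -/
def wt (q : Dual F2 (Fin 3 × Fin P → F2)) : ℕ :=
  (Finset.univ.filter fun e => q (Pi.single e 1) ≠ 0).card

theorem wt_zero : wt (0 : Dual F2 (Fin 3 × Fin P → F2)) = 0 := by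
  simp [wt]

theorem wt_add (q q' : Dual F2 (Fin 3 × Fin P → F2)) : wt (q + q') ≤ wt q + wt q' := by
  classical
  refine le_trans (Finset.card_le_card ?_) (Finset.card_union_le _ _)
  intro e he
  rw [Finset.mem_filter, LinearMap.add_apply] at he
  rw [Finset.mem_union, Finset.mem_filter, Finset.mem_filter]
  by_contra h
  push Not at h
  exact he.2 (by rw [h.1 (Finset.mem_univ e), h.2 (Finset.mem_univ e), add_zero])

/-- the triple of sets of a functional -/
def supp (q : Dual F2 (Fin 3 × Fin P → F2)) (c : Fin 3) : Finset (Fin P) :=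
  Finset.univ.filter fun i => q (Pi.single (c, i) 1) ≠ 0

theorem ind_supp (q : Dual F2 (Fin 3 × Fin P → F2)) (c : Fin 3) (i : Fin P) :
    ind (supp q) c i = q (Pi.single (c, i) 1) := by
  simp only [ind, supp, Finset.mem_filter, Finset.mem_univ, true_and]
  rcases F2.cases (q (Pi.single (c, i) 1)) with h | h <;> rw [h] <;> simp

theorem sum_supp (q : Dual F2 (Fin 3 × Fin P → F2)) : ∑ c, (supp q c).card = wt q := by
  classical
  rw [wt]
  simp only [supp]
  simp_rw [Finset.card_filter]
  rw [← Finset.univ_product_univ, Finset.sum_product]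

theorem apply_eq (q : Dual F2 (Fin 3 × Fin P → F2)) (w : Fin 3 × Fin P → F2) :
    q w = ∑ c, ∑ i, w (c, i) * q (Pi.single (c, i) 1) := by
  classical
  conv_lhs => rw [← Finset.univ_sum_single w, map_sum]
  rw [← Finset.univ_product_univ, Finset.sum_product]
  refine Finset.sum_congr rfl fun c _ => Finset.sum_congr rfl fun i _ => ?_
  have : (Pi.single (c, i) (w (c, i)) : Fin 3 × Fin P → F2) = w (c, i) • Pi.single (c, i) 1 := by
    rw [← Pi.single_smul, smul_eq_mul, mul_one]
  rw [this, map_smul, smul_eq_mul]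

theorem comp_left [DecidableEq β] (ι : Bool × Fin P ↪ β) (σ : Fin 3 → Perm (Fin P))
    (q : Dual F2 (Fin 3 × Fin P → F2)) :
    Comp (fun i a => q (bdry ι σ (Pi.single (ι (false, i)) a))) (supp q) := by
  intro i a
  refine (apply_eq q _).trans ?_
  refine Finset.sum_congr rfl fun c _ => ?_
  rw [Finset.sum_eq_single i]
  · rw [ind_supp, mul_comm]
    congr 1
    have h : ι (true, σ c i) ≠ ι (false, i) := fun h => by simpa using ι.injective h
    simp [bdry, ell_zero]
  · intro i' _ hi'
    have h : ι (true, σ c i') ≠ ι (false, i) := fun h => by simpa using ι.injective h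
    have h' : ι (false, i') ≠ ι (false, i) := fun h => hi' (by simpa using ι.injective h)
    simp [bdry, Pi.single_eq_of_ne h', ell_zero]
  · intro h; exact absurd (Finset.mem_univ i) h

theorem comp_right [DecidableEq β] (ι : Bool × Fin P ↪ β) (σ : Fin 3 → Perm (Fin P))
    (q : Dual F2 (Fin 3 × Fin P → F2)) :
    Comp (fun i a => q (bdry ι σ (Pi.single (ι (true, i)) a)))
      (fun c => (supp q c).map (σ c).toEmbedding) := by
  intro j a
  refine (apply_eq q _).trans ?_
  refine Finset.sum_congr rfl fun c _ => ?_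
  rw [Finset.sum_eq_single ((σ c).symm j)]
  · have h0 : ind (fun c => (supp q c).map (σ c).toEmbedding) c j =
        ind (supp q) c ((σ c).symm j) := by
      simp only [ind, Finset.mem_map_equiv]
    rw [h0, ind_supp, mul_comm]
    congr 1
    have h : ι (false, (σ c).symm j) ≠ ι (true, j) := fun h => by simpa using ι.injective h
    simp [bdry, ell_zero]
  · intro i' _ hi'
    have h : ι (false, i') ≠ ι (true, j) := fun h => by simpa using ι.injective h
    have h' : ι (true, σ c i') ≠ ι (true, j) := fun h => hi' (by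
      have h2 : σ c i' = j := by simpa using ι.injective h
      rw [← h2, Equiv.symm_apply_apply])
    simp [bdry, Pi.single_eq_of_ne h', ell_zero]
  · intro h; exact absurd (Finset.mem_univ _) h

/-- If there are few special functionals, there is a graph such that no functional of medium weight
has a special boundary. -/
theorem exists_good [Finite β] {κ : ℕ} (hP : 12 * κ ≤ P) (ι : Bool × Fin P ↪ β)
    (Φ : Set (Dual F2 (β → K4))) (hΦ : Φ.ncard * (6 * κ) ^ 3 < P.choose κ) :
    ∃ σ : Fin 3 → Perm (Fin P), ∀ q : Dual F2 (Fin 3 × Fin P → F2), 3 * κ ≤ wt q → wt q < 6 * κ →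
      q.comp (bdry ι σ) ∉ Φ := by
  classical
  have hfin : Finite (Dual F2 (β → K4)) :=
    Finite.of_injective (fun q : Dual F2 (β → K4) => (q : (β → K4) → F2)) DFunLike.coe_injective
  have hΦf : Φ.Finite := Φ.toFinite
  by_contra hcon
  push Not at hcon
  let g : Dual F2 (β → K4) → Finset (Fin 3 → Perm (Fin P)) := fun φ =>
    bad κ (fun i a => φ (Pi.single (ι (false, i)) a)) (fun i a => φ (Pi.single (ι (true, i)) a))
  have hsub : (Finset.univ : Finset (Fin 3 → Perm (Fin P))) ⊆ hΦf.toFinset.biUnion g := by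
    intro σ _
    obtain ⟨q, h1, h2, h3⟩ := hcon σ
    rw [Finset.mem_biUnion]
    refine ⟨q.comp (bdry ι σ), hΦf.mem_toFinset.2 h3, ?_⟩
    simp only [g, bad, Finset.mem_filter, Finset.mem_univ, true_and]
    exact ⟨supp q, comp_left ι σ q, comp_right ι σ q, by rwa [sum_supp], by rwa [sum_supp]⟩
  have h1 := (Finset.card_le_card hsub).trans Finset.card_biUnion_le
  have h2 : (Finset.univ : Finset (Fin 3 → Perm (Fin P))).card = P.factorial ^ 3 := by
    simp [Fintype.card_perm]
  rw [h2] at h1
  have h3 : P.factorial ^ 3 * P.choose κ ≤ Φ.ncard * (6 * κ) ^ 3 * P.factorial ^ 3 := by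
    calc P.factorial ^ 3 * P.choose κ ≤ (∑ φ ∈ hΦf.toFinset, (g φ).card) * P.choose κ :=
          Nat.mul_le_mul_right _ h1
      _ = ∑ φ ∈ hΦf.toFinset, (g φ).card * P.choose κ := Finset.sum_mul _ _ _
      _ ≤ ∑ φ ∈ hΦf.toFinset, (6 * κ) ^ 3 * P.factorial ^ 3 :=
          Finset.sum_le_sum fun φ _ => bad_card hP _ _
      _ = Φ.ncard * (6 * κ) ^ 3 * P.factorial ^ 3 := by
          rw [Finset.sum_const, smul_eq_mul, Set.ncard_eq_toFinset_card Φ hΦf, mul_assoc]
  have h4 : 0 < P.factorial ^ 3 := pow_pos P.factorial_pos 3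
  have h5 := (Nat.mul_lt_mul_right h4).2 hΦ
  rw [mul_comm] at h3
  omega

end Pool.Agent.H5Sym
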