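import Pool.Agent.H5Sym.Gap9

/-!
# The boundary map of a simple edge-coloured bipartite cubic graph, and a good choice of the graph
-/

set_option autoImplicit false

namespace Pool.Agent.H5Sym

open Module Equiv

variable {V : Type*} {β : Type*}

/-- The boundary map: `ι (false, i)` and `ι (true, j)` are the blocks on the two sides; the edge
`(c, i)` of colour `c` joins `ι (false, i)` and `ι (true, σ c i)`. -/
def bdryV (ι : Bool × V ↪ β) (σ : Fin 3 → Perm V) : (β → K4) →ₗ[F2] (Fin 3 × V → F2) where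
  toFun v e := ell e.1 (v (ι (false, e.2))) + ell e.1 (v (ι (true, σ e.1 e.2)))
  map_add' u v := by
    funext e
    simp only [Pi.add_apply, ell_add]
    exact add_add_add_comm _ _ _ _
  map_smul' r v := by
    funext e
    simp only [Pi.smul_apply, ell_smul, RingHom.id_apply, smul_eq_mul, mul_add]

theorem bdryV_apply (ι : Bool × V ↪ β) (σ : Fin 3 → Perm V) (v : β → K4) (e : Fin 3 × V) :
    bdryV ι σ v e = ell e.1 (v (ι (false, e.2))) + ell e.1 (v (ι (true, σ e.1 e.2))) := rfl

variable [Fintype V] [DecidableEq V]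

/-- the weight of a functional -/
def wtV (q : Dual F2 (Fin 3 × V → F2)) : ℕ :=
  (Finset.univ.filter fun e => q (Pi.single e 1) ≠ 0).card

theorem wtV_zero : wtV (0 : Dual F2 (Fin 3 × V → F2)) = 0 := by
  simp [wtV]

theorem wtV_add (q q' : Dual F2 (Fin 3 × V → F2)) : wtV (q + q') ≤ wtV q + wtV q' := by
  refine le_trans (Finset.card_le_card ?_) (Finset.card_union_le _ _)
  intro e he
  rw [Finset.mem_filter, LinearMap.add_apply] at he
  rw [Finset.mem_union, Finset.mem_filter, Finset.mem_filter]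
  by_contra h
  push Not at h
  exact he.2 (by rw [h.1 (Finset.mem_univ e), h.2 (Finset.mem_univ e), add_zero])

/-- the triple of sets of a functional -/
def suppV (q : Dual F2 (Fin 3 × V → F2)) (c : Fin 3) : Finset V :=
  Finset.univ.filter fun i => q (Pi.single (c, i) 1) ≠ 0

theorem ind_suppV (q : Dual F2 (Fin 3 × V → F2)) (c : Fin 3) (i : V) :
    indV (suppV q) c i = q (Pi.single (c, i) 1) := by
  simp only [indV, suppV, Finset.mem_filter, Finset.mem_univ, true_and]
  rcases F2.cases (q (Pi.single (c, i) 1)) with h | h <;> rw [h] <;> simp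

theorem sum_suppV (q : Dual F2 (Fin 3 × V → F2)) : ∑ c, (suppV q c).card = wtV q := by
  rw [wtV]
  simp only [suppV]
  simp_rw [Finset.card_filter]
  rw [← Finset.univ_product_univ, Finset.sum_product]

theorem applyV_eq (q : Dual F2 (Fin 3 × V → F2)) (w : Fin 3 × V → F2) :
    q w = ∑ c, ∑ i, w (c, i) * q (Pi.single (c, i) 1) := by
  conv_lhs => rw [← Finset.univ_sum_single w, map_sum]
  rw [← Finset.univ_product_univ, Finset.sum_product]
  refine Finset.sum_congr rfl fun c _ => Finset.sum_congr rfl fun i _ => ?_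
  have : (Pi.single (c, i) (w (c, i)) : Fin 3 × V → F2) = w (c, i) • Pi.single (c, i) 1 := by
    rw [← Pi.single_smul, smul_eq_mul, mul_one]
  rw [this, map_smul, smul_eq_mul]

theorem compV_left [DecidableEq β] (ι : Bool × V ↪ β) (σ : Fin 3 → Perm V)
    (q : Dual F2 (Fin 3 × V → F2)) :
    CompV (fun i a => q (bdryV ι σ (Pi.single (ι (false, i)) a))) (suppV q) := by
  intro i a
  refine (applyV_eq q _).trans ?_
  refine Finset.sum_congr rfl fun c _ => ?_
  rw [Finset.sum_eq_single i]
  · rw [ind_suppV, mul_comm]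
    congr 1
    have h : ι (true, σ c i) ≠ ι (false, i) := fun h => by simpa using ι.injective h
    simp [bdryV, ell_zero]
  · intro i' _ hi'
    have h : ι (true, σ c i') ≠ ι (false, i) := fun h => by simpa using ι.injective h
    have h' : ι (false, i') ≠ ι (false, i) := fun h => hi' (by simpa using ι.injective h)
    simp [bdryV, Pi.single_eq_of_ne h', ell_zero]
  · intro h; exact absurd (Finset.mem_univ i) h

theorem compV_right [DecidableEq β] (ι : Bool × V ↪ β) (σ : Fin 3 → Perm V)
    (q : Dual F2 (Fin 3 × V → F2)) :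
    CompV (fun i a => q (bdryV ι σ (Pi.single (ι (true, i)) a)))
      (fun c => (suppV q c).map (σ c).toEmbedding) := by
  intro j a
  refine (applyV_eq q _).trans ?_
  refine Finset.sum_congr rfl fun c _ => ?_
  rw [Finset.sum_eq_single ((σ c).symm j)]
  · have h0 : indV (fun c => (suppV q c).map (σ c).toEmbedding) c j =
        indV (suppV q) c ((σ c).symm j) := by
      simp only [indV, Finset.mem_map_equiv]
    rw [h0, ind_suppV, mul_comm]
    congr 1
    have h : ι (false, (σ c).symm j) ≠ ι (true, j) := fun h => by simpa using ι.injective h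
    simp [bdryV, ell_zero]
  · intro i' _ hi'
    have h : ι (false, i') ≠ ι (true, j) := fun h => by simpa using ι.injective h
    have h' : ι (true, σ c i') ≠ ι (true, j) := fun h => hi' (by
      have h2 : σ c i' = j := by simpa using ι.injective h
      rw [← h2, Equiv.symm_apply_apply])
    simp [bdryV, Pi.single_eq_of_ne h', ell_zero]
  · intro h; exact absurd (Finset.mem_univ _) h

/-- If there are few special functionals, there is a graph such that no functional of medium weight
has a special boundary. -/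
theorem exists_good9 {Q : ℕ} [Finite β] {κ : ℕ} (hQ : 36 * κ ≤ Q) (ι : Bool × Vx Q ↪ β)
    (Φ : Set (Dual F2 (β → K4))) (hΦ : Φ.ncard * (18 * κ) ^ 9 < Q.choose κ) :
    ∃ τ : Fin 3 → Fin 3 → Perm (Fin Q), ∀ q : Dual F2 (Fin 3 × Vx Q → F2), 9 * κ ≤ wtV q →
      wtV q < 18 * κ → q.comp (bdryV ι (sig τ)) ∉ Φ := by
  classical
  have hfin : Finite (Dual F2 (β → K4)) :=
    Finite.of_injective (fun q : Dual F2 (β → K4) => (q : (β → K4) → F2)) DFunLike.coe_injective
  have hΦf : Φ.Finite := Φ.toFinite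
  by_contra hcon
  push Not at hcon
  let g : Dual F2 (β → K4) → Finset (Fin 3 → Fin 3 → Perm (Fin Q)) := fun φ =>
    bad9 κ (fun i a => φ (Pi.single (ι (false, i)) a)) (fun i a => φ (Pi.single (ι (true, i)) a))
  have hsub : (Finset.univ : Finset (Fin 3 → Fin 3 → Perm (Fin Q))) ⊆ hΦf.toFinset.biUnion g := by
    intro τ _
    obtain ⟨q, h1, h2, h3⟩ := hcon τ
    rw [Finset.mem_biUnion]
    refine ⟨q.comp (bdryV ι (sig τ)), hΦf.mem_toFinset.2 h3, ?_⟩
    simp only [g, bad9, Finset.mem_filter, Finset.mem_univ, true_and]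
    exact ⟨suppV q, compV_left ι (sig τ) q, compV_right ι (sig τ) q, by rwa [sum_suppV],
      by rwa [sum_suppV]⟩
  have h1 := (Finset.card_le_card hsub).trans Finset.card_biUnion_le
  have h2 : (Finset.univ : Finset (Fin 3 → Fin 3 → Perm (Fin Q))).card = Q.factorial ^ 9 := by
    simp only [Finset.card_univ, Fintype.card_fun, Fintype.card_fin, Fintype.card_perm]
    ring
  rw [h2] at h1
  have h3 : Q.factorial ^ 9 * Q.choose κ ≤ Φ.ncard * (18 * κ) ^ 9 * Q.factorial ^ 9 := by
    calc Q.factorial ^ 9 * Q.choose κ ≤ (∑ φ ∈ hΦf.toFinset, (g φ).card) * Q.choose κ :=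
          Nat.mul_le_mul_right _ h1
      _ = ∑ φ ∈ hΦf.toFinset, (g φ).card * Q.choose κ := Finset.sum_mul _ _ _
      _ ≤ ∑ φ ∈ hΦf.toFinset, (18 * κ) ^ 9 * Q.factorial ^ 9 :=
          Finset.sum_le_sum fun φ _ => bad9_card hQ _ _
      _ = Φ.ncard * (18 * κ) ^ 9 * Q.factorial ^ 9 := by
          rw [Finset.sum_const, smul_eq_mul, Set.ncard_eq_toFinset_card Φ hΦf, mul_assoc]
  have h4 : 0 < Q.factorial ^ 9 := pow_pos Q.factorial_pos 9
  have h5 := (Nat.mul_lt_mul_right h4).2 hΦ
  rw [mul_comm] at h3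
  omega

universe u v w

/-- A circuit with few gates that is invariant under the translations does not see, for a suitable
simple cubic graph, the parity of the sum of the parameters of any equivariant local family of
inputs. -/
theorem fooling9 {Q : ℕ} [Finite β] {T : Type u} {D : Type v} (C : Circuit.{u, v, w} T D)
    [Finite C.Gate] (ρ : (β → K4) → Perm T) (hρ : ∀ u v, ρ (u + v) = ρ u * ρ v)
    (hC : ∀ v, C.Invariant (ρ v)) {κ : ℕ} (hκ : 0 < κ) (hQ : 36 * κ ≤ Q) (ι : Bool × Vx Q ↪ β)
    (hcard : Nat.card C.Gate * (18 * κ) ^ 9 < Q.choose κ) :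
    ∃ (τ : Fin 3 → Fin 3 → Perm (Fin Q)) (d : Fin 3 × Vx Q → F2), ∑ e, d e = 1 ∧
      ∀ ω : (Fin 3 × Vx Q → F2) → T → D,
        (∀ w v t, ω (w + bdryV ι (sig τ) v) (ρ v t) = ω w t) →
        (∀ t w d, (∀ e, (∀ v, ρ v t = t → bdryV ι (sig τ) v e = 0) → d e = 0) →
          ω (w + d) t = ω w t) →
        ∀ w, C.eval (ω (w + d)) C.out = C.eval (ω w) C.out := by
  classical
  obtain ⟨τ, hτ⟩ := exists_good9 (κ := κ) hQ ι (C.special ρ hρ)
    (lt_of_le_of_lt (Nat.mul_le_mul_right _ (Circuit.special_card hρ hC)) hcard)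
  refine ⟨τ, ?_⟩
  let q₀ : Dual F2 (Fin 3 × Vx Q → F2) := ∑ e, LinearMap.proj e
  have hq₀ : ∀ d, q₀ d = ∑ e, d e := fun d => by simp [q₀]
  let small : Set (Dual F2 (Fin 3 × Vx Q → F2)) := {q | wtV q < 9 * κ}
  have h0 : (0 : Dual F2 (Fin 3 × Vx Q → F2)) ∈ small := by
    change wtV 0 < 9 * κ
    rw [wtV_zero]; omega
  have hgap : ∀ g, ∀ q ∈ C.visible ρ hρ (bdryV ι (sig τ)) small g,
      ∀ q' ∈ C.visible ρ hρ (bdryV ι (sig τ)) small g, q + q' ∈ small := by
    intro g q hq q' hq'
    rw [Circuit.visible, Set.mem_ofPred_eq] at hq hq'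
    have h1 : (q + q').comp (bdryV ι (sig τ)) ∈ C.special ρ hρ := by
      refine ⟨g, fun v hv => ?_⟩
      rw [LinearMap.comp_apply, LinearMap.add_apply, hq.2 v hv, hq'.2 v hv, add_zero]
    have h2 := wtV_add q q'
    have h3 : wtV q < 9 * κ := hq.1
    have h4 : wtV q' < 9 * κ := hq'.1
    change wtV (q + q') < 9 * κ
    by_contra h5
    exact hτ (q + q') (by omega) (by omega) h1
  let L : Submodule F2 (Dual F2 (Fin 3 × Vx Q → F2)) :=
    { carrier := C.visible ρ hρ (bdryV ι (sig τ)) small C.out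
      zero_mem' := ⟨h0, fun v _ => rfl⟩
      add_mem' := fun {q q'} hq hq' => ⟨hgap C.out q hq q' hq', fun v hv => by
        rw [LinearMap.add_apply, hq.2 v hv, hq'.2 v hv, add_zero]⟩
      smul_mem' := fun c q hq => by
        rcases F2.cases c with rfl | rfl
        · rw [zero_smul]; exact ⟨h0, fun v _ => rfl⟩
        · rwa [one_smul] }
  have hq : q₀ ∉ L := by
    intro h
    have h1 : wtV q₀ < 9 * κ := h.1
    have h2 : wtV q₀ = 3 * (3 * Q) := by
      rw [wtV, Finset.filter_true_of_mem]
      · simp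
      · intro e _
        rw [hq₀, Finset.sum_pi_single']
        simp
    omega
  rw [← Subspace.dualCoannihilator_dualAnnihilator_eq (W := L), Submodule.mem_dualAnnihilator] at hq
  push Not at hq
  obtain ⟨d, hd, hd'⟩ := hq
  rw [Submodule.mem_dualCoannihilator] at hd
  refine ⟨d, by rw [← hq₀]; exact (F2.cases _).resolve_left hd', fun ω hω hb w => ?_⟩
  refine Circuit.core hρ (bdryV ι (sig τ)) ω hω small h0 ?_ hgap C.out d (fun q hq => hd q hq) w
  intro t w d hd
  refine hb t w d fun e he => ?_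
  refine hd (LinearMap.proj e) ?_ fun v hv => he v hv
  change wtV _ < 9 * κ
  have h1 : wtV (LinearMap.proj e : Dual F2 (Fin 3 × Vx Q → F2)) ≤ 1 := by
    rw [wtV, Finset.card_le_one]
    intro a ha b hb
    simp only [Finset.mem_filter, Finset.mem_univ, true_and, LinearMap.proj_apply,
      Pi.single_apply] at ha hb
    by_contra hab
    rcases eq_or_ne e a with h2 | h2
    · rcases eq_or_ne e b with h3 | h3
      · exact hab (h2.symm.trans h3)
      · exact hb (if_neg h3)
    · exact ha (if_neg h2)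
  omega

end Pool.Agent.H5Sym
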