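import Pool.Agent.H5Sym.CircuitDefs
import Pool.Agent.H5Sym.BlockDefs

/-!
# Monotone 2-CNF formulas: definitions
-/

set_option autoImplicit false

namespace Pool.Agent.H5Sym

/-- the number of satisfying assignments of the monotone 2-CNF formula with the variables `X` and the
clauses `p ∨ q`, `x (p, q) = true` -/
noncomputable def numSat {X : Type*} (x : X × X → Bool) : ℕ :=
  Nat.card {a : X → Bool // ∀ p q, x (p, q) = true → a p = true ∨ a q = true}

/-- The graph of the monotone 2-CNF `x` (its clauses are `p ∨ q` with `x (p, q) = true`) is undirected,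
bipartite and has maximum degree at most six. -/
structure Bipartite6 {X : Type} (x : X × X → Bool) : Prop where
  symm : ∀ p q, x (p, q) = x (q, p)
  bipartite : ∃ side : X → Bool, ∀ p q, x (p, q) = true → side p ≠ side q
  degree : ∀ p, {q | x (p, q) = true}.ncard ≤ 6

end Pool.Agent.H5Sym
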