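import Pool.Agent.H5Sym.SatMain

/-!
# 3SAT and circuits that are invariant under flips of variables

The input is a 3-CNF formula with the variables `V`, given by the indicator function of its set of
clauses. Flipping (complementing) a set of variables permutes the formulas and preserves
satisfiability. Let `U` be any group of such flips, i.e. a subspace of the vector space of all subsets
of the variables over the field with two elements.

(1) Circuits of any depth with arbitrary symmetric gates that are invariant under `U` and solve 3SAT
need `2 ^ Ω (dim U)` gates. This holds even if they only have to distinguish the satisfiable formulas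
from those in which at most a fraction `7 / 8 + ε` of the clauses can be satisfied.

(2) On the other hand, the circuit complexity of 3SAT for circuits invariant under `U` is at most
`2 ^ dim U` times the circuit complexity of 3SAT.

So invariance under flips costs a factor exponential in `dim U` or the problem is as hard as the
original one: for `dim U / log n → ∞` there are no such circuits of polynomial size, and for
`dim U = O (log n)` they exist if and only if 3SAT has circuits of polynomial size at all.

Proof idea of (1). A formula that encodes a linear system with three variables per row, with a random
sparse matrix and `C n` rows. A gate with a small orbit depends, by induction on the level, only on few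
sums of right-hand sides: sums over small sets of rows whose sum vanishes on the stabiliser of the
gate. This needs that no set of rows of medium size has this property, which holds for a random
matrix, as a circuit with `s` gates has at most `s` functionals on `U` that vanish on the stabiliser of
some gate. So the output does not depend on the right-hand side at all.
-/

set_option autoImplicit false

namespace Pool.Agent.H5Sym.FlipResult

open Pool.Agent.H5Sym

universe u w

/-- **Theorem.** Let `U` be a subspace of `V → ZMod 2`, which acts on the 3-CNF formulas with the
variables `V` by flipping variables.
(1) Let `0 < ε ≤ 1 / 8`. Let `C` be a circuit with values in any set `D` whose gates compute arbitrary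
functions of the multiset of the labelled values of their wires. Suppose that `C` is invariant under
`U`, accepts all satisfiable formulas and rejects all formulas in which every assignment satisfies less
than `7 / 8 + ε` times the number of clauses (for `ε = 1 / 8`: all unsatisfiable formulas). Then `C` has
at least `2 ^ ⌊ε ^ 4 * dim U / 6⌋` gates.
(2) For every Boolean circuit `C` that decides the satisfiability of all formulas there is a circuit
that does so and is invariant under `U`, with `2 ^ dim U * |C| + 1` gates, each of which computes the
same function as a gate of `C` or the OR function. -/
theorem result :
    (∀ (V : Type) [Finite V] (U : Submodule (ZMod 2) (V → ZMod 2)) (D : Type u)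
      (C : Circuit.{0, u, w} (Clause V) D) [Finite C.Gate] (inp : Bool → D) (acc : D → Prop)
      (ε : ℝ), 0 < ε → ε ≤ 1 / 8 → (∀ u ∈ U, C.Invariant (flip u)) →
      (∀ x, Satisfiable x → acc (C.eval (inp ∘ x) C.out)) →
      (∀ x, ValueLT (7 / 8 + ε) x → ¬ acc (C.eval (inp ∘ x) C.out)) →
      2 ^ ⌊ε ^ 4 * Module.finrank (ZMod 2) U / 6⌋₊ ≤ Nat.card C.Gate) ∧
    ∀ (V : Type) [Finite V] (U : Submodule (ZMod 2) (V → ZMod 2))
      (C : Circuit.{0, 0, w} (Clause V) Bool) [Finite C.Gate],
      (∀ x, C.eval x C.out = true ↔ Satisfiable x) →
      ∃ C' : Circuit.{0, 0, w} (Clause V) Bool, (∀ u ∈ U, C'.Invariant (flip u)) ∧
        (∀ x, C'.eval x C'.out = true ↔ Satisfiable x) ∧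
        (∀ g, C'.op g = orGate ∨ ∃ h, C'.op g = C.op h) ∧
        Nat.card C'.Gate = 2 ^ Module.finrank (ZMod 2) U * Nat.card C.Gate + 1 :=
  ⟨fun _ _ U _ C _ inp acc _ h1 h2 h3 h4 h5 => lower3 U C inp acc h1 h2 h3 h4 h5,
    fun _ _ U C _ hC => upper3 U C hC⟩

end Pool.Agent.H5Sym.FlipResult
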