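import Pool.Agent.H5Sym.Orbit

/-!
# Random edge-coloured cubic graphs have no visible functionals of medium weight
-/

set_option autoImplicit false

namespace Pool.Agent.H5Sym

open Module Equiv

/-- the three nonzero functionals of the Klein four-group -/
def ell (c : Fin 3) (a : K4) : F2 := ![a.1, a.2, a.1 + a.2] c

theorem ell_add (c : Fin 3) (a b : K4) : ell c (a + b) = ell c a + ell c b := by
  fin_cases c
  · rfl
  · rfl
  · simp only [ell]
    exact add_add_add_comm a.1 b.1 a.2 b.2

theorem ell_zero (c : Fin 3) : ell c 0 = 0 := by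
  fin_cases c <;> rfl

theorem ell_smul (c : Fin 3) (r : F2) (a : K4) : ell c (r • a) = r * ell c a := by
  rcases F2.cases r with rfl | rfl
  · rw [zero_smul, ell_zero, zero_mul]
  · rw [one_smul, one_mul]

theorem ell_sum (a : K4) : ell 0 a + ell 1 a + ell 2 a = 0 := by
  revert a; decide

/-- a triple of coefficients is determined by one coefficient and the functional -/
theorem triple_unique (x y : Fin 3 → F2) (h : ∀ a : K4, ∑ c, x c * ell c a = ∑ c, y c * ell c a)
    (c : Fin 3) (hc : x c = y c) : x = y := by
  revert x y c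
  decide

variable {P : ℕ}

theorem choose_le_choose_half {n r s : ℕ} (h : r ≤ s) (hs : 2 * s ≤ n) :
    n.choose r ≤ n.choose s := by
  induction s, h using Nat.le_induction with
  | base => exact le_rfl
  | succ s hrs ih =>
    exact (ih (by omega)).trans (Nat.choose_le_succ_of_lt_half_left (by omega))

/-- number of permutations that map `S` to `S'` -/
theorem perm_count (S S' : Finset (Fin P)) :
    (Finset.univ.filter fun σ : Perm (Fin P) => S.map σ.toEmbedding = S').card *
      P.choose S.card ≤ P.factorial := by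
  classical
  by_cases hc : S.card = S'.card
  swap
  · have : (Finset.univ.filter fun σ : Perm (Fin P) => S.map σ.toEmbedding = S') = ∅ := by
      rw [Finset.filter_eq_empty_iff]
      intro σ _ h
      exact hc (by rw [← h, Finset.card_map])
    rw [this, Finset.card_empty, zero_mul]
    exact Nat.zero_le _
  have h1 : ∀ S'' ∈ Finset.powersetCard S.card (Finset.univ : Finset (Fin P)),
      (Finset.univ.filter fun σ : Perm (Fin P) => S.map σ.toEmbedding = S').card =
        (Finset.univ.filter fun σ : Perm (Fin P) => S.map σ.toEmbedding = S'').card := by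
    intro S'' hS''
    have hcard : S'.card = S''.card := by rw [← hc, (Finset.mem_powersetCard.1 hS'').2]
    let e : {x // x ∈ S'} ≃ {x // x ∈ S''} := Finset.equivOfCardEq hcard
    let τ : Perm (Fin P) := e.extendSubtype
    have hτ : S'.map τ.toEmbedding = S'' := by
      refine Finset.eq_of_subset_of_card_le ?_ (by rw [Finset.card_map, hcard])
      intro y hy
      obtain ⟨x, hx, rfl⟩ := Finset.mem_map.1 hy
      exact e.extendSubtype_mem x hx
    refine Finset.card_bij (fun σ _ => σ.trans τ) ?_ ?_ ?_
    · intro σ hσ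
      rw [Finset.mem_filter] at hσ ⊢
      refine ⟨Finset.mem_univ _, ?_⟩
      rw [← hτ, ← hσ.2, Finset.map_map]
      rfl
    · intro σ _ σ' _ h
      have := congrArg (fun ρ : Perm (Fin P) => ρ.trans τ.symm) h
      simpa [Equiv.trans_assoc] using this
    · intro σ hσ
      refine ⟨σ.trans τ.symm, ?_, by simp [Equiv.trans_assoc]⟩
      rw [Finset.mem_filter] at hσ ⊢
      refine ⟨Finset.mem_univ _, ?_⟩
      have h2 : S.map (σ.trans τ.symm).toEmbedding = (S.map σ.toEmbedding).map τ.symm.toEmbedding := by
        rw [Finset.map_map]; rfl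
      rw [h2, hσ.2, ← hτ, Finset.map_map]
      ext x
      simp
  have h2 : (Finset.univ.filter fun σ : Perm (Fin P) => S.map σ.toEmbedding = S').card *
      P.choose S.card =
        ∑ S'' ∈ Finset.powersetCard S.card (Finset.univ : Finset (Fin P)),
          (Finset.univ.filter fun σ : Perm (Fin P) => S.map σ.toEmbedding = S'').card := by
    rw [Finset.sum_congr rfl fun S'' hS'' => (h1 S'' hS'').symm, Finset.sum_const,
      Finset.card_powersetCard, Finset.card_univ, Fintype.card_fin, smul_eq_mul, mul_comm]
  rw [h2]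
  have h3 : ∑ S'' ∈ Finset.powersetCard S.card (Finset.univ : Finset (Fin P)),
          (Finset.univ.filter fun σ : Perm (Fin P) => S.map σ.toEmbedding = S'').card ≤
      (Finset.univ : Finset (Perm (Fin P))).card := by
    rw [← Finset.card_biUnion]
    · exact Finset.card_le_card (Finset.subset_univ _)
    · intro a _ b _ hab
      rw [Function.onFun, Finset.disjoint_left]
      intro σ h h'
      rw [Finset.mem_filter] at h h'
      exact hab (h.2.symm.trans h'.2)
  rwa [Finset.card_univ, Fintype.card_perm, Fintype.card_fin] at h3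

/-- the indicator function of a triple of sets -/
def ind (S : Fin 3 → Finset (Fin P)) (c : Fin 3) (i : Fin P) : F2 := if i ∈ S c then 1 else 0

/-- the triple of sets `S` has the local functionals `ψ` -/
def Comp (ψ : Fin P → K4 → F2) (S : Fin 3 → Finset (Fin P)) : Prop :=
  ∀ i a, ψ i a = ∑ c, ind S c i * ell c a

theorem Comp.unique {ψ : Fin P → K4 → F2} {S S' : Fin 3 → Finset (Fin P)} (h : Comp ψ S)
    (h' : Comp ψ S') (c : Fin 3) (hc : S c = S' c) : S = S' := by
  have key : ∀ i, (fun c => ind S c i) = fun c => ind S' c i := by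
    intro i
    refine triple_unique _ _ (fun a => (h i a).symm.trans (h' i a)) c ?_
    simp only [ind, hc]
  funext c'
  ext i
  have := congrFun (key i) c'
  simp only [ind] at this
  by_cases h1 : i ∈ S c' <;> by_cases h2 : i ∈ S' c' <;> simp_all

open Classical in
/-- the pairs of compatible triples of sets with given sizes -/
noncomputable def pairs (ψ ψ' : Fin P → K4 → F2) (k : Fin 3 → ℕ) :
    Finset ((Fin 3 → Finset (Fin P)) × (Fin 3 → Finset (Fin P))) :=
  Finset.univ.filter fun p => Comp ψ p.1 ∧ Comp ψ' p.2 ∧ (∀ c, (p.1 c).card = k c) ∧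
    ∀ c, (p.2 c).card = k c

theorem pairs_card (ψ ψ' : Fin P → K4 → F2) (k : Fin 3 → ℕ) (c c' : Fin 3) :
    (pairs ψ ψ' k).card ≤ P.choose (k c) * P.choose (k c') := by
  classical
  have h : (Finset.powersetCard (k c) (Finset.univ : Finset (Fin P)) ×ˢ
      Finset.powersetCard (k c') (Finset.univ : Finset (Fin P))).card =
        P.choose (k c) * P.choose (k c') := by
    rw [Finset.card_product, Finset.card_powersetCard, Finset.card_powersetCard, Finset.card_univ,
      Fintype.card_fin]
  rw [← h]
  refine Finset.card_le_card_of_injOn (fun p => (p.1 c, p.2 c')) ?_ ?_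
  · intro p hp
    simp only [pairs, Finset.coe_filter, Finset.mem_univ, true_and, Set.mem_ofPred_eq] at hp
    simp only [Finset.coe_product, Set.mem_prod, Finset.mem_coe, Finset.mem_powersetCard,
      Finset.subset_univ, true_and]
    exact ⟨hp.2.2.1 c, hp.2.2.2 c'⟩
  · intro p hp p' hp' h
    simp only [pairs, Finset.coe_filter, Finset.mem_univ, true_and, Set.mem_ofPred_eq] at hp hp'
    simp only [Prod.mk.injEq] at h
    exact Prod.ext (hp.1.unique hp'.1 c h.1) (hp.2.1.unique hp'.2.1 c' h.2)

/-- the permutations that map the triple `S` to the triple `S'` -/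
theorem perms_card (S S' : Fin 3 → Finset (Fin P)) :
    (Finset.univ.filter fun σ : Fin 3 → Perm (Fin P) =>
      ∀ c, (S c).map (σ c).toEmbedding = S' c).card * ∏ c, P.choose (S c).card ≤
        P.factorial ^ 3 := by
  classical
  have h : (Finset.univ.filter fun σ : Fin 3 → Perm (Fin P) =>
      ∀ c, (S c).map (σ c).toEmbedding = S' c) =
      Fintype.piFinset fun c => Finset.univ.filter fun σ : Perm (Fin P) =>
        (S c).map σ.toEmbedding = S' c := by
    ext σ
    simp
  rw [h, Fintype.card_piFinset, ← Finset.prod_mul_distrib]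
  calc ∏ c, (Finset.univ.filter fun σ : Perm (Fin P) => (S c).map σ.toEmbedding = S' c).card *
        P.choose (S c).card ≤ ∏ _c : Fin 3, P.factorial :=
        Finset.prod_le_prod' fun c _ => perm_count (S c) (S' c)
    _ = P.factorial ^ 3 := by simp

open Classical in
/-- the triples of permutations which are bad for the local functionals `ψ`, `ψ'` -/
noncomputable def bad (κ : ℕ) (ψ ψ' : Fin P → K4 → F2) : Finset (Fin 3 → Perm (Fin P)) :=
  Finset.univ.filter fun σ => ∃ S : Fin 3 → Finset (Fin P), Comp ψ S ∧
    Comp ψ' (fun c => (S c).map (σ c).toEmbedding) ∧ 3 * κ ≤ ∑ c, (S c).card ∧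
      ∑ c, (S c).card < 6 * κ

theorem bad_card {κ : ℕ} (hP : 12 * κ ≤ P) (ψ ψ' : Fin P → K4 → F2) :
    (bad κ ψ ψ').card * P.choose κ ≤ (6 * κ) ^ 3 * P.factorial ^ 3 := by
  classical
  -- the size vectors
  let ks : Finset (Fin 3 → ℕ) := (Fintype.piFinset fun _ => Finset.range (6 * κ)).filter
    fun k => 3 * κ ≤ ∑ c, k c
  let f : (Fin 3 → Finset (Fin P)) × (Fin 3 → Finset (Fin P)) → Finset (Fin 3 → Perm (Fin P)) :=
    fun p => Finset.univ.filter fun σ => ∀ c, (p.1 c).map (σ c).toEmbedding = p.2 c
  have hsub : bad κ ψ ψ' ⊆ ks.biUnion fun k => (pairs ψ ψ' k).biUnion f := by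
    intro σ hσ
    simp only [bad, Finset.mem_filter, Finset.mem_univ, true_and] at hσ
    obtain ⟨S, h1, h2, h3, h4⟩ := hσ
    rw [Finset.mem_biUnion]
    refine ⟨fun c => (S c).card, ?_, ?_⟩
    · simp only [ks, Finset.mem_filter, Fintype.mem_piFinset, Finset.mem_range]
      refine ⟨fun c => lt_of_le_of_lt ?_ h4, h3⟩
      exact Finset.single_le_sum (f := fun c => (S c).card) (fun _ _ => Nat.zero_le _)
        (Finset.mem_univ c)
    · rw [Finset.mem_biUnion]
      refine ⟨(S, fun c => (S c).map (σ c).toEmbedding), ?_, ?_⟩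
      · simp only [pairs, Finset.mem_filter, Finset.mem_univ, true_and, Finset.card_map,
          implies_true, and_true]
        exact ⟨h1, h2⟩
      · simp [f]
  have hks : ks.card ≤ (6 * κ) ^ 3 := by
    refine (Finset.card_filter_le _ _).trans ?_
    simp
  have hk : ∀ k ∈ ks, ((pairs ψ ψ' k).biUnion f).card * P.choose κ ≤ P.factorial ^ 3 := by
    intro k hk
    simp only [ks, Finset.mem_filter, Fintype.mem_piFinset, Finset.mem_range] at hk
    obtain ⟨hk1, hk2⟩ := hk
    -- a coordinate of size at least κ
    obtain ⟨c, hc⟩ : ∃ c, κ ≤ k c := by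
      by_contra hcon
      push Not at hcon
      have := Fin.sum_univ_three k
      have a0 := hcon 0
      have a1 := hcon 1
      have a2 := hcon 2
      omega
    have hchoose : P.choose κ ≤ P.choose (k c) :=
      choose_le_choose_half hc (by have := hk1 c; omega)
    obtain ⟨c', c'', hprod⟩ : ∃ c' c'' : Fin 3,
        ∏ d, P.choose (k d) = P.choose (k c') * P.choose (k c'') * P.choose (k c) := by
      rw [Fin.prod_univ_three]
      fin_cases c
      · exact ⟨1, 2, (mul_rotate _ _ _).trans rfl⟩
      · exact ⟨0, 2, (mul_right_comm _ _ _).trans rfl⟩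
      · exact ⟨0, 1, rfl⟩
    have hpos : ∀ d, 0 < P.choose (k d) := fun d =>
      Nat.choose_pos (by have := hk1 d; omega)
    have hP0 : 0 < ∏ d, P.choose (k d) := Finset.prod_pos fun d _ => hpos d
    have h1 : ((pairs ψ ψ' k).biUnion f).card * ∏ d, P.choose (k d) ≤
        (P.choose (k c') * P.choose (k c'')) * P.factorial ^ 3 := by
      calc ((pairs ψ ψ' k).biUnion f).card * ∏ d, P.choose (k d)
          ≤ (∑ p ∈ pairs ψ ψ' k, (f p).card) * ∏ d, P.choose (k d) :=
            Nat.mul_le_mul_right _ Finset.card_biUnion_le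
        _ = ∑ p ∈ pairs ψ ψ' k, (f p).card * ∏ d, P.choose (p.1 d).card := by
            rw [Finset.sum_mul]
            refine Finset.sum_congr rfl fun p hp => ?_
            simp only [pairs, Finset.mem_filter, Finset.mem_univ, true_and] at hp
            simp only [hp.2.2.1]
        _ ≤ ∑ p ∈ pairs ψ ψ' k, P.factorial ^ 3 :=
            Finset.sum_le_sum fun p _ => perms_card p.1 p.2
        _ = (pairs ψ ψ' k).card * P.factorial ^ 3 := by rw [Finset.sum_const, smul_eq_mul]
        _ ≤ _ := Nat.mul_le_mul_right _ (pairs_card ψ ψ' k c' c'')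
    have h2 : P.choose (k c') * P.choose (k c'') *
        (((pairs ψ ψ' k).biUnion f).card * P.choose (k c)) ≤
        P.choose (k c') * P.choose (k c'') * P.factorial ^ 3 := by
      rw [hprod] at h1
      calc P.choose (k c') * P.choose (k c'') *
            (((pairs ψ ψ' k).biUnion f).card * P.choose (k c)) =
            ((pairs ψ ψ' k).biUnion f).card *
              (P.choose (k c') * P.choose (k c'') * P.choose (k c)) := by ring
        _ ≤ _ := h1
    have h3 := Nat.le_of_mul_le_mul_left h2 (Nat.mul_pos (hpos c') (hpos c''))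
    exact (Nat.mul_le_mul_left _ hchoose).trans h3
  calc (bad κ ψ ψ').card * P.choose κ
      ≤ (∑ k ∈ ks, ((pairs ψ ψ' k).biUnion f).card) * P.choose κ :=
        Nat.mul_le_mul_right _ ((Finset.card_le_card hsub).trans Finset.card_biUnion_le)
    _ = ∑ k ∈ ks, ((pairs ψ ψ' k).biUnion f).card * P.choose κ := Finset.sum_mul _ _ _
    _ ≤ ∑ k ∈ ks, P.factorial ^ 3 := Finset.sum_le_sum hk
    _ = ks.card * P.factorial ^ 3 := by rw [Finset.sum_const, smul_eq_mul]
    _ ≤ _ := Nat.mul_le_mul_right _ hks

end Pool.Agent.H5Sym
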