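import Pool.Agent.H5Sym.Gap

/-!
# Random simple edge-coloured cubic graphs have no visible functionals of medium weight

The vertices on both sides are the elements `(r, k)` of `Fin 3 × Fin Q`. The edge of colour `c` at
`(r, k)` leads to `(r + c, τ c r k)`, so that there are no multiple edges.
-/

set_option autoImplicit false

namespace Pool.Agent.H5Sym

open Module Equiv

variable {Q : ℕ}

/-- the vertices of one side -/
abbrev Vx (Q : ℕ) : Type := Fin 3 × Fin Q

/-- the edges of colour `c` -/
def sig (τ : Fin 3 → Fin 3 → Perm (Fin Q)) (c : Fin 3) : Perm (Vx Q) :=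
  Equiv.prodShear (Equiv.addRight c) (τ c)

theorem sig_apply (τ : Fin 3 → Fin 3 → Perm (Fin Q)) (c : Fin 3) (i : Vx Q) :
    sig τ c i = (i.1 + c, τ c i.1 i.2) := rfl

theorem sig_simple (τ : Fin 3 → Fin 3 → Perm (Fin Q)) {c c' : Fin 3} {i : Vx Q}
    (h : sig τ c i = sig τ c' i) : c = c' := by
  have := congrArg Prod.fst h
  rw [sig_apply, sig_apply] at this
  exact add_left_cancel this

section comp

variable {V : Type*} [DecidableEq V]

/-- the indicator function of a triple of sets -/
def indV (S : Fin 3 → Finset V) (c : Fin 3) (i : V) : F2 := if i ∈ S c then 1 else 0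

/-- the triple of sets `S` has the local functionals `ψ` -/
def CompV (ψ : V → K4 → F2) (S : Fin 3 → Finset V) : Prop :=
  ∀ i a, ψ i a = ∑ c, indV S c i * ell c a

theorem CompV.unique {ψ : V → K4 → F2} {S S' : Fin 3 → Finset V} (h : CompV ψ S)
    (h' : CompV ψ S') (c : Fin 3) (hc : S c = S' c) : S = S' := by
  have key : ∀ i, (fun c => indV S c i) = fun c => indV S' c i := by
    intro i
    refine triple_unique _ _ (fun a => (h i a).symm.trans (h' i a)) c ?_
    simp only [indV, hc]
  funext c'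
  ext i
  have := congrFun (key i) c'
  simp only [indV] at this
  by_cases h1 : i ∈ S c' <;> by_cases h2 : i ∈ S' c' <;> simp_all

end comp

/-- the slices of a triple of sets -/
def sl (S : Fin 3 → Finset (Vx Q)) (c r : Fin 3) : Finset (Fin Q) :=
  Finset.univ.filter fun k => (r, k) ∈ S c

theorem mem_sl {S : Fin 3 → Finset (Vx Q)} {c r : Fin 3} {k : Fin Q} :
    k ∈ sl S c r ↔ (r, k) ∈ S c := by simp [sl]

theorem sl_ext {S S' : Fin 3 → Finset (Vx Q)} {c : Fin 3} (h : ∀ r, sl S c r = sl S' c r) :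
    S c = S' c := by
  ext ⟨r, k⟩
  rw [← mem_sl, ← mem_sl, h]

theorem sl_card (S : Fin 3 → Finset (Vx Q)) (c : Fin 3) : ∑ r, (sl S c r).card = (S c).card := by
  simp only [sl, Finset.card_filter]
  rw [← Fintype.sum_prod_type' (f := fun r k => if (r, k) ∈ S c then 1 else 0), ← Finset.card_filter]
  congr 1
  ext ⟨r, k⟩
  simp

theorem sl_map {τ : Fin 3 → Fin 3 → Perm (Fin Q)} {S S' : Fin 3 → Finset (Vx Q)} {c : Fin 3}
    (h : (S c).map (sig τ c).toEmbedding = S' c) (r : Fin 3) :
    (sl S c r).map (τ c r).toEmbedding = sl S' c (r + c) := by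
  ext k
  rw [Finset.mem_map_equiv, mem_sl, mem_sl, ← h, Finset.mem_map_equiv]
  have : (sig τ c).symm (r + c, k) = (r, (τ c r).symm k) := by
    rw [Equiv.symm_apply_eq, sig_apply]
    simp
  rw [this]

/-- the permutations that map the triple `S` to the triple `S'` -/
theorem perms_card9 (S S' : Fin 3 → Finset (Vx Q)) :
    (Finset.univ.filter fun τ : Fin 3 → Fin 3 → Perm (Fin Q) =>
      ∀ c, (S c).map (sig τ c).toEmbedding = S' c).card * ∏ c, ∏ r, Q.choose (sl S c r).card ≤
        Q.factorial ^ 9 := by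
  classical
  have h : (Finset.univ.filter fun τ : Fin 3 → Fin 3 → Perm (Fin Q) =>
      ∀ c, (S c).map (sig τ c).toEmbedding = S' c) ⊆
      Fintype.piFinset fun c => Fintype.piFinset fun r => Finset.univ.filter fun σ : Perm (Fin Q) =>
        (sl S c r).map σ.toEmbedding = sl S' c (r + c) := by
    intro τ hτ
    simp only [Finset.mem_filter, Finset.mem_univ, true_and, Fintype.mem_piFinset] at hτ ⊢
    exact fun c r => sl_map (hτ c) r
  refine (Nat.mul_le_mul_right _ (Finset.card_le_card h)).trans ?_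
  rw [Fintype.card_piFinset]
  simp only [Fintype.card_piFinset]
  rw [← Finset.prod_mul_distrib]
  calc ∏ c, ((∏ r, (Finset.univ.filter fun σ : Perm (Fin Q) =>
        (sl S c r).map σ.toEmbedding = sl S' c (r + c)).card) * ∏ r, Q.choose (sl S c r).card)
      ≤ ∏ _c : Fin 3, Q.factorial ^ 3 := by
        refine Finset.prod_le_prod' fun c _ => ?_
        rw [← Finset.prod_mul_distrib]
        calc _ ≤ ∏ _r : Fin 3, Q.factorial := Finset.prod_le_prod' fun r _ => perm_count _ _
          _ = Q.factorial ^ 3 := by simp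
    _ = Q.factorial ^ 9 := by
        rw [Finset.prod_const, Finset.card_univ, Fintype.card_fin]
        ring

open Classical in
/-- the pairs of compatible triples of sets with given sizes -/
noncomputable def pairs9 (ψ ψ' : Vx Q → K4 → F2) (k : Fin 3 → Fin 3 → ℕ) :
    Finset ((Fin 3 → Finset (Vx Q)) × (Fin 3 → Finset (Vx Q))) :=
  Finset.univ.filter fun p => CompV ψ p.1 ∧ CompV ψ' p.2 ∧ (∀ c r, (sl p.1 c r).card = k c r) ∧
    ∀ c r, (sl p.2 c (r + c)).card = k c r

theorem pairs9_card (ψ ψ' : Vx Q → K4 → F2) (k : Fin 3 → Fin 3 → ℕ) (c c' : Fin 3) :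
    (pairs9 ψ ψ' k).card ≤ (∏ r, Q.choose (k c r)) * ∏ r, Q.choose (k c' r) := by
  classical
  have h : ((Fintype.piFinset fun r => Finset.powersetCard (k c r) (Finset.univ : Finset (Fin Q))) ×ˢ
      (Fintype.piFinset fun r => Finset.powersetCard (k c' r) (Finset.univ : Finset (Fin Q)))).card =
        (∏ r, Q.choose (k c r)) * ∏ r, Q.choose (k c' r) := by
    rw [Finset.card_product, Fintype.card_piFinset, Fintype.card_piFinset]
    simp only [Finset.card_powersetCard, Finset.card_univ, Fintype.card_fin]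
  rw [← h]
  refine Finset.card_le_card_of_injOn (fun p => (fun r => sl p.1 c r, fun r => sl p.2 c' (r + c')))
    ?_ ?_
  · intro p hp
    simp only [pairs9, Finset.coe_filter, Finset.mem_univ, true_and, Set.mem_ofPred_eq] at hp
    simp only [Finset.coe_product, Set.mem_prod, Finset.mem_coe, Fintype.mem_piFinset,
      Finset.mem_powersetCard, Finset.subset_univ, true_and]
    exact ⟨fun r => hp.2.2.1 c r, fun r => hp.2.2.2 c' r⟩
  · intro p hp p' hp' h
    simp only [pairs9, Finset.coe_filter, Finset.mem_univ, true_and, Set.mem_ofPred_eq] at hp hp'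
    simp only [Prod.mk.injEq] at h
    refine Prod.ext (hp.1.unique hp'.1 c (sl_ext fun r => congrFun h.1 r))
      (hp.2.1.unique hp'.2.1 c' (sl_ext fun r => ?_))
    have := congrFun h.2 (r - c')
    simp only [sub_add_cancel] at this
    exact this

open Classical in
/-- the choices which are bad for the local functionals `ψ`, `ψ'` -/
noncomputable def bad9 (κ : ℕ) (ψ ψ' : Vx Q → K4 → F2) : Finset (Fin 3 → Fin 3 → Perm (Fin Q)) :=
  Finset.univ.filter fun τ => ∃ S : Fin 3 → Finset (Vx Q), CompV ψ S ∧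
    CompV ψ' (fun c => (S c).map (sig τ c).toEmbedding) ∧ 9 * κ ≤ ∑ c, (S c).card ∧
      ∑ c, (S c).card < 18 * κ

theorem bad9_card {κ : ℕ} (hQ : 36 * κ ≤ Q) (ψ ψ' : Vx Q → K4 → F2) :
    (bad9 κ ψ ψ').card * Q.choose κ ≤ (18 * κ) ^ 9 * Q.factorial ^ 9 := by
  classical
  -- the size vectors
  let ks : Finset (Fin 3 → Fin 3 → ℕ) :=
    (Fintype.piFinset fun _ => Fintype.piFinset fun _ => Finset.range (18 * κ)).filter
      fun k => 9 * κ ≤ ∑ c, ∑ r, k c r
  let f : (Fin 3 → Finset (Vx Q)) × (Fin 3 → Finset (Vx Q)) →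
      Finset (Fin 3 → Fin 3 → Perm (Fin Q)) :=
    fun p => Finset.univ.filter fun τ => ∀ c, (p.1 c).map (sig τ c).toEmbedding = p.2 c
  have hsub : bad9 κ ψ ψ' ⊆ ks.biUnion fun k => (pairs9 ψ ψ' k).biUnion f := by
    intro τ hτ
    simp only [bad9, Finset.mem_filter, Finset.mem_univ, true_and] at hτ
    obtain ⟨S, h1, h2, h3, h4⟩ := hτ
    rw [Finset.mem_biUnion]
    have hsum : ∑ c, ∑ r, (sl S c r).card = ∑ c, (S c).card :=
      Finset.sum_congr rfl fun c _ => sl_card S c
    refine ⟨fun c r => (sl S c r).card, ?_, ?_⟩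
    · simp only [ks, Finset.mem_filter, Fintype.mem_piFinset, Finset.mem_range]
      refine ⟨fun c r => lt_of_le_of_lt ?_ h4, by rw [hsum]; exact h3⟩
      rw [← hsum]
      calc (sl S c r).card ≤ ∑ r, (sl S c r).card :=
            Finset.single_le_sum (f := fun r => (sl S c r).card) (fun _ _ => Nat.zero_le _)
              (Finset.mem_univ r)
        _ ≤ _ := Finset.single_le_sum (f := fun c => ∑ r, (sl S c r).card)
              (fun _ _ => Nat.zero_le _) (Finset.mem_univ c)
    · rw [Finset.mem_biUnion]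
      refine ⟨(S, fun c => (S c).map (sig τ c).toEmbedding), ?_, ?_⟩
      · simp only [pairs9, Finset.mem_filter, Finset.mem_univ, true_and]
        refine ⟨h1, h2, fun _ _ => trivial, fun c r => ?_⟩
        have := sl_map (τ := τ) (S := S) (S' := fun c => (S c).map (sig τ c).toEmbedding)
          (c := c) rfl r
        rw [← this, Finset.card_map]
      · simp [f]
  have hks : ks.card ≤ (18 * κ) ^ 9 := by
    refine (Finset.card_filter_le _ _).trans (le_of_eq ?_)
    simp only [Fintype.card_piFinset, Finset.card_range, Finset.prod_const, Finset.card_univ,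
      Fintype.card_fin]
    ring
  have hk : ∀ k ∈ ks, ((pairs9 ψ ψ' k).biUnion f).card * Q.choose κ ≤ Q.factorial ^ 9 := by
    intro k hk
    simp only [ks, Finset.mem_filter, Fintype.mem_piFinset, Finset.mem_range] at hk
    obtain ⟨hk1, hk2⟩ := hk
    -- a coordinate of size at least κ
    obtain ⟨c, r₀, hc⟩ : ∃ c r, κ ≤ k c r := by
      by_contra hcon
      push Not at hcon
      simp only [Fin.sum_univ_three] at hk2
      have a00 := hcon 0 0
      have a01 := hcon 0 1
      have a02 := hcon 0 2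
      have a10 := hcon 1 0
      have a11 := hcon 1 1
      have a12 := hcon 1 2
      have a20 := hcon 2 0
      have a21 := hcon 2 1
      have a22 := hcon 2 2
      omega
    have hposr : ∀ d r, 0 < Q.choose (k d r) := fun d r =>
      Nat.choose_pos (by have := hk1 d r; omega)
    have hchoose : Q.choose κ ≤ ∏ r, Q.choose (k c r) := by
      refine (choose_le_choose_half hc (by have := hk1 c r₀; omega)).trans ?_
      exact Finset.single_le_prod' (f := fun r => Q.choose (k c r)) (fun r _ => hposr c r)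
        (Finset.mem_univ r₀)
    obtain ⟨c', c'', hprod⟩ : ∃ c' c'' : Fin 3,
        ∏ d, ∏ r, Q.choose (k d r) =
          (∏ r, Q.choose (k c' r)) * (∏ r, Q.choose (k c'' r)) * ∏ r, Q.choose (k c r) := by
      rw [Fin.prod_univ_three]
      fin_cases c
      · exact ⟨1, 2, (mul_rotate _ _ _).trans rfl⟩
      · exact ⟨0, 2, (mul_right_comm _ _ _).trans rfl⟩
      · exact ⟨0, 1, rfl⟩
    have hpos : ∀ d, 0 < ∏ r, Q.choose (k d r) := fun d => Finset.prod_pos fun r _ => hposr d r
    have h1 : ((pairs9 ψ ψ' k).biUnion f).card * ∏ d, ∏ r, Q.choose (k d r) ≤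
        ((∏ r, Q.choose (k c' r)) * ∏ r, Q.choose (k c'' r)) * Q.factorial ^ 9 := by
      calc ((pairs9 ψ ψ' k).biUnion f).card * ∏ d, ∏ r, Q.choose (k d r)
          ≤ (∑ p ∈ pairs9 ψ ψ' k, (f p).card) * ∏ d, ∏ r, Q.choose (k d r) :=
            Nat.mul_le_mul_right _ Finset.card_biUnion_le
        _ = ∑ p ∈ pairs9 ψ ψ' k, (f p).card * ∏ d, ∏ r, Q.choose (sl p.1 d r).card := by
            rw [Finset.sum_mul]
            refine Finset.sum_congr rfl fun p hp => ?_
            simp only [pairs9, Finset.mem_filter, Finset.mem_univ, true_and] at hp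
            simp only [hp.2.2.1]
        _ ≤ ∑ p ∈ pairs9 ψ ψ' k, Q.factorial ^ 9 :=
            Finset.sum_le_sum fun p _ => perms_card9 p.1 p.2
        _ = (pairs9 ψ ψ' k).card * Q.factorial ^ 9 := by rw [Finset.sum_const, smul_eq_mul]
        _ ≤ _ := Nat.mul_le_mul_right _ (pairs9_card ψ ψ' k c' c'')
    have h2 : ((∏ r, Q.choose (k c' r)) * ∏ r, Q.choose (k c'' r)) *
        (((pairs9 ψ ψ' k).biUnion f).card * ∏ r, Q.choose (k c r)) ≤
        ((∏ r, Q.choose (k c' r)) * ∏ r, Q.choose (k c'' r)) * Q.factorial ^ 9 := by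
      rw [hprod] at h1
      calc ((∏ r, Q.choose (k c' r)) * ∏ r, Q.choose (k c'' r)) *
            (((pairs9 ψ ψ' k).biUnion f).card * ∏ r, Q.choose (k c r)) =
            ((pairs9 ψ ψ' k).biUnion f).card *
              ((∏ r, Q.choose (k c' r)) * (∏ r, Q.choose (k c'' r)) * ∏ r, Q.choose (k c r)) := by
              ring
        _ ≤ _ := h1
    have h3 := Nat.le_of_mul_le_mul_left h2 (Nat.mul_pos (hpos c') (hpos c''))
    exact (Nat.mul_le_mul_left _ hchoose).trans h3
  calc (bad9 κ ψ ψ').card * Q.choose κ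
      ≤ (∑ k ∈ ks, ((pairs9 ψ ψ' k).biUnion f).card) * Q.choose κ :=
        Nat.mul_le_mul_right _ ((Finset.card_le_card hsub).trans Finset.card_biUnion_le)
    _ = ∑ k ∈ ks, ((pairs9 ψ ψ' k).biUnion f).card * Q.choose κ := Finset.sum_mul _ _ _
    _ ≤ ∑ k ∈ ks, Q.factorial ^ 9 := Finset.sum_le_sum hk
    _ = ks.card * Q.factorial ^ 9 := by rw [Finset.sum_const, smul_eq_mul]
    _ ≤ _ := Nat.mul_le_mul_right _ hks

end Pool.Agent.H5Sym
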