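import Pool.Agent.H5Sym.Cubic

/-!
# Graphs that small invariant circuits do not distinguish
-/

set_option autoImplicit false

namespace Pool.Agent.H5Sym

open Module Equiv

variable {P : ℕ} {β : Type*} {X : Type*}

theorem blockShift_apply (v : β → K4) (p : β × K4) : blockShift v p = (p.1, p.2 + v p.1) := rfl

theorem blockShift_add (u v : β → K4) : blockShift (u + v) = blockShift u * blockShift v := by
  ext p
  · rfl
  · simp only [blockShift_apply, Perm.mul_apply, Pi.add_apply, Prod.fst_add]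
    abel
  · simp only [blockShift_apply, Perm.mul_apply, Pi.add_apply, Prod.snd_add]
    abel

theorem pairPerm_apply (τ : Perm X) (t : X × X) : pairPerm τ t = (τ t.1, τ t.2) := rfl

theorem pairPerm_mul (τ τ' : Perm X) : pairPerm (τ * τ') = pairPerm τ * pairPerm τ' := by
  ext ⟨a, b⟩ <;> rfl

/-- the graphs: `w` are the parameters -/
def Adj (ι : Bool × Fin P ↪ β) (σ : Fin 3 → Perm (Fin P)) (w : Fin 3 × Fin P → F2)
    (p q : β × K4) : Prop :=
  ∃ c i, ell c p.2 + ell c q.2 = w (c, i) ∧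
    ((p.1 = ι (false, i) ∧ q.1 = ι (true, σ c i)) ∨ (p.1 = ι (true, σ c i) ∧ q.1 = ι (false, i)))

theorem Adj.symm {ι : Bool × Fin P ↪ β} {σ : Fin 3 → Perm (Fin P)} {w : Fin 3 × Fin P → F2}
    {p q : β × K4} (h : Adj ι σ w p q) : Adj ι σ w q p := by
  obtain ⟨c, i, h1, h2⟩ := h
  exact ⟨c, i, by rw [add_comm]; exact h1, h2.symm.imp (fun h => ⟨h.2, h.1⟩) fun h => ⟨h.2, h.1⟩⟩

theorem adj_translate (ι : Bool × Fin P ↪ β) (σ : Fin 3 → Perm (Fin P)) (w : Fin 3 × Fin P → F2)
    (v : β → K4) (p q : β × K4) :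
    Adj ι σ (w + bdry ι σ v) (blockShift v p) (blockShift v q) ↔ Adj ι σ w p q := by
  have key : ∀ (c : Fin 3) (i : Fin P), ((p.1 = ι (false, i) ∧ q.1 = ι (true, σ c i)) ∨
      (p.1 = ι (true, σ c i) ∧ q.1 = ι (false, i))) →
      (ell c (blockShift v p).2 + ell c (blockShift v q).2 = (w + bdry ι σ v) (c, i) ↔
        ell c p.2 + ell c q.2 = w (c, i)) := by
    intro c i h
    have h1 : ell c (blockShift v p).2 + ell c (blockShift v q).2 =
        ell c p.2 + ell c q.2 + bdry ι σ v (c, i) := by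
      simp only [blockShift_apply, ell_add, bdry, LinearMap.coe_mk, AddHom.coe_mk]
      rcases h with ⟨h2, h3⟩ | ⟨h2, h3⟩ <;> rw [h2, h3] <;> ring
    rw [h1, Pi.add_apply, add_left_inj]
  constructor
  · rintro ⟨c, i, h1, h2⟩
    exact ⟨c, i, (key c i h2).1 h1, h2⟩
  · rintro ⟨c, i, h1, h2⟩
    exact ⟨c, i, (key c i h2).2 h1, h2⟩

/-- adjacency, for vertices in `X` -/
def AdjOn (e : β × K4 ↪ X) (ι : Bool × Fin P ↪ β) (σ : Fin 3 → Perm (Fin P))
    (w : Fin 3 × Fin P → F2) (x y : X) : Prop := ∃ p q, x = e p ∧ y = e q ∧ Adj ι σ w p q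

theorem adjOn_e {e : β × K4 ↪ X} {ι : Bool × Fin P ↪ β} {σ : Fin 3 → Perm (Fin P)}
    {w : Fin 3 × Fin P → F2} {p q : β × K4} : AdjOn e ι σ w (e p) (e q) ↔ Adj ι σ w p q := by
  constructor
  · rintro ⟨p', q', h1, h2, h3⟩
    rwa [e.injective h1, e.injective h2]
  · exact fun h => ⟨p, q, rfl, rfl, h⟩

open Classical in
/-- the adjacency matrix -/
noncomputable def mat (e : β × K4 ↪ X) (ι : Bool × Fin P ↪ β) (σ : Fin 3 → Perm (Fin P))
    (w : Fin 3 × Fin P → F2) (t : X × X) : Bool := decide (AdjOn e ι σ w t.1 t.2)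

theorem mat_true {e : β × K4 ↪ X} {ι : Bool × Fin P ↪ β} {σ : Fin 3 → Perm (Fin P)}
    {w : Fin 3 × Fin P → F2} {p q : X} : mat e ι σ w (p, q) = true ↔ AdjOn e ι σ w p q := by
  simp [mat]

theorem adjOn_translate (e : β × K4 ↪ X) (ι : Bool × Fin P ↪ β) (σ : Fin 3 → Perm (Fin P))
    (w : Fin 3 × Fin P → F2) (v : β → K4) (x y : X) :
    AdjOn e ι σ (w + bdry ι σ v) ((blockShift v).viaEmbedding e x) ((blockShift v).viaEmbedding e y) ↔
      AdjOn e ι σ w x y := by
  have hr : ∀ x : X, (∃ p, (blockShift v).viaEmbedding e x = e p) → ∃ p, x = e p := by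
    rintro x ⟨p, hp⟩
    by_contra hcon
    have h1 : x ∉ Set.range e := fun ⟨p, hp⟩ => hcon ⟨p, hp.symm⟩
    rw [Perm.viaEmbedding_apply_of_notMem _ _ _ h1] at hp
    exact hcon ⟨p, hp⟩
  constructor
  · rintro ⟨p', q', h1, h2, h3⟩
    obtain ⟨p, rfl⟩ := hr x ⟨_, h1⟩
    obtain ⟨q, rfl⟩ := hr y ⟨_, h2⟩
    rw [Perm.viaEmbedding_apply] at h1 h2
    rw [← e.injective h1, ← e.injective h2, adj_translate] at h3
    exact ⟨p, q, rfl, rfl, h3⟩
  · rintro ⟨p, q, rfl, rfl, h3⟩
    rw [Perm.viaEmbedding_apply, Perm.viaEmbedding_apply, adjOn_e, adj_translate]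
    exact h3

theorem mat_translate (e : β × K4 ↪ X) (ι : Bool × Fin P ↪ β) (σ : Fin 3 → Perm (Fin P))
    (w : Fin 3 × Fin P → F2) (v : β → K4) (t : X × X) :
    mat e ι σ (w + bdry ι σ v) (pairPerm ((blockShift v).viaEmbedding e) t) = mat e ι σ w t := by
  obtain ⟨x, y⟩ := t
  rw [pairPerm_apply, Bool.eq_iff_iff, mat_true, mat_true, adjOn_translate]

/-- Circuits with few gates do not distinguish the graphs of the parameters `w` and `w + d`, for
some `d` with odd sum. -/
theorem fooling [Finite β] {D : Type*} (e : β × K4 ↪ X) (C : Circuit (X × X) D) [Finite C.Gate]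
    (inp : Bool → D) (hC : ∀ v : β → K4, C.Invariant (pairPerm ((blockShift v).viaEmbedding e)))
    {κ : ℕ} (hκ : 0 < κ) (hP : 12 * κ ≤ P) (ι : Bool × Fin P ↪ β)
    (hcard : Nat.card C.Gate * (6 * κ) ^ 3 < P.choose κ) :
    ∃ (σ : Fin 3 → Perm (Fin P)) (d : Fin 3 × Fin P → F2), ∑ e, d e = 1 ∧
      ∀ w, C.eval (inp ∘ mat e ι σ (w + d)) C.out = C.eval (inp ∘ mat e ι σ w) C.out := by
  classical
  have hρ : ∀ u v : β → K4, pairPerm ((blockShift (u + v)).viaEmbedding e) =
      pairPerm ((blockShift u).viaEmbedding e) * pairPerm ((blockShift v).viaEmbedding e) :=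
    fun u v => by
      rw [blockShift_add, ← pairPerm_mul]
      congr 1
      exact map_mul (Perm.viaEmbeddingHom e) (blockShift u) (blockShift v)
  obtain ⟨σ, hσ⟩ := exists_good (κ := κ) hP ι (C.special _ hρ)
    (lt_of_le_of_lt (Nat.mul_le_mul_right _ (Circuit.special_card hρ hC)) hcard)
  refine ⟨σ, ?_⟩
  let q₀ : Dual F2 (Fin 3 × Fin P → F2) := ∑ e, LinearMap.proj e
  have hq₀ : ∀ d, q₀ d = ∑ e, d e := fun d => by simp [q₀]
  have main := Circuit.core_out (C := C) (ρ := fun v => pairPerm ((blockShift v).viaEmbedding e)) hρ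
    (bdry ι σ) (fun w => inp ∘ mat e ι σ w)
    (fun w v t => congrArg inp (mat_translate e ι σ w v t))
    {q | wt q < 3 * κ} (by
      rw [Set.mem_ofPred_eq, wt_zero]; omega) ?_ ?_ q₀ ?_
  · obtain ⟨d, hd, hd'⟩ := main
    exact ⟨d, by rw [← hq₀, hd], hd'⟩
  · -- base case
    rintro ⟨x, y⟩ w d hd
    have key : ∀ p q, x = e p → y = e q → ∀ c i, ((p.1 = ι (false, i) ∧ q.1 = ι (true, σ c i)) ∨
        (p.1 = ι (true, σ c i) ∧ q.1 = ι (false, i))) → d (c, i) = 0 := by
      intro p q hp hq c i h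
      refine hd (LinearMap.proj (c, i)) ?_ ?_
      · rw [Set.mem_ofPred_eq]
        have h1 : wt (LinearMap.proj (c, i) : Dual F2 (Fin 3 × Fin P → F2)) ≤ 1 := by
          rw [wt, Finset.card_le_one]
          intro a ha b hb
          simp only [Finset.mem_filter, Finset.mem_univ, true_and, LinearMap.proj_apply,
            Pi.single_apply] at ha hb
          by_contra hab
          rcases eq_or_ne (c, i) a with h2 | h2
          · rcases eq_or_ne (c, i) b with h3 | h3
            · exact hab (h2.symm.trans h3)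
            · exact hb (if_neg h3)
          · exact ha (if_neg h2)
        omega
      · intro v hv
        rw [pairPerm_apply, hp, hq, Perm.viaEmbedding_apply, Perm.viaEmbedding_apply,
          Prod.mk.injEq] at hv
        have h1 : v p.1 = 0 := by
          have := congrArg Prod.snd (e.injective hv.1)
          simpa [blockShift_apply] using this
        have h2 : v q.1 = 0 := by
          have := congrArg Prod.snd (e.injective hv.2)
          simpa [blockShift_apply] using this
        simp only [LinearMap.proj_apply, bdry, LinearMap.coe_mk, AddHom.coe_mk]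
        rcases h with ⟨h3, h4⟩ | ⟨h3, h4⟩ <;> rw [← h3, ← h4, h1, h2, ell_zero, add_zero]
    have h2 : AdjOn e ι σ (w + d) x y ↔ AdjOn e ι σ w x y := by
      constructor
      · rintro ⟨p, q, hp, hq, c, i, h1, h2⟩
        refine ⟨p, q, hp, hq, c, i, ?_, h2⟩
        rw [h1, Pi.add_apply, key p q hp hq c i h2, add_zero]
      · rintro ⟨p, q, hp, hq, c, i, h1, h2⟩
        refine ⟨p, q, hp, hq, c, i, ?_, h2⟩
        rw [h1, Pi.add_apply, key p q hp hq c i h2, add_zero]
    refine congrArg inp ?_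
    rw [Bool.eq_iff_iff, mat_true, mat_true, h2]
  · -- the gap
    intro g q hq q' hq'
    rw [Circuit.visible, Set.mem_ofPred_eq] at hq hq'
    have h1 : (q + q').comp (bdry ι σ) ∈
        C.special (fun v => pairPerm ((blockShift v).viaEmbedding e)) hρ := by
      refine ⟨g, fun v hv => ?_⟩
      rw [LinearMap.comp_apply, LinearMap.add_apply, hq.2 v hv, hq'.2 v hv, add_zero]
    have h2 := wt_add q q'
    have h3 : wt q < 3 * κ := hq.1
    have h4 : wt q' < 3 * κ := hq'.1
    rw [Set.mem_ofPred_eq]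
    by_contra h5
    exact hσ (q + q') (by omega) (by omega) h1
  · -- the sum of all coordinates
    have h1 : wt q₀ = 3 * P := by
      rw [wt, Finset.filter_true_of_mem]
      · simp
      · intro e _
        rw [hq₀, Finset.sum_pi_single']
        simp
    rw [Set.mem_ofPred_eq, h1]
    omega

end Pool.Agent.H5Sym
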