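import Pool.Agent.H5Sym.SparseK

/-!
# The choice of the parameters
-/

set_option autoImplicit false

namespace Pool.Agent.H5Sym

/-- the bound for the return probabilities -/
noncomputable def nu (P w : ℕ) : ℝ :=
  if 8 * w ≤ P then Real.sqrt (2 ^ w * w.factorial / P ^ w) else mu P w

theorem nu_nonneg (P w : ℕ) : 0 ≤ nu P w := by
  rw [nu]
  split_ifs
  · exact Real.sqrt_nonneg _
  · exact mu_nonneg P w

theorem walk_le_nu {P : ℕ} (hP : 0 < P) (w : ℕ) (v : Fin P → F2) :
    (walk w v : ℝ) ≤ nu P w * P ^ w := by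
  rw [nu]
  split_ifs with h
  · have h2 : (0 : ℝ) < (P : ℝ) ^ w := by positivity
    have h3 : (walk w v : ℝ) ≤ Real.sqrt (2 ^ w * w.factorial * P ^ w) := by
      refine Real.le_sqrt_of_sq_le ?_
      exact_mod_cast walk_sq w v
    refine h3.trans (le_of_eq ?_)
    have h4 : (2 ^ w * w.factorial * P ^ w : ℝ) = (2 ^ w * w.factorial / P ^ w) * ((P : ℝ) ^ w) ^ 2 := by
      field_simp
    rw [h4, Real.sqrt_mul (by positivity), Real.sqrt_sq h2.le]
  · exact walk_le_mu hP w v

theorem pow_four_le (k : ℕ) (hk : 12 ≤ k) : 65536 * k ^ 2 ≤ 4 ^ k := by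
  induction k, hk using Nat.le_induction with
  | base => norm_num
  | succ k hk ih =>
    calc 65536 * (k + 1) ^ 2 ≤ 4 * (65536 * k ^ 2) := by nlinarith
      _ ≤ 4 * 4 ^ k := by omega
      _ = 4 ^ (k + 1) := by ring

/-- few rows -/
theorem small_term {P k w : ℕ} (hk : 12 ≤ k) (hw : 8 * w ≤ P) (hP : 0 < P) :
    ((k * P + 1).choose w : ℝ) * nu P w ^ k ≤ (1 / 16) ^ w := by
  have hP' : (0 : ℝ) < P := by exact_mod_cast hP
  rw [nu, if_pos hw]
  refine (pow_le_pow_iff_left₀ (by positivity) (by positivity) two_ne_zero).1 ?_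
  rw [mul_pow, ← pow_mul, mul_comm k 2, pow_mul, Real.sq_sqrt (by positivity)]
  have h1 : ((k * P + 1).choose w : ℝ) * w.factorial ≤ (2 * k * P) ^ w := by
    have h2 : (k * P + 1).choose w * w.factorial ≤ (2 * k * P) ^ w := by
      rw [mul_comm, ← Nat.descFactorial_eq_factorial_mul_choose]
      refine (Nat.descFactorial_le_pow _ _).trans (Nat.pow_le_pow_left ?_ w)
      have : 1 ≤ k * P := Nat.mul_pos (by omega) hP
      calc k * P + 1 ≤ k * P + k * P := by omega
        _ = 2 * k * P := by ring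
    exact_mod_cast h2
  obtain ⟨l, rfl⟩ : ∃ l, k = l + 2 := ⟨k - 2, by omega⟩
  have h2 : (w.factorial : ℝ) ≤ (P / 8) ^ w := by
    calc (w.factorial : ℝ) ≤ (w : ℝ) ^ w := by exact_mod_cast Nat.factorial_le_pow w
      _ ≤ (P / 8) ^ w := by
          gcongr
          have : (8 * w : ℝ) ≤ P := by exact_mod_cast hw
          linarith
  have hk4 : (65536 : ℝ) * ((l + 2 : ℕ) : ℝ) ^ 2 ≤ 4 ^ (l + 2) := by exact_mod_cast pow_four_le _ hk
  calc ((((l + 2) * P + 1).choose w : ℕ) : ℝ) ^ 2 * (2 ^ w * w.factorial / P ^ w) ^ (l + 2)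
      = ((((l + 2) * P + 1).choose w : ℕ) * w.factorial : ℝ) ^ 2 * (w.factorial : ℝ) ^ l *
          (2 ^ w / P ^ w) ^ (l + 2) := by
        rw [div_pow, div_pow, mul_pow, mul_pow]
        ring
    _ ≤ ((2 * ((l + 2 : ℕ) : ℝ) * P) ^ w) ^ 2 * ((P / 8) ^ w) ^ l * (2 ^ w / P ^ w) ^ (l + 2) := by
        gcongr
    _ = ((2 * ((l + 2 : ℕ) : ℝ) * P) ^ 2 * (P / 8) ^ l * (2 / P) ^ (l + 2)) ^ w := by
        simp only [← div_pow, ← pow_mul]
        rw [mul_comm w 2, mul_comm w l, mul_comm w (l + 2), pow_mul, pow_mul, pow_mul, ← mul_pow,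
          ← mul_pow]
    _ = (64 * 4 * ((l + 2 : ℕ) : ℝ) ^ 2 / 4 ^ (l + 2)) ^ w := by
        congr 1
        rw [div_pow, div_pow, show (8 : ℝ) ^ l = 2 ^ l * 4 ^ l by rw [← mul_pow]; norm_num]
        field_simp
        ring
    _ ≤ (1 / 256) ^ w := by
        refine pow_le_pow_left₀ (by positivity) ?_ w
        rw [div_le_div_iff₀ (by positivity) (by positivity)]
        linarith
    _ = ((1 / 16) ^ w) ^ 2 := by rw [← pow_mul, mul_comm, pow_mul]; norm_num

/-- the number of sets of rows -/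
theorem choose_sum_le {P k α : ℕ} (hk : 1 ≤ k) :
    ∑ w ∈ Finset.range (2 * (α * P)), ((k * P + 1).choose w : ℝ) ≤
      Real.exp (P * (2 * α * Real.log k + 1) + 1) := by
  have hk' : (0 : ℝ) < k := by exact_mod_cast hk
  have hk1 : (1 : ℝ) ≤ k := by exact_mod_cast hk
  have h1 : ∑ w ∈ Finset.range (2 * (α * P)), ((k * P + 1).choose w : ℝ) ≤
      (k : ℝ) ^ (2 * (α * P)) * (1 + 1 / k) ^ (k * P + 1) := by
    have h2 : ∀ w ∈ Finset.range (2 * (α * P)), ((k * P + 1).choose w : ℝ) ≤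
        (k : ℝ) ^ (2 * (α * P)) * ((1 / k) ^ w * ((k * P + 1).choose w : ℝ)) := by
      intro w hw
      rw [Finset.mem_range] at hw
      have h3 : 1 ≤ (k : ℝ) ^ (2 * (α * P)) * (1 / k) ^ w := by
        rw [one_div, inv_pow, ← div_eq_mul_inv, le_div_iff₀ (by positivity), one_mul]
        exact pow_le_pow_right₀ hk1 hw.le
      calc ((k * P + 1).choose w : ℝ) = 1 * ((k * P + 1).choose w : ℝ) := (one_mul _).symm
        _ ≤ ((k : ℝ) ^ (2 * (α * P)) * (1 / k) ^ w) * ((k * P + 1).choose w : ℝ) := by gcongr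
        _ = _ := by ring
    refine (Finset.sum_le_sum h2).trans ?_
    rw [← Finset.mul_sum]
    refine mul_le_mul_of_nonneg_left ?_ (by positivity)
    have h3 := add_pow (1 / (k : ℝ)) 1 (k * P + 1)
    simp only [one_pow, mul_one] at h3
    rw [add_comm 1 (1 / (k : ℝ)), h3]
    rcases le_total (2 * (α * P)) (k * P + 1 + 1) with h4 | h4
    · exact Finset.sum_le_sum_of_subset_of_nonneg (Finset.range_mono h4) fun _ _ _ => by positivity
    · refine le_of_eq (Finset.sum_subset (Finset.range_mono h4) fun w _ hw => ?_).symm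
      rw [Finset.mem_range, not_lt] at hw
      rw [Nat.choose_eq_zero_of_lt (by omega), Nat.cast_zero, mul_zero]
  refine h1.trans ?_
  have h5 : (k : ℝ) ^ (2 * (α * P)) = Real.exp (P * (2 * α * Real.log k)) := by
    rw [← Real.exp_log (pow_pos hk' _), Real.log_pow]
    congr 1
    push_cast
    ring
  have h6 : (1 + 1 / (k : ℝ)) ^ (k * P + 1) ≤ Real.exp (P + 1) := by
    calc (1 + 1 / (k : ℝ)) ^ (k * P + 1) ≤ Real.exp (1 / k) ^ (k * P + 1) := by
          gcongr
          have := Real.add_one_le_exp (1 / (k : ℝ))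
          linarith
      _ = Real.exp ((k * P + 1 : ℕ) * (1 / k)) := (Real.exp_nat_mul _ _).symm
      _ ≤ Real.exp (P + 1) := by
          gcongr
          push_cast
          have : (k * P + 1 : ℝ) * (1 / k) = P + 1 / k := by field_simp
          rw [this]
          have h7 : 1 / (k : ℝ) ≤ 1 := by rw [div_le_one hk']; exact hk1
          linarith
  rw [h5]
  calc Real.exp (P * (2 * α * Real.log k)) * (1 + 1 / (k : ℝ)) ^ (k * P + 1)
      ≤ Real.exp (P * (2 * α * Real.log k)) * Real.exp (P + 1) := by gcongr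
    _ = _ := by rw [← Real.exp_add]; congr 1; ring

/-- the main inequality -/
theorem main_ineq {ε : ℝ} (hε : 0 < ε) (hε1 : ε ≤ 1) {α k P : ℕ} {s : ℝ} (hs : 0 ≤ s)
    (hα1 : 1 ≤ α) (hα : Real.exp (-(2 * α)) ≤ ε / 5) (hk : 12 ≤ k)
    (hk1 : 2 * α * Real.log k + 1 ≤ ε / 20 * k) (hP : 16 ≤ P)
    (hs1 : s * (4 * Real.exp 1 * 2 ^ k) ≤ 2 ^ ((1 - ε) * (k * P))) :
    s * (∑ w ∈ Finset.Ico (α * P) (2 * (α * P)), (k * P + 1).choose w * nu P w ^ k) +
      (∑ w ∈ Finset.Ico 1 (2 * (α * P)), (k * P + 1).choose w * nu P w ^ k) < 1 := by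
  have hP0 : 0 < P := by omega
  have hP' : (0 : ℝ) < P := by exact_mod_cast hP0
  have hP16 : (16 : ℝ) ≤ P := by exact_mod_cast hP
  have hk' : (0 : ℝ) < k := by
    have : 0 < k := by omega
    exact_mod_cast this
  have hN := choose_sum_le (P := P) (k := k) (α := α) (by omega)
  have hN2 : Real.exp (P * (2 * α * Real.log k + 1) + 1) ≤ Real.exp 1 * Real.exp (ε / 20 * (k * P)) := by
    rw [← Real.exp_add]
    refine Real.exp_le_exp.2 ?_
    have := mul_le_mul_of_nonneg_left hk1 hP'.le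
    linarith
  -- the terms with many rows
  have hmu : ∀ w : ℕ, ∀ x : ℝ, 0 ≤ x → x * P ≤ w → mu P w ^ k ≤
      2 ^ k * (((1 + Real.exp (-(2 * x))) / 2) ^ (k * P)) := by
    intro w x hx hw
    have h1 := mu_le hP0 w
    have h2 : Real.exp (-(2 * w / P)) ≤ Real.exp (-(2 * x)) := by
      gcongr
      rw [le_div_iff₀ hP']
      linarith
    calc mu P w ^ k ≤ (2 * ((1 + Real.exp (-(2 * w / P))) / 2) ^ P) ^ k :=
          pow_le_pow_left₀ (mu_nonneg P w) h1 k
      _ ≤ (2 * ((1 + Real.exp (-(2 * x))) / 2) ^ P) ^ k := by gcongr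
      _ = _ := by rw [mul_pow, ← pow_mul, mul_comm P k]
  have hbig : ∀ (T : Finset ℕ) (x : ℝ), 0 ≤ x → (∀ w ∈ T, w < 2 * (α * P) ∧ P < 8 * w ∧ x * P ≤ w) →
      ∑ w ∈ T, ((k * P + 1).choose w : ℝ) * nu P w ^ k ≤
        Real.exp 1 * Real.exp (ε / 20 * (k * P)) *
          (2 ^ k * (((1 + Real.exp (-(2 * x))) / 2) ^ (k * P))) := by
    intro T x hx hT
    calc ∑ w ∈ T, ((k * P + 1).choose w : ℝ) * nu P w ^ k
        ≤ ∑ w ∈ T, ((k * P + 1).choose w : ℝ) *
            (2 ^ k * (((1 + Real.exp (-(2 * x))) / 2) ^ (k * P))) := by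
          refine Finset.sum_le_sum fun w hw => ?_
          obtain ⟨h1, h2, h3⟩ := hT w hw
          rw [nu, if_neg (by omega)]
          exact mul_le_mul_of_nonneg_left (hmu w x hx h3) (Nat.cast_nonneg _)
      _ = (∑ w ∈ T, ((k * P + 1).choose w : ℝ)) *
            (2 ^ k * (((1 + Real.exp (-(2 * x))) / 2) ^ (k * P))) := by rw [Finset.sum_mul]
      _ ≤ _ := by
          refine mul_le_mul_of_nonneg_right ?_ (by positivity)
          refine le_trans ?_ (hN.trans hN2)
          refine Finset.sum_le_sum_of_subset_of_nonneg (fun w hw => ?_) fun _ _ _ => by positivity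
          rw [Finset.mem_range]
          exact (hT w hw).1
  -- first sum
  have hfirst : s * (∑ w ∈ Finset.Ico (α * P) (2 * (α * P)),
      ((k * P + 1).choose w : ℝ) * nu P w ^ k) ≤ 1 / 4 := by
    have h1 := hbig (Finset.Ico (α * P) (2 * (α * P))) α (by positivity) (fun w hw => by
      rw [Finset.mem_Ico] at hw
      refine ⟨hw.2, ?_, ?_⟩
      · have : P ≤ α * P := Nat.le_mul_of_pos_left P hα1
        omega
      · exact_mod_cast hw.1)
    have h2 : ((1 + Real.exp (-(2 * α))) / 2) ^ (k * P) ≤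
        Real.exp ((ε / 5 - Real.log 2) * (k * P)) := by
      calc ((1 + Real.exp (-(2 * (α : ℝ)))) / 2) ^ (k * P)
          ≤ (Real.exp (ε / 5) / 2) ^ (k * P) := by
            gcongr
            have := Real.add_one_le_exp (ε / 5)
            linarith
        _ = (Real.exp (ε / 5 - Real.log 2)) ^ (k * P) := by
            rw [Real.exp_sub, Real.exp_log (by norm_num)]
        _ = _ := by
            rw [← Real.exp_nat_mul]
            congr 1
            push_cast
            ring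
    have h3 : (2 : ℝ) ^ ((1 - ε) * (k * P)) = Real.exp ((1 - ε) * Real.log 2 * (k * P)) := by
      rw [Real.rpow_def_of_pos (by norm_num)]
      congr 1
      ring
    rw [h3] at hs1
    have h4 : Real.exp (ε / 20 * (k * P)) * Real.exp ((ε / 5 - Real.log 2) * (k * P)) *
        Real.exp ((1 - ε) * Real.log 2 * (k * P)) ≤ 1 := by
      rw [← Real.exp_add, ← Real.exp_add, Real.exp_le_one_iff]
      have h5 : ε / 20 * (k * P) + (ε / 5 - Real.log 2) * (k * P) + (1 - ε) * Real.log 2 * (k * P) =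
          -(ε * (k * P) * (Real.log 2 - 1 / 4)) := by ring
      rw [h5]
      have h6 := Real.log_two_gt_d9
      have : 0 ≤ ε * (k * P) * (Real.log 2 - 1 / 4) := by
        have : 0 ≤ Real.log 2 - 1 / 4 := by linarith
        positivity
      linarith
    calc s * (∑ w ∈ Finset.Ico (α * P) (2 * (α * P)), ((k * P + 1).choose w : ℝ) * nu P w ^ k)
        ≤ s * (Real.exp 1 * Real.exp (ε / 20 * (k * P)) *
          (2 ^ k * Real.exp ((ε / 5 - Real.log 2) * (k * P)))) := by
          gcongr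
          refine h1.trans ?_
          gcongr
      _ = (s * (4 * Real.exp 1 * 2 ^ k)) * (1 / 4) * (Real.exp (ε / 20 * (k * P)) *
            Real.exp ((ε / 5 - Real.log 2) * (k * P))) := by ring
      _ ≤ Real.exp ((1 - ε) * Real.log 2 * (k * P)) * (1 / 4) * (Real.exp (ε / 20 * (k * P)) *
            Real.exp ((ε / 5 - Real.log 2) * (k * P))) := by gcongr
      _ = (1 / 4) * (Real.exp (ε / 20 * (k * P)) * Real.exp ((ε / 5 - Real.log 2) * (k * P)) *
            Real.exp ((1 - ε) * Real.log 2 * (k * P))) := by ring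
      _ ≤ (1 / 4) * 1 := by gcongr
      _ = 1 / 4 := by ring
  -- second sum
  have hsplit : Finset.Ico 1 (2 * (α * P)) =
      (Finset.Ico 1 (2 * (α * P))).filter (fun w => 8 * w ≤ P) ∪
        (Finset.Ico 1 (2 * (α * P))).filter (fun w => ¬ 8 * w ≤ P) :=
    (Finset.filter_union_filter_not_eq _ _).symm
  have hdisj : Disjoint ((Finset.Ico 1 (2 * (α * P))).filter (fun w => 8 * w ≤ P))
      ((Finset.Ico 1 (2 * (α * P))).filter (fun w => ¬ 8 * w ≤ P)) :=
    Finset.disjoint_filter_filter_not _ _ _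
  have hsmall : ∑ w ∈ (Finset.Ico 1 (2 * (α * P))).filter (fun w => 8 * w ≤ P),
      ((k * P + 1).choose w : ℝ) * nu P w ^ k ≤ 1 / 4 := by
    have h1 : ∀ b : ℕ, ∑ w ∈ Finset.Ico 1 b, (1 / 16 : ℝ) ^ w ≤ 1 / 15 := by
      intro b
      rcases Nat.eq_zero_or_pos b with h0 | hb
      · subst h0
        simp
      · have h2 : ∑ w ∈ Finset.Ico 1 b, (1 / 16 : ℝ) ^ w = 1 / 15 - 16 / 15 * (1 / 16) ^ b := by
          induction b, hb using Nat.le_induction with
          | base => norm_num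
          | succ b hb ih =>
            rw [Finset.sum_Ico_succ_top hb, ih, pow_succ]
            ring
        rw [h2]
        have : (0 : ℝ) < 16 / 15 * (1 / 16) ^ b := by positivity
        linarith
    calc ∑ w ∈ (Finset.Ico 1 (2 * (α * P))).filter (fun w => 8 * w ≤ P),
          ((k * P + 1).choose w : ℝ) * nu P w ^ k
        ≤ ∑ w ∈ (Finset.Ico 1 (2 * (α * P))).filter (fun w => 8 * w ≤ P), (1 / 16 : ℝ) ^ w := by
          refine Finset.sum_le_sum fun w hw => ?_
          exact small_term hk (Finset.mem_filter.1 hw).2 hP0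
      _ ≤ ∑ w ∈ Finset.Ico 1 (2 * (α * P)), (1 / 16 : ℝ) ^ w :=
          Finset.sum_le_sum_of_subset_of_nonneg (Finset.filter_subset _ _) fun _ _ _ => by positivity
      _ ≤ 1 / 15 := h1 _
      _ ≤ 1 / 4 := by norm_num
  have hlarge : ∑ w ∈ (Finset.Ico 1 (2 * (α * P))).filter (fun w => ¬ 8 * w ≤ P),
      ((k * P + 1).choose w : ℝ) * nu P w ^ k ≤ 1 / 4 := by
    have h1 := hbig ((Finset.Ico 1 (2 * (α * P))).filter (fun w => ¬ 8 * w ≤ P)) (1 / 8)
      (by norm_num) (fun w hw => by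
        rw [Finset.mem_filter, Finset.mem_Ico] at hw
        refine ⟨hw.1.2, by omega, ?_⟩
        have : (P : ℝ) < 8 * w := by
          have h2 : P < 8 * w := by omega
          exact_mod_cast h2
        linarith)
    refine h1.trans ?_
    have h2 : Real.exp (-(2 * (1 / 8))) ≤ 79 / 100 := by
      have h3 : Real.exp (1 / 4) ≥ 100 / 79 := by
        have := Real.quadratic_le_exp_of_nonneg (show (0 : ℝ) ≤ 1 / 4 by norm_num)
        norm_num at this ⊢
        linarith
      rw [show -(2 * (1 / 8 : ℝ)) = -(1 / 4) by norm_num, Real.exp_neg]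
      rw [inv_le_comm₀ (Real.exp_pos _) (by norm_num)]
      norm_num at h3 ⊢
      linarith
    have h4 : Real.exp (ε / 20 * (k * P)) ≤ (Real.exp (1 / 20)) ^ (k * P) := by
      rw [← Real.exp_nat_mul]
      refine Real.exp_le_exp.2 ?_
      push_cast
      have : (0 : ℝ) ≤ k * P := by positivity
      nlinarith
    have h5 : Real.exp (1 / 20) ≤ 20 / 19 := by
      have := Real.one_sub_le_exp_neg (1 / 20)
      rw [Real.exp_neg] at this
      have h6 := Real.exp_pos (1 / 20)
      rw [le_inv_comm₀ (by norm_num) h6] at this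
      norm_num at this ⊢
      exact this
    have h7 : Real.exp 1 ≤ 3 := by
      have := Real.exp_one_lt_d9
      linarith
    calc Real.exp 1 * Real.exp (ε / 20 * (k * P)) *
          (2 ^ k * (((1 + Real.exp (-(2 * (1 / 8)))) / 2) ^ (k * P)))
        ≤ 3 * (20 / 19) ^ (k * P) * (2 ^ k * (((1 + 79 / 100) / 2) ^ (k * P))) := by
          have h8 : Real.exp (ε / 20 * (k * P)) ≤ (20 / 19) ^ (k * P) :=
            h4.trans (pow_le_pow_left₀ (Real.exp_pos _).le h5 _)
          gcongr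
      _ = 3 * (2 * (20 / 19 * ((1 + 79 / 100) / 2)) ^ P) ^ k := by
          rw [mul_pow, ← pow_mul, mul_comm P k, mul_pow]
          ring
      _ ≤ 3 * (2 * (20 / 19 * ((1 + 79 / 100) / 2)) ^ 16) ^ k := by
          gcongr 3 * (2 * ?_) ^ k
          exact pow_le_pow_of_le_one (by norm_num) (by norm_num) hP
      _ ≤ 3 * (4 / 5) ^ k := by
          gcongr
          norm_num
      _ ≤ 3 * (4 / 5) ^ 12 := by
          gcongr 3 * ?_
          exact pow_le_pow_of_le_one (by norm_num) (by norm_num) hk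
      _ ≤ 1 / 4 := by norm_num
  rw [hsplit, Finset.sum_union hdisj]
  linarith

end Pool.Agent.H5Sym
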