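import Mathlib

/-!
# k-CNF formulas and flips of literals: definitions
-/

set_option autoImplicit false

namespace Pool.Agent.H5Sym

/-- Clauses with `k` literals over the variables `V`. The literal `(i, s)` says that the variable `i`
has the value `s`. -/
abbrev KClause (k : ℕ) (V : Type) : Type := Fin k → V × ZMod 2

/-- the assignment `a` satisfies the clause `t` -/
def KHolds {k : ℕ} {V : Type} (a : V → ZMod 2) (t : KClause k V) : Prop :=
  ∃ c, a (t c).1 = (t c).2

/-- the number of satisfying assignments of the k-CNF formula `x`, whose clauses are the `t` with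
`x t = true` -/
noncomputable def kNumSat {k : ℕ} {V : Type} (x : KClause k V → Bool) : ℕ :=
  Nat.card {a : V → ZMod 2 // ∀ t, x t = true → KHolds a t}

/-- The permutation of the clauses that flips the variables `i` with `u i = 1`: every literal `(i, s)`
becomes `(i, s + u i)`. -/
def kFlip {k : ℕ} {V : Type} (u : V → ZMod 2) : Equiv.Perm (KClause k V) :=
  Equiv.piCongrRight fun _ => Equiv.prodShear (Equiv.refl V) fun i => Equiv.addRight (u i)

end Pool.Agent.H5Sym
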