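import Pool.Agent.H5Sym.CircuitDefs

/-!
# 3-CNF formulas and flips of literals: definitions
-/

set_option autoImplicit false

namespace Pool.Agent.H5Sym

/-- Clauses with three literals over the variables `V`. The literal `(i, s)` says that the variable `i`
has the value `s`. -/
abbrev Clause (V : Type) : Type := (V × ZMod 2) × (V × ZMod 2) × (V × ZMod 2)

/-- the assignment `a` satisfies the clause `t` -/
def Holds {V : Type} (a : V → ZMod 2) (t : Clause V) : Prop :=
  a t.1.1 = t.1.2 ∨ a t.2.1.1 = t.2.1.2 ∨ a t.2.2.1 = t.2.2.2

/-- The 3-CNF formula `x` (its clauses are the `t` with `x t = true`) is satisfiable. -/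
def Satisfiable {V : Type} (x : Clause V → Bool) : Prop :=
  ∃ a : V → ZMod 2, ∀ t, x t = true → Holds a t

/-- every assignment satisfies less than `r` times the number of clauses -/
def ValueLT {V : Type} (r : ℝ) (x : Clause V → Bool) : Prop :=
  ∀ a : V → ZMod 2, (Nat.card {t // x t = true ∧ Holds a t} : ℝ) < r * Nat.card {t // x t = true}

/-- the literal `(i, s)` becomes `(i, s + u i)` -/
def flipLit {V : Type} (u : V → ZMod 2) : Equiv.Perm (V × ZMod 2) :=
  Equiv.prodShear (Equiv.refl V) fun i => Equiv.addRight (u i)

/-- the permutation of the clauses that flips the variables `i` with `u i = 1` -/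
def flip {V : Type} (u : V → ZMod 2) : Equiv.Perm (Clause V) :=
  Equiv.prodCongr (flipLit u) (Equiv.prodCongr (flipLit u) (flipLit u))

end Pool.Agent.H5Sym
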