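import Pool.Agent.H5Sym.Sparse
import Pool.Agent.H5Sym.SatDefs

/-!
# Symmetric circuits do not see the right-hand side of a sparse linear system
-/

set_option autoImplicit false

namespace Pool.Agent.H5Sym

open Module

variable {P m : ℕ} {V : Type}

open Classical in
/-- The formula of the linear system whose row `j` is
`x (ι (0, f 0 j)) + x (ι (1, f 1 j)) + x (ι (2, f 2 j)) = w j`. -/
noncomputable def form (ι : Fin 3 × Fin P ↪ V) (f : Fin 3 → Fin m → Fin P) (w : Fin m → F2)
    (t : Clause V) : Bool :=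
  decide (∃ j, t.1.1 = ι (0, f 0 j) ∧ t.2.1.1 = ι (1, f 1 j) ∧ t.2.2.1 = ι (2, f 2 j) ∧
    t.1.2 + t.2.1.2 + t.2.2.2 = w j)

theorem form_true {ι : Fin 3 × Fin P ↪ V} {f : Fin 3 → Fin m → Fin P} {w : Fin m → F2}
    {t : Clause V} : form ι f w t = true ↔ ∃ j, t.1.1 = ι (0, f 0 j) ∧ t.2.1.1 = ι (1, f 1 j) ∧
      t.2.2.1 = ι (2, f 2 j) ∧ t.1.2 + t.2.1.2 + t.2.2.2 = w j := by
  simp only [form, decide_eq_true_eq]

/-- the left-hand sides -/
def lhs (ι : Fin 3 × Fin P ↪ V) (f : Fin 3 → Fin m → Fin P) : (V → F2) →ₗ[F2] (Fin m → F2) where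
  toFun u j := ∑ c, u (ι (c, f c j))
  map_add' u v := by
    funext j
    simp only [Pi.add_apply, Finset.sum_add_distrib]
  map_smul' r u := by
    funext j
    simp only [Pi.smul_apply, smul_eq_mul, RingHom.id_apply, Finset.mul_sum]

theorem lhs_apply (ι : Fin 3 × Fin P ↪ V) (f : Fin 3 → Fin m → Fin P) (u : V → F2) (j : Fin m) :
    lhs ι f u j = ∑ c, u (ι (c, f c j)) := rfl

/-- the support of a functional -/
def sup (q : Dual F2 (Fin m → F2)) : Finset (Fin m) :=
  Finset.univ.filter fun j => q (Pi.single j 1) ≠ 0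

theorem sup_apply (q : Dual F2 (Fin m → F2)) (w : Fin m → F2) : q w = ∑ j ∈ sup q, w j := by
  classical
  conv_lhs => rw [← Finset.univ_sum_single w, map_sum]
  rw [sup, Finset.sum_filter]
  refine Finset.sum_congr rfl fun j _ => ?_
  have : (Pi.single j (w j) : Fin m → F2) = w j • Pi.single j 1 := by
    rw [← Pi.single_smul, smul_eq_mul, mul_one]
  rw [this, map_smul, smul_eq_mul]
  rcases F2.cases (q (Pi.single j 1)) with h | h
  · rw [h, mul_zero, if_neg (fun h => h rfl)]
  · rw [h, mul_one, if_pos one_ne_zero]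

theorem sup_zero : sup (0 : Dual F2 (Fin m → F2)) = ∅ := by simp [sup]

theorem sup_add (q q' : Dual F2 (Fin m → F2)) : (sup (q + q')).card ≤ (sup q).card + (sup q').card := by
  classical
  refine le_trans (Finset.card_le_card ?_) (Finset.card_union_le _ _)
  intro j hj
  simp only [sup, Finset.mem_filter, Finset.mem_univ, true_and, LinearMap.add_apply,
    Finset.mem_union] at hj ⊢
  by_contra h
  push Not at h
  exact hj (by rw [h.1, h.2, add_zero])

theorem sup_single (j : Fin m) :
    sup (LinearMap.proj (R := F2) (φ := fun _ : Fin m => F2) j) = {j} := by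
  ext i
  simp only [sup, Finset.mem_filter, Finset.mem_univ, true_and, LinearMap.proj_apply,
    Finset.mem_singleton]
  by_cases h : i = j
  · subst h; simp
  · simp [h]

/-- the functional on the flips with the coefficients `v` -/
def func (ι : Fin 3 × Fin P ↪ V) (U : Submodule F2 (V → F2)) (v : Fin 3 → Fin P → F2) :
    Dual F2 U where
  toFun u := ∑ c, ∑ i, v c i * u.1 (ι (c, i))
  map_add' u u' := by
    simp only [Submodule.coe_add, Pi.add_apply, mul_add, Finset.sum_add_distrib]
  map_smul' r u := by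
    simp only [Submodule.coe_smul, Pi.smul_apply, smul_eq_mul, RingHom.id_apply, Finset.mul_sum]
    refine Finset.sum_congr rfl fun c _ => Finset.sum_congr rfl fun i _ => ?_
    ring

theorem func_inj {ι : Fin 3 × Fin P ↪ V} {U : Submodule F2 (V → F2)}
    (hι : ∀ y : Fin 3 × Fin P → F2, ∃ u ∈ U, ∀ p, u (ι p) = y p) : Function.Injective (func ι U) := by
  classical
  intro v v' h
  funext c i
  obtain ⟨u, hu, hu'⟩ := hι (Pi.single (c, i) 1)
  have h1 : func ι U v ⟨u, hu⟩ = func ι U v' ⟨u, hu⟩ := by rw [h]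
  have h2 : ∀ v : Fin 3 → Fin P → F2, func ι U v ⟨u, hu⟩ = v c i := by
    intro v
    change ∑ c, ∑ i, v c i * u (ι (c, i)) = v c i
    simp only [hu']
    rw [Finset.sum_eq_single c, Finset.sum_eq_single i]
    · simp
    · intro i' _ hi'
      rw [Pi.single_eq_of_ne (by simp [hi']), mul_zero]
    · intro h; exact absurd (Finset.mem_univ _) h
    · intro c' _ hc'
      refine Finset.sum_eq_zero fun i' _ => ?_
      rw [Pi.single_eq_of_ne (by simp [hc']), mul_zero]
    · intro h; exact absurd (Finset.mem_univ _) h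
  rwa [h2, h2] at h1

theorem func_bd (ι : Fin 3 × Fin P ↪ V) (U : Submodule F2 (V → F2)) (f : Fin 3 → Fin m → Fin P)
    (q : Dual F2 (Fin m → F2)) (u : U) : func ι U (bd f (sup q)) u = q (lhs ι f u.1) := by
  classical
  rw [sup_apply]
  change ∑ c, ∑ i, bd f (sup q) c i * u.1 (ι (c, i)) = ∑ j ∈ sup q, ∑ c, u.1 (ι (c, f c j))
  rw [Finset.sum_comm (s := sup q)]
  refine Finset.sum_congr rfl fun c _ => ?_
  simp only [bd, Finset.sum_apply, Finset.sum_mul]
  rw [Finset.sum_comm]
  refine Finset.sum_congr rfl fun j _ => ?_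
  rw [Finset.sum_eq_single (f c j)]
  · rw [unit_self, one_mul]
  · intro i _ hi
    rw [unit_ne hi, zero_mul]
  · intro h; exact absurd (Finset.mem_univ _) h

theorem flip_apply (u : V → F2) (t : Clause V) :
    flip u t = ((t.1.1, t.1.2 + u t.1.1), (t.2.1.1, t.2.1.2 + u t.2.1.1),
      (t.2.2.1, t.2.2.2 + u t.2.2.1)) := rfl

theorem flip_add (u v : V → F2) : flip (u + v) = flip u * flip v := by
  refine Equiv.ext fun t => ?_
  rw [Equiv.Perm.mul_apply, flip_apply, flip_apply, flip_apply]
  simp only [Pi.add_apply, add_assoc, add_comm (u _) (v _)]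

theorem form_flip (ι : Fin 3 × Fin P ↪ V) (f : Fin 3 → Fin m → Fin P) (w : Fin m → F2) (u : V → F2)
    (t : Clause V) : form ι f (w + lhs ι f u) (flip u t) = form ι f w t := by
  rw [Bool.eq_iff_iff, form_true, form_true]
  refine exists_congr fun j => ?_
  rw [flip_apply]
  simp only [Pi.add_apply, lhs_apply, Fin.sum_univ_three]
  constructor
  · rintro ⟨h0, h1, h2, h3⟩
    refine ⟨h0, h1, h2, ?_⟩
    rw [h0, h1, h2] at h3
    have h4 : t.1.2 + t.2.1.2 + t.2.2.2 + (u (ι (0, f 0 j)) + u (ι (1, f 1 j)) + u (ι (2, f 2 j))) =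
        w j + (u (ι (0, f 0 j)) + u (ι (1, f 1 j)) + u (ι (2, f 2 j))) := by
      rw [← h3]; ring
    exact add_right_cancel h4
  · rintro ⟨h0, h1, h2, h3⟩
    refine ⟨h0, h1, h2, ?_⟩
    rw [h0, h1, h2, ← h3]
    ring

universe u w

/-- For some sparse system with distinct rows the circuit does not see the right-hand side. -/
theorem fooling3 [Finite V] (ι : Fin 3 × Fin P ↪ V) (U : Submodule F2 (V → F2))
    (hι : ∀ y : Fin 3 × Fin P → F2, ∃ u ∈ U, ∀ p, u (ι p) = y p) {D : Type u}
    (C : Circuit.{0, u, w} (Clause V) D) [Finite C.Gate] (inp : Bool → D)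
    (hinv : ∀ u ∈ U, C.Invariant (flip u)) {κ : ℕ} (hκ : 0 < κ) (hP0 : 0 < P)
    (hP : 256 * κ * m ^ 2 ≤ P ^ 3) (hC : 2 * Nat.card C.Gate < 4 ^ κ) :
    ∃ f : Fin 3 → Fin m → Fin P, (∀ j j', (∀ c, f c j = f c j') → j = j') ∧
      ∀ w w' : Fin m → F2, C.eval (inp ∘ form ι f w) C.out = C.eval (inp ∘ form ι f w') C.out := by
  classical
  have : Finite (V → F2) := Pi.finite
  have : Finite U := Subtype.finite
  let ρ : U → Equiv.Perm (Clause V) := fun u => flip u.1
  have hρ : ∀ u v : U, ρ (u + v) = ρ u * ρ v := fun u v => flip_add u.1 v.1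
  have hfin : (C.special ρ hρ).Finite := by
    have : Finite (Dual F2 U) := Finite.of_injective (fun q : Dual F2 U => (q : U → F2))
      DFunLike.coe_injective
    exact Set.toFinite _
  let Bad : Finset (Fin 3 → Fin P → F2) := Finset.univ.filter fun v => func ι U v ∈ C.special ρ hρ
  have hBad : Bad.card ≤ Nat.card C.Gate := by
    refine le_trans ?_ (C.special_card hρ fun u => hinv u.1 u.2)
    rw [← Set.ncard_coe_finset]
    refine Set.ncard_le_ncard_of_injOn (func ι U) ?_ ((func_inj hι).injOn) hfin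
    intro v hv
    simpa [Bad] using hv
  obtain ⟨f, hf1, hf2⟩ := exists_entries (m := m) hκ hP0 hP Bad (by omega)
  refine ⟨f, ?_, ?_⟩
  · intro j j' h
    by_contra hne
    refine hf2 {j, j'} ⟨j, by simp⟩ ?_ ?_
    · rw [Finset.card_pair hne]; omega
    · funext c
      rw [bd, Finset.sum_pair hne, h c, add_self_mod]
      rfl
  · let A : U →ₗ[F2] (Fin m → F2) := (lhs ι f).comp U.subtype
    have hvis : ∀ (g : C.Gate) (q : Dual F2 (Fin m → F2)),
        (∀ v ∈ C.stab ρ hρ g, q (A v) = 0) → func ι U (bd f (sup q)) ∈ C.special ρ hρ := by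
      intro g q hq
      refine ⟨g, fun v hv => ?_⟩
      rw [func_bd]
      exact hq v hv
    have key := C.core (W := Fin m → F2) hρ A (fun w => inp ∘ form ι f w) ?_
      {q | (sup q).card < 2 * κ} ?_ ?_ ?_ C.out
    · intro w w'
      have := key (w + w') ?_ w'
      · rw [show w' + (w + w') = w by
          rw [add_comm w w', ← add_assoc, add_self_mod, zero_add]] at this
        exact this
      · rintro q ⟨hq1, hq2⟩
        have h0 : bd f (sup q) = 0 := by
          refine func_inj hι (LinearMap.ext fun u => ?_)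
          rw [func_bd]
          obtain ⟨π, hπ⟩ := hinv u.1 u.2
          have h1 := hq2 u ⟨π, hπ, hπ.out⟩
          have h2 : func ι U 0 u = 0 := by
            change ∑ c, ∑ i, (0 : Fin 3 → Fin P → F2) c i * u.1 (ι (c, i)) = 0
            simp
          rw [h2]
          exact h1
        have h1 : sup q = ∅ := by
          by_contra hne
          have hq1' : (sup q).card < 2 * κ := hq1
          exact hf2 (sup q) (Finset.nonempty_iff_ne_empty.2 hne) (by omega) h0
        rw [sup_apply, h1, Finset.sum_empty]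
    · intro w v t
      exact congrArg inp (form_flip ι f w v.1 t)
    · change (sup 0).card < 2 * κ
      rw [sup_zero, Finset.card_empty]
      omega
    · intro t w d hd
      refine congrArg inp ?_
      rw [Bool.eq_iff_iff, form_true, form_true]
      refine exists_congr fun j => and_congr_right fun h0 => and_congr_right fun h1 =>
        and_congr_right fun h2 => ?_
      have hdj : d j = 0 := by
        refine hd (LinearMap.proj (R := F2) (φ := fun _ : Fin m => F2) j) ?_ ?_
        · change (sup _).card < 2 * κ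
          rw [sup_single, Finset.card_singleton]
          omega
        · intro v hv
          have hv' : flip v.1 t = t := hv
          rw [flip_apply] at hv'
          have e0 : t.1.2 + v.1 t.1.1 = t.1.2 := congrArg (fun s : Clause V => s.1.2) hv'
          have e1 : t.2.1.2 + v.1 t.2.1.1 = t.2.1.2 := congrArg (fun s : Clause V => s.2.1.2) hv'
          have e2 : t.2.2.2 + v.1 t.2.2.1 = t.2.2.2 := congrArg (fun s : Clause V => s.2.2.2) hv'
          rw [add_eq_left] at e0 e1 e2
          change ∑ c, v.1 (ι (c, f c j)) = 0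
          rw [Fin.sum_univ_three, ← h0, ← h1, ← h2, e0, e1, e2]
          rfl
      rw [Pi.add_apply, hdj, add_zero]
    · rintro g q ⟨hq1, hq2⟩ q' ⟨hq1', hq2'⟩
      have a1 : (sup q).card < 2 * κ := hq1
      have a2 : (sup q').card < 2 * κ := hq1'
      have b1 : (sup q).card < κ := by
        by_contra hcon
        exact hf1 (sup q) (not_lt.1 hcon) a1 (Finset.mem_filter.2 ⟨Finset.mem_univ _, hvis g q hq2⟩)
      have b2 : (sup q').card < κ := by
        by_contra hcon
        exact hf1 (sup q') (not_lt.1 hcon) a2 (Finset.mem_filter.2 ⟨Finset.mem_univ _, hvis g q' hq2'⟩)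
      have := sup_add q q'
      change (sup (q + q')).card < 2 * κ
      omega

end Pool.Agent.H5Sym
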