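import Pool.Agent.H5Sym.SparseK
import Pool.Agent.H5Sym.KSatDefs
import Pool.Agent.H5Sym.SatInst

/-!
# Symmetric circuits do not see the right-hand side of a random linear system
-/

set_option autoImplicit false

namespace Pool.Agent.H5Sym

open Module

variable {k P m : ℕ} {V : Type}

open Classical in
/-- The formula of the linear system with the entries `f`. -/
noncomputable def kform (ι : Fin k × Fin P ↪ V) (f : Fin k → Fin m → Fin P) (w : Fin m → F2)
    (t : KClause k V) : Bool :=
  decide (∃ j, (∀ c, (t c).1 = ι (c, f c j)) ∧ ∑ c, (t c).2 = w j)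

theorem kform_true {ι : Fin k × Fin P ↪ V} {f : Fin k → Fin m → Fin P} {w : Fin m → F2}
    {t : KClause k V} :
    kform ι f w t = true ↔ ∃ j, (∀ c, (t c).1 = ι (c, f c j)) ∧ ∑ c, (t c).2 = w j := by
  simp only [kform, decide_eq_true_eq]

/-- the left-hand sides -/
def klhs (ι : Fin k × Fin P ↪ V) (f : Fin k → Fin m → Fin P) : (V → F2) →ₗ[F2] (Fin m → F2) where
  toFun u j := ∑ c, u (ι (c, f c j))
  map_add' u v := by
    funext j
    simp only [Pi.add_apply, Finset.sum_add_distrib]
  map_smul' r u := by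
    funext j
    simp only [Pi.smul_apply, smul_eq_mul, RingHom.id_apply, Finset.mul_sum]

theorem klhs_apply (ι : Fin k × Fin P ↪ V) (f : Fin k → Fin m → Fin P) (u : V → F2) (j : Fin m) :
    klhs ι f u j = ∑ c, u (ι (c, f c j)) := rfl

/-- the functional on the flips with the coefficients `v` -/
def kfunc (ι : Fin k × Fin P ↪ V) (U : Submodule F2 (V → F2)) (v : Fin k → Fin P → F2) :
    Dual F2 U where
  toFun u := ∑ c, ∑ i, v c i * u.1 (ι (c, i))
  map_add' u u' := by
    simp only [Submodule.coe_add, Pi.add_apply, mul_add, Finset.sum_add_distrib]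
  map_smul' r u := by
    simp only [Submodule.coe_smul, Pi.smul_apply, smul_eq_mul, RingHom.id_apply, Finset.mul_sum]
    refine Finset.sum_congr rfl fun c _ => Finset.sum_congr rfl fun i _ => ?_
    ring

theorem kfunc_inj {ι : Fin k × Fin P ↪ V} {U : Submodule F2 (V → F2)}
    (hι : ∀ y : Fin k × Fin P → F2, ∃ u ∈ U, ∀ p, u (ι p) = y p) : Function.Injective (kfunc ι U) := by
  classical
  intro v v' h
  funext c i
  obtain ⟨u, hu, hu'⟩ := hι (Pi.single (c, i) 1)
  have h1 : kfunc ι U v ⟨u, hu⟩ = kfunc ι U v' ⟨u, hu⟩ := by rw [h]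
  have h2 : ∀ v : Fin k → Fin P → F2, kfunc ι U v ⟨u, hu⟩ = v c i := by
    intro v
    change ∑ c, ∑ i, v c i * u (ι (c, i)) = v c i
    simp only [hu']
    rw [Finset.sum_eq_single c, Finset.sum_eq_single i]
    · simp
    · intro i' _ hi'
      rw [Pi.single_eq_of_ne (by simp [hi']), mul_zero]
    · intro h; exact absurd (Finset.mem_univ _) h
    · intro c' _ hc'
      refine Finset.sum_eq_zero fun i' _ => ?_
      rw [Pi.single_eq_of_ne (by simp [hc']), mul_zero]
    · intro h; exact absurd (Finset.mem_univ _) h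
  rwa [h2, h2] at h1

theorem kfunc_bd (ι : Fin k × Fin P ↪ V) (U : Submodule F2 (V → F2)) (f : Fin k → Fin m → Fin P)
    (q : Dual F2 (Fin m → F2)) (u : U) : kfunc ι U (bdK f (sup q)) u = q (klhs ι f u.1) := by
  classical
  rw [sup_apply]
  change ∑ c, ∑ i, bdK f (sup q) c i * u.1 (ι (c, i)) = ∑ j ∈ sup q, ∑ c, u.1 (ι (c, f c j))
  rw [Finset.sum_comm (s := sup q)]
  refine Finset.sum_congr rfl fun c _ => ?_
  simp only [bdK, Finset.sum_apply, Finset.sum_mul]
  rw [Finset.sum_comm]
  refine Finset.sum_congr rfl fun j _ => ?_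
  rw [Finset.sum_eq_single (f c j)]
  · rw [unit_self, one_mul]
  · intro i _ hi
    rw [unit_ne hi, zero_mul]
  · intro h; exact absurd (Finset.mem_univ _) h

theorem kFlip_apply (u : V → F2) (t : KClause k V) (c : Fin k) :
    kFlip u t c = ((t c).1, (t c).2 + u (t c).1) := rfl

theorem kFlip_add (u v : V → F2) : (kFlip (u + v) : Equiv.Perm (KClause k V)) = kFlip u * kFlip v := by
  refine Equiv.ext fun t => funext fun c => ?_
  rw [Equiv.Perm.mul_apply, kFlip_apply, kFlip_apply, kFlip_apply]
  simp only [Pi.add_apply, add_assoc, add_comm (u _) (v _)]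

theorem kform_flip (ι : Fin k × Fin P ↪ V) (f : Fin k → Fin m → Fin P) (w : Fin m → F2)
    (u : V → F2) (t : KClause k V) :
    kform ι f (w + klhs ι f u) (kFlip u t) = kform ι f w t := by
  rw [Bool.eq_iff_iff, kform_true, kform_true]
  refine exists_congr fun j => ?_
  simp only [kFlip_apply, Pi.add_apply, klhs_apply, Finset.sum_add_distrib]
  constructor
  · rintro ⟨h0, h3⟩
    refine ⟨h0, ?_⟩
    simp only [h0] at h3
    exact add_right_cancel h3
  · rintro ⟨h0, h3⟩
    refine ⟨h0, ?_⟩
    simp only [h0]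
    rw [h3]

universe u w

/-- For some linear system the circuit does not see the right-hand side. -/
theorem foolingK [Finite V] (ι : Fin k × Fin P ↪ V) (U : Submodule F2 (V → F2))
    (hι : ∀ y : Fin k × Fin P → F2, ∃ u ∈ U, ∀ p, u (ι p) = y p) {D : Type u}
    (C : Circuit.{0, u, w} (KClause k V) D) [Finite C.Gate] (inp : Bool → D)
    (hinv : ∀ u ∈ U, C.Invariant (kFlip u)) {κ : ℕ} (hκ : 0 < κ) (hP0 : 0 < P) (ν : ℕ → ℝ)
    (hν0 : ∀ w, 0 ≤ ν w) (hν : ∀ w < 2 * κ, ∀ v : Fin P → F2, (walk w v : ℝ) ≤ ν w * P ^ w)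
    (hC : Nat.card C.Gate * (∑ w ∈ Finset.Ico κ (2 * κ), m.choose w * ν w ^ k) +
      (∑ w ∈ Finset.Ico 1 (2 * κ), m.choose w * ν w ^ k) < 1) :
    ∃ f : Fin k → Fin m → Fin P, ∀ w w' : Fin m → F2,
      C.eval (inp ∘ kform ι f w) C.out = C.eval (inp ∘ kform ι f w') C.out := by
  classical
  have : Finite (V → F2) := Pi.finite
  have : Finite U := Subtype.finite
  let ρ : U → Equiv.Perm (KClause k V) := fun u => kFlip u.1
  have hρ : ∀ u v : U, ρ (u + v) = ρ u * ρ v := fun u v => kFlip_add u.1 v.1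
  have hfin : (C.special ρ hρ).Finite := by
    have : Finite (Dual F2 U) := Finite.of_injective (fun q : Dual F2 U => (q : U → F2))
      DFunLike.coe_injective
    exact Set.toFinite _
  let Bad : Finset (Fin k → Fin P → F2) := Finset.univ.filter fun v => kfunc ι U v ∈ C.special ρ hρ
  have hBad : Bad.card ≤ Nat.card C.Gate := by
    refine le_trans ?_ (C.special_card hρ fun u => hinv u.1 u.2)
    rw [← Set.ncard_coe_finset]
    refine Set.ncard_le_ncard_of_injOn (kfunc ι U) ?_ ((kfunc_inj hι).injOn) hfin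
    intro v hv
    simpa [Bad] using hv
  obtain ⟨f, hf1, hf2⟩ := exists_entriesK (m := m) hP0 ν hν Bad (by
    refine lt_of_le_of_lt ?_ hC
    have : (Bad.card : ℝ) ≤ Nat.card C.Gate := by exact_mod_cast hBad
    have h2 : 0 ≤ ∑ w ∈ Finset.Ico κ (2 * κ), (m.choose w : ℝ) * ν w ^ k :=
      Finset.sum_nonneg fun w _ => mul_nonneg (Nat.cast_nonneg _) (pow_nonneg (hν0 w) _)
    gcongr)
  refine ⟨f, ?_⟩
  let A : U →ₗ[F2] (Fin m → F2) := (klhs ι f).comp U.subtype
  have hvis : ∀ (g : C.Gate) (q : Dual F2 (Fin m → F2)),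
      (∀ v ∈ C.stab ρ hρ g, q (A v) = 0) → kfunc ι U (bdK f (sup q)) ∈ C.special ρ hρ := by
    intro g q hq
    refine ⟨g, fun v hv => ?_⟩
    rw [kfunc_bd]
    exact hq v hv
  have key := C.core (W := Fin m → F2) hρ A (fun w => inp ∘ kform ι f w) ?_
    {q | (sup q).card < 2 * κ} ?_ ?_ ?_ C.out
  · intro w w'
    have := key (w + w') ?_ w'
    · rw [show w' + (w + w') = w by
        rw [add_comm w w', ← add_assoc, add_self_mod, zero_add]] at this
      exact this
    · rintro q ⟨hq1, hq2⟩
      have h0 : bdK f (sup q) = 0 := by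
        refine kfunc_inj hι (LinearMap.ext fun u => ?_)
        rw [kfunc_bd]
        obtain ⟨π, hπ⟩ := hinv u.1 u.2
        have h1 := hq2 u ⟨π, hπ, hπ.out⟩
        have h2 : kfunc ι U 0 u = 0 := by
          change ∑ c, ∑ i, (0 : Fin k → Fin P → F2) c i * u.1 (ι (c, i)) = 0
          simp
        rw [h2]
        exact h1
      have h1 : sup q = ∅ := by
        by_contra hne
        exact hf2 (sup q) (Finset.nonempty_iff_ne_empty.2 hne) hq1 h0
      rw [sup_apply, h1, Finset.sum_empty]
  · intro w v t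
    exact congrArg inp (kform_flip ι f w v.1 t)
  · change (sup 0).card < 2 * κ
    rw [sup_zero, Finset.card_empty]
    omega
  · intro t w d hd
    refine congrArg inp ?_
    rw [Bool.eq_iff_iff, kform_true, kform_true]
    refine exists_congr fun j => and_congr_right fun h0 => ?_
    have hdj : d j = 0 := by
      refine hd (LinearMap.proj (R := F2) (φ := fun _ : Fin m => F2) j) ?_ ?_
      · change (sup _).card < 2 * κ
        rw [sup_single, Finset.card_singleton]
        omega
      · intro v hv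
        have hv' : kFlip v.1 t = t := hv
        change ∑ c, v.1 (ι (c, f c j)) = 0
        refine Finset.sum_eq_zero fun c _ => ?_
        have e0 : (t c).2 + v.1 (t c).1 = (t c).2 := congrArg (fun s : KClause k V => (s c).2) hv'
        rw [add_eq_left, h0] at e0
        exact e0
    rw [Pi.add_apply, hdj, add_zero]
  · rintro g q ⟨hq1, hq2⟩ q' ⟨hq1', hq2'⟩
    have a1 : (sup q).card < 2 * κ := hq1
    have a2 : (sup q').card < 2 * κ := hq1'
    have b1 : (sup q).card < κ := by
      by_contra hcon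
      exact hf1 (sup q) (not_lt.1 hcon) a1 (Finset.mem_filter.2 ⟨Finset.mem_univ _, hvis g q hq2⟩)
    have b2 : (sup q').card < κ := by
      by_contra hcon
      exact hf1 (sup q') (not_lt.1 hcon) a2 (Finset.mem_filter.2 ⟨Finset.mem_univ _, hvis g q' hq2'⟩)
    have := sup_add q q'
    change (sup (q + q')).card < 2 * κ
    omega

/-- the satisfying assignments are the solutions of the linear system -/
theorem kform_holds (ι : Fin k × Fin P ↪ V) (f : Fin k → Fin m → Fin P) (w : Fin m → F2)
    (a : V → F2) : (∀ t, kform ι f w t = true → KHolds a t) ↔ ∀ j, klhs ι f a j + k ≠ w j := by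
  constructor
  · intro h j hj
    have h1 := h (fun c => (ι (c, f c j), a (ι (c, f c j)) + 1)) (by
      rw [kform_true]
      refine ⟨j, fun c => rfl, ?_⟩
      rw [← hj, klhs_apply]
      simp [Finset.sum_add_distrib])
    obtain ⟨c, hc⟩ := h1
    dsimp only at hc
    exact one_ne_zero (left_eq_add.1 hc)
  · intro h t ht
    obtain ⟨j, h0, h1⟩ := kform_true.1 ht
    by_contra hcon
    rw [KHolds] at hcon
    push Not at hcon
    refine h j ?_
    rw [← h1, klhs_apply]
    have h2 : ∀ c, (t c).2 = a (ι (c, f c j)) + 1 := by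
      intro c
      have h3 := hcon c
      rw [h0 c] at h3
      have h4 : ∀ x y : F2, x ≠ y → y = x + 1 := by decide
      exact h4 _ _ h3
    simp [h2, Finset.sum_add_distrib]

end Pool.Agent.H5Sym
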