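import Pool.Agent.H5Sym.KSatInst
import Pool.Agent.H5Sym.KNumeric
import Pool.Agent.H5Sym.InfoSet

/-!
# Counting for k-CNF formulas and circuits that are invariant under flips
-/

set_option autoImplicit false

namespace Pool.Agent.H5Sym

open Module

universe u w

theorem exists_rhsK {k P m : ℕ} (hm : k * P < m) {V : Type} (ι : Fin k × Fin P ↪ V)
    (f : Fin k → Fin m → Fin P) : ∃ y : Fin m → F2, ∀ a : V → F2, klhs ι f a ≠ y := by
  classical
  let G : (Fin k × Fin P → F2) → (Fin m → F2) := fun z j => ∑ c, z (c, f c j)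
  have hG : ¬ Function.Surjective G := by
    intro h
    have h1 := Fintype.card_le_of_surjective G h
    simp only [Fintype.card_fun, Fintype.card_prod, Fintype.card_fin, ZMod.card] at h1
    have h2 : 2 ^ (k * P) < 2 ^ m := Nat.pow_lt_pow_right (by norm_num) hm
    omega
  rw [Function.Surjective] at hG
  push Not at hG
  obtain ⟨y, hy⟩ := hG
  exact ⟨y, fun a ha => hy (fun p => a (ι p)) ha⟩

theorem kNumSat_pos {k P m : ℕ} {V : Type} [Finite V] (ι : Fin k × Fin P ↪ V)
    (f : Fin k → Fin m → Fin P) : 0 < kNumSat (kform ι f fun _ => (k : F2) + 1) := by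
  rw [kNumSat, Nat.card_pos_iff]
  refine ⟨⟨⟨0, ?_⟩⟩, inferInstance⟩
  rw [kform_holds]
  intro j
  rw [map_zero, Pi.zero_apply, zero_add]
  intro h
  exact one_ne_zero (left_eq_add.1 h)

theorem kNumSat_zero {k P m : ℕ} {V : Type} (ι : Fin k × Fin P ↪ V)
    (f : Fin k → Fin m → Fin P) (y : Fin m → F2) (hy : ∀ a : V → F2, klhs ι f a ≠ y) :
    kNumSat (kform ι f fun j => y j + k + 1) = 0 := by
  rw [kNumSat, Nat.card_eq_zero]
  refine Or.inl ⟨fun a => hy a.1 ?_⟩
  have h := (kform_holds ι f _ a.1).1 a.2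
  funext j
  have h1 := h j
  have h2 : ∀ x y z : F2, x + z ≠ y + z + 1 → x = y := by decide
  exact h2 _ _ _ h1

theorem lowerK {k : ℕ} {ε : ℝ} (hε : 0 < ε) (hε1 : ε ≤ 1) {α : ℕ} (hα1 : 1 ≤ α)
    (hα : Real.exp (-(2 * α)) ≤ ε / 5) (hk : 12 ≤ k)
    (hk1 : 2 * α * Real.log k + 1 ≤ ε / 20 * k) {V : Type} [Finite V]
    (U : Submodule F2 (V → F2)) {D : Type u} (C : Circuit.{0, u, w} (KClause k V) D)
    [Finite C.Gate] (inp : Bool → D) (acc : D → Prop) (hinv : ∀ u ∈ U, C.Invariant (kFlip u))
    (hacc : ∀ x, acc (C.eval (inp ∘ x) C.out) ↔ 0 < kNumSat x) :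
    (2 : ℝ) ^ ((1 - ε) * finrank F2 U) ≤ 2 ^ (20 * k) * Nat.card C.Gate := by
  have hs : 0 < Nat.card C.Gate := Nat.card_pos_iff.2 ⟨⟨C.out⟩, inferInstance⟩
  have hs1 : (1 : ℝ) ≤ Nat.card C.Gate := by exact_mod_cast hs
  obtain ⟨ι₀, hι₀⟩ := exists_info U
  generalize finrank F2 U = d at ι₀ hι₀ ⊢
  have hk0 : 0 < k := by omega
  have hdP : d < k * (d / k) + k := by
    have := Nat.div_add_mod d k
    have := Nat.mod_lt d hk0
    omega
  set P := d / k with hPdef
  rcases lt_or_ge P 16 with hP16 | hP16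
  · have h1 : d ≤ 20 * k := by
      have : k * P ≤ k * 15 := Nat.mul_le_mul_left k (by omega)
      omega
    calc (2 : ℝ) ^ ((1 - ε) * d) ≤ 2 ^ (d : ℝ) := by
          apply Real.rpow_le_rpow_of_exponent_le (by norm_num)
          have : (0 : ℝ) ≤ d := Nat.cast_nonneg d
          nlinarith
      _ = 2 ^ d := Real.rpow_natCast 2 d
      _ ≤ 2 ^ (20 * k) := pow_le_pow_right₀ (by norm_num) h1
      _ ≤ 2 ^ (20 * k) * Nat.card C.Gate := le_mul_of_one_le_right (by positivity) hs1
  by_contra hcon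
  push Not at hcon
  have hsmall : (Nat.card C.Gate : ℝ) * (4 * Real.exp 1 * 2 ^ k) ≤ 2 ^ ((1 - ε) * (k * P)) := by
    have h1 : (2 : ℝ) ^ ((1 - ε) * d) ≤ 2 ^ ((1 - ε) * (k * P)) * 2 ^ k := by
      rw [← Real.rpow_natCast 2 k, ← Real.rpow_add (by norm_num)]
      apply Real.rpow_le_rpow_of_exponent_le (by norm_num)
      have h2 : (d : ℝ) ≤ k * P + k := by exact_mod_cast hdP.le
      have h3 : (0 : ℝ) ≤ k := Nat.cast_nonneg k
      nlinarith
    have h2 : 2 ^ (20 * k) * (Nat.card C.Gate : ℝ) < 2 ^ ((1 - ε) * (k * P)) * 2 ^ k :=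
      lt_of_lt_of_le hcon h1
    have h3 : 4 * Real.exp 1 ≤ 2 ^ (18 * k) := by
      have h4 := Real.exp_one_lt_d9
      calc 4 * Real.exp 1 ≤ 2 ^ 18 := by norm_num; linarith
        _ ≤ 2 ^ (18 * k) := pow_le_pow_right₀ (by norm_num) (by omega)
    have h5 : (2 : ℝ) ^ (20 * k) = 2 ^ (18 * k) * 2 ^ k * 2 ^ k := by ring
    rw [h5] at h2
    have h6 : (0 : ℝ) < 2 ^ k := by positivity
    have h7 : 2 ^ (18 * k) * 2 ^ k * (Nat.card C.Gate : ℝ) < 2 ^ ((1 - ε) * (k * P)) := by
      by_contra h
      push Not at h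
      have := mul_le_mul_of_nonneg_right h h6.le
      nlinarith
    calc (Nat.card C.Gate : ℝ) * (4 * Real.exp 1 * 2 ^ k)
        ≤ (Nat.card C.Gate : ℝ) * (2 ^ (18 * k) * 2 ^ k) := by gcongr
      _ = 2 ^ (18 * k) * 2 ^ k * (Nat.card C.Gate : ℝ) := by ring
      _ ≤ _ := h7.le
  have hP0 : 0 < P := by omega
  obtain ⟨ι₁⟩ : Nonempty (Fin k × Fin P ↪ Fin d) := by
    refine Function.Embedding.nonempty_of_card_le ?_
    rw [Fintype.card_prod, Fintype.card_fin, Fintype.card_fin, Fintype.card_fin]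
    exact Nat.mul_div_le d k
  have hι : ∀ y : Fin k × Fin P → F2, ∃ u ∈ U, ∀ p, u ((ι₁.trans ι₀) p) = y p := by
    intro y
    obtain ⟨u, hu, hu'⟩ := hι₀ (Function.extend ι₁ y 0)
    refine ⟨u, hu, fun p => ?_⟩
    rw [Function.Embedding.trans_apply, hu', ι₁.injective.extend_apply]
  obtain ⟨f, hf⟩ := foolingK (m := k * P + 1) (ι₁.trans ι₀) U hι C inp hinv
    (κ := α * P) (Nat.mul_pos hα1 hP0) hP0 (nu P) (nu_nonneg P) (fun w _ => walk_le_nu hP0 w)
    (main_ineq hε hε1 (by positivity) hα1 hα hk hk1 hP16 hsmall)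
  obtain ⟨y, hy⟩ := exists_rhsK (Nat.lt_succ_self (k * P)) (ι₁.trans ι₀) f
  have h1 := (hacc _).2 (kNumSat_pos (ι₁.trans ι₀) f)
  rw [hf _ (fun j => y j + k + 1), hacc, kNumSat_zero _ f y hy] at h1
  exact lt_irrefl _ h1

theorem lowerK' (ε : ℝ) (hε : 0 < ε) : ∃ k₀ : ℕ, ∀ k ≥ k₀, ∀ (V : Type) [Finite V]
    (U : Submodule F2 (V → F2)) (D : Type u) (C : Circuit.{0, u, w} (KClause k V) D)
    [Finite C.Gate] (inp : Bool → D) (acc : D → Prop), (∀ u ∈ U, C.Invariant (kFlip u)) →
    (∀ x, acc (C.eval (inp ∘ x) C.out) ↔ 0 < kNumSat x) →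
    (2 : ℝ) ^ ((1 - ε) * finrank F2 U) ≤ 2 ^ (20 * k) * Nat.card C.Gate := by
  rcases lt_or_ge 1 ε with hε1 | hε1
  · refine ⟨0, fun k _ V _ U D C _ inp acc _ _ => ?_⟩
    have hs : 0 < Nat.card C.Gate := Nat.card_pos_iff.2 ⟨⟨C.out⟩, inferInstance⟩
    have hs1 : (1 : ℝ) ≤ Nat.card C.Gate := by exact_mod_cast hs
    calc (2 : ℝ) ^ ((1 - ε) * finrank F2 U) ≤ 1 := by
          apply Real.rpow_le_one_of_one_le_of_nonpos (by norm_num)
          have : (0 : ℝ) ≤ finrank F2 U := Nat.cast_nonneg _
          nlinarith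
      _ ≤ 2 ^ (20 * k) * Nat.card C.Gate := one_le_mul_of_one_le_of_one_le
          (one_le_pow₀ (by norm_num)) hs1
  · obtain ⟨α, hα1, hα⟩ : ∃ α : ℕ, 1 ≤ α ∧ Real.exp (-(2 * α)) ≤ ε / 5 := by
      refine ⟨⌈Real.log (5 / ε)⌉₊ + 1, by omega, ?_⟩
      have h1 : Real.log (5 / ε) ≤ ⌈Real.log (5 / ε)⌉₊ := Nat.le_ceil _
      have h2 : (0 : ℝ) ≤ ⌈Real.log (5 / ε)⌉₊ := Nat.cast_nonneg _
      have h3 : Real.exp (Real.log (ε / 5)) = ε / 5 := Real.exp_log (by positivity)
      rw [← h3, Real.exp_le_exp]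
      have h4 : Real.log (ε / 5) = -Real.log (5 / ε) := by
        rw [← Real.log_inv, inv_div]
      rw [h4]
      push_cast
      linarith
    have hα0 : (0 : ℝ) < α := by exact_mod_cast hα1
    have h1 : ∀ᶠ x : ℝ in Filter.atTop, ‖Real.log x‖ ≤ ε / (80 * α) * ‖x‖ :=
      Real.isLittleO_log_id_atTop.bound (by positivity)
    have h2 := (tendsto_natCast_atTop_atTop (R := ℝ)).eventually h1
    have h3 : ∀ᶠ k : ℕ in Filter.atTop, 40 / ε ≤ (k : ℝ) :=
      (tendsto_natCast_atTop_atTop (R := ℝ)).eventually (Filter.eventually_ge_atTop _)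
    obtain ⟨k₀, hk₀⟩ := Filter.eventually_atTop.1 (h2.and (h3.and (Filter.eventually_ge_atTop 12)))
    refine ⟨k₀, fun k hk V _ U D C _ inp acc h4 h5 => ?_⟩
    obtain ⟨h6, h7, h8⟩ := hk₀ k hk
    refine lowerK hε hε1 hα1 hα h8 ?_ U C inp acc h4 h5
    have hk1 : (1 : ℝ) ≤ k := by
      have : 1 ≤ k := by omega
      exact_mod_cast this
    rw [Real.norm_of_nonneg (Real.log_nonneg hk1), Real.norm_of_nonneg (by linarith)] at h6
    have h9 : 2 * α * Real.log k ≤ ε / 40 * k := by
      calc 2 * α * Real.log k ≤ 2 * α * (ε / (80 * α) * k) := by gcongr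
        _ = ε / 40 * k := by field_simp; ring
    have h10 : 1 ≤ ε / 40 * k := by
      rw [div_le_iff₀ hε] at h7
      linarith
    linarith

/-- the gates of the brute-force circuit: inputs, assignments, output -/
inductive KGate (k : ℕ) (V : Type) : Type
  | inp (t : KClause k V)
  | asg (a : V → F2)
  | out

/-- the gates as a sum type -/
def kgateEquiv (k : ℕ) (V : Type) : KGate k V ≃ (KClause k V ⊕ (V → F2)) ⊕ Unit where
  toFun g := match g with
    | .inp t => Sum.inl (Sum.inl t)
    | .asg a => Sum.inl (Sum.inr a)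
    | .out => Sum.inr ()
  invFun s := match s with
    | Sum.inl (Sum.inl t) => .inp t
    | Sum.inl (Sum.inr a) => .asg a
    | Sum.inr () => .out
  left_inv g := by rcases g with t | a | _ <;> rfl
  right_inv s := by rcases s with (t | a) | ⟨⟩ <;> rfl

open Classical in
/-- the clauses violated by an assignment -/
noncomputable def viol {k : ℕ} {V : Type} [Fintype V] (a : V → F2) : Finset (KClause k V) :=
  Finset.univ.filter fun t => ¬ KHolds a t

theorem mem_viol {k : ℕ} {V : Type} [Fintype V] {a : V → F2} {t : KClause k V} :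
    t ∈ viol a ↔ ¬ KHolds a t := by simp [viol]

open Classical in
/-- the brute-force circuit -/
noncomputable def kbrute (k : ℕ) (V : Type) [Fintype V] : Circuit (KClause k V) ℕ where
  Gate := KGate k V
  input := fun g => match g with
    | .inp t => some t
    | _ => none
  wires := fun g => match g with
    | .inp _ => 0
    | .asg a => (viol a).val.map fun t => (0, .inp t)
    | .out => (Finset.univ : Finset (V → F2)).val.map fun a => (0, .asg a)
  op := fun g M => match g with
    | .out => (M.map Prod.snd).sum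
    | _ => if ∀ e ∈ M, e.2 = 0 then 1 else 0
  level := fun g => match g with
    | .inp _ => 0
    | .asg _ => 1
    | .out => 2
  level_lt := by
    intro g e he
    rcases g with t | a | _
    · simp at he
    · simp only [Multiset.mem_map] at he
      obtain ⟨t, -, rfl⟩ := he
      exact Nat.zero_lt_one
    · simp only [Multiset.mem_map] at he
      obtain ⟨t, -, rfl⟩ := he
      exact Nat.one_lt_two
  out := .out

theorem kHolds_flip {k : ℕ} {V : Type} (u a : V → F2) (t : KClause k V) :
    KHolds (a + u) (kFlip u t) ↔ KHolds a t := by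
  refine exists_congr fun c => ?_
  rw [kFlip_apply]
  exact add_left_inj _

theorem kFlip_self {k : ℕ} {V : Type} (u : V → F2) (t : KClause k V) :
    kFlip u (kFlip u t) = t := by
  rw [← Equiv.Perm.mul_apply, ← kFlip_add, add_self_mod]
  funext c
  rw [kFlip_apply]
  simp

theorem kbrute_inv (k : ℕ) (V : Type) [Fintype V] (u : V → F2) :
    (kbrute k V).Invariant (kFlip u) := by
  classical
  have hinv : Function.Involutive fun g : KGate k V => (match g with
      | .inp t => .inp (kFlip u t)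
      | .asg a => .asg (a + u)
      | .out => .out : KGate k V) := by
    rintro (t | a | _)
    · exact congrArg KGate.inp (kFlip_self u t)
    · refine congrArg KGate.asg ?_
      rw [add_assoc, add_self_mod, add_zero]
    · rfl
  refine ⟨hinv.toPerm, ?_, ?_, ?_, ?_⟩
  · rintro (t | a | _) <;> rfl
  · rintro (t | a | _)
    · rfl
    · change (viol (a + u)).val.map (fun t => ((0 : ℕ), (KGate.inp t : KGate k V))) =
        ((viol a).val.map (fun t => ((0 : ℕ), (KGate.inp t : KGate k V)))).map _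
      rw [Multiset.map_map]
      have h1 : (viol (a + u) : Finset (KClause k V)) = (viol a).map (kFlip u).toEmbedding := by
        ext t
        rw [Finset.mem_map_equiv, mem_viol, mem_viol]
        have h2 : (kFlip u).symm t = kFlip u t := by
          rw [Equiv.symm_apply_eq, kFlip_self]
        rw [h2, ← kHolds_flip u a (kFlip u t), kFlip_self]
      rw [h1, Finset.map_val, Multiset.map_map]
      rfl
    · change (Finset.univ : Finset (V → F2)).val.map
          (fun a => ((0 : ℕ), (KGate.asg a : KGate k V))) =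
        ((Finset.univ : Finset (V → F2)).val.map
          (fun a => ((0 : ℕ), (KGate.asg a : KGate k V)))).map _
      rw [Multiset.map_map]
      have h1 : (Finset.univ : Finset (V → F2)) = Finset.univ.map (Equiv.addRight u).toEmbedding := by
        rw [Finset.map_univ_equiv]
      conv_lhs => rw [h1, Finset.map_val, Multiset.map_map]
      rfl
  · rintro (t | a | _) <;> rfl
  · rfl

theorem kbrute_eval (k : ℕ) (V : Type) [Fintype V] (x : KClause k V → Bool) :
    (kbrute k V).eval (fun t => if x t then 1 else 0) (kbrute k V).out = kNumSat x := by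
  classical
  have h1 : ∀ t : KClause k V, (kbrute k V).eval (fun t => if x t then 1 else 0) (KGate.inp t) =
      if x t then 1 else 0 := fun t => (kbrute k V).eval_some rfl
  have h2 : ∀ a : V → F2, (kbrute k V).eval (fun t => if x t then 1 else 0) (KGate.asg a) =
      if (∀ t, x t = true → KHolds a t) then 1 else 0 := by
    intro a
    refine ((kbrute k V).eval_none (g := (KGate.asg a : KGate k V)) rfl).trans ?_
    change (if ∀ e ∈ ((viol a).val.map fun t => ((0 : ℕ), (KGate.inp t : KGate k V))).map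
        (fun e => (e.1, (kbrute k V).eval (fun t => if x t then 1 else 0) e.2)), e.2 = 0
        then 1 else 0) = _
    refine if_congr ?_ rfl rfl
    rw [Multiset.map_map]
    simp only [Multiset.mem_map, Finset.mem_val, mem_viol, Function.comp, forall_exists_index,
      and_imp]
    constructor
    · intro h t ht
      by_contra hcon
      have := h _ t hcon rfl
      rw [h1, ht] at this
      simp at this
    · rintro h e t h4 rfl
      rw [h1]
      by_contra hcon
      have h6 : x t = true := by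
        by_contra h7
        rw [if_neg h7] at hcon
        exact hcon rfl
      exact h4 (h t h6)
  refine ((kbrute k V).eval_none (g := (KGate.out : KGate k V)) rfl).trans ?_
  change ((((Finset.univ : Finset (V → F2)).val.map fun a => ((0 : ℕ), (KGate.asg a : KGate k V))).map
    (fun e => (e.1, (kbrute k V).eval (fun t => if x t then 1 else 0) e.2))).map Prod.snd).sum = _
  rw [Multiset.map_map, Multiset.map_map]
  simp only [Function.comp_def, h2]
  rw [kNumSat, Nat.card_eq_fintype_card, Fintype.card_subtype]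
  change ∑ a : V → F2, _ = _
  rw [Finset.card_filter]

theorem kbrute_card (k : ℕ) (V : Type) [Fintype V] :
    Nat.card (kbrute k V).Gate = 2 ^ Nat.card V + (2 * Nat.card V) ^ k + 1 := by
  classical
  change Nat.card (KGate k V) = _
  rw [Nat.card_congr (kgateEquiv k V), Nat.card_eq_fintype_card, Nat.card_eq_fintype_card]
  simp only [Fintype.card_sum, Fintype.card_prod, Fintype.card_fun, ZMod.card, Fintype.card_fin,
    Fintype.card_unit]
  rw [mul_comm (Fintype.card V) 2]
  ring

end Pool.Agent.H5Sym
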