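import Pool.Agent.H5Sym.Nondet

/-!
# Nondeterministic circuits for the independent set problem: upper bounds
-/

set_option autoImplicit false

namespace Pool.Agent.H5Sym

open Equiv

universe u w

/-- the gates of the nondeterministic circuit -/
inductive IGate (X : Type) : Type
  | inp (p : X × X)
  | guess (i : X)
  | pair (p : X × X)
  | size
  | out

/-- the gates as a sum type -/
def igateEquiv (X : Type) : IGate X ≃ ((X × X) ⊕ X) ⊕ ((X × X) ⊕ Fin 2) where
  toFun g := match g with
    | .inp p => Sum.inl (Sum.inl p)
    | .guess i => Sum.inl (Sum.inr i)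
    | .pair p => Sum.inr (Sum.inl p)
    | .size => Sum.inr (Sum.inr 0)
    | .out => Sum.inr (Sum.inr 1)
  invFun s := match s with
    | Sum.inl (Sum.inl p) => .inp p
    | Sum.inl (Sum.inr i) => .guess i
    | Sum.inr (Sum.inl p) => .pair p
    | Sum.inr (Sum.inr 0) => .size
    | Sum.inr (Sum.inr 1) => .out
  left_inv g := by rcases g with p | i | p | _ | _ <;> rfl
  right_inv s := by
    rcases s with (p | i) | (p | i)
    · rfl
    · rfl
    · rfl
    · fin_cases i <;> rfl

/-- the map of the gates induced by a map of the vertices -/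
def IGate.map {X : Type} (τ : X → X) : IGate X → IGate X
  | .inp p => .inp (τ p.1, τ p.2)
  | .guess i => .guess (τ i)
  | .pair p => .pair (τ p.1, τ p.2)
  | .size => .size
  | .out => .out

variable {X : Type} [Fintype X]

/-- the circuit that verifies independent sets -/
def indepC (X : Type) [Fintype X] (k : ℕ) : Circuit.{0, 0, 0} ((X × X) ⊕ X) Bool where
  Gate := IGate X
  input := fun g => match g with
    | .inp p => some (Sum.inl p)
    | .guess i => some (Sum.inr i)
    | _ => none
  wires := fun g => match g with
    | .inp _ => 0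
    | .guess _ => 0
    | .pair p => {(0, .inp p), (0, .guess p.1), (0, .guess p.2)}
    | .size => (Finset.univ : Finset X).val.map fun i => (0, .guess i)
    | .out => (0, .size) ::ₘ (Finset.univ : Finset (X × X)).val.map fun p => (0, .pair p)
  op := fun g => match g with
    | .inp _ => thr 0
    | .guess _ => thr 0
    | .pair _ => fun M => !thr 3 M
    | .size => thr k
    | .out => thr (Fintype.card X * Fintype.card X + 1)
  level := fun g => match g with
    | .inp _ => 0
    | .guess _ => 0
    | .pair _ => 1
    | .size => 1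
    | .out => 2
  level_lt := by
    rintro (p | i | p | _ | _) e he
    · simp at he
    · simp at he
    · simp only [Multiset.insert_eq_cons, Multiset.mem_cons, Multiset.mem_singleton] at he
      rcases he with rfl | rfl | rfl <;> exact Nat.zero_lt_one
    · simp only [Multiset.mem_map] at he
      obtain ⟨u, -, rfl⟩ := he
      exact Nat.zero_lt_one
    · simp only [Multiset.mem_cons, Multiset.mem_map] at he
      rcases he with rfl | ⟨u, -, rfl⟩ <;> exact Nat.one_lt_two
  out := .out

theorem indepC_card (k : ℕ) :
    Nat.card (indepC X k).Gate = 2 * Nat.card X ^ 2 + Nat.card X + 2 := by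
  change Nat.card (IGate X) = _
  rw [Nat.card_congr (igateEquiv X), Nat.card_sum, Nat.card_sum, Nat.card_sum, Nat.card_prod,
    Nat.card_fin]
  ring

theorem indepC_threshold (k : ℕ) : ThresholdGates (indepC X k) := by
  rintro (p | i | p | _ | _) h
  · exact ⟨0, Or.inl rfl⟩
  · exact ⟨0, Or.inl rfl⟩
  · exact ⟨3, Or.inr rfl⟩
  · exact ⟨k, Or.inl rfl⟩
  · exact ⟨_, Or.inl rfl⟩

theorem indepC_inv (k : ℕ) (τ : Perm X) :
    (indepC X k).Invariant (Equiv.sumCongr (pairPerm τ) τ) := by
  refine ⟨⟨IGate.map τ, IGate.map τ.symm, ?_, ?_⟩, ?_, ?_, ?_, ?_⟩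
  · rintro (p | i | p | _ | _) <;> simp [IGate.map]
  · rintro (p | i | p | _ | _) <;> simp [IGate.map]
  · rintro (p | i | p | _ | _) <;> rfl
  · rintro (p | i | p | _ | _)
    · rfl
    · rfl
    · rfl
    · change (Finset.univ : Finset X).val.map (fun i => ((0 : ℕ), (IGate.guess i : IGate X))) =
        ((Finset.univ : Finset X).val.map (fun i => ((0 : ℕ), (IGate.guess i : IGate X)))).map _
      rw [Multiset.map_map]
      have h1 : (Finset.univ : Finset X) = Finset.univ.map τ.toEmbedding := by
        rw [Finset.map_univ_equiv]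
      conv_lhs => rw [h1, Finset.map_val, Multiset.map_map]
      rfl
    · change (0, IGate.size) ::ₘ (Finset.univ : Finset (X × X)).val.map
          (fun p => ((0 : ℕ), (IGate.pair p : IGate X))) =
        ((0, IGate.size) ::ₘ (Finset.univ : Finset (X × X)).val.map
          (fun p => ((0 : ℕ), (IGate.pair p : IGate X)))).map _
      rw [Multiset.map_cons, Multiset.map_map]
      have h1 : (Finset.univ : Finset (X × X)) = Finset.univ.map (pairPerm τ).toEmbedding := by
        rw [Finset.map_univ_equiv]
      conv_lhs => rw [h1, Finset.map_val, Multiset.map_map]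
      rfl
  · rintro (p | i | p | _ | _) <;> rfl
  · rfl

theorem count_true_map {α : Type*} (s : Multiset α) (f : α → Bool) :
    (s.map f).count true = Multiset.card (s.filter fun a => f a = true) := by
  rw [Multiset.count_map]
  congr 1
  apply Multiset.filter_congr
  intro a _
  exact eq_comm

theorem indepC_eval (k : ℕ) (x : X × X → Bool) (y : X → Bool) :
    (indepC X k).eval (Sum.elim x y) (indepC X k).out = true ↔
      k ≤ (Finset.univ.filter fun i => y i = true).card ∧
      ∀ i j, y i = true → y j = true → x (i, j) = false := by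
  set C := indepC X k with hCdef
  have hinp : ∀ p, C.eval (Sum.elim x y) (IGate.inp p : IGate X) = x p := fun p =>
    C.eval_some (g := (IGate.inp p : IGate X)) rfl
  have hguess : ∀ i, C.eval (Sum.elim x y) (IGate.guess i : IGate X) = y i := fun i =>
    C.eval_some (g := (IGate.guess i : IGate X)) rfl
  have hpair : ∀ p : X × X, C.eval (Sum.elim x y) (IGate.pair p : IGate X) =
      !(x p && (y p.1 && y p.2)) := by
    intro p
    refine (C.eval_none (g := (IGate.pair p : IGate X)) rfl).trans ?_
    change (!thr 3 ((({(0, IGate.inp p), (0, IGate.guess p.1), (0, IGate.guess p.2)} :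
      Multiset (ℕ × IGate X))).map fun e => (e.1, C.eval (Sum.elim x y) e.2))) = _
    simp only [Multiset.insert_eq_cons, Multiset.map_cons, Multiset.map_singleton, hinp, hguess,
      thr]
    cases x p <;> cases y p.1 <;> cases y p.2 <;> rfl
  have hsize : C.eval (Sum.elim x y) (IGate.size : IGate X) =
      decide (k ≤ (Finset.univ.filter fun i => y i = true).card) := by
    refine (C.eval_none (g := (IGate.size : IGate X)) rfl).trans ?_
    change thr k (((Finset.univ : Finset X).val.map fun i =>
      ((0 : ℕ), (IGate.guess i : IGate X))).map fun e => (e.1, C.eval (Sum.elim x y) e.2)) = _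
    rw [thr, Multiset.map_map, Multiset.map_map]
    simp only [Function.comp_def, hguess]
    rw [count_true_map]
    rfl
  have hout : C.eval (Sum.elim x y) C.out = thr (Fintype.card X * Fintype.card X + 1)
      ((0, decide (k ≤ (Finset.univ.filter fun i => y i = true).card)) ::ₘ
        (Finset.univ : Finset (X × X)).val.map fun p => ((0 : ℕ), !(x p && (y p.1 && y p.2)))) := by
    refine (C.eval_none (g := (IGate.out : IGate X)) rfl).trans ?_
    change thr (Fintype.card X * Fintype.card X + 1) ((((0 : ℕ), (IGate.size : IGate X)) ::ₘ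
      (Finset.univ : Finset (X × X)).val.map fun p => ((0 : ℕ), (IGate.pair p : IGate X))).map
        fun e => (e.1, C.eval (Sum.elim x y) e.2)) = _
    rw [Multiset.map_cons, Multiset.map_map, hsize]
    simp only [Function.comp_def, hpair]
  rw [hout, thr, decide_eq_true_eq, Multiset.map_cons, Multiset.map_map]
  have h1 : ((Finset.univ : Finset (X × X)).val.map (Prod.snd ∘ fun p =>
      ((0 : ℕ), !(x p && (y p.1 && y p.2))))).count true =
      (Finset.univ.filter fun p : X × X => (!(x p && (y p.1 && y p.2))) = true).card := by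
    have := count_true_map (Finset.univ : Finset (X × X)).val
      (fun p : X × X => !(x p && (y p.1 && y p.2)))
    exact this
  have h2 : (Finset.univ.filter fun p : X × X => (!(x p && (y p.1 && y p.2))) = true).card ≤
      Fintype.card X * Fintype.card X := by
    refine (Finset.card_filter_le _ _).trans ?_
    rw [Finset.card_univ, Fintype.card_prod]
  rw [Multiset.count_cons, h1]
  dsimp only
  constructor
  · intro h
    have h3 : (if true = decide (k ≤ (Finset.univ.filter fun i => y i = true).card) then 1 else 0)
        = 1 := by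
      split_ifs with h4
      · rfl
      · rw [if_neg h4] at h; omega
    have h4 : k ≤ (Finset.univ.filter fun i => y i = true).card := by
      by_contra h5
      rw [decide_eq_false h5] at h3
      simp at h3
    refine ⟨h4, ?_⟩
    have h5 : (Finset.univ.filter fun p : X × X => (!(x p && (y p.1 && y p.2))) = true) =
        Finset.univ := by
      apply Finset.eq_univ_of_card
      rw [Fintype.card_prod]
      have h6 : (if true = decide (k ≤ (Finset.univ.filter fun i => y i = true).card) then 1
        else 0) ≤ 1 := by split_ifs <;> omega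
      omega
    intro i j hi hj
    have h6 : (i, j) ∈ (Finset.univ.filter fun p : X × X =>
        (!(x p && (y p.1 && y p.2))) = true) := by rw [h5]; exact Finset.mem_univ _
    have h7 := (Finset.mem_filter.1 h6).2
    rw [hi, hj] at h7
    simpa using h7
  · rintro ⟨h3, h4⟩
    rw [decide_eq_true h3, if_pos rfl]
    have h5 : (Finset.univ.filter fun p : X × X => (!(x p && (y p.1 && y p.2))) = true) =
        Finset.univ := by
      rw [Finset.filter_eq_self]
      rintro ⟨i, j⟩ _
      cases hi : y i
      · simp [hi]
      · cases hj : y j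
        · simp [hj]
        · simp [h4 i j hi hj]
    rw [h5, Finset.card_univ, Fintype.card_prod]

theorem upperND (X : Type) [Finite X] (k : ℕ) :
    ∃ C : Circuit.{0, 0, 0} ((X × X) ⊕ X) Bool, ThresholdGates C ∧
      (∀ τ : Perm X, C.Invariant (Equiv.sumCongr (pairPerm τ) τ)) ∧
      DecidesIndep C id (fun b => b = true) k ∧
      Nat.card C.Gate = 2 * Nat.card X ^ 2 + Nat.card X + 2 := by
  classical
  have : Fintype X := Fintype.ofFinite X
  refine ⟨indepC X k, indepC_threshold k, indepC_inv k, fun x hx => ?_, indepC_card k⟩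
  constructor
  · rintro ⟨y, hy⟩
    rw [Function.id_comp, Function.id_comp, indepC_eval] at hy
    refine ⟨_, hy.1, ?_⟩
    intro i hi j hj
    exact hy.2 i j (Finset.mem_filter.1 hi).2 (Finset.mem_filter.1 hj).2
  · rintro ⟨S, h1, h2⟩
    refine ⟨fun i => decide (i ∈ S), ?_⟩
    change (indepC X k).eval (Sum.elim (id ∘ x) (id ∘ fun i => decide (i ∈ S)))
      (indepC X k).out = true
    rw [Function.id_comp, Function.id_comp, indepC_eval]
    refine ⟨?_, ?_⟩
    · convert h1 using 2
      ext i
      simp
    · intro i j hi hj
      exact h2 i (by simpa using hi) j (by simpa using hj)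

theorem isGraph_perm {X : Type} {x : X × X → Bool} (hx : IsGraph x) (τ : Perm X) :
    IsGraph (x ∘ pairPerm τ) where
  symm i j := hx.symm (τ i) (τ j)
  irrefl i := hx.irrefl (τ i)

theorem hasIndep_perm {X : Type} (x : X × X → Bool) (τ : Perm X) (k : ℕ) :
    HasIndep (x ∘ pairPerm τ) k ↔ HasIndep x k := by
  have key : ∀ (x : X × X → Bool) (τ : Perm X), HasIndep (x ∘ pairPerm τ) k → HasIndep x k := by
    rintro x τ ⟨S, h1, h2⟩
    refine ⟨S.map τ.toEmbedding, by rwa [Finset.card_map], ?_⟩
    intro i hi j hj
    obtain ⟨i', hi', rfl⟩ := Finset.mem_map.1 hi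
    obtain ⟨j', hj', rfl⟩ := Finset.mem_map.1 hj
    exact h2 i' hi' j' hj'
  refine ⟨key x τ, fun h => key _ τ.symm ?_⟩
  have : (x ∘ pairPerm τ) ∘ pairPerm τ.symm = x := by
    funext p
    change x (τ (τ.symm p.1), τ (τ.symm p.2)) = x p
    rw [τ.apply_symm_apply, τ.apply_symm_apply]
  rwa [this]

theorem upperSym {β X : Type} [Finite X] (e : β × K4 ↪ X) (k : ℕ)
    (C : Circuit.{0, 0, w} (X × X) Bool) [Finite C.Gate]
    (hC : ∀ x, IsGraph x → (C.eval x C.out = true ↔ HasIndep x k)) :
    ∃ C' : Circuit.{0, 0, w} (X × X) Bool,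
      (∀ v : β → K4, C'.Invariant (pairPerm ((blockShift v).viaEmbedding e))) ∧
      (∀ x, IsGraph x → (C'.eval x C'.out = true ↔ HasIndep x k)) ∧
      (∀ g, C'.op g = orGate ∨ ∃ h, C'.op g = C.op h) ∧
      Nat.card C'.Gate = 4 ^ Nat.card β * Nat.card C.Gate + 1 := by
  classical
  have : Finite (β × K4) := Finite.of_injective e e.injective
  have : Finite β := Finite.of_surjective (Prod.fst : β × K4 → β) Prod.fst_surjective
  have : Finite (β → K4) := Pi.finite
  have : Fintype (β → K4) := Fintype.ofFinite _
  refine ⟨sym C (fun v => pairPerm ((blockShift v).viaEmbedding e)),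
    fun v => sym_inv C _ (hρ_pair e) v, fun x hx => ?_, ?_, ?_⟩
  · rw [sym_eval]
    constructor
    · rintro ⟨u, h⟩
      rw [hC _ (isGraph_perm hx _), hasIndep_perm] at h
      exact h
    · intro h
      exact ⟨0, (hC _ (isGraph_perm hx _)).2 ((hasIndep_perm x _ k).2 h)⟩
  · rintro (_ | p)
    · exact Or.inl rfl
    · exact Or.inr ⟨p.2, rfl⟩
  · rw [sym_card, Nat.card_fun]
    simp

end Pool.Agent.H5Sym
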