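import Pool.Agent.H5Sym.Core

/-!
# Few functionals vanish on stabilisers

A circuit with `s` gates that is invariant under an elementary abelian 2-group has at most `s`
functionals that vanish on the stabiliser of some gate.
-/

set_option autoImplicit false

namespace Pool.Agent.H5Sym

open Module

namespace Circuit

universe u v w

variable {T : Type u} {D : Type v} {C : Circuit.{u, v, w} T D}
variable {V : Type*} [AddCommGroup V] [Module F2 V] [Finite V] {ρ : V → Equiv.Perm T}

/-- the functionals on the group that vanish on the stabiliser of some gate -/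
def special (C : Circuit.{u, v, w} T D) (ρ : V → Equiv.Perm T) (hρ : ∀ u v, ρ (u + v) = ρ u * ρ v) :
    Set (Dual F2 V) := {φ | ∃ g, ∀ v ∈ C.stab ρ hρ g, φ v = 0}

/-- an embedding of the annihilator of the stabiliser into the orbit of a gate -/
theorem exists_emb (hρ : ∀ u v, ρ (u + v) = ρ u * ρ v) (hC : ∀ v, C.Invariant (ρ v)) (g : C.Gate) :
    ∃ f : (C.stab ρ hρ g).dualAnnihilator → C.Gate, Function.Injective f ∧
      ∀ x, ∃ v π, C.IsAut (ρ v) π ∧ π g = f x := by
  classical
  set H := C.stab ρ hρ g with hH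
  have : FiniteDimensional F2 V := Module.Finite.of_finite
  choose π hπ using hC
  let b := Module.finBasis F2 (V ⧸ H)
  let e : (H.dualAnnihilator) ≃ (V ⧸ H) :=
    (H.dualQuotEquivDualAnnihilator.symm.trans b.toDualEquiv.symm).toEquiv
  refine ⟨fun x => π (Quotient.out (e x)) g, ?_, fun x => ⟨_, _, hπ _, rfl⟩⟩
  intro x y hxy
  apply e.injective
  dsimp only at hxy
  set u := Quotient.out (e x) with hu
  set v := Quotient.out (e y) with hv
  have h1 : u - v ∈ H := by
    have h0 : ρ (-v) = (ρ v)⁻¹ := by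
      rw [eq_inv_iff_mul_eq_one, ← hρ, neg_add_cancel, rho_zero hρ]
    refine ⟨(π v)⁻¹ * π u, ?_, ?_⟩
    · have := (hπ v).inv.mul (hπ u)
      rw [← h0, ← hρ] at this
      rwa [sub_eq_neg_add]
    · rw [Equiv.Perm.mul_apply, hxy]
      exact (π v).symm_apply_apply g
  have h2 : (Submodule.Quotient.mk u : V ⧸ H) = Submodule.Quotient.mk v :=
    (Submodule.Quotient.eq H).2 h1
  have h3 : (Submodule.Quotient.mk u : V ⧸ H) = e x := Quotient.out_eq (e x)
  have h4 : (Submodule.Quotient.mk v : V ⧸ H) = e y := Quotient.out_eq (e y)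
  rw [← h3, ← h4, h2]

theorem special_card [Finite C.Gate] (hρ : ∀ u v, ρ (u + v) = ρ u * ρ v)
    (hC : ∀ v, C.Invariant (ρ v)) : (C.special ρ hρ).ncard ≤ Nat.card C.Gate := by
  classical
  let s : Setoid C.Gate :=
    { r := fun g g' => ∃ v π, C.IsAut (ρ v) π ∧ π g = g'
      iseqv :=
        { refl := fun g => ⟨0, 1, by rw [rho_zero hρ]; exact IsAut.one, rfl⟩
          symm := by
            rintro g g' ⟨v, π, h1, rfl⟩
            refine ⟨-v, π⁻¹, ?_, π.symm_apply_apply g⟩
            have h0 : ρ (-v) = (ρ v)⁻¹ := by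
              rw [eq_inv_iff_mul_eq_one, ← hρ, neg_add_cancel, rho_zero hρ]
            rw [h0]; exact h1.inv
          trans := by
            rintro g g' g'' ⟨v, π, h1, rfl⟩ ⟨v', π', h1', rfl⟩
            exact ⟨v' + v, π' * π, by rw [hρ]; exact h1'.mul h1, rfl⟩ } }
  choose f hf1 hf2 using exists_emb (C := C) hρ hC
  have hrep : ∀ φ : C.special ρ hρ, ∃ q : Quotient s, φ.1 ∈ (C.stab ρ hρ q.out).dualAnnihilator := by
    rintro ⟨φ, g, hg⟩
    refine ⟨Quotient.mk s g, ?_⟩
    rw [Submodule.mem_dualAnnihilator]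
    obtain ⟨v, π, h1, h2⟩ := Quotient.mk_out (s := s) g
    intro w hw
    refine hg w ?_
    rw [← h2, stab_eq hρ h1]
    exact hw
  choose q hq using hrep
  rw [← Nat.card_coe_set_eq]
  refine Nat.card_le_card_of_injective (fun φ : C.special ρ hρ => f (q φ).out ⟨φ.1, hq φ⟩) ?_
  intro φ φ' h
  dsimp only at h
  have h1 : q φ = q φ' := by
    rw [← Quotient.out_eq (q φ), ← Quotient.out_eq (q φ')]
    refine Quotient.sound ?_
    obtain ⟨v, π, h1, h2⟩ := hf2 (q φ).out ⟨φ.1, hq φ⟩
    obtain ⟨v', π', h1', h2'⟩ := hf2 (q φ').out ⟨φ'.1, hq φ'⟩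
    exact Setoid.trans ⟨v, π, h1, h2⟩ (Setoid.symm (h ▸ ⟨v', π', h1', h2'⟩))
  have h2 : ∀ (a b : Quotient s) (hab : a = b) (x : (C.stab ρ hρ a.out).dualAnnihilator)
      (y : (C.stab ρ hρ b.out).dualAnnihilator), f a.out x = f b.out y → x.1 = y.1 := by
    rintro a b rfl x y hxy
    rw [hf1 _ hxy]
  exact Subtype.ext (h2 _ _ h1 _ _ h)

end Circuit

end Pool.Agent.H5Sym
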