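import Pool.Agent.H5Sym.PermLocal

/-!
# The number of perfect matchings depends on the parity of the sum of the parameters
-/

set_option autoImplicit false

namespace Pool.Agent.H5Sym

open Equiv

/-- permutations that transport one labelling to another one -/
def fiberEquiv {α L : Type*} (f g : α → L) :
    {π : Perm α // ∀ a, g (π a) = f a} ≃ ∀ l, ({a // f a = l} ≃ {b // g b = l}) where
  toFun π l := π.1.subtypeEquiv fun a => by rw [π.2]
  invFun e := ⟨Equiv.ofFiberEquiv e, fun a => Equiv.ofFiberEquiv_map e a⟩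
  left_inv π := Subtype.ext (Equiv.ext fun a => rfl)
  right_inv e := by
    funext l
    ext ⟨a, ha⟩
    subst ha
    rfl

theorem card_equiv_eq {A B : Type*} [Fintype A] [Fintype B] [DecidableEq A] [DecidableEq B] :
    Fintype.card (A ≃ B) = mfac (Fintype.card A) (Fintype.card B) := by
  rw [mfac]
  split_ifs with h
  · rw [Fintype.card_equiv (Fintype.equivOfCardEq h)]
  · rw [Fintype.card_eq_zero_iff]
    exact ⟨fun e => h (Fintype.card_congr e)⟩

theorem fiber_card {α L : Type*} [Fintype α] [DecidableEq α] [Fintype L] [DecidableEq L]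
    (f g : α → L) :
    Fintype.card {π : Perm α // ∀ a, g (π a) = f a} =
      ∏ l, mfac (Fintype.card {a // f a = l}) (Fintype.card {b // g b = l}) := by
  rw [Fintype.card_congr (fiberEquiv f g), Fintype.card_pi]
  exact Finset.prod_congr rfl fun l _ => card_equiv_eq

variable {I : Type*} [Fintype I] [DecidableEq I]

/-- the labels of the rows -/
def lamL (t : I → K4 → Fin 3) (r : I × K4) : (Fin 3 × I) × F2 :=
  ((t r.1 r.2, r.1), ell (t r.1 r.2) r.2)

/-- the labels of the columns -/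
def lamR (σ : Fin 3 → Perm I) (w : Fin 3 × I → F2) (u : I → K4 → Fin 3) (s : I × K4) :
    (Fin 3 × I) × F2 :=
  ((u s.1 s.2, (σ (u s.1 s.2)).symm s.1), ell (u s.1 s.2) s.2 + w (u s.1 s.2, (σ (u s.1 s.2)).symm s.1))

omit [Fintype I] [DecidableEq I] in
theorem lam_iff (σ : Fin 3 → Perm I) (w : Fin 3 × I → F2) (t u : I → K4 → Fin 3) (r s : I × K4) :
    lamR σ w u s = lamL t r ↔ u s.1 s.2 = t r.1 r.2 ∧ σ (t r.1 r.2) r.1 = s.1 ∧
      ell (t r.1 r.2) r.2 + ell (t r.1 r.2) s.2 = w (t r.1 r.2, r.1) := by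
  have h : ∀ x y z : F2, y + z = x ↔ x + y = z := by decide
  simp only [lamR, lamL, Prod.mk.injEq]
  constructor
  · rintro ⟨⟨h1, h2⟩, h3⟩
    rw [h1] at h2 h3
    rw [h2] at h3
    exact ⟨h1, ((Equiv.symm_apply_eq _).1 h2).symm, (h _ _ _).1 h3⟩
  · rintro ⟨h1, h2, h3⟩
    have h4 : (σ (t r.1 r.2)).symm s.1 = r.1 := by rw [← h2, Equiv.symm_apply_apply]
    rw [h1, h4]
    exact ⟨⟨rfl, rfl⟩, (h _ _ _).2 h3⟩

/-- the perfect matchings -/
def Ok (σ : Fin 3 → Perm I) (w : Fin 3 × I → F2) (r s : I × K4) : Prop :=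
  ∃ c, σ c r.1 = s.1 ∧ ell c r.2 + ell c s.2 = w (c, r.1)

instance (σ : Fin 3 → Perm I) (w : Fin 3 × I → F2) (r s : I × K4) : Decidable (Ok σ w r s) := by
  unfold Ok; infer_instance

/-- the number of perfect matchings -/
def numPM (σ : Fin 3 → Perm I) (w : Fin 3 × I → F2) : ℕ :=
  Fintype.card {π : Perm (I × K4) // ∀ r, Ok σ w r (π r)}

theorem numPM_eq (σ : Fin 3 → Perm I) (hσ : ∀ c c' i, σ c i = σ c' i → c = c')
    (w : Fin 3 × I → F2) : numPM σ w = ∑ t : I → K4 → Fin 3, ∑ u : I → K4 → Fin 3,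
      Fintype.card {π : Perm (I × K4) // ∀ r, lamR σ w u (π r) = lamL t r} := by
  classical
  have e : {p : (I → K4 → Fin 3) × (I → K4 → Fin 3) × Perm (I × K4) //
      ∀ r, lamR σ w p.2.1 (p.2.2 r) = lamL p.1 r} ≃ {π : Perm (I × K4) // ∀ r, Ok σ w r (π r)} := by
    refine Equiv.ofBijective (fun p => ⟨p.1.2.2, fun r => ⟨p.1.1 r.1 r.2,
      ((lam_iff σ w _ _ _ _).1 (p.2 r)).2⟩⟩) ⟨?_, ?_⟩
    · rintro ⟨⟨t, u, π⟩, h⟩ ⟨⟨t', u', π'⟩, h'⟩ heq
      obtain rfl : π = π' := congrArg Subtype.val heq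
      have h1 := fun r => (lam_iff σ w t u r (π r)).1 (h r)
      have h2 := fun r => (lam_iff σ w t' u' r (π r)).1 (h' r)
      have ht : t = t' := by
        funext i a
        exact hσ _ _ _ ((h1 (i, a)).2.1.trans (h2 (i, a)).2.1.symm)
      subst ht
      have hu : u = u' := by
        funext j b
        have h3 := (h1 (π.symm (j, b))).1.trans (h2 (π.symm (j, b))).1.symm
        rwa [π.apply_symm_apply] at h3
      subst hu
      rfl
    · rintro ⟨π, hπ⟩
      have hπ' := hπ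
      choose c hc using hπ'
      refine ⟨⟨(fun i a => c (i, a), fun j b => c (π.symm (j, b)), π), fun r => ?_⟩, rfl⟩
      rw [lam_iff]
      exact ⟨by simp, hc r⟩
  rw [numPM, ← Fintype.card_congr e, Fintype.card_subtype, Finset.card_filter,
    Fintype.sum_prod_type]
  refine Finset.sum_congr rfl fun t _ => ?_
  rw [Fintype.sum_prod_type]
  refine Finset.sum_congr rfl fun u _ => ?_
  rw [Fintype.card_subtype, Finset.card_filter]

omit [DecidableEq I] in
theorem card_lamL [DecidableEq I] (t : I → K4 → Fin 3) (c : Fin 3) (i : I) (s : F2) :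
    Fintype.card {r : I × K4 // lamL t r = ((c, i), s)} = cnt (t i) c s := by
  rw [cnt, ← Fintype.card_subtype]
  refine Fintype.card_congr ⟨fun r => ⟨r.1.2, ?_⟩, fun a => ⟨(i, a.1), ?_⟩, ?_, ?_⟩
  · obtain ⟨⟨i', a⟩, h⟩ := r
    simp only [lamL, Prod.mk.injEq] at h
    obtain ⟨⟨h1, rfl⟩, h2⟩ := h
    have h3 : ell c a = s := by rw [← h1]; exact h2
    exact ⟨h1, h3⟩
  · obtain ⟨a, h1, h2⟩ := a
    simp only [lamL, Prod.mk.injEq]
    exact ⟨⟨h1, trivial⟩, by rw [h1]; exact h2⟩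
  · rintro ⟨⟨i', a⟩, h⟩
    simp only [lamL, Prod.mk.injEq] at h
    obtain ⟨⟨h1, rfl⟩, h2⟩ := h
    rfl
  · rintro ⟨a, h⟩
    rfl

omit [DecidableEq I] in
theorem card_lamR [DecidableEq I] (σ : Fin 3 → Perm I) (w : Fin 3 × I → F2) (u : I → K4 → Fin 3)
    (c : Fin 3) (i : I) (s : F2) :
    Fintype.card {r : I × K4 // lamR σ w u r = ((c, i), s)} = cnt (u (σ c i)) c (s + w (c, i)) := by
  have h : ∀ x y z : F2, x + z = y ↔ x = y + z := by decide
  rw [cnt, ← Fintype.card_subtype]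
  refine Fintype.card_congr ⟨fun r => ⟨r.1.2, ?_⟩, fun a => ⟨(σ c i, a.1), ?_⟩, ?_, ?_⟩
  · obtain ⟨⟨j, b⟩, h'⟩ := r
    simp only [lamR, Prod.mk.injEq] at h'
    obtain ⟨⟨h1, h2⟩, h3⟩ := h'
    rw [h1] at h2 h3
    rw [h2] at h3
    rw [Equiv.symm_apply_eq] at h2
    subst h2
    exact ⟨h1, (h _ _ _).1 h3⟩
  · obtain ⟨a, h1, h2⟩ := a
    simp only [lamR, Prod.mk.injEq]
    rw [h1, Equiv.symm_apply_apply]
    exact ⟨⟨rfl, rfl⟩, (h _ _ _).2 h2⟩
  · rintro ⟨⟨j, b⟩, h'⟩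
    simp only [lamR, Prod.mk.injEq] at h'
    obtain ⟨⟨h1, h2⟩, h3⟩ := h'
    rw [h1, Equiv.symm_apply_eq] at h2
    subst h2
    rfl
  · rintro ⟨a, h⟩
    rfl

theorem numPM_prod (σ : Fin 3 → Perm I) (hσ : ∀ c c' i, σ c i = σ c' i → c = c')
    (w : Fin 3 × I → F2) : numPM σ w = ∑ t : I → K4 → Fin 3, ∑ u : I → K4 → Fin 3,
      ∏ e : Fin 3 × I, ∏ s, mfac (cnt (t e.2) e.1 s) (cnt (u (σ e.1 e.2)) e.1 (s + w e)) := by
  rw [numPM_eq σ hσ w]
  refine Finset.sum_congr rfl fun t _ => Finset.sum_congr rfl fun u _ => ?_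
  rw [fiber_card, Fintype.prod_prod_type]
  refine Finset.prod_congr rfl fun e _ => Finset.prod_congr rfl fun s _ => ?_
  rw [card_lamL, card_lamR]

/-- The Fourier expansion of the number of perfect matchings. -/
theorem numPM_fourier (σ : Fin 3 → Perm I) (hσ : ∀ c c' i, σ c i = σ c' i → c = c')
    (w : Fin 3 × I → F2) : (2 : ℤ) ^ Fintype.card (Fin 3 × I) * numPM σ w =
      ∑ θ : Fin 3 × I → (Fin 3 × Fin 3) × F2, (∏ e, chi (θ e).2 (w e)) * (∏ e, coef (θ e)) *
        (∏ i, loc fun c => θ (c, i)) * ∏ j, loc fun c => θ (c, (σ c).symm j) := by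
  rw [numPM_prod σ hσ w]
  push_cast
  rw [Finset.mul_sum]
  have h1 : ∀ t u : I → K4 → Fin 3, (2 : ℤ) ^ Fintype.card (Fin 3 × I) *
      ∏ e : Fin 3 × I, ∏ s, (mfac (cnt (t e.2) e.1 s) (cnt (u (σ e.1 e.2)) e.1 (s + w e)) : ℤ) =
      ∑ θ : Fin 3 × I → (Fin 3 × Fin 3) × F2, (∏ e, chi (θ e).2 (w e)) * (∏ e, coef (θ e)) *
        (∏ e : Fin 3 × I, phi (θ e) (cnt (t e.2) e.1 0) (cnt (t e.2) e.1 1)) *
        ∏ e : Fin 3 × I, phi (θ e) (cnt (u (σ e.1 e.2)) e.1 0) (cnt (u (σ e.1 e.2)) e.1 1) := by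
    intro t u
    have h2 : ∀ e : Fin 3 × I, (2 : ℤ) *
        ∏ s, (mfac (cnt (t e.2) e.1 s) (cnt (u (σ e.1 e.2)) e.1 (s + w e)) : ℤ) =
        ∑ θ : (Fin 3 × Fin 3) × F2, chi θ.2 (w e) * coef θ *
          phi θ (cnt (t e.2) e.1 0) (cnt (t e.2) e.1 1) *
          phi θ (cnt (u (σ e.1 e.2)) e.1 0) (cnt (u (σ e.1 e.2)) e.1 1) := by
      intro e
      have := kernel (cnt (t e.2) e.1) (cnt (u (σ e.1 e.2)) e.1) (cnt_lt _ _) (cnt_lt _ _) (w e)
      push_cast at this
      exact this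
    rw [← Finset.card_univ, ← Finset.prod_const, ← Finset.prod_mul_distrib,
      Finset.prod_congr rfl fun e _ => h2 e, Finset.prod_univ_sum, Fintype.piFinset_univ]
    refine Finset.sum_congr rfl fun θ _ => ?_
    rw [Finset.prod_mul_distrib, Finset.prod_mul_distrib, Finset.prod_mul_distrib]
  simp only [Finset.mul_sum, h1]
  have h3 : ∀ θ : Fin 3 × I → (Fin 3 × Fin 3) × F2, (∏ i, loc fun c => θ (c, i)) =
      ∑ t : I → K4 → Fin 3, ∏ e : Fin 3 × I, phi (θ e) (cnt (t e.2) e.1 0) (cnt (t e.2) e.1 1) := by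
    intro θ
    simp only [loc]
    rw [Finset.prod_univ_sum, Fintype.piFinset_univ]
    refine Finset.sum_congr rfl fun t _ => ?_
    rw [Fintype.prod_prod_type, Finset.prod_comm]
  have h4 : ∀ θ : Fin 3 × I → (Fin 3 × Fin 3) × F2, (∏ j, loc fun c => θ (c, (σ c).symm j)) =
      ∑ u : I → K4 → Fin 3, ∏ e : Fin 3 × I,
        phi (θ e) (cnt (u (σ e.1 e.2)) e.1 0) (cnt (u (σ e.1 e.2)) e.1 1) := by
    intro θ
    simp only [loc]
    rw [Finset.prod_univ_sum, Fintype.piFinset_univ]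
    refine Finset.sum_congr rfl fun u _ => ?_
    rw [Fintype.prod_prod_type, Finset.prod_comm]
    refine Finset.prod_congr rfl fun c _ => ?_
    rw [← Equiv.prod_comp (σ c)]
    refine Finset.prod_congr rfl fun i _ => ?_
    rw [Equiv.symm_apply_apply]
  simp only [h3, h4]
  rw [Finset.sum_congr rfl fun t _ => Finset.sum_comm, Finset.sum_comm]
  refine Finset.sum_congr rfl fun θ _ => ?_
  rw [Finset.mul_sum (s := (Finset.univ : Finset (I → K4 → Fin 3))), Finset.sum_comm]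
  refine Finset.sum_congr rfl fun u _ => ?_
  rw [Finset.mul_sum (s := (Finset.univ : Finset (I → K4 → Fin 3))), Finset.sum_mul]

omit [DecidableEq I] in
theorem chi_prod_le (p w : Fin 3 × I → F2) : ∏ e, chi (p e) (w e) ≤ 1 := by
  have h : ∀ e, |chi (p e) (w e)| = 1 := by
    intro e
    rw [chi]
    split_ifs <;> rfl
  have h1 : |∏ e, chi (p e) (w e)| = 1 := by
    rw [Finset.abs_prod, Finset.prod_congr rfl fun e _ => h e, Finset.prod_const_one]
  exact (le_abs_self _).trans h1.le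

theorem chi_prod_one (w : Fin 3 × I → F2) (hw : ∑ e, w e = 1) : ∏ e, chi 1 (w e) = -1 := by
  have h : ∀ s : Finset (Fin 3 × I), ∏ e ∈ s, chi 1 (w e) = chi 1 (∑ e ∈ s, w e) := by
    intro s
    induction s using Finset.induction_on with
    | empty => rw [Finset.prod_empty, Finset.sum_empty]; rfl
    | insert a s ha ih =>
      rw [Finset.prod_insert ha, Finset.sum_insert ha, ih]
      have h2 : ∀ x y : F2, chi 1 x * chi 1 y = chi 1 (x + y) := by decide
      exact h2 _ _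
  rw [h, hw]
  rfl

/-- The number of perfect matchings is smaller for parameters with an odd sum. -/
theorem numPM_lt (σ : Fin 3 → Perm I) (hσ : ∀ c c' i, σ c i = σ c' i → c = c')
    (d : Fin 3 × I → F2) (hd : ∑ e, d e = 1) : numPM σ d < numPM σ 0 := by
  have h0 := numPM_fourier σ hσ 0
  have h1 := numPM_fourier σ hσ d
  have h2 : ∀ θ : Fin 3 × I → (Fin 3 × Fin 3) × F2,
      ∏ e, chi (θ e).2 ((0 : Fin 3 × I → F2) e) = 1 := by
    intro θ
    refine Finset.prod_eq_one fun e _ => ?_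
    rw [chi, if_neg]
    exact fun h => zero_ne_one h.2
  simp only [h2, one_mul] at h0
  have hpos : ∀ θ : Fin 3 × I → (Fin 3 × Fin 3) × F2, 0 ≤ (∏ e, coef (θ e)) *
      (∏ i, loc fun c => θ (c, i)) * ∏ j, loc fun c => θ (c, (σ c).symm j) := fun θ =>
    mul_nonneg (mul_nonneg (Finset.prod_nonneg fun e _ => coef_nonneg _)
      (Finset.prod_nonneg fun i _ => loc_nonneg _)) (Finset.prod_nonneg fun j _ => loc_nonneg _)
  have h3 : (2 : ℤ) ^ Fintype.card (Fin 3 × I) * numPM σ d <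
      (2 : ℤ) ^ Fintype.card (Fin 3 × I) * numPM σ 0 := by
    rw [h0, h1]
    refine Finset.sum_lt_sum (fun θ _ => ?_) ⟨fun e => star e.1, Finset.mem_univ _, ?_⟩
    · rw [mul_assoc, mul_assoc, mul_assoc]
      have := mul_le_mul_of_nonneg_right (chi_prod_le (fun e => (θ e).2) d) (hpos θ)
      rw [one_mul] at this
      simpa only [mul_assoc] using this
    · have h4 : ∏ e, chi (star (e : Fin 3 × I).1).2 (d e) = -1 := chi_prod_one d hd
      rw [h4]
      have h5 : (0 : ℤ) < (∏ e : Fin 3 × I, coef (star e.1)) *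
          (∏ _i : I, loc fun c => star c) * ∏ _j : I, loc fun c => star c :=
        mul_pos (mul_pos (Finset.prod_pos fun e _ => coef_pos _)
          (Finset.prod_pos fun i _ => loc_star)) (Finset.prod_pos fun i _ => loc_star)
      have h6 : -1 * (∏ e : Fin 3 × I, coef (star e.1)) * (∏ _i : I, loc fun c => star c) *
          (∏ _j : I, loc fun c => star c) = -((∏ e : Fin 3 × I, coef (star e.1)) *
          (∏ _i : I, loc fun c => star c) * ∏ _j : I, loc fun c => star c) := by ring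
      rw [h6]
      linarith
  have h7 : (0 : ℤ) < (2 : ℤ) ^ Fintype.card (Fin 3 × I) := by positivity
  exact_mod_cast lt_of_mul_lt_mul_left h3 h7.le

end Pool.Agent.H5Sym
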