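import Pool.Agent.H5Sym.CircuitDefs
import Pool.Agent.H5Sym.BlockDefs

/-!
# The permanent and arithmetic circuits: definitions
-/

set_option autoImplicit false

namespace Pool.Agent.H5Sym

/-- the permanent of the matrix with the entries `x (i, j)` -/
noncomputable def per {X : Type} [Finite X] {R : Type*} [CommSemiring R] (x : X × X → R) : R :=
  haveI := Fintype.ofFinite X
  haveI := Classical.decEq X
  (Matrix.of fun i j => x (i, j)).permanent

/-- The matrix `x` of zeros and ones is symmetric and has at most six ones in each row. -/
structure SymmetricSix {X : Type} (x : X × X → Bool) : Prop where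
  symm : ∀ i j, x (i, j) = x (j, i)
  ones : ∀ i, {j | x (i, j) = true}.ncard ≤ 6

/-- the sum gate -/
noncomputable def sumGate (M : Multiset (ℕ × ℂ)) : ℂ := (M.map Prod.snd).sum

/-- the product gate -/
noncomputable def prodGate (M : Multiset (ℕ × ℂ)) : ℂ := (M.map Prod.snd).prod

/-- An arithmetic circuit over the complex numbers: every inner gate is a sum gate, a product gate or a
constant. -/
def Arithmetic {T : Type} (C : Circuit.{0, 0, 0} T ℂ) : Prop :=
  ∀ g, C.input g = none → C.op g = sumGate ∨ C.op g = prodGate ∨ ∃ z : ℂ, C.op g = fun _ => z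

end Pool.Agent.H5Sym
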