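import Pool.Agent.H5Sym.Gap

/-!
# Local sums for the number of perfect matchings
-/

set_option autoImplicit false
set_option maxRecDepth 100000

namespace Pool.Agent.H5Sym

open Equiv

/-- `x!` if `x = y`, and `0` otherwise -/
def mfac (x y : ℕ) : ℕ := if x = y then x.factorial else 0

/-- the number of elements of colour `c` on which the functional `ell c` is `s` -/
def cnt (τ : K4 → Fin 3) (c : Fin 3) (s : F2) : ℕ :=
  (Finset.univ.filter fun a => τ a = c ∧ ell c a = s).card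

theorem cnt_lt (τ : K4 → Fin 3) (c : Fin 3) (s : F2) : cnt τ c s < 3 := by
  have h : ∀ c : Fin 3, ∀ s : F2, (Finset.univ.filter fun a : K4 => ell c a = s).card < 3 := by
    decide
  refine lt_of_le_of_lt (Finset.card_le_card ?_) (h c s)
  intro a ha
  rw [Finset.mem_filter] at ha ⊢
  exact ⟨ha.1, ha.2.2⟩

/-- the sign of `x - y` -/
def sg (x y : ℕ) : ℤ := if y < x then 1 else if x < y then -1 else 0

/-- the local functions -/
def phi (θ : (Fin 3 × Fin 3) × F2) (x y : ℕ) : ℤ :=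
  if max x y = θ.1.1 ∧ min x y = θ.1.2 then (if θ.2 = 0 then 1 else sg x y) else 0

/-- the coefficients -/
def coef (θ : (Fin 3 × Fin 3) × F2) : ℤ :=
  ((θ.1.1.1.factorial * θ.1.2.1.factorial : ℕ) : ℤ) * if θ.2 = 0 ∧ θ.1.1 = θ.1.2 then 2 else 1

/-- the character -/
def chi (p w : F2) : ℤ := if p = 1 ∧ w = 1 then -1 else 1

theorem kernel_fin : ∀ x0 x1 y0 y1 : Fin 3, ∀ w : F2,
    (2 * (mfac x0.1 (if w = 0 then y0.1 else y1.1) * mfac x1.1 (if w = 0 then y1.1 else y0.1) : ℕ) : ℤ) =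
      ∑ θ : (Fin 3 × Fin 3) × F2, chi θ.2 w * coef θ * phi θ x0.1 x1.1 * phi θ y0.1 y1.1 := by
  decide +kernel

theorem prod_F2 (f : F2 → ℕ) : ∏ s, f s = f 0 * f 1 := Fin.prod_univ_two f

theorem kernel (x y : F2 → ℕ) (hx : ∀ s, x s < 3) (hy : ∀ s, y s < 3) (w : F2) :
    (2 * (∏ s, mfac (x s) (y (s + w)) : ℕ) : ℤ) =
      ∑ θ : (Fin 3 × Fin 3) × F2, chi θ.2 w * coef θ * phi θ (x 0) (x 1) * phi θ (y 0) (y 1) := by
  have h := kernel_fin ⟨x 0, hx 0⟩ ⟨x 1, hx 1⟩ ⟨y 0, hy 0⟩ ⟨y 1, hy 1⟩ w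
  rw [← h]
  rw [prod_F2]
  rcases F2.cases w with rfl | rfl
  · rfl
  · rfl

theorem phi_swap (θ : (Fin 3 × Fin 3) × F2) (x y : ℕ) : phi θ y x = chi θ.2 1 * phi θ x y := by
  rw [phi, phi, max_comm, min_comm]
  by_cases h : max x y = θ.1.1 ∧ min x y = θ.1.2
  · rw [if_pos h, if_pos h]
    rcases F2.cases θ.2 with h1 | h1
    · rw [h1]; rfl
    · rw [h1, if_neg one_ne_zero, if_neg one_ne_zero, chi, if_pos ⟨rfl, rfl⟩, sg, sg]
      rcases lt_trichotomy x y with h2 | h2 | h2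
      · rw [if_pos h2, if_neg h2.asymm, if_pos h2]; rfl
      · rw [h2, if_neg (lt_irrefl _), if_neg (lt_irrefl _)]; rfl
      · rw [if_neg h2.asymm, if_pos h2, if_pos h2]; rfl
  · rw [if_neg h, if_neg h, mul_zero]

/-- the local sums -/
def loc (θ : Fin 3 → (Fin 3 × Fin 3) × F2) : ℤ :=
  ∑ τ : K4 → Fin 3, ∏ c, phi (θ c) (cnt τ c 0) (cnt τ c 1)

theorem cnt_translate (τ : K4 → Fin 3) (v : K4) (c : Fin 3) (s : F2) :
    cnt (fun a => τ (a + v)) c s = cnt τ c (s + ell c v) := by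
  rw [cnt, cnt]
  refine Finset.card_bij (fun a _ => a + v) ?_ ?_ ?_
  · intro a ha
    rw [Finset.mem_filter] at ha ⊢
    exact ⟨Finset.mem_univ _, ha.2.1, by rw [ell_add, ha.2.2]⟩
  · intro a _ b _ h
    exact add_right_cancel h
  · intro b hb
    rw [Finset.mem_filter] at hb
    refine ⟨b + v, ?_, by rw [add_assoc, add_self_mod, add_zero]⟩
    rw [Finset.mem_filter]
    refine ⟨Finset.mem_univ _, by rw [add_assoc, add_self_mod, add_zero]; exact hb.2.1, ?_⟩
    rw [ell_add, hb.2.2, add_assoc, add_self_mod, add_zero]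

theorem phi_translate (θ : (Fin 3 × Fin 3) × F2) (τ : K4 → Fin 3) (v : K4) (c : Fin 3) :
    phi θ (cnt (fun a => τ (a + v)) c 0) (cnt (fun a => τ (a + v)) c 1) =
      chi θ.2 (ell c v) * phi θ (cnt τ c 0) (cnt τ c 1) := by
  rw [cnt_translate, cnt_translate]
  rcases F2.cases (ell c v) with h | h
  · rw [h, add_zero, add_zero]
    have : chi θ.2 0 = 1 := by
      rw [chi, if_neg]
      exact fun h => zero_ne_one h.2
    rw [this, one_mul]
  · rw [h]
    exact phi_swap θ _ _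

theorem sg_prod : ∀ τ : K4 → Fin 3, 0 ≤ ∏ c, sg (cnt τ c 0) (cnt τ c 1) := by
  decide +kernel

theorem chi_exists : ∀ p : Fin 3 → F2, (∀ c, p c = 0) ∨ (∀ c, p c = 1) ∨
    ∃ v : K4, ∏ c, chi (p c) (ell c v) = -1 := by
  decide +kernel

theorem loc_nonneg (θ : Fin 3 → (Fin 3 × Fin 3) × F2) : 0 ≤ loc θ := by
  rcases chi_exists fun c => (θ c).2 with h | h | ⟨v, hv⟩
  · refine Finset.sum_nonneg fun τ _ => Finset.prod_nonneg fun c _ => ?_
    rw [phi]
    split_ifs with h1 h2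
    · exact zero_le_one
    · exact absurd (h c) h2
    · exact le_rfl
  · refine Finset.sum_nonneg fun τ _ => ?_
    by_cases h1 : ∀ c, max (cnt τ c 0) (cnt τ c 1) = (θ c).1.1 ∧ min (cnt τ c 0) (cnt τ c 1) = (θ c).1.2
    · have h2 : ∀ c, phi (θ c) (cnt τ c 0) (cnt τ c 1) = sg (cnt τ c 0) (cnt τ c 1) := by
        intro c
        rw [phi, if_pos (h1 c), if_neg]
        rw [h c]
        exact one_ne_zero
      rw [Finset.prod_congr rfl fun c _ => h2 c]
      exact sg_prod τ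
    · push Not at h1
      obtain ⟨c, hc⟩ := h1
      rw [Finset.prod_eq_zero (Finset.mem_univ c)]
      rw [phi, if_neg]
      exact fun h => hc h.1 h.2
  · have h1 : loc θ = -loc θ := by
      conv_lhs => rw [loc]
      rw [← Equiv.sum_comp (Equiv.arrowCongr (Equiv.subRight v) (Equiv.refl (Fin 3)))
        (fun τ : K4 → Fin 3 => ∏ c, phi (θ c) (cnt τ c 0) (cnt τ c 1)), loc, ← Finset.sum_neg_distrib]
      refine Finset.sum_congr rfl fun τ _ => ?_
      have h2 : (Equiv.arrowCongr (Equiv.subRight v) (Equiv.refl (Fin 3))) τ =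
          fun a => τ (a + v) := by
        funext a
        simp [Equiv.arrowCongr]
      rw [h2, Finset.prod_congr rfl fun c _ => phi_translate (θ c) τ v c, Finset.prod_mul_distrib, hv]
      ring
    omega

/-- the distinguished local functions -/
def star (c : Fin 3) : (Fin 3 × Fin 3) × F2 := ((if c = 0 then 2 else 1, 0), 1)

theorem loc_star : 0 < loc star := by
  decide +kernel

theorem coef_nonneg (θ : (Fin 3 × Fin 3) × F2) : 0 ≤ coef θ := by
  rw [coef]
  positivity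

theorem coef_pos (θ : (Fin 3 × Fin 3) × F2) : 0 < coef θ := by
  rw [coef]
  have h1 := Nat.factorial_pos θ.1.1.1
  have h2 := Nat.factorial_pos θ.1.2.1
  have : 0 < ((θ.1.1.1.factorial * θ.1.2.1.factorial : ℕ) : ℤ) := by
    exact_mod_cast Nat.mul_pos h1 h2
  split_ifs
  · linarith
  · linarith

end Pool.Agent.H5Sym
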