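import Mathlib

/-!
# Permutations that exchange two parts along a relation
-/

set_option autoImplicit false

namespace Pool.Agent.H5Sym

open Equiv

variable {R X : Type*}

/-- the relation on `X` that joins the two copies of `R` along `Ok` and is the equality outside -/
def Join (j : Bool × R ↪ X) (Ok : R → R → Prop) (x y : X) : Prop :=
  (∃ r s, Ok r s ∧ ((x = j (false, r) ∧ y = j (true, s)) ∨ (x = j (true, s) ∧ y = j (false, r)))) ∨
    (x = y ∧ x ∉ Set.range j)

/-- the permutation that exchanges the two copies -/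
def exch (a b : Perm R) : Perm (Bool × R) where
  toFun p := match p with
    | (false, r) => (true, a r)
    | (true, s) => (false, b s)
  invFun p := match p with
    | (true, s) => (false, a.symm s)
    | (false, r) => (true, b.symm r)
  left_inv := by
    rintro ⟨_ | _, r⟩
    · simp
    · simp
  right_inv := by
    rintro ⟨_ | _, r⟩
    · simp
    · simp

theorem join_false {j : Bool × R ↪ X} {Ok : R → R → Prop} {r : R} {y : X}
    (h : Join j Ok (j (false, r)) y) : ∃ s, y = j (true, s) ∧ Ok r s := by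
  rcases h with ⟨r', s, h1, ⟨h2, h3⟩ | ⟨h2, h3⟩⟩ | ⟨-, h⟩
  · have : r = r' := by simpa using j.injective h2
    subst this
    exact ⟨s, h3, h1⟩
  · simpa using j.injective h2
  · exact absurd ⟨_, rfl⟩ h

theorem join_true {j : Bool × R ↪ X} {Ok : R → R → Prop} {s : R} {y : X}
    (h : Join j Ok (j (true, s)) y) : ∃ r, y = j (false, r) ∧ Ok r s := by
  rcases h with ⟨r, s', h1, ⟨h2, h3⟩ | ⟨h2, h3⟩⟩ | ⟨-, h⟩
  · simpa using j.injective h2
  · have : s = s' := by simpa using j.injective h2
    subst this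
    exact ⟨r, h3, h1⟩
  · exact absurd ⟨_, rfl⟩ h

theorem join_out {j : Bool × R ↪ X} {Ok : R → R → Prop} {x y : X} (hx : x ∉ Set.range j)
    (h : Join j Ok x y) : x = y := by
  rcases h with ⟨r, s', h1, ⟨h2, h3⟩ | ⟨h2, h3⟩⟩ | ⟨h, -⟩
  · exact absurd ⟨_, h2.symm⟩ hx
  · exact absurd ⟨_, h2.symm⟩ hx
  · exact h

theorem card_join [Finite R] (j : Bool × R ↪ X) (Ok : R → R → Prop) :
    Nat.card {π : Perm X // ∀ x, Join j Ok x (π x)} =
      Nat.card {ρ : Perm R // ∀ r, Ok r (ρ r)} ^ 2 := by
  classical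
  have e1 : {ρ : Perm R // ∀ r, Ok (ρ r) r} ≃ {ρ : Perm R // ∀ r, Ok r (ρ r)} := by
    refine (Equiv.inv (Perm R)).subtypeEquiv fun ρ => ?_
    constructor
    · intro h r
      have := h (ρ⁻¹ r)
      rwa [show ρ (ρ⁻¹ r) = r from ρ.apply_symm_apply r] at this
    · intro h r
      have := h (ρ r)
      rwa [show (Equiv.inv (Perm R)) ρ (ρ r) = r from ρ.symm_apply_apply r] at this
  have e2 : {ρ : Perm R // ∀ r, Ok r (ρ r)} × {ρ : Perm R // ∀ r, Ok (ρ r) r} ≃
      {π : Perm X // ∀ x, Join j Ok x (π x)} := by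
    refine Equiv.ofBijective (fun p => ⟨(exch p.1.1 p.2.1).viaEmbedding j, ?_⟩) ⟨?_, ?_⟩
    · intro x
      by_cases hx : x ∈ Set.range j
      · obtain ⟨⟨_ | _, r⟩, rfl⟩ := hx
        · rw [Perm.viaEmbedding_apply]
          exact Or.inl ⟨r, _, p.1.2 r, Or.inl ⟨rfl, rfl⟩⟩
        · rw [Perm.viaEmbedding_apply]
          exact Or.inl ⟨_, r, p.2.2 r, Or.inr ⟨rfl, rfl⟩⟩
      · rw [Perm.viaEmbedding_apply_of_notMem _ _ _ hx]
        exact Or.inr ⟨rfl, hx⟩
    · rintro ⟨⟨a, ha⟩, b, hb⟩ ⟨⟨a', ha'⟩, b', hb'⟩ h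
      have h1 : (exch a b).viaEmbedding j = (exch a' b').viaEmbedding j := congrArg Subtype.val h
      have h2 : ∀ p, exch a b p = exch a' b' p := by
        intro p
        have := congrArg (fun π : Perm X => π (j p)) h1
        simp only [Perm.viaEmbedding_apply] at this
        exact j.injective this
      obtain rfl : a = a' := Equiv.ext fun r => congrArg Prod.snd (h2 (false, r))
      obtain rfl : b = b' := Equiv.ext fun r => congrArg Prod.snd (h2 (true, r))
      rfl
    · rintro ⟨π, hπ⟩
      have hf : ∀ r, ∃ s, π (j (false, r)) = j (true, s) ∧ Ok r s := fun r => join_false (hπ _)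
      have ht : ∀ s, ∃ r, π (j (true, s)) = j (false, r) ∧ Ok r s := fun s => join_true (hπ _)
      choose a ha using hf
      choose b hb using ht
      have hai : Function.Injective a := by
        intro r r' h
        have h1 : π (j (false, r)) = π (j (false, r')) := by rw [(ha r).1, (ha r').1, h]
        simpa using j.injective (π.injective h1)
      have hbi : Function.Injective b := by
        intro r r' h
        have h1 : π (j (true, r)) = π (j (true, r')) := by rw [(hb r).1, (hb r').1, h]
        simpa using j.injective (π.injective h1)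
      refine ⟨(⟨Equiv.ofBijective a (Finite.injective_iff_bijective.1 hai), fun r => (ha r).2⟩,
        ⟨Equiv.ofBijective b (Finite.injective_iff_bijective.1 hbi), fun r => (hb r).2⟩), ?_⟩
      refine Subtype.ext (Equiv.ext fun x => ?_)
      by_cases hx : x ∈ Set.range j
      · obtain ⟨⟨_ | _, r⟩, rfl⟩ := hx
        · dsimp only
          rw [Perm.viaEmbedding_apply, (ha r).1]
          rfl
        · dsimp only
          rw [Perm.viaEmbedding_apply, (hb r).1]
          rfl
      · dsimp only
        rw [Perm.viaEmbedding_apply_of_notMem _ _ _ hx]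
        exact join_out hx (hπ x)
  rw [← Nat.card_congr e2, Nat.card_prod, Nat.card_congr e1, sq]

theorem Join.symm {j : Bool × R ↪ X} {Ok : R → R → Prop} {x y : X} (h : Join j Ok x y) :
    Join j Ok y x := by
  rcases h with ⟨r, s, h1, h2⟩ | ⟨rfl, h⟩
  · exact Or.inl ⟨r, s, h1, h2.symm.imp (fun h => ⟨h.2, h.1⟩) fun h => ⟨h.2, h.1⟩⟩
  · exact Or.inr ⟨rfl, h⟩

end Pool.Agent.H5Sym
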