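import Pool.Agent.H5Sym.PermCount
import Pool.Agent.H5Sym.PermSquare
import Pool.Agent.H5Sym.PermDefs
import Pool.Agent.H5Sym.Cubic9
import Pool.Agent.H5Sym.Graph

/-!
# The matrices for the permanent
-/

set_option autoImplicit false

namespace Pool.Agent.H5Sym

open Module Equiv

variable {V : Type} {β X : Type}

/-- the blocks of a vertex set, embedded into `X` -/
def blk (e : β × K4 ↪ X) (ι : Bool × V ↪ β) : Bool × (V × K4) ↪ X :=
  ⟨fun p => e (ι (p.1, p.2.1), p.2.2), by
    rintro ⟨s, i, a⟩ ⟨s', i', a'⟩ h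
    simpa [and_assoc] using e.injective h⟩

theorem blk_apply (e : β × K4 ↪ X) (ι : Bool × V ↪ β) (s : Bool) (r : V × K4) :
    blk e ι (s, r) = e (ι (s, r.1), r.2) := rfl

theorem shift_blk (e : β × K4 ↪ X) (ι : Bool × V ↪ β) (v : β → K4) (s : Bool) (r : V × K4) :
    (blockShift v).viaEmbedding e (blk e ι (s, r)) = blk e ι (s, (r.1, r.2 + v (ι (s, r.1)))) := by
  rw [blk_apply, Perm.viaEmbedding_apply]
  rfl

theorem shift_range (e : β × K4 ↪ X) (ι : Bool × V ↪ β) (v : β → K4) (x : X) :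
    (blockShift v).viaEmbedding e x ∈ Set.range (blk e ι) ↔ x ∈ Set.range (blk e ι) := by
  have key : ∀ (v : β → K4) (x : X), x ∈ Set.range (blk e ι) →
      (blockShift v).viaEmbedding e x ∈ Set.range (blk e ι) := by
    rintro v x ⟨⟨s, r⟩, rfl⟩
    rw [shift_blk]
    exact ⟨_, rfl⟩
  refine ⟨fun h => ?_, key v x⟩
  have h1 := key v _ h
  have h2 : (blockShift v).viaEmbedding e ((blockShift v).viaEmbedding e x) = x := by
    by_cases hx : x ∈ Set.range e
    · obtain ⟨p, rfl⟩ := hx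
      rw [Perm.viaEmbedding_apply, Perm.viaEmbedding_apply, ← Perm.mul_apply, ← blockShift_add,
        add_self_mod, blockShift_apply]
      simp
    · rw [Perm.viaEmbedding_apply_of_notMem _ _ _ hx, Perm.viaEmbedding_apply_of_notMem _ _ _ hx]
  rwa [h2] at h1

theorem ok_shift (ι : Bool × V ↪ β) (σ : Fin 3 → Perm V) (w : Fin 3 × V → F2) (v : β → K4)
    (r s : V × K4) : Ok σ (w + bdryV ι σ v) (r.1, r.2 + v (ι (false, r.1)))
      (s.1, s.2 + v (ι (true, s.1))) ↔ Ok σ w r s := by
  refine exists_congr fun c => and_congr_right fun h => ?_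
  rw [Pi.add_apply, bdryV_apply, ell_add, ell_add]
  dsimp only
  rw [h]
  constructor
  · intro h1
    refine add_right_cancel (b := ell c (v (ι (false, r.1))) + ell c (v (ι (true, s.1)))) ?_
    rw [← h1]; ring
  · intro h1
    rw [← h1]; ring

/-- the relation of the matrix -/
def Rel (e : β × K4 ↪ X) (ι : Bool × V ↪ β) (σ : Fin 3 → Perm V) (w : Fin 3 × V → F2) (x y : X) :
    Prop := Join (blk e ι) (Ok σ w) x y

open Classical in
/-- the matrix -/
noncomputable def pmat (e : β × K4 ↪ X) (ι : Bool × V ↪ β) (σ : Fin 3 → Perm V)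
    (w : Fin 3 × V → F2) (t : X × X) : Bool := decide (Rel e ι σ w t.1 t.2)

theorem pmat_true {e : β × K4 ↪ X} {ι : Bool × V ↪ β} {σ : Fin 3 → Perm V} {w : Fin 3 × V → F2}
    {t : X × X} : pmat e ι σ w t = true ↔ Rel e ι σ w t.1 t.2 := by
  simp [pmat]

theorem rel_shift (e : β × K4 ↪ X) (ι : Bool × V ↪ β) (σ : Fin 3 → Perm V) (w : Fin 3 × V → F2)
    (v : β → K4) (x y : X) : Rel e ι σ (w + bdryV ι σ v) ((blockShift v).viaEmbedding e x)
      ((blockShift v).viaEmbedding e y) ↔ Rel e ι σ w x y := by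
  have hb : ∀ s r s' r', (blockShift v).viaEmbedding e (blk e ι (s, r)) = blk e ι (s', r') →
      s = s' ∧ r' = (r.1, r.2 + v (ι (s, r.1))) := by
    intro s r s' r' h
    rw [shift_blk] at h
    have := (blk e ι).injective h
    simp only [Prod.mk.injEq] at this
    exact ⟨this.1, this.2.symm⟩
  constructor
  · rintro (⟨r', s', h1, h2⟩ | ⟨h1, h2⟩)
    · have hx : x ∈ Set.range (blk e ι) := by
        rw [← shift_range e ι v]
        rcases h2 with ⟨h2, -⟩ | ⟨h2, -⟩ <;> exact ⟨_, h2.symm⟩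
      have hy : y ∈ Set.range (blk e ι) := by
        rw [← shift_range e ι v]
        rcases h2 with ⟨-, h2⟩ | ⟨-, h2⟩ <;> exact ⟨_, h2.symm⟩
      obtain ⟨⟨a, r⟩, rfl⟩ := hx
      obtain ⟨⟨b, s⟩, rfl⟩ := hy
      rcases h2 with ⟨h2, h3⟩ | ⟨h2, h3⟩
      · obtain ⟨rfl, rfl⟩ := hb _ _ _ _ h2
        obtain ⟨rfl, rfl⟩ := hb _ _ _ _ h3
        exact Or.inl ⟨r, s, (ok_shift ι σ w v r s).1 h1, Or.inl ⟨rfl, rfl⟩⟩
      · obtain ⟨rfl, rfl⟩ := hb _ _ _ _ h2
        obtain ⟨rfl, rfl⟩ := hb _ _ _ _ h3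
        exact Or.inl ⟨s, r, (ok_shift ι σ w v s r).1 h1, Or.inr ⟨rfl, rfl⟩⟩
    · exact Or.inr ⟨(Equiv.injective _) h1, by rwa [← shift_range e ι v]⟩
  · rintro (⟨r, s, h1, h2⟩ | ⟨rfl, h2⟩)
    · refine Or.inl ⟨_, _, (ok_shift ι σ w v r s).2 h1, ?_⟩
      rcases h2 with ⟨rfl, rfl⟩ | ⟨rfl, rfl⟩
      · exact Or.inl ⟨shift_blk e ι v _ _, shift_blk e ι v _ _⟩
      · exact Or.inr ⟨shift_blk e ι v _ _, shift_blk e ι v _ _⟩
    · exact Or.inr ⟨rfl, by rwa [shift_range e ι v]⟩

theorem pmat_shift (e : β × K4 ↪ X) (ι : Bool × V ↪ β) (σ : Fin 3 → Perm V) (w : Fin 3 × V → F2)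
    (v : β → K4) (t : X × X) : pmat e ι σ (w + bdryV ι σ v)
      (pairPerm ((blockShift v).viaEmbedding e) t) = pmat e ι σ w t := by
  rw [Bool.eq_iff_iff, pmat_true, pmat_true, pairPerm_apply]
  exact rel_shift e ι σ w v t.1 t.2

theorem pmat_base (e : β × K4 ↪ X) (ι : Bool × V ↪ β) (σ : Fin 3 → Perm V) (t : X × X)
    (w d : Fin 3 × V → F2) (hd : ∀ a, (∀ v, pairPerm ((blockShift v).viaEmbedding e) t = t →
      bdryV ι σ v a = 0) → d a = 0) : pmat e ι σ (w + d) t = pmat e ι σ w t := by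
  obtain ⟨x, y⟩ := t
  rw [Bool.eq_iff_iff, pmat_true, pmat_true]
  have key : ∀ r s : V × K4, ((x = blk e ι (false, r) ∧ y = blk e ι (true, s)) ∨
      (x = blk e ι (true, s) ∧ y = blk e ι (false, r))) → (Ok σ (w + d) r s ↔ Ok σ w r s) := by
    intro r s h
    refine exists_congr fun c => and_congr_right fun hc => ?_
    have : d (c, r.1) = 0 := by
      refine hd _ fun v hv => ?_
      have hfix : ∀ (a : Bool) (p : V × K4), (blockShift v).viaEmbedding e (blk e ι (a, p)) =
          blk e ι (a, p) → v (ι (a, p.1)) = 0 := by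
        intro a p hp
        rw [shift_blk] at hp
        have h1 := congrArg (fun z => z.2.2) ((blk e ι).injective hp)
        simpa using h1
      rw [pairPerm_apply, Prod.mk.injEq] at hv
      rw [bdryV_apply]
      dsimp only
      rw [hc]
      rcases h with ⟨rfl, rfl⟩ | ⟨rfl, rfl⟩
      · rw [hfix _ _ hv.1, hfix _ _ hv.2, ell_zero, add_zero]
      · rw [hfix _ _ hv.1, hfix _ _ hv.2, ell_zero, add_zero]
    rw [Pi.add_apply, this, add_zero]
  constructor
  · rintro (⟨r, s, h1, h2⟩ | h)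
    · exact Or.inl ⟨r, s, (key r s h2).1 h1, h2⟩
    · exact Or.inr h
  · rintro (⟨r, s, h1, h2⟩ | h)
    · exact Or.inl ⟨r, s, (key r s h2).2 h1, h2⟩
    · exact Or.inr h

theorem symmetricSix_pmat [Finite X] (e : β × K4 ↪ X) (ι : Bool × V ↪ β) (σ : Fin 3 → Perm V)
    (w : Fin 3 × V → F2) : SymmetricSix (pmat e ι σ w) where
  symm i j := by
    rw [Bool.eq_iff_iff, pmat_true, pmat_true]
    exact ⟨fun h => h.symm, fun h => h.symm⟩
  ones x := by
    classical
    by_cases hx : x ∈ Set.range (blk e ι)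
    swap
    · have : {y | pmat e ι σ w (x, y) = true} ⊆ {x} := by
        intro y hy
        have h1 : Rel e ι σ w x y := pmat_true.1 hy
        exact (join_out hx h1).symm
      calc _ ≤ ({x} : Set X).ncard := Set.ncard_le_ncard this (Set.finite_singleton x)
        _ = 1 := Set.ncard_singleton x
        _ ≤ 6 := by norm_num
    have hK : ∀ c : Fin 3, ∀ s : F2, (Finset.univ.filter fun k : K4 => ell c k = s).card ≤ 2 := by
      decide
    -- six possible neighbours
    have six : ∀ (a : Bool) (f : Fin 3 → V) (s : Fin 3 → F2),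
        (∀ y, Rel e ι σ w x y → ∃ c k, ell c k = s c ∧ y = blk e ι (a, (f c, k))) →
        {y | pmat e ι σ w (x, y) = true}.ncard ≤ 6 := by
      intro a f s h
      let S : Finset X := Finset.univ.biUnion fun c : Fin 3 =>
        (Finset.univ.filter fun k : K4 => ell c k = s c).image fun k => blk e ι (a, (f c, k))
      have hS : {y | pmat e ι σ w (x, y) = true} ⊆ (S : Set X) := by
        intro y hy
        obtain ⟨c, k, h1, rfl⟩ := h y (pmat_true.1 hy)
        simp only [S, Finset.coe_biUnion, Set.mem_iUnion, Finset.coe_image, Set.mem_image,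
          Finset.mem_coe, Finset.mem_filter, Finset.mem_univ, true_and]
        exact ⟨c, trivial, k, h1, rfl⟩
      calc _ ≤ (S : Set X).ncard := Set.ncard_le_ncard hS (Finset.finite_toSet _)
        _ = S.card := Set.ncard_coe_finset _
        _ ≤ ∑ c : Fin 3, 2 := by
            refine Finset.card_biUnion_le.trans (Finset.sum_le_sum fun c _ => ?_)
            exact Finset.card_image_le.trans (hK c (s c))
        _ = 6 := by simp
    obtain ⟨⟨_ | _, r⟩, rfl⟩ := hx
    · refine six true (fun c => σ c r.1) (fun c => w (c, r.1) - ell c r.2) fun y hy => ?_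
      obtain ⟨s, rfl, c, h1, h2⟩ := join_false hy
      exact ⟨c, s.2, by rw [← h2]; ring, by rw [h1]⟩
    · refine six false (fun c => (σ c).symm r.1) (fun c => w (c, (σ c).symm r.1) - ell c r.2)
        fun y hy => ?_
      obtain ⟨s, rfl, c, h1, h2⟩ := join_true hy
      have h3 : (σ c).symm r.1 = s.1 := by rw [← h1, symm_apply_apply]
      refine ⟨c, s.2, ?_, ?_⟩
      · rw [h3, ← h2]; ring
      · rw [h3]

theorem per_pmat [Finite X] [Fintype V] [DecidableEq V] (e : β × K4 ↪ X) (ι : Bool × V ↪ β)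
    (σ : Fin 3 → Perm V) (w : Fin 3 × V → F2) :
    per (fun t => if pmat e ι σ w t then (1 : ℕ) else 0) = numPM σ w ^ 2 := by
  classical
  have h1 : per (fun t => if pmat e ι σ w t then (1 : ℕ) else 0) =
      Nat.card {π : Perm X // ∀ x, Rel e ι σ w x (π x)} := by
    let _ : Fintype X := Fintype.ofFinite X
    let _ : DecidableEq X := Classical.decEq X
    change (Matrix.of fun i j => if pmat e ι σ w (i, j) then (1 : ℕ) else 0).permanent = _
    rw [Matrix.permanent]
    simp only [Matrix.of_apply]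
    rw [Nat.card_eq_fintype_card, Fintype.card_subtype, Finset.card_filter]
    refine Finset.sum_congr rfl fun π _ => ?_
    by_cases h : ∀ x, Rel e ι σ w x (π x)
    · rw [if_pos h]
      refine Finset.prod_eq_one fun x _ => ?_
      have h2 : pmat e ι σ w (π x, x) = true := pmat_true.2 (Join.symm (h x))
      rw [if_pos h2]
    · rw [if_neg h]
      push Not at h
      obtain ⟨x, hx⟩ := h
      refine Finset.prod_eq_zero (Finset.mem_univ x) ?_
      have h2 : ¬ pmat e ι σ w (π x, x) = true := fun h' => hx (Join.symm (pmat_true.1 h'))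
      rw [if_neg h2]
  rw [h1]
  refine (card_join (blk e ι) (Ok σ w)).trans ?_
  rw [numPM, Nat.card_eq_fintype_card]

end Pool.Agent.H5Sym
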