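import Pool.Agent.H5Sym.PermMain

/-!
# The permanent and circuits that are invariant under a small abelian group

A circuit for the permanent of the `X × X` matrices is considered together with the permutations of
its inputs that permute the rows and the columns simultaneously. Let `B` disjoint blocks of four
elements of `X` be given, with the Klein four-group acting regularly on each of them; these generate
an abelian group of order `4 ^ B`.

(1) Circuits of any depth with arbitrary symmetric gates (in particular arithmetic circuits over the
complex numbers with any constants) that are invariant under this group and compute the permanent need
exponentially many gates in `B`. It suffices that they are correct for the symmetric matrices with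
entries `0` and `1` and at most six ones in each row.

(2) Every arithmetic circuit for the permanent with `s` gates can be made invariant under this group,
at the cost of a factor `4 ^ B`.

So for `B / log |X| → ∞` there are no invariant arithmetic circuits of polynomial size for the
permanent, and for `B = O (log |X|)` their existence is equivalent to the existence of arithmetic
circuits of polynomial size for the permanent, that is, to `VP = VNP`.

Proof idea of (1). The matrices are adjacency matrices of graphs `G (σ, w)`: for a random simple bipartite
cubic graph `σ` with coloured edges, every edge `e` of colour `c` carries the condition
`ell c a + ell c b = w e` for the elements `a`, `b` of the two blocks, where `ell 0`, `ell 1`, `ell 2` are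
the nonzero functionals of the Klein four-group. An invariant circuit with few gates does not see the
parity of the sum of `w`. But the number of perfect matchings does: in its Fourier expansion with
respect to `w` all coefficients are nonnegative, and the coefficient of the character of all edges is
positive.
-/

set_option autoImplicit false

namespace Pool.Agent.H5Sym.PermResult

open Pool.Agent.H5Sym Equiv

universe u w

/-- **Theorem.** Let `e` be an embedding of `β × K4` into the finite set `X`, that is, `B = |β|` disjoint
blocks of four elements. The translations `(i, a) ↦ (i, a + v i)` of the blocks permute the rows and
the columns of the `X × X` matrices simultaneously.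
(1) Let `C` be a circuit with values in any set `D` whose gates compute arbitrary functions of the
multiset of the labelled values of their wires. Suppose that `C` is invariant under these
permutations and that its value determines the permanent of every symmetric `X × X` matrix with
entries `0` and `1` and at most six ones in each row. Then `C` has at least
`36 ^ (B / 216) / (B + 1) ^ 9` gates.
(2) For every arithmetic circuit `C` over the complex numbers that computes the permanent of the
`X × X` matrices there is one that is invariant under these permutations and has `4 ^ B * |C| + 3`
gates. -/
theorem result :
    (∀ (β X : Type) [Finite X] (e : β × K4 ↪ X) (D : Type u) (C : Circuit.{0, u, w} (X × X) D)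
      [Finite C.Gate] (inp : Bool → D) (dec : D → ℕ),
      (∀ v : β → K4, C.Invariant (pairPerm ((blockShift v).viaEmbedding e))) →
      (∀ x, SymmetricSix x →
        dec (C.eval (inp ∘ x) C.out) = per fun t => if x t then (1 : ℕ) else 0) →
      36 ^ (Nat.card β / 216) ≤ Nat.card C.Gate * (Nat.card β + 1) ^ 9) ∧
    ∀ (β X : Type) [Finite X] (e : β × K4 ↪ X) (C : Circuit.{0, 0, 0} (X × X) ℂ) [Finite C.Gate],
      Arithmetic C → (∀ x : X × X → ℂ, C.eval x C.out = per x) →
      ∃ C' : Circuit.{0, 0, 0} (X × X) ℂ, Arithmetic C' ∧
        (∀ v : β → K4, C'.Invariant (pairPerm ((blockShift v).viaEmbedding e))) ∧
        (∀ x : X × X → ℂ, C'.eval x C'.out = per x) ∧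
        Nat.card C'.Gate = 4 ^ Nat.card β * Nat.card C.Gate + 3 :=
  ⟨fun _ _ _ e _ C _ inp dec h1 h2 => lowerPer e C inp dec h1 h2,
    fun _ _ _ e C _ h1 h2 => upperPer e C h1 h2⟩

end Pool.Agent.H5Sym.PermResult
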