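import Pool.Agent.H5Sym.SatInst
import Pool.Agent.H5Sym.Agree

/-!
# The formulas of sparse linear systems: satisfiability and the number of satisfied clauses
-/

set_option autoImplicit false

namespace Pool.Agent.H5Sym

variable {P m : ℕ} {V : Type}

theorem satisfiable_zero (ι : Fin 3 × Fin P ↪ V) (f : Fin 3 → Fin m → Fin P) :
    Satisfiable (form ι f 0) := by
  refine ⟨0, fun t ht => ?_⟩
  obtain ⟨j, -, -, -, h⟩ := form_true.1 ht
  rw [Pi.zero_apply] at h
  rw [Holds]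
  simp only [Pi.zero_apply]
  generalize t.1.2 = x at *
  generalize t.2.1.2 = y at *
  generalize t.2.2.2 = z at *
  revert x y z
  decide

/-- the clause of the row `j` with the signs `s` -/
def clauseOf (ι : Fin 3 × Fin P ↪ V) (f : Fin 3 → Fin m → Fin P) (p : Fin m × F2 × F2 × F2) :
    Clause V :=
  ((ι (0, f 0 p.1), p.2.1), (ι (1, f 1 p.1), p.2.2.1), (ι (2, f 2 p.1), p.2.2.2))

theorem count_clauses (ι : Fin 3 × Fin P ↪ V) (f : Fin 3 → Fin m → Fin P)
    (hf : ∀ j j', (∀ c, f c j = f c j') → j = j') (w : Fin m → F2) (Q : Clause V → Prop)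
    [DecidablePred Q] :
    Nat.card {t // form ι f w t = true ∧ Q t} =
      ∑ j, ∑ s : F2 × F2 × F2, if s.1 + s.2.1 + s.2.2 = w j ∧ Q (clauseOf ι f (j, s)) then 1 else 0 := by
  classical
  have e : {p : Fin m × F2 × F2 × F2 // p.2.1 + p.2.2.1 + p.2.2.2 = w p.1 ∧ Q (clauseOf ι f p)} ≃
      {t // form ι f w t = true ∧ Q t} := by
    refine Equiv.ofBijective (fun p => ⟨clauseOf ι f p.1, form_true.2 ⟨p.1.1, rfl, rfl, rfl, p.2.1⟩,
      p.2.2⟩) ⟨?_, ?_⟩
    · rintro ⟨⟨j, s0, s1, s2⟩, hp⟩ ⟨⟨j', s0', s1', s2'⟩, hp'⟩ h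
      have h' := congrArg Subtype.val h
      simp only [clauseOf, Prod.mk.injEq, EmbeddingLike.apply_eq_iff_eq, true_and] at h'
      obtain ⟨⟨h0, rfl⟩, ⟨h1, rfl⟩, h2, rfl⟩ := h'
      have : j = j' := hf j j' (fun c => by fin_cases c; exacts [h0, h1, h2])
      subst this
      rfl
    · rintro ⟨⟨⟨x0, s0⟩, ⟨x1, s1⟩, ⟨x2, s2⟩⟩, h, hQ⟩
      obtain ⟨j, h0, h1, h2, h3⟩ := form_true.1 h
      dsimp only at h0 h1 h2 h3
      subst h0 h1 h2
      exact ⟨⟨(j, s0, s1, s2), h3, hQ⟩, rfl⟩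
  rw [← Nat.card_congr e, Nat.card_eq_fintype_card, Fintype.card_subtype, Finset.card_filter,
    Fintype.sum_prod_type]

theorem row_count : ∀ a0 a1 a2 b : F2, (∑ s : F2 × F2 × F2, if s.1 + s.2.1 + s.2.2 = b ∧
    (a0 = s.1 ∨ a1 = s.2.1 ∨ a2 = s.2.2) then 1 else 0) = if b = a0 + a1 + a2 then 4 else 3 := by
  decide

theorem row_count' : ∀ b : F2, (∑ s : F2 × F2 × F2, if s.1 + s.2.1 + s.2.2 = b ∧ True
    then 1 else 0) = 4 := by
  decide

theorem count_all (ι : Fin 3 × Fin P ↪ V) (f : Fin 3 → Fin m → Fin P)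
    (hf : ∀ j j', (∀ c, f c j = f c j') → j = j') (w : Fin m → F2) :
    Nat.card {t // form ι f w t = true} = 4 * m := by
  have h := count_clauses ι f hf w (fun _ => True)
  have h1 : Nat.card {t // form ι f w t = true} = Nat.card {t // form ι f w t = true ∧ True} :=
    Nat.card_congr (Equiv.subtypeEquivRight fun t => (and_true _).symm ▸ Iff.rfl)
  rw [h1, h]
  simp only [row_count', Finset.sum_const, Finset.card_univ, Fintype.card_fin, smul_eq_mul]
  ring

theorem count_sat (ι : Fin 3 × Fin P ↪ V) (f : Fin 3 → Fin m → Fin P)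
    (hf : ∀ j j', (∀ c, f c j = f c j') → j = j') (w : Fin m → F2) (a : V → F2) :
    Nat.card {t // form ι f w t = true ∧ Holds a t} = 3 * m + agree w (lhs ι f a) := by
  have : DecidablePred (Holds a) := fun t => by unfold Holds; infer_instance
  rw [count_clauses ι f hf w (Holds a)]
  have h : ∀ j, (∑ s : F2 × F2 × F2, if s.1 + s.2.1 + s.2.2 = w j ∧
      Holds a (clauseOf ι f (j, s)) then 1 else 0) = 3 + if w j = lhs ι f a j then 1 else 0 := by
    intro j
    have h1 := row_count (a (ι (0, f 0 j))) (a (ι (1, f 1 j))) (a (ι (2, f 2 j))) (w j)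
    have h2 : lhs ι f a j = a (ι (0, f 0 j)) + a (ι (1, f 1 j)) + a (ι (2, f 2 j)) := by
      rw [lhs_apply, Fin.sum_univ_three]
    rw [h2]
    have h3 : (3 + if w j = a (ι (0, f 0 j)) + a (ι (1, f 1 j)) + a (ι (2, f 2 j)) then 1 else 0) =
        if w j = a (ι (0, f 0 j)) + a (ι (1, f 1 j)) + a (ι (2, f 2 j)) then 4 else 3 := by
      split_ifs <;> rfl
    rw [h3, ← h1]
    refine Finset.sum_congr rfl fun s _ => ?_
    exact if_congr Iff.rfl rfl rfl
  simp only [h, Finset.sum_add_distrib, Finset.sum_const, Finset.card_univ, Fintype.card_fin,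
    smul_eq_mul, agree, Finset.card_filter]
  ring

/-- with many rows, some right-hand side makes the formula far from satisfiable -/
theorem exists_far {ε : ℝ} (hε : 0 < ε) {K : ℕ} (hK : 1 / (15 * ε ^ 2) ≤ K) (hP : 0 < P)
    (hm : m = K * P) (ι : Fin 3 × Fin P ↪ V) (f : Fin 3 → Fin m → Fin P)
    (hf : ∀ j j', (∀ c, f c j = f c j') → j = j') :
    ∃ b : Fin m → F2, ValueLT (7 / 8 + ε) (form ι f b) := by
  classical
  let L : (Fin 3 × Fin P → F2) → Fin m → F2 := fun y j => ∑ c, y (c, f c j)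
  have hK' : 32 / 15 ≤ 2 * (4 * ε) ^ 2 * K := by
    have h1 : (0 : ℝ) < 15 * ε ^ 2 := by positivity
    rw [div_le_iff₀ h1] at hK
    nlinarith
  obtain ⟨b, hb⟩ := exists_rhs (m := m) (4 * ε) (by positivity) L (by
    rw [Fintype.card_fun, Fintype.card_prod, Fintype.card_fin, Fintype.card_fin, ZMod.card]
    have hP' : (0 : ℝ) < P := by exact_mod_cast hP
    push_cast
    rw [← Real.exp_log (by positivity : (0 : ℝ) < 2 ^ (3 * P)), Real.exp_lt_exp, Real.log_pow, hm]
    push_cast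
    have h2 := Real.log_two_lt_d9
    nlinarith)
  refine ⟨b, fun a => ?_⟩
  rw [count_sat ι f hf, count_all ι f hf]
  have h1 := hb fun p => a (ι p)
  have h2 : L (fun p => a (ι p)) = lhs ι f a := rfl
  rw [h2] at h1
  push_cast
  linarith

end Pool.Agent.H5Sym
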