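import Pool.Agent.H5Sym.SatCount
import Pool.Agent.H5Sym.InfoSet
import Pool.Agent.H5Sym.Symmetrize

/-!
# 3-CNF formulas and circuits that are invariant under flips of variables
-/

set_option autoImplicit false

namespace Pool.Agent.H5Sym

open Module

universe u w

theorem lower3 {V : Type} [Finite V] (U : Submodule F2 (V → F2)) {D : Type u}
    (C : Circuit.{0, u, w} (Clause V) D) [Finite C.Gate] (inp : Bool → D) (acc : D → Prop) {ε : ℝ}
    (hε : 0 < ε) (hε' : ε ≤ 1 / 8) (hinv : ∀ u ∈ U, C.Invariant (flip u))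
    (h1 : ∀ x, Satisfiable x → acc (C.eval (inp ∘ x) C.out))
    (h2 : ∀ x, ValueLT (7 / 8 + ε) x → ¬ acc (C.eval (inp ∘ x) C.out)) :
    2 ^ ⌊ε ^ 4 * finrank F2 U / 6⌋₊ ≤ Nat.card C.Gate := by
  have hs : 0 < Nat.card C.Gate := Nat.card_pos_iff.2 ⟨⟨C.out⟩, inferInstance⟩
  obtain ⟨ι₀, hι₀⟩ := exists_info U
  generalize finrank F2 U = d at ι₀ hι₀ ⊢
  set K := ⌈1 / (15 * ε ^ 2)⌉₊ with hK
  have hK1 : 1 / (15 * ε ^ 2) ≤ (K : ℝ) := Nat.le_ceil _
  have hK2 : (K : ℝ) < 1 / (15 * ε ^ 2) + 1 := Nat.ceil_lt_add_one (by positivity)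
  have hε2 : (0 : ℝ) < ε ^ 2 := by positivity
  have hε3 : ε ^ 2 ≤ 1 / 64 := by nlinarith
  -- the exponent
  have hexp : 768 * K ^ 2 * ⌊ε ^ 4 * d / 6⌋₊ ≤ d := by
    have h3 : ε ^ 2 * K ≤ 79 / 960 := by
      have : ε ^ 2 * (K : ℝ) ≤ ε ^ 2 * (1 / (15 * ε ^ 2) + 1) := by gcongr
      have h4 : ε ^ 2 * (1 / (15 * ε ^ 2) + 1) = 1 / 15 + ε ^ 2 := by field_simp
      rw [h4] at this
      linarith
    have h5 : (⌊ε ^ 4 * d / 6⌋₊ : ℝ) ≤ ε ^ 4 * d / 6 := Nat.floor_le (by positivity)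
    have h6 : (768 * K ^ 2 * ⌊ε ^ 4 * d / 6⌋₊ : ℝ) ≤ d := by
      have h7 : (0 : ℝ) ≤ ε ^ 2 * K := by positivity
      have h8 : (ε ^ 2 * K) ^ 2 ≤ (79 / 960) ^ 2 := pow_le_pow_left₀ h7 h3 2
      calc (768 * K ^ 2 * ⌊ε ^ 4 * d / 6⌋₊ : ℝ) ≤ 768 * K ^ 2 * (ε ^ 4 * d / 6) := by gcongr
        _ = 128 * (ε ^ 2 * K) ^ 2 * d := by ring
        _ ≤ 128 * (79 / 960) ^ 2 * d := by gcongr
        _ ≤ 1 * d := by
            gcongr
            norm_num
        _ = d := one_mul _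
    exact_mod_cast h6
  set κ := ⌊ε ^ 4 * d / 6⌋₊ with hκdef
  rcases Nat.eq_zero_or_pos κ with h0 | hκ
  · rw [h0, pow_zero]; exact hs
  by_contra hcon
  push Not at hcon
  have hC : 2 * Nat.card C.Gate < 4 ^ κ := by
    have h3 : 2 ^ 1 ≤ 2 ^ κ := Nat.pow_le_pow_right (by norm_num) hκ
    calc 2 * Nat.card C.Gate < 2 * 2 ^ κ := by omega
      _ ≤ 2 ^ κ * 2 ^ κ := by
          rw [pow_one] at h3
          exact Nat.mul_le_mul_right _ h3
      _ = 4 ^ κ := by rw [← mul_pow]; rfl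
  have hK0 : 0 < K := Nat.ceil_pos.2 (by positivity)
  have hPd : 256 * K ^ 2 * κ ≤ d / 3 := by
    rw [Nat.le_div_iff_mul_le (by norm_num)]
    calc 256 * K ^ 2 * κ * 3 = 768 * K ^ 2 * κ := by ring
      _ ≤ d := hexp
  set P := d / 3 with hPdef
  have hP0 : 0 < P := lt_of_lt_of_le (by positivity) hPd
  have hP : 256 * κ * (K * P) ^ 2 ≤ P ^ 3 := by
    calc 256 * κ * (K * P) ^ 2 = (256 * K ^ 2 * κ) * P ^ 2 := by ring
      _ ≤ P * P ^ 2 := Nat.mul_le_mul_right _ hPd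
      _ = P ^ 3 := by ring
  -- the blocks
  obtain ⟨ι₁⟩ : Nonempty (Fin 3 × Fin P ↪ Fin d) := by
    refine Function.Embedding.nonempty_of_card_le ?_
    rw [Fintype.card_prod, Fintype.card_fin, Fintype.card_fin, Fintype.card_fin]
    omega
  have hι : ∀ y : Fin 3 × Fin P → F2, ∃ u ∈ U, ∀ p, u ((ι₁.trans ι₀) p) = y p := by
    intro y
    obtain ⟨u, hu, hu'⟩ := hι₀ (Function.extend ι₁ y 0)
    refine ⟨u, hu, fun p => ?_⟩
    rw [Function.Embedding.trans_apply, hu', ι₁.injective.extend_apply]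
  obtain ⟨f, hf1, hf2⟩ := fooling3 (ι₁.trans ι₀) U hι C inp hinv hκ hP0 hP hC
  obtain ⟨b, hb⟩ := exists_far hε hK1 hP0 rfl (ι₁.trans ι₀) f hf1
  refine h2 _ hb ?_
  rw [hf2 b 0]
  exact h1 _ (satisfiable_zero _ f)

theorem satisfiable_flip {V : Type} (u : V → F2) (x : Clause V → Bool) :
    Satisfiable (x ∘ flip u) ↔ Satisfiable x := by
  have key : ∀ (u : V → F2) (x : Clause V → Bool), Satisfiable x → Satisfiable (x ∘ flip u) := by
    rintro u x ⟨a, ha⟩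
    refine ⟨a + u, fun t ht => ?_⟩
    have := ha (flip u t) ht
    rw [Holds, flip_apply] at this
    have h : ∀ x y z : F2, x = y + z ↔ x + z = y := by decide
    rw [Holds]
    simp only [h] at this
    exact this
  refine ⟨fun h => ?_, key u x⟩
  have h1 := key u _ h
  have h2 : (x ∘ flip u) ∘ flip u = x := by
    funext t
    simp only [Function.comp]
    rw [← Equiv.Perm.mul_apply, ← flip_add, add_self_mod]
    congr 1
    rw [flip_apply]
    simp
  rwa [h2] at h1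

theorem upper3 {V : Type} [Finite V] (U : Submodule F2 (V → F2))
    (C : Circuit.{0, 0, w} (Clause V) Bool) [Finite C.Gate]
    (hC : ∀ x, C.eval x C.out = true ↔ Satisfiable x) :
    ∃ C' : Circuit.{0, 0, w} (Clause V) Bool, (∀ u ∈ U, C'.Invariant (flip u)) ∧
      (∀ x, C'.eval x C'.out = true ↔ Satisfiable x) ∧
      (∀ g, C'.op g = orGate ∨ ∃ h, C'.op g = C.op h) ∧
      Nat.card C'.Gate = 2 ^ finrank F2 U * Nat.card C.Gate + 1 := by
  classical
  have : Finite (V → F2) := Pi.finite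
  have : Finite U := Subtype.finite
  have : Fintype U := Fintype.ofFinite U
  have : FiniteDimensional F2 U := Module.Finite.of_finite
  refine ⟨sym (G := U) C (fun u => flip u.1), fun u hu => ?_, fun x => ?_, ?_, ?_⟩
  · exact sym_inv C (fun u : U => flip u.1) (fun u v => flip_add u.1 v.1) ⟨u, hu⟩
  · rw [sym_eval]
    constructor
    · rintro ⟨u, h⟩
      rw [hC, satisfiable_flip] at h
      exact h
    · intro h
      exact ⟨0, (hC _).2 ((satisfiable_flip _ x).2 h)⟩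
  · rintro (_ | p)
    · exact Or.inl rfl
    · exact Or.inr ⟨p.2, rfl⟩
  · rw [sym_card, Nat.card_eq_fintype_card, Module.card_eq_pow_finrank (K := F2) (V := U), ZMod.card]

end Pool.Agent.H5Sym
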