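import Pool.Agent.H5Sym.Walk

/-!
# Random sparse systems of equations have no visible sets of rows of medium size
-/

set_option autoImplicit false

namespace Pool.Agent.H5Sym

open Module

variable {P m : ℕ}

/-- the boundary of a set of rows: the parities of the three kinds of entries -/
def bd (f : Fin 3 → Fin m → Fin P) (S : Finset (Fin m)) (c : Fin 3) : Fin P → F2 :=
  ∑ j ∈ S, unit (f c j)

theorem bd_card (S : Finset (Fin m)) (v : Fin 3 → Fin P → F2) :
    (Finset.univ.filter fun f : Fin 3 → Fin m → Fin P => bd f S = v).card =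
      ∏ c, (walk S.card (v c) * P ^ (m - S.card)) := by
  classical
  have h : (Finset.univ.filter fun f : Fin 3 → Fin m → Fin P => bd f S = v) =
      Fintype.piFinset fun c => Finset.univ.filter fun g : Fin m → Fin P =>
        ∑ j ∈ S, unit (g j) = v c := by
    ext f
    simp [funext_iff, bd]
  rw [h, Fintype.card_piFinset]
  exact Finset.prod_congr rfl fun c _ => walk_card_set S (v c)

theorem bd_arith {P κ k l X : ℕ} (hP : 256 * κ * (k + l) ^ 2 ≤ P ^ 3) (hk : k ≤ 2 * κ)
    (h1 : X ^ 2 ≤ (2 ^ k * k.factorial * P ^ k * (P ^ l) ^ 2) ^ 3) :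
    4 ^ k * (k + l).choose k * X ≤ P ^ (3 * (k + l)) := by
  refine (Nat.pow_le_pow_iff_left (n := 2) two_ne_zero).1 ?_
  have h2 : (k + l).choose k * k.factorial ≤ (k + l) ^ k := by
    rw [mul_comm, ← Nat.descFactorial_eq_factorial_mul_choose]
    exact Nat.descFactorial_le_pow (k + l) k
  have h3 : k.factorial ≤ (2 * κ) ^ k := (Nat.factorial_le_pow k).trans (Nat.pow_le_pow_left hk k)
  calc (4 ^ k * (k + l).choose k * X) ^ 2
      = (4 ^ k * (k + l).choose k) ^ 2 * X ^ 2 := mul_pow _ _ _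
    _ ≤ (4 ^ k * (k + l).choose k) ^ 2 * (2 ^ k * k.factorial * P ^ k * (P ^ l) ^ 2) ^ 3 :=
        Nat.mul_le_mul_left _ h1
    _ = 4 ^ k * 4 ^ k * 2 ^ k * 2 ^ k * 2 ^ k * ((k + l).choose k * k.factorial) ^ 2 *
          k.factorial * P ^ (3 * k) * P ^ (6 * l) := by ring
    _ ≤ 4 ^ k * 4 ^ k * 2 ^ k * 2 ^ k * 2 ^ k * ((k + l) ^ k) ^ 2 * (2 * κ) ^ k * P ^ (3 * k) *
          P ^ (6 * l) := by gcongr
    _ = (256 * κ * (k + l) ^ 2) ^ k * P ^ (3 * k) * P ^ (6 * l) := by
        have : 4 ^ k * 4 ^ k * 2 ^ k * 2 ^ k * 2 ^ k * ((k + l) ^ k) ^ 2 * (2 * κ) ^ k =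
            (256 * κ * (k + l) ^ 2) ^ k := by
          rw [← pow_mul, mul_comm k 2, pow_mul, ← mul_pow, ← mul_pow, ← mul_pow, ← mul_pow,
            ← mul_pow, ← mul_pow]
          congr 1
          ring
        rw [this]
    _ ≤ (P ^ 3) ^ k * P ^ (3 * k) * P ^ (6 * l) := by gcongr
    _ = (P ^ (3 * (k + l))) ^ 2 := by ring

theorem bd_bound {κ : ℕ} (hP : 256 * κ * m ^ 2 ≤ P ^ 3) (S : Finset (Fin m)) (hS : S.card ≤ 2 * κ)
    (v : Fin 3 → Fin P → F2) :
    4 ^ S.card * m.choose S.card *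
      (Finset.univ.filter fun f : Fin 3 → Fin m → Fin P => bd f S = v).card ≤ P ^ (3 * m) := by
  have hkm : S.card ≤ m := by
    have := Finset.card_le_univ S
    rwa [Fintype.card_fin] at this
  have hm : m = S.card + (m - S.card) := by omega
  have h1 : (Finset.univ.filter fun f : Fin 3 → Fin m → Fin P => bd f S = v).card ^ 2 ≤
      (2 ^ S.card * S.card.factorial * P ^ S.card * (P ^ (m - S.card)) ^ 2) ^ 3 := by
    rw [bd_card, ← Finset.prod_pow]
    calc ∏ c : Fin 3, (walk S.card (v c) * P ^ (m - S.card)) ^ 2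
        ≤ ∏ _c : Fin 3, (2 ^ S.card * S.card.factorial * P ^ S.card * (P ^ (m - S.card)) ^ 2) := by
          refine Finset.prod_le_prod' fun c _ => ?_
          rw [mul_pow]
          exact Nat.mul_le_mul_right _ (walk_sq S.card (v c))
      _ = _ := by simp
  have := bd_arith (l := m - S.card) (by rwa [← hm]) hS h1
  rwa [← hm] at this

theorem geom (a b : ℕ) (h : a ≤ b) :
    ∑ k ∈ Finset.Ico a b, (1 / 4 : ℝ) ^ k = 4 / 3 * ((1 / 4) ^ a - (1 / 4) ^ b) := by
  induction b, h using Nat.le_induction with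
  | base => simp
  | succ b hb ih =>
    rw [Finset.sum_Ico_succ_top hb, ih, pow_succ]
    ring

theorem geom_le (a b : ℕ) (h : a ≤ b) :
    ∑ k ∈ Finset.Ico a b, (1 / 4 : ℝ) ^ k ≤ 4 / 3 * (1 / 4) ^ a := by
  rw [geom a b h]
  have : (0 : ℝ) < (1 / 4) ^ b := by positivity
  linarith

/-- the functions `f` for which some set of rows with size in `[a, b)` has its boundary in `Bad` -/
noncomputable def badF (m a b : ℕ) (Bad : Finset (Fin 3 → Fin P → F2)) :
    Finset (Fin 3 → Fin m → Fin P) :=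
  (Finset.Ico a b).biUnion fun k => (Finset.powersetCard k (Finset.univ : Finset (Fin m))).biUnion
    fun S => Bad.biUnion fun v => Finset.univ.filter fun f => bd f S = v

theorem mem_badF {a b : ℕ} {Bad : Finset (Fin 3 → Fin P → F2)} {f : Fin 3 → Fin m → Fin P}
    {S : Finset (Fin m)} (h1 : a ≤ S.card) (h2 : S.card < b) (h3 : bd f S ∈ Bad) :
    f ∈ badF m a b Bad := by
  simp only [badF, Finset.mem_biUnion, Finset.mem_Ico, Finset.mem_powersetCard, Finset.subset_univ,
    true_and, Finset.mem_filter, Finset.mem_univ]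
  exact ⟨S.card, ⟨h1, h2⟩, S, rfl, _, h3, rfl⟩

theorem badF_card {κ : ℕ} (hP : 256 * κ * m ^ 2 ≤ P ^ 3) {a b : ℕ} (hab : a ≤ b)
    (hb : b ≤ 2 * κ + 1) (Bad : Finset (Fin 3 → Fin P → F2)) :
    ((badF m a b Bad).card : ℝ) ≤ Bad.card * (4 / 3 * (1 / 4) ^ a) * P ^ (3 * m) := by
  have h1 : ∀ k ∈ Finset.Ico a b, (((Finset.powersetCard k (Finset.univ : Finset (Fin m))).biUnion
      fun S => Bad.biUnion fun v => Finset.univ.filter fun f => bd f S = v).card : ℝ) ≤
        Bad.card * (1 / 4) ^ k * P ^ (3 * m) := by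
    intro k hk
    rw [Finset.mem_Ico] at hk
    have h2 : ∀ S ∈ Finset.powersetCard k (Finset.univ : Finset (Fin m)),
        ((Bad.biUnion fun v => Finset.univ.filter fun f : Fin 3 → Fin m → Fin P =>
          bd f S = v).card : ℝ) ≤ Bad.card * ((1 / 4) ^ k * P ^ (3 * m) / m.choose k) := by
      intro S hS
      have hSk := (Finset.mem_powersetCard.1 hS).2
      have h3 : ∀ v ∈ Bad, ((Finset.univ.filter fun f : Fin 3 → Fin m → Fin P =>
          bd f S = v).card : ℝ) ≤ (1 / 4) ^ k * P ^ (3 * m) / m.choose k := by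
        intro v _
        have h4 := bd_bound hP S (by omega) v
        rw [hSk] at h4
        have hC : 0 < m.choose k := by
          refine Nat.choose_pos ?_
          have := Finset.card_le_univ S
          rwa [Fintype.card_fin, hSk] at this
        have hC' : (0 : ℝ) < m.choose k := by exact_mod_cast hC
        rw [le_div_iff₀ hC', one_div, inv_pow, ← div_eq_inv_mul, le_div_iff₀ (by positivity)]
        have h5 : ((4 ^ k * m.choose k * (Finset.univ.filter fun f : Fin 3 → Fin m → Fin P =>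
          bd f S = v).card : ℕ) : ℝ) ≤ ((P ^ (3 * m) : ℕ) : ℝ) := by exact_mod_cast h4
        push_cast at h5
        linarith
      calc ((Bad.biUnion fun v => Finset.univ.filter fun f : Fin 3 → Fin m → Fin P =>
          bd f S = v).card : ℝ)
          ≤ ∑ v ∈ Bad, ((Finset.univ.filter fun f : Fin 3 → Fin m → Fin P =>
              bd f S = v).card : ℝ) := by exact_mod_cast Finset.card_biUnion_le
        _ ≤ ∑ _v ∈ Bad, ((1 / 4) ^ k * P ^ (3 * m) / m.choose k : ℝ) := Finset.sum_le_sum h3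
        _ = _ := by rw [Finset.sum_const, nsmul_eq_mul]
    calc (((Finset.powersetCard k (Finset.univ : Finset (Fin m))).biUnion
      fun S => Bad.biUnion fun v => Finset.univ.filter fun f => bd f S = v).card : ℝ)
        ≤ ∑ S ∈ Finset.powersetCard k (Finset.univ : Finset (Fin m)),
            ((Bad.biUnion fun v => Finset.univ.filter fun f : Fin 3 → Fin m → Fin P =>
              bd f S = v).card : ℝ) := by exact_mod_cast Finset.card_biUnion_le
      _ ≤ ∑ _S ∈ Finset.powersetCard k (Finset.univ : Finset (Fin m)),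
            (Bad.card * ((1 / 4) ^ k * P ^ (3 * m) / m.choose k) : ℝ) := Finset.sum_le_sum h2
      _ ≤ _ := by
          rw [Finset.sum_const, Finset.card_powersetCard, Finset.card_univ, Fintype.card_fin,
            nsmul_eq_mul]
          rcases Nat.eq_zero_or_pos (m.choose k) with h0 | h0
          · rw [h0]
            simp only [Nat.cast_zero, zero_mul]
            positivity
          · have hC' : (m.choose k : ℝ) ≠ 0 := by exact_mod_cast h0.ne'
            refine le_of_eq ?_
            field_simp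
  calc ((badF m a b Bad).card : ℝ)
      ≤ ∑ k ∈ Finset.Ico a b, (((Finset.powersetCard k (Finset.univ : Finset (Fin m))).biUnion
          fun S => Bad.biUnion fun v => Finset.univ.filter fun f => bd f S = v).card : ℝ) := by
        exact_mod_cast Finset.card_biUnion_le
    _ ≤ ∑ k ∈ Finset.Ico a b, (Bad.card * (1 / 4) ^ k * P ^ (3 * m) : ℝ) := Finset.sum_le_sum h1
    _ = Bad.card * (∑ k ∈ Finset.Ico a b, (1 / 4 : ℝ) ^ k) * P ^ (3 * m) := by
        rw [Finset.mul_sum, Finset.sum_mul]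
    _ ≤ _ := by
        gcongr
        exact geom_le a b hab

/-- A good choice of the entries. -/
theorem exists_entries {κ : ℕ} (hκ : 0 < κ) (hP0 : 0 < P) (hP : 256 * κ * m ^ 2 ≤ P ^ 3)
    (Bad : Finset (Fin 3 → Fin P → F2)) (hBad : 2 * Bad.card < 4 ^ κ) :
    ∃ f : Fin 3 → Fin m → Fin P,
      (∀ S : Finset (Fin m), κ ≤ S.card → S.card < 2 * κ → bd f S ∉ Bad) ∧
      ∀ S : Finset (Fin m), S.Nonempty → S.card ≤ 2 * κ → bd f S ≠ 0 := by
  by_contra hcon
  have hsub : (Finset.univ : Finset (Fin 3 → Fin m → Fin P)) ⊆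
      badF m κ (2 * κ) Bad ∪ badF m 1 (2 * κ + 1) {0} := by
    intro f _
    rw [Finset.mem_union]
    by_contra hf
    rw [not_or] at hf
    refine hcon ⟨f, fun S h1 h2 h3 => hf.1 (mem_badF h1 h2 h3), fun S h1 h2 h3 => hf.2 ?_⟩
    exact mem_badF (Finset.card_pos.2 h1) (by omega) (by rw [h3]; exact Finset.mem_singleton_self _)
  have h1 : ((P ^ (3 * m) : ℕ) : ℝ) ≤ ((badF m κ (2 * κ) Bad).card : ℝ) +
      ((badF m 1 (2 * κ + 1) ({0} : Finset (Fin 3 → Fin P → F2))).card : ℝ) := by
    have h2 := (Finset.card_le_card hsub).trans (Finset.card_union_le _ _)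
    have h3 : (Finset.univ : Finset (Fin 3 → Fin m → Fin P)).card = P ^ (3 * m) := by
      simp [mul_comm, pow_mul]
    rw [h3] at h2
    exact_mod_cast h2
  have h2 := badF_card hP (show κ ≤ 2 * κ by omega) (by omega) Bad
  have h3 := badF_card hP (show 1 ≤ 2 * κ + 1 by omega) le_rfl ({0} : Finset (Fin 3 → Fin P → F2))
  rw [Finset.card_singleton] at h3
  push_cast at h1 h3
  have hPP : (0 : ℝ) < (P : ℝ) ^ (3 * m) := by positivity
  have hB : (Bad.card : ℝ) * (4 / 3 * (1 / 4) ^ κ) < 2 / 3 := by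
    have h4 : (2 * Bad.card : ℝ) < 4 ^ κ := by exact_mod_cast hBad
    have h5 : (0 : ℝ) < 4 ^ κ := by positivity
    rw [one_div, inv_pow]
    have h6 : (Bad.card : ℝ) * (4 / 3 * (4 ^ κ)⁻¹) = (2 * Bad.card / 4 ^ κ) * (2 / 3) := by
      field_simp
      ring
    rw [h6]
    have h7 : (2 * Bad.card / 4 ^ κ : ℝ) < 1 := (div_lt_one h5).2 h4
    linarith
  nlinarith

end Pool.Agent.H5Sym
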