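import Pool.Agent.H5Sym.WalkFourier

/-!
# Random systems of equations with `k` entries per row
-/

set_option autoImplicit false

namespace Pool.Agent.H5Sym

open Module

variable {P m k : ℕ}

/-- the boundary of a set of rows: the parities of the `k` kinds of entries -/
def bdK (f : Fin k → Fin m → Fin P) (S : Finset (Fin m)) (c : Fin k) : Fin P → F2 :=
  ∑ j ∈ S, unit (f c j)

theorem bdK_card (S : Finset (Fin m)) (v : Fin k → Fin P → F2) :
    (Finset.univ.filter fun f : Fin k → Fin m → Fin P => bdK f S = v).card =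
      ∏ c, (walk S.card (v c) * P ^ (m - S.card)) := by
  classical
  have h : (Finset.univ.filter fun f : Fin k → Fin m → Fin P => bdK f S = v) =
      Fintype.piFinset fun c => Finset.univ.filter fun g : Fin m → Fin P =>
        ∑ j ∈ S, unit (g j) = v c := by
    ext f
    simp [funext_iff, bdK]
  rw [h, Fintype.card_piFinset]
  exact Finset.prod_congr rfl fun c _ => walk_card_set S (v c)

theorem bdK_le (S : Finset (Fin m)) (v : Fin k → Fin P → F2) (ν : ℝ)
    (hν : ∀ v : Fin P → F2, (walk S.card v : ℝ) ≤ ν * P ^ S.card) :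
    ((Finset.univ.filter fun f : Fin k → Fin m → Fin P => bdK f S = v).card : ℝ) ≤
      ν ^ k * P ^ (k * m) := by
  rw [bdK_card]
  push_cast
  have hm : S.card ≤ m := by simpa using Finset.card_le_univ S
  calc ∏ c, ((walk S.card (v c) : ℝ) * (P : ℝ) ^ (m - S.card))
      ≤ ∏ _c : Fin k, (ν * (P : ℝ) ^ m) := by
        refine Finset.prod_le_prod (fun c _ => by positivity) fun c _ => ?_
        calc (walk S.card (v c) : ℝ) * (P : ℝ) ^ (m - S.card) ≤
              ν * P ^ S.card * (P : ℝ) ^ (m - S.card) :=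
              mul_le_mul_of_nonneg_right (hν _) (by positivity)
          _ = ν * (P : ℝ) ^ m := by
              rw [mul_assoc, ← pow_add]
              congr 2
              omega
    _ = ν ^ k * P ^ (k * m) := by
        rw [Finset.prod_const, Finset.card_univ, Fintype.card_fin, mul_pow, ← pow_mul,
          mul_comm m k]

/-- the functions `f` for which some set of rows with size in `[a, b)` has its boundary in `Bad` -/
noncomputable def badK (m a b : ℕ) (Bad : Finset (Fin k → Fin P → F2)) :
    Finset (Fin k → Fin m → Fin P) :=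
  (Finset.Ico a b).biUnion fun w => (Finset.powersetCard w (Finset.univ : Finset (Fin m))).biUnion
    fun S => Bad.biUnion fun v => Finset.univ.filter fun f => bdK f S = v

theorem mem_badK {a b : ℕ} {Bad : Finset (Fin k → Fin P → F2)} {f : Fin k → Fin m → Fin P}
    {S : Finset (Fin m)} (h1 : a ≤ S.card) (h2 : S.card < b) (h3 : bdK f S ∈ Bad) :
    f ∈ badK m a b Bad := by
  simp only [badK, Finset.mem_biUnion, Finset.mem_Ico, Finset.mem_powersetCard, Finset.subset_univ,
    true_and, Finset.mem_filter, Finset.mem_univ]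
  exact ⟨S.card, ⟨h1, h2⟩, S, rfl, _, h3, rfl⟩

theorem badK_card {a b : ℕ} (ν : ℕ → ℝ)
    (hν : ∀ w < b, ∀ v : Fin P → F2, (walk w v : ℝ) ≤ ν w * P ^ w)
    (Bad : Finset (Fin k → Fin P → F2)) : ((badK m a b Bad).card : ℝ) ≤
      Bad.card * (∑ w ∈ Finset.Ico a b, m.choose w * ν w ^ k) * P ^ (k * m) := by
  have h1 : ∀ w ∈ Finset.Ico a b, (((Finset.powersetCard w (Finset.univ : Finset (Fin m))).biUnion
      fun S => Bad.biUnion fun v => Finset.univ.filter fun f => bdK f S = v).card : ℝ) ≤
        Bad.card * (m.choose w * ν w ^ k) * P ^ (k * m) := by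
    intro w hw
    rw [Finset.mem_Ico] at hw
    have h2 : ∀ S ∈ Finset.powersetCard w (Finset.univ : Finset (Fin m)),
        ((Bad.biUnion fun v => Finset.univ.filter fun f : Fin k → Fin m → Fin P =>
          bdK f S = v).card : ℝ) ≤ Bad.card * (ν w ^ k * P ^ (k * m)) := by
      intro S hS
      have hSk := (Finset.mem_powersetCard.1 hS).2
      calc ((Bad.biUnion fun v => Finset.univ.filter fun f : Fin k → Fin m → Fin P =>
          bdK f S = v).card : ℝ)
          ≤ ∑ v ∈ Bad, ((Finset.univ.filter fun f : Fin k → Fin m → Fin P =>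
              bdK f S = v).card : ℝ) := by exact_mod_cast Finset.card_biUnion_le
        _ ≤ ∑ _v ∈ Bad, (ν w ^ k * P ^ (k * m) : ℝ) := by
            refine Finset.sum_le_sum fun v _ => bdK_le S v (ν w) fun v => ?_
            rw [hSk]
            exact hν w hw.2 v
        _ = _ := by rw [Finset.sum_const, nsmul_eq_mul]
    calc (((Finset.powersetCard w (Finset.univ : Finset (Fin m))).biUnion
      fun S => Bad.biUnion fun v => Finset.univ.filter fun f => bdK f S = v).card : ℝ)
        ≤ ∑ S ∈ Finset.powersetCard w (Finset.univ : Finset (Fin m)),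
            ((Bad.biUnion fun v => Finset.univ.filter fun f : Fin k → Fin m → Fin P =>
              bdK f S = v).card : ℝ) := by exact_mod_cast Finset.card_biUnion_le
      _ ≤ ∑ _S ∈ Finset.powersetCard w (Finset.univ : Finset (Fin m)),
            (Bad.card * (ν w ^ k * P ^ (k * m)) : ℝ) := Finset.sum_le_sum h2
      _ = _ := by
          rw [Finset.sum_const, Finset.card_powersetCard, Finset.card_univ, Fintype.card_fin,
            nsmul_eq_mul]
          ring
  calc ((badK m a b Bad).card : ℝ)
      ≤ ∑ w ∈ Finset.Ico a b, (((Finset.powersetCard w (Finset.univ : Finset (Fin m))).biUnion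
          fun S => Bad.biUnion fun v => Finset.univ.filter fun f => bdK f S = v).card : ℝ) := by
        exact_mod_cast Finset.card_biUnion_le
    _ ≤ ∑ w ∈ Finset.Ico a b, (Bad.card * (m.choose w * ν w ^ k) * P ^ (k * m) : ℝ) :=
        Finset.sum_le_sum h1
    _ = _ := by rw [Finset.mul_sum, Finset.sum_mul]

/-- A good choice of the entries. -/
theorem exists_entriesK {κ : ℕ} (hP0 : 0 < P) (ν : ℕ → ℝ)
    (hν : ∀ w < 2 * κ, ∀ v : Fin P → F2, (walk w v : ℝ) ≤ ν w * P ^ w)
    (Bad : Finset (Fin k → Fin P → F2))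
    (hBad : Bad.card * (∑ w ∈ Finset.Ico κ (2 * κ), m.choose w * ν w ^ k) +
      (∑ w ∈ Finset.Ico 1 (2 * κ), m.choose w * ν w ^ k) < 1) :
    ∃ f : Fin k → Fin m → Fin P,
      (∀ S : Finset (Fin m), κ ≤ S.card → S.card < 2 * κ → bdK f S ∉ Bad) ∧
      ∀ S : Finset (Fin m), S.Nonempty → S.card < 2 * κ → bdK f S ≠ 0 := by
  by_contra hcon
  have hsub : (Finset.univ : Finset (Fin k → Fin m → Fin P)) ⊆
      badK m κ (2 * κ) Bad ∪ badK m 1 (2 * κ) {0} := by
    intro f _
    rw [Finset.mem_union]
    by_contra hf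
    rw [not_or] at hf
    refine hcon ⟨f, fun S h1 h2 h3 => hf.1 (mem_badK h1 h2 h3), fun S h1 h2 h3 => hf.2 ?_⟩
    exact mem_badK (Finset.card_pos.2 h1) h2 (by rw [h3]; exact Finset.mem_singleton_self _)
  have h1 : ((P ^ (k * m) : ℕ) : ℝ) ≤ ((badK m κ (2 * κ) Bad).card : ℝ) +
      ((badK m 1 (2 * κ) ({0} : Finset (Fin k → Fin P → F2))).card : ℝ) := by
    have h2 := (Finset.card_le_card hsub).trans (Finset.card_union_le _ _)
    have h3 : (Finset.univ : Finset (Fin k → Fin m → Fin P)).card = P ^ (k * m) := by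
      simp only [Finset.card_univ, Fintype.card_fun, Fintype.card_fin, ← pow_mul, mul_comm]
    rw [h3] at h2
    exact_mod_cast h2
  have h2 := badK_card (m := m) (a := κ) ν hν Bad
  have h3 := badK_card (m := m) (a := 1) ν hν ({0} : Finset (Fin k → Fin P → F2))
  rw [Finset.card_singleton] at h3
  push_cast at h1 h3
  have hPP : (0 : ℝ) < (P : ℝ) ^ (k * m) := by positivity
  have h4 : (P : ℝ) ^ (k * m) ≤ (Bad.card * (∑ w ∈ Finset.Ico κ (2 * κ), m.choose w * ν w ^ k) +
      (∑ w ∈ Finset.Ico 1 (2 * κ), m.choose w * ν w ^ k)) * P ^ (k * m) := by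
    calc (P : ℝ) ^ (k * m) ≤ _ := h1
      _ ≤ _ := add_le_add h2 h3
      _ = _ := by ring
  have h5 := mul_lt_mul_of_pos_right hBad hPP
  rw [one_mul] at h5
  exact absurd h4 (not_le.2 h5)

end Pool.Agent.H5Sym
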