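import Pool.Agent.H5Sym.TwoSatMain

/-!
# Exact counting for monotone 2-CNF formulas needs exponentially large symmetric circuits

We consider circuits of arbitrary depth and fan-in whose gates compute arbitrary symmetric functions
(more generally, arbitrary functions of the multiset of the labelled values on the incoming wires; the
values lie in an arbitrary set). The input is a monotone 2-CNF formula with the variables `X`, given by
the indicator function of its set of clauses `p ∨ q`. Suppose that such a circuit computes (or only
determines) the number of satisfying assignments, and that `X` contains `B` disjoint blocks of four
variables such that the circuit is invariant under the action of the Klein four-group on each of them.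
Then it has at least `12 ^ (B / 24) / (B + 1) ^ 3` gates. For `B = n / 4` this is exponential in the
number `n` of variables, and circuits of polynomial size have such symmetries only for `O (log n)`
blocks. Brute force gives circuits with `2 ^ n + n ^ 2 + 1` gates, which are invariant under all
permutations of the variables.

Proof idea. The formulas are graphs `G (σ, w)`: for a random bipartite cubic graph `σ` with coloured
edges, every edge `e` of colour `c` carries the condition `ell c a + ell c b = w e` for the elements `a`,
`b` of the two blocks. The translations act on the parameters `w`. A gate with a small orbit depends, by
induction on the level, only on few linear functionals of `w`: those of small weight whose boundary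
vanishes on the stabiliser of the gate. This needs that no functional of medium weight has this
property, which holds for a random `σ`, as a circuit with `s` gates has at most `s` functionals on the
group that vanish on the stabiliser of a gate. So the output does not depend on the sum of all
coordinates of `w`; but the number of satisfying assignments does.
-/

set_option autoImplicit false

namespace Pool.Agent.H5Sym.SymResult

open Pool.Agent.H5Sym Equiv

universe u w

/-- **Theorem.** (1) Let `C` be a circuit with values in any set `D` whose gates compute arbitrary
functions of the multiset of the labelled values of their wires, and whose input is (the indicator
function of the set of clauses of) a monotone 2-CNF formula with the variables `X`. Let `e` be an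
embedding of `β × K4` into `X`, that is, `B = |β|` disjoint blocks of four variables. Suppose that `C`
is invariant under the permutations of `X` induced by the translations `(i, a) ↦ (i, a + v i)` of the
blocks, and that the value of its output gate determines the number of satisfying assignments of every
such formula whose graph is bipartite and has maximum degree at most six. Then `C` has at least
`12 ^ (B / 24) / (B + 1) ^ 3` gates.
(2) For every finite set `X` of variables there is such a circuit with `2 ^ |X| + |X| ^ 2 + 1` gates that
computes the number of satisfying assignments of all monotone 2-CNF formulas and is invariant under all
permutations of the variables. -/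
theorem result :
    (∀ (β X : Type) [Finite X] (e : β × K4 ↪ X) (D : Type u) (C : Circuit.{0, u, w} (X × X) D)
      [Finite C.Gate] (inp : Bool → D) (dec : D → ℕ),
      (∀ v : β → K4, C.Invariant (pairPerm ((blockShift v).viaEmbedding e))) →
      (∀ x, Bipartite6 x → dec (C.eval (inp ∘ x) C.out) = numSat x) →
      12 ^ (Nat.card β / 24) ≤ Nat.card C.Gate * (Nat.card β + 1) ^ 3) ∧
    ∀ (X : Type) [Finite X], ∃ C : Circuit.{0, 0, 0} (X × X) ℕ, Finite C.Gate ∧
      Nat.card C.Gate = 2 ^ Nat.card X + Nat.card X ^ 2 + 1 ∧
      (∀ τ : Perm X, C.Invariant (pairPerm τ)) ∧
      ∀ x : X × X → Bool, C.eval (fun t => if x t then 1 else 0) C.out = numSat x := by
  refine ⟨fun β X _ e D C _ inp dec h1 h2 => lower e C inp dec h1 h2, fun X _ => ?_⟩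
  classical
  have : Fintype X := Fintype.ofFinite X
  exact ⟨brute X, brute_finite X, brute_card X, brute_inv X, brute_eval X⟩

end Pool.Agent.H5Sym.SymResult
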