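import Pool.Agent.H5Sym.Graph

/-!
# Monotone 2-CNF formulas: the number of satisfying assignments distinguishes the graphs
-/

set_option autoImplicit false

namespace Pool.Agent.H5Sym

open Module Equiv

variable {P : ℕ} {β : Type*} {X : Type*}

/-- the assignments of the vertices of the blocks that satisfy the formula of the parameters `w` -/
def Sat (ι : Bool × Fin P ↪ β) (σ : Fin 3 → Perm (Fin P)) (w : Fin 3 × Fin P → F2)
    (a : β × K4 → Bool) : Prop :=
  ∀ p q, Adj ι σ w p q → a p = true ∨ a q = true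

/-- in a satisfying assignment of the graph with parameters `1 + w`, false vertices of adjacent blocks
satisfy the linear equation -/
theorem Sat.eq {ι : Bool × Fin P ↪ β} {σ : Fin 3 → Perm (Fin P)} {w : Fin 3 × Fin P → F2}
    {a : β × K4 → Bool} (h : Sat ι σ (1 + w) a) {c : Fin 3} {i : Fin P} {k k' : K4}
    (h1 : a (ι (false, i), k) = false) (h2 : a (ι (true, σ c i), k') = false) :
    ell c k + ell c k' = w (c, i) := by
  by_contra hne
  have h3 : Adj ι σ (1 + w) (ι (false, i), k) (ι (true, σ c i), k') := by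
    refine ⟨c, i, ?_, Or.inl ⟨rfl, rfl⟩⟩
    rw [Pi.add_apply, Pi.one_apply]
    generalize ell c k + ell c k' = x at hne ⊢
    generalize w (c, i) = y at hne ⊢
    revert x y
    decide
  have := h _ _ h3
  rw [h1, h2] at this
  simp at this

theorem sat_of_eq {ι : Bool × Fin P ↪ β} {σ : Fin 3 → Perm (Fin P)} {w : Fin 3 × Fin P → F2}
    {a : β × K4 → Bool} (h : ∀ c i k k', a (ι (false, i), k) = false →
      a (ι (true, σ c i), k') = false → ell c k + ell c k' = w (c, i)) :
    Sat ι σ (1 + w) a := by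
  have key : ∀ p q : β × K4, ∀ c i, ell c p.2 + ell c q.2 = (1 + w) (c, i) → p.1 = ι (false, i) →
      q.1 = ι (true, σ c i) → a p = true ∨ a q = true := by
    rintro ⟨p, k⟩ ⟨q, k'⟩ c i h1 h2 h3
    dsimp only at h1 h2 h3
    subst h2 h3
    by_contra hcon
    rw [not_or, Bool.not_eq_true, Bool.not_eq_true] at hcon
    have h4 := h c i k k' hcon.1 hcon.2
    rw [h4, Pi.add_apply, Pi.one_apply] at h1
    exact one_ne_zero (right_eq_add.1 h1)
  intro p q hpq
  obtain ⟨c, i, h1, h2 | h2⟩ := hpq
  · exact key p q c i h1 h2.1 h2.2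
  · exact (key q p c i (by rw [add_comm]; exact h1) h2.2 h2.1).symm

theorem card_sat_lt [Finite β] (ι : Bool × Fin P ↪ β) (σ : Fin 3 → Perm (Fin P))
    (d : Fin 3 × Fin P → F2) (hd : ∑ e, d e = 1) :
    Nat.card {a // Sat ι σ (1 + d) a} < Nat.card {a // Sat ι σ 1 a} := by
  classical
  -- the pattern of an assignment
  let pat : (β × K4 → Bool) → β → Prop := fun a i => ∃ k, a (i, k) = false
  have hs : ∀ Y : β → Prop, ∃ s : β → K4, ∀ a₀, Sat ι σ (1 + d) a₀ → pat a₀ = Y →
      ∀ c i, Y (ι (false, i)) → Y (ι (true, σ c i)) →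
        ell c (s (ι (false, i))) + ell c (s (ι (true, σ c i))) = d (c, i) := by
    intro Y
    by_cases h : ∃ a, Sat ι σ (1 + d) a ∧ pat a = Y
    · obtain ⟨a, h1, h2⟩ := h
      refine ⟨fun i => if hi : Y i then (by rw [← h2] at hi; exact hi.choose) else 0, ?_⟩
      intro _ _ _ c i h3 h4
      dsimp only
      rw [dif_pos h3, dif_pos h4]
      subst h2
      exact h1.eq h3.choose_spec h4.choose_spec
    · exact ⟨0, fun a₀ h1 h2 => absurd ⟨a₀, h1, h2⟩ h⟩
  choose s hs using hs
  let f : (β × K4 → Bool) → β × K4 → Bool := fun a p => a (p.1, p.2 + s (pat a) p.1)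
  have hpat : ∀ a, pat (f a) = pat a := by
    intro a
    funext i
    refine propext ⟨?_, ?_⟩
    · rintro ⟨k, hk⟩
      exact ⟨_, hk⟩
    · rintro ⟨k, hk⟩
      refine ⟨k + s (pat a) i, ?_⟩
      simp only [f]
      rw [add_assoc, add_self_mod, add_zero]
      exact hk
  have hf : ∀ a, Sat ι σ (1 + d) a → Sat ι σ 1 (f a) := by
    intro a ha
    have h1 : (1 : Fin 3 × Fin P → F2) = 1 + 0 := (add_zero _).symm
    rw [h1]
    refine sat_of_eq fun c i k k' h2 h3 => ?_
    simp only [f] at h2 h3
    have h4 := ha.eq h2 h3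
    have h5 := hs (pat a) a ha rfl c i ⟨_, h2⟩ ⟨_, h3⟩
    rw [ell_add, ell_add] at h4
    rw [Pi.zero_apply]
    have h6 : ell c k + ell c k' + (ell c (s (pat a) (ι (false, i))) +
        ell c (s (pat a) (ι (true, σ c i)))) = d (c, i) := by
      rw [← h4]; ring
    rw [h5] at h6
    exact add_eq_right.1 h6
  have hinj : Function.Injective f := by
    intro a b hab
    have h1 : pat a = pat b := by rw [← hpat a, ← hpat b, hab]
    funext ⟨i, k⟩
    have h2 := congrFun hab (i, k + s (pat a) i)
    simp only [f] at h2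
    rw [← h1] at h2
    rwa [add_assoc, add_self_mod, add_zero] at h2
  let F : {a // Sat ι σ (1 + d) a} → {a // Sat ι σ 1 a} := fun a => ⟨f a.1, hf a.1 a.2⟩
  have hF : Function.Injective F := fun a b h => Subtype.ext (hinj (congrArg Subtype.val h))
  have hnot : ¬ Function.Surjective F := by
    intro hsurj
    let a₀ : β × K4 → Bool := fun p => decide (p.2 ≠ 0)
    have ha₀ : Sat ι σ 1 a₀ := by
      have h1 : (1 : Fin 3 × Fin P → F2) = 1 + 0 := (add_zero _).symm
      rw [h1]
      refine sat_of_eq fun c i k k' h2 h3 => ?_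
      have h4 : k = 0 := by simpa [a₀] using h2
      have h5 : k' = 0 := by simpa [a₀] using h3
      rw [h4, h5, ell_zero, add_zero, Pi.zero_apply]
    obtain ⟨⟨a, ha⟩, h2⟩ := hsurj ⟨a₀, ha₀⟩
    have h3 : f a = a₀ := congrArg Subtype.val h2
    have h4 : ∀ i, pat a i := by
      intro i
      rw [← hpat a, h3]
      exact ⟨0, by simp [a₀]⟩
    choose t ht using h4
    have h5 : ∀ c i, ell c (t (ι (false, i))) + ell c (t (ι (true, σ c i))) = d (c, i) :=
      fun c i => ha.eq (ht _) (ht _)
    have h6 : ∑ e, d e = 0 := by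
      rw [← Finset.univ_product_univ, Finset.sum_product]
      simp only [← h5, Finset.sum_add_distrib]
      have h7 : ∀ c, ∑ i, ell c (t (ι (true, σ c i))) = ∑ i, ell c (t (ι (true, i))) := fun c =>
        Equiv.sum_comp (σ c) fun i => ell c (t (ι (true, i)))
      simp only [h7]
      rw [Finset.sum_comm, Finset.sum_comm (s := Finset.univ (α := Fin 3))]
      simp only [Fin.sum_univ_three, ell_sum, Finset.sum_const_zero, add_zero]
    rw [h6] at hd
    exact zero_ne_one hd
  have : Fintype β := Fintype.ofFinite β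
  rw [Nat.card_eq_fintype_card, Nat.card_eq_fintype_card]
  exact Fintype.card_lt_of_injective_not_surjective F hF hnot

/-- assignments of `X` are pairs of assignments of the blocks and of the rest -/
theorem numSat_mat [Finite X] (e : β × K4 ↪ X) (ι : Bool × Fin P ↪ β) (σ : Fin 3 → Perm (Fin P))
    (w : Fin 3 × Fin P → F2) :
    numSat (mat e ι σ w) =
      Nat.card {a // Sat ι σ w a} * Nat.card ({x // x ∉ Set.range e} → Bool) := by
  classical
  let E : (X → Bool) ≃ (β × K4 → Bool) × ({x // x ∉ Set.range e} → Bool) :=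
    (Equiv.piEquivPiSubtypeProd (fun x => x ∈ Set.range e) fun _ => Bool).trans
      (Equiv.prodCongr (Equiv.arrowCongr (Equiv.ofInjective e e.injective).symm (Equiv.refl Bool))
        (Equiv.refl _))
  have hE : ∀ a p, (E a).1 p = a (e p) := fun a p => rfl
  rw [numSat, ← Nat.card_prod]
  refine Nat.card_congr ((E.subtypeEquiv (q := fun s => Sat ι σ w s.1) fun a => ?_).trans
    (Equiv.prodSubtypeFstEquivSubtypeProd (p := Sat ι σ w)))
  constructor
  · intro h p q hpq
    rw [hE, hE]
    exact h (e p) (e q) (mat_true.2 (adjOn_e.2 hpq))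
  · intro h x y hxy
    obtain ⟨p, q, rfl, rfl, hpq⟩ := mat_true.1 hxy
    have := h p q hpq
    rwa [hE, hE] at this

theorem numSat_lt [Finite X] (e : β × K4 ↪ X) (ι : Bool × Fin P ↪ β) (σ : Fin 3 → Perm (Fin P))
    (d : Fin 3 × Fin P → F2) (hd : ∑ e, d e = 1) :
    numSat (mat e ι σ (1 + d)) < numSat (mat e ι σ 1) := by
  have : Finite (β × K4) := Finite.of_injective e e.injective
  have : Finite β := Finite.of_surjective (Prod.fst : β × K4 → β) Prod.fst_surjective
  rw [numSat_mat, numSat_mat]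
  exact Nat.mul_lt_mul_of_pos_right (card_sat_lt ι σ d hd) Nat.card_pos

end Pool.Agent.H5Sym
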