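import Pool.Agent.H5Sym.Walk

/-!
# The number of words with given parities: Fourier analysis
-/

set_option autoImplicit false

namespace Pool.Agent.H5Sym

variable {P : ℕ}

/-- the character of the set `T` -/
def chr (T : Finset (Fin P)) (v : Fin P → F2) : ℝ := ∏ i ∈ T, if v i = 0 then 1 else -1

theorem chr_add (T : Finset (Fin P)) (u v : Fin P → F2) : chr T (u + v) = chr T u * chr T v := by
  rw [chr, chr, chr, ← Finset.prod_mul_distrib]
  refine Finset.prod_congr rfl fun i _ => ?_
  rw [Pi.add_apply]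
  rcases F2.cases (u i) with hu | hu <;> rcases F2.cases (v i) with hv | hv <;> rw [hu, hv]
  · simp
  · simp
  · simp
  · have : (1 : F2) + 1 = 0 := rfl
    rw [this]
    simp

theorem chr_unit (T : Finset (Fin P)) (i : Fin P) : chr T (unit i) = if i ∈ T then -1 else 1 := by
  rw [chr]
  by_cases h : i ∈ T
  · rw [if_pos h, ← Finset.mul_prod_erase T _ h, unit_self, if_neg one_ne_zero,
      Finset.prod_eq_one, mul_one]
    intro j hj
    rw [unit_ne (Finset.ne_of_mem_erase hj), if_pos rfl]
  · rw [if_neg h]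
    refine Finset.prod_eq_one fun j hj => ?_
    rw [unit_ne (fun h' : j = i => h (h' ▸ hj)), if_pos rfl]

theorem sum_chr_unit (T : Finset (Fin P)) : ∑ i, chr T (unit i) = P - 2 * T.card := by
  simp only [chr_unit]
  rw [Finset.sum_ite]
  simp only [Finset.sum_neg_distrib, Finset.sum_const, nsmul_eq_mul, mul_one]
  have h1 : (Finset.univ.filter fun i => i ∈ T) = T := by ext; simp
  have h2 : (Finset.univ.filter fun i : Fin P => ¬ i ∈ T).card = P - T.card := by
    have := Finset.card_filter_add_card_filter_not (s := (Finset.univ : Finset (Fin P)))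
      (fun i => i ∈ T)
    rw [h1, Finset.card_univ, Fintype.card_fin] at this
    omega
  rw [h1, h2, Nat.cast_sub (by simpa using Finset.card_le_univ T)]
  ring

theorem sum_chr (v : Fin P → F2) :
    ∑ T : Finset (Fin P), chr T v = if v = 0 then 2 ^ P else 0 := by
  have h1 : ∑ T : Finset (Fin P), chr T v = ∏ i : Fin P, ((if v i = 0 then 1 else -1) + 1) := by
    rw [Finset.prod_add]
    simp only [Finset.prod_const_one, mul_one, Finset.powerset_univ]
    rfl
  rw [h1]
  split_ifs with h
  · subst h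
    simp only [Pi.zero_apply, if_true]
    rw [Finset.prod_const, Finset.card_univ, Fintype.card_fin]
    norm_num
  · have : ∃ i, v i ≠ 0 := by
      by_contra hcon
      push Not at hcon
      exact h (funext hcon)
    obtain ⟨i, hi⟩ := this
    refine Finset.prod_eq_zero (Finset.mem_univ i) ?_
    rw [if_neg hi]
    norm_num

theorem walk_fourier (w : ℕ) (v : Fin P → F2) :
    (2 : ℝ) ^ P * walk w v = ∑ T : Finset (Fin P), chr T v * (P - 2 * T.card) ^ w := by
  induction w generalizing v with
  | zero =>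
    simp only [pow_zero, mul_one]
    rw [sum_chr, walk]
    split_ifs <;> simp
  | succ w ih =>
    rw [walk]
    push_cast
    rw [Finset.mul_sum]
    simp only [ih, chr_add]
    rw [Finset.sum_comm]
    refine Finset.sum_congr rfl fun T _ => ?_
    have h1 : ∀ i, chr T v * chr T (unit i) * ((P : ℝ) - 2 * T.card) ^ w =
        chr T v * ((P : ℝ) - 2 * T.card) ^ w * chr T (unit i) := fun i => by ring
    simp only [h1]
    rw [← Finset.mul_sum, sum_chr_unit, pow_succ]
    ring

/-- the return probability -/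
noncomputable def mu (P w : ℕ) : ℝ :=
  (1 / 2) ^ P * ∑ T : Finset (Fin P), |1 - 2 * (T.card : ℝ) / P| ^ w

theorem abs_le_one (hP : 0 < P) (T : Finset (Fin P)) : |1 - 2 * (T.card : ℝ) / P| ≤ 1 := by
  have h1 : (T.card : ℝ) ≤ P := by
    have := Finset.card_le_univ T
    rw [Fintype.card_fin] at this
    exact_mod_cast this
  have h2 : (0 : ℝ) < P := by exact_mod_cast hP
  have h3 : (T.card : ℝ) / P ≤ 1 := (div_le_one h2).2 h1
  have h4 : (0 : ℝ) ≤ (T.card : ℝ) / P := by positivity
  rw [abs_le]
  have h5 : 2 * (T.card : ℝ) / P = 2 * ((T.card : ℝ) / P) := by ring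
  rw [h5]
  constructor <;> linarith

theorem mu_nonneg (P w : ℕ) : 0 ≤ mu P w := by
  rw [mu]
  positivity

theorem mu_anti (hP : 0 < P) {w w' : ℕ} (h : w ≤ w') : mu P w' ≤ mu P w := by
  rw [mu, mu]
  refine mul_le_mul_of_nonneg_left (Finset.sum_le_sum fun T _ => ?_) (by positivity)
  exact pow_le_pow_of_le_one (abs_nonneg _) (abs_le_one hP T) h

theorem walk_le_mu (hP : 0 < P) (w : ℕ) (v : Fin P → F2) : (walk w v : ℝ) ≤ mu P w * P ^ w := by
  have h1 := walk_fourier w v
  have h2 : (0 : ℝ) < P := by exact_mod_cast hP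
  have h3 : (walk w v : ℝ) = (1 / 2) ^ P * ∑ T : Finset (Fin P), chr T v * (P - 2 * T.card) ^ w := by
    rw [← h1]
    rw [← mul_assoc, ← mul_pow]
    norm_num
  rw [h3, mu, mul_assoc, Finset.sum_mul]
  refine mul_le_mul_of_nonneg_left (Finset.sum_le_sum fun T _ => ?_) (by positivity)
  have h4 : |chr T v| = 1 := by
    rw [chr, Finset.abs_prod]
    refine Finset.prod_eq_one fun i _ => ?_
    split_ifs <;> simp
  calc chr T v * ((P : ℝ) - 2 * T.card) ^ w ≤ |chr T v * ((P : ℝ) - 2 * T.card) ^ w| := le_abs_self _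
    _ = |((P : ℝ) - 2 * T.card)| ^ w := by rw [abs_mul, h4, one_mul, abs_pow]
    _ = |1 - 2 * (T.card : ℝ) / P| ^ w * P ^ w := by
        rw [← mul_pow]
        congr 1
        rw [← abs_of_pos h2, ← abs_mul, abs_of_pos h2]
        congr 1
        field_simp

theorem mu_le (hP : 0 < P) (w : ℕ) :
    mu P w ≤ 2 * ((1 + Real.exp (-(2 * w / P))) / 2) ^ P := by
  have h2 : (0 : ℝ) < P := by exact_mod_cast hP
  have h3 : ∀ T : Finset (Fin P), |1 - 2 * (T.card : ℝ) / P| ^ w ≤
      Real.exp (-(2 * w / P)) ^ T.card + Real.exp (-(2 * w / P)) ^ Tᶜ.card := by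
    intro T
    have hc : (Tᶜ.card : ℝ) = P - T.card := by
      rw [Finset.card_compl, Fintype.card_fin, Nat.cast_sub (by simpa using Finset.card_le_univ T)]
    have key : ∀ t : ℕ, 0 ≤ 1 - 2 * (t : ℝ) / P → (1 - 2 * (t : ℝ) / P) ^ w ≤
        Real.exp (-(2 * w / P)) ^ t := by
      intro t ht
      calc (1 - 2 * (t : ℝ) / P) ^ w ≤ Real.exp (-(2 * t / P)) ^ w := by
            gcongr
            have := Real.add_one_le_exp (-(2 * (t : ℝ) / P))
            linarith
        _ = Real.exp (-(2 * w / P)) ^ t := by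
            rw [← Real.exp_nat_mul, ← Real.exp_nat_mul]
            congr 1
            ring
    rcases le_total 0 (1 - 2 * (T.card : ℝ) / P) with h | h
    · rw [abs_of_nonneg h]
      have := key T.card h
      have h4 : (0 : ℝ) ≤ Real.exp (-(2 * w / P)) ^ Tᶜ.card := by positivity
      linarith
    · have h5 : -(1 - 2 * (T.card : ℝ) / P) = 1 - 2 * (Tᶜ.card : ℝ) / P := by
        rw [hc]
        field_simp
        ring
      rw [abs_of_nonpos h, h5]
      have := key Tᶜ.card (by rw [← h5]; linarith)
      have h4 : (0 : ℝ) ≤ Real.exp (-(2 * w / P)) ^ T.card := by positivity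
      linarith
  have h6 : ∑ T : Finset (Fin P), Real.exp (-(2 * w / P)) ^ T.card =
      (1 + Real.exp (-(2 * w / P))) ^ P := by
    have := Finset.prod_add (fun _ : Fin P => Real.exp (-(2 * w / P))) (fun _ => (1 : ℝ))
      Finset.univ
    simp only [Finset.prod_const, Finset.card_univ, Fintype.card_fin, one_pow, mul_one,
      Finset.powerset_univ] at this
    rw [← this, add_comm]
  have h7 : ∑ T : Finset (Fin P), Real.exp (-(2 * w / P)) ^ Tᶜ.card =
      (1 + Real.exp (-(2 * w / P))) ^ P := by
    rw [← h6]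
    exact Fintype.sum_equiv (Equiv.ofBijective (fun T : Finset (Fin P) => Tᶜ) compl_bijective) _ _
      fun T => rfl
  calc mu P w ≤ (1 / 2) ^ P * ∑ T : Finset (Fin P), (Real.exp (-(2 * w / P)) ^ T.card +
        Real.exp (-(2 * w / P)) ^ Tᶜ.card) := by
        rw [mu]
        exact mul_le_mul_of_nonneg_left (Finset.sum_le_sum fun T _ => h3 T) (by positivity)
    _ = _ := by
        rw [Finset.sum_add_distrib, h6, h7, div_pow, div_pow, one_pow]
        ring

end Pool.Agent.H5Sym
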